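import Mathlib

/-!
# Reduction of the points of a Weierstrass equation with integral coefficients
-/

set_option autoImplicit false
set_option linter.all false

open WeierstrassCurve WeierstrassCurve.Affine
open scoped NNReal Classical

namespace Pool.Agent.K4H53.BSD

/-- the curve over the ring `R` -/
abbrev bs (W : WeierstrassCurve ℤ) (R : Type) [CommRing R] : WeierstrassCurve R :=
  W.map (Int.castRingHom R)

section rm

variable {Ω k : Type} [Field Ω] [Field k]

/-- a residue map -/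
structure RM (w : Valuation Ω ℝ≥0) (r : Ω → k) : Prop where
  add : ∀ {x y}, w x ≤ 1 → w y ≤ 1 → r (x + y) = r x + r y
  mul : ∀ {x y}, w x ≤ 1 → w y ≤ 1 → r (x * y) = r x * r y
  one : r 1 = 1
  zero_iff : ∀ {x}, w x ≤ 1 → (r x = 0 ↔ w x < 1)

variable {w : Valuation Ω ℝ≥0} {r : Ω → k}

theorem w_add {x y : Ω} {c : ℝ≥0} (hx : w x ≤ c) (hy : w y ≤ c) : w (x + y) ≤ c :=
  (Valuation.map_add _ _ _).trans (max_le hx hy)

theorem w_sub {x y : Ω} {c : ℝ≥0} (hx : w x ≤ c) (hy : w y ≤ c) : w (x - y) ≤ c :=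
  (Valuation.map_sub _ _ _).trans (max_le hx hy)

theorem w_mul {x y : Ω} (hx : w x ≤ 1) (hy : w y ≤ 1) : w (x * y) ≤ 1 := by
  rw [map_mul]; exact mul_le_one' hx hy

theorem w_pow {x : Ω} (hx : w x ≤ 1) (n : ℕ) : w (x ^ n) ≤ 1 := by
  rw [map_pow]; exact pow_le_one₀ zero_le hx

theorem w_int (w : Valuation Ω ℝ≥0) (n : ℤ) : w (n : Ω) ≤ 1 := by
  have h : (n : Ω) ∈ w.valuationSubring := intCast_mem _ n
  exact h

theorem w_nat (w : Valuation Ω ℝ≥0) (n : ℕ) : w (n : Ω) ≤ 1 := by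
  have h : (n : Ω) ∈ w.valuationSubring := natCast_mem _ n
  exact h

theorem w_two (w : Valuation Ω ℝ≥0) : w (2 : Ω) ≤ 1 := by exact_mod_cast w_nat w 2
theorem w_three (w : Valuation Ω ℝ≥0) : w (3 : Ω) ≤ 1 := by exact_mod_cast w_nat w 3

theorem w_neg {x : Ω} (hx : w x ≤ 1) : w (-x) ≤ 1 := by rw [Valuation.map_neg]; exact hx

theorem w_div {x y : Ω} (hx : w x ≤ 1) (hy : w y = 1) : w (x / y) ≤ 1 := by
  rw [map_div₀, hy, div_one]; exact hx

namespace RM

variable (h : RM w r)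
include h

theorem zero : r 0 = 0 := (h.zero_iff (by rw [map_zero]; exact zero_le)).2 (by rw [map_zero]; exact zero_lt_one)

theorem neg {x : Ω} (hx : w x ≤ 1) : r (-x) = - r x := by
  have h1 := h.add hx (w_neg hx)
  rw [add_neg_cancel, h.zero] at h1
  linear_combination -h1

theorem sub {x y : Ω} (hx : w x ≤ 1) (hy : w y ≤ 1) : r (x - y) = r x - r y := by
  rw [sub_eq_add_neg, h.add hx (w_neg hy), h.neg hy, sub_eq_add_neg]

theorem pow {x : Ω} (hx : w x ≤ 1) (n : ℕ) : r (x ^ n) = r x ^ n := by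
  induction n with
  | zero => rw [pow_zero, pow_zero, h.one]
  | succ n ih => rw [pow_succ, pow_succ, h.mul (w_pow hx n) hx, ih]

theorem nat (n : ℕ) : r (n : Ω) = n := by
  induction n with
  | zero => rw [Nat.cast_zero, Nat.cast_zero, h.zero]
  | succ n ih =>
    rw [Nat.cast_succ, Nat.cast_succ, h.add (w_nat w n) (by rw [map_one]), ih, h.one]

theorem int (n : ℤ) : r (n : Ω) = n := by
  rcases Int.eq_nat_or_neg n with ⟨m, rfl | rfl⟩
  · rw [Int.cast_natCast, Int.cast_natCast, h.nat]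
  · rw [Int.cast_neg, Int.cast_neg, Int.cast_natCast, Int.cast_natCast, h.neg (w_nat w m), h.nat]

theorem two : r 2 = 2 := by exact_mod_cast h.nat 2
theorem three : r 3 = 3 := by exact_mod_cast h.nat 3

theorem eq_iff {x y : Ω} (hx : w x ≤ 1) (hy : w y ≤ 1) : r x = r y ↔ w (x - y) < 1 := by
  rw [← h.zero_iff (w_sub hx hy), h.sub hx hy, sub_eq_zero]

theorem ne_zero {x : Ω} (hx : w x ≤ 1) : r x ≠ 0 ↔ w x = 1 := by
  rw [Ne, h.zero_iff hx, not_lt]
  exact ⟨fun h1 => le_antisymm hx h1, fun h1 => h1.ge⟩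

theorem div {x y : Ω} (hx : w x ≤ 1) (hy : w y = 1) : r (x / y) = r x / r y := by
  have hy0 : y ≠ 0 := by rintro rfl; rw [map_zero] at hy; exact zero_ne_one hy
  have hry : r y ≠ 0 := (h.ne_zero hy.le).2 hy
  rw [eq_div_iff hry, ← h.mul (w_div hx hy) hy.le, div_mul_cancel₀ _ hy0]

end RM

end rm

section red

variable {Ω k : Type} [Field Ω] [Field k] {w : Valuation Ω ℝ≥0} {r : Ω → k}

/-- the point reduces to the point `Q` -/
def Rd (w : Valuation Ω ℝ≥0) (r : Ω → k) (W : WeierstrassCurve ℤ) :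
    (bs W Ω).toAffine.Point → (bs W k).toAffine.Point → Prop
  | .zero, .zero => True
  | .zero, .some _ _ _ => False
  | .some x _ _, .zero => 1 < w x
  | .some x y _, .some x' y' _ => w x ≤ 1 ∧ w y ≤ 1 ∧ r x = x' ∧ r y = y'

variable {W : WeierstrassCurve ℤ}

theorem a1 (F : Type) [Field F] : (bs W F).toAffine.a₁ = (W.a₁ : F) := by
  simp [bs]
theorem a2 (F : Type) [Field F] : (bs W F).toAffine.a₂ = (W.a₂ : F) := by
  simp [bs]
theorem a3 (F : Type) [Field F] : (bs W F).toAffine.a₃ = (W.a₃ : F) := by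
  simp [bs]
theorem a4 (F : Type) [Field F] : (bs W F).toAffine.a₄ = (W.a₄ : F) := by
  simp [bs]
theorem a6 (F : Type) [Field F] : (bs W F).toAffine.a₆ = (W.a₆ : F) := by
  simp [bs]

theorem eqn {F : Type} [Field F] {x y : F} (h : (bs W F).toAffine.Equation x y) :
    y ^ 2 + W.a₁ * x * y + W.a₃ * y = x ^ 3 + W.a₂ * x ^ 2 + W.a₄ * x + W.a₆ := by
  rw [Affine.equation_iff, a1, a2, a3, a4, a6] at h
  exact h

theorem negY_eq {F : Type} [Field F] (x y : F) : (bs W F).toAffine.negY x y = -y - W.a₁ * x - W.a₃ := by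
  rw [Affine.negY, a1, a3]

theorem nonsing_iff {F : Type} [Field F] {x y : F} : (bs W F).toAffine.Nonsingular x y ↔
    (bs W F).toAffine.Equation x y ∧ ((W.a₁ : F) * y ≠ 3 * x ^ 2 + 2 * W.a₂ * x + W.a₄ ∨
      2 * y + W.a₁ * x + W.a₃ ≠ 0) := by
  rw [Affine.nonsingular_iff, a1, a2, a3, a4]
  constructor
  · rintro ⟨h1, h2⟩
    refine ⟨h1, h2.imp id fun h3 h4 => h3 ?_⟩
    linear_combination h4
  · rintro ⟨h1, h2⟩
    refine ⟨h1, h2.imp id fun h3 h4 => h3 ?_⟩
    linear_combination h4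

/-- the second coordinate is integral -/
theorem w_y {x y : Ω} (h : (bs W Ω).toAffine.Equation x y) (hx : w x ≤ 1) : w y ≤ 1 := by
  by_contra hcon
  rw [not_le] at hcon
  have e : y ^ 2 = x ^ 3 + W.a₂ * x ^ 2 + W.a₄ * x + W.a₆ - (W.a₁ * x + W.a₃) * y := by
    linear_combination eqn h
  have h1 : w (y ^ 2) ≤ w y := by
    rw [e]
    refine w_sub ((w_add (w_add (w_add (w_pow hx 3) (w_mul (w_int w _) (w_pow hx 2)))
      (w_mul (w_int w _) hx)) (w_int w _)).trans hcon.le) ?_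
    rw [map_mul]
    exact mul_le_of_le_one_left' (w_add (w_mul (w_int w _) hx) (w_int w _))
  rw [map_pow] at h1
  have h2 : w y * 1 < w y * w y := mul_lt_mul_of_pos_left hcon (zero_lt_one.trans hcon)
  rw [mul_one, ← pow_two] at h2
  exact absurd h1 (not_le.2 h2)

/-- the size of the second coordinate -/
theorem w_y_big {x y : Ω} (h : (bs W Ω).toAffine.Equation x y) (hx : 1 < w x) :
    w y ^ 2 = w x ^ 3 := by
  have e0 := eqn h
  have hx0 : 0 < w x := zero_lt_one.trans hx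
  have hx12 : w x ≤ w x ^ 2 := by
    calc w x = w x ^ 1 := (pow_one _).symm
      _ ≤ w x ^ 2 := pow_le_pow_right₀ hx.le (by norm_num)
  have hx23 : w x ^ 2 < w x ^ 3 := pow_lt_pow_right₀ hx (by norm_num)
  have h3 : w (x ^ 3 + (W.a₂ * x ^ 2 + W.a₄ * x + W.a₆)) = w x ^ 3 := by
    rw [← map_pow]
    apply Valuation.map_add_eq_of_lt_left
    rw [map_pow]
    refine (w_add (w_add (c := w x ^ 2) ?_ ?_) ?_).trans_lt hx23
    · rw [map_mul, map_pow]; exact mul_le_of_le_one_left' (w_int w _)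
    · rw [map_mul]; exact (mul_le_of_le_one_left' (w_int w _)).trans hx12
    · exact (w_int w _).trans (hx.le.trans hx12)
  have h4 : w (y ^ 2 + (W.a₁ * x + W.a₃) * y) = w x ^ 3 := by
    rw [← h3]
    congr 1
    linear_combination e0
  have h5 : w (W.a₁ * x + W.a₃) ≤ w x := by
    refine w_add ?_ ((w_int w _).trans hx.le)
    rw [map_mul]; exact mul_le_of_le_one_left' (w_int w _)
  have hxy : w x < w y := by
    by_contra hcon
    rw [not_lt] at hcon
    have h6 : w (y ^ 2 + (W.a₁ * x + W.a₃) * y) ≤ w x ^ 2 := by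
      refine w_add ?_ ?_
      · rw [map_pow]; exact pow_le_pow_left₀ zero_le hcon 2
      · rw [map_mul, pow_two]; exact mul_le_mul' h5 hcon
    rw [h4] at h6
    exact absurd h6 (not_le.2 hx23)
  rw [← h4, ← map_pow]
  symm
  apply Valuation.map_add_eq_of_lt_left
  rw [map_mul, map_pow, pow_two]
  exact mul_lt_mul_of_pos_right (h5.trans_lt hxy) (hx0.trans hxy)

theorem w_y_gt {x y : Ω} (h : (bs W Ω).toAffine.Equation x y) (hx : 1 < w x) :
    w x < w y ∧ w y < w x ^ 2 := by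
  have h2 := w_y_big h hx
  have hx0 : 0 < w x := zero_lt_one.trans hx
  constructor
  · by_contra hcon
    rw [not_lt] at hcon
    have h3 : w y ^ 2 ≤ w x ^ 2 := pow_le_pow_left₀ zero_le hcon 2
    rw [h2] at h3
    exact absurd h3 (not_le.2 (pow_lt_pow_right₀ hx (by norm_num)))
  · by_contra hcon
    rw [not_lt] at hcon
    have h3 : (w x ^ 2) ^ 2 ≤ w y ^ 2 := pow_le_pow_left₀ zero_le hcon 2
    rw [h2, ← pow_mul] at h3
    exact absurd h3 (not_le.2 (pow_lt_pow_right₀ hx (by norm_num)))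

end red

end Pool.Agent.K4H53.BSD
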