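import Mathlib
import Pool.Agent.K4H53.BSD.Red

/-!
# Reduction is compatible with the addition
-/

set_option autoImplicit false
set_option linter.all false

open WeierstrassCurve WeierstrassCurve.Affine
open scoped NNReal Classical

namespace Pool.Agent.K4H53.BSD

section red

variable {Ω k : Type} [Field Ω] [Field k] {w : Valuation Ω ℝ≥0} {r : Ω → k}
  {W : WeierstrassCurve ℤ}

/-- the relation of the slope with both denominators -/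
theorem slope_rel {F : Type} [Field F] {x₁ x₂ y₁ y₂ : F}
    (h₁ : (bs W F).toAffine.Equation x₁ y₁) (h₂ : (bs W F).toAffine.Equation x₂ y₂)
    (hxy : ¬(x₁ = x₂ ∧ y₁ = (bs W F).toAffine.negY x₂ y₂)) :
    (bs W F).toAffine.slope x₁ x₂ y₁ y₂ * (x₁ - x₂) = y₁ - y₂ ∧
    (bs W F).toAffine.slope x₁ x₂ y₁ y₂ * (y₁ + y₂ + W.a₁ * x₂ + W.a₃) =
      x₁ ^ 2 + x₁ * x₂ + x₂ ^ 2 + W.a₂ * (x₁ + x₂) + W.a₄ - W.a₁ * y₁ := by
  have e1 := eqn h₁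
  have e2 := eqn h₂
  by_cases hx : x₁ = x₂
  · have hy : y₁ ≠ (bs W F).toAffine.negY x₂ y₂ := fun h => hxy ⟨hx, h⟩
    have hyy : y₁ = y₂ := by
      subst hx
      have h3 : (y₁ - y₂) * (y₁ - (bs W F).toAffine.negY x₁ y₂) = 0 := by
        rw [negY_eq]
        linear_combination e1 - e2
      rcases mul_eq_zero.1 h3 with h4 | h4
      · exact sub_eq_zero.1 h4
      · exact absurd (sub_eq_zero.1 h4) hy
    subst hx
    subst hyy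
    refine ⟨by rw [sub_self, sub_self, mul_zero], ?_⟩
    rw [slope_of_Y_ne rfl hy, a2, a4, a1, negY_eq]
    have h5 : y₁ - (-y₁ - (W.a₁ : F) * x₁ - W.a₃) ≠ 0 := by
      rw [← negY_eq]
      exact sub_ne_zero.2 hy
    have h6 : y₁ + y₁ + (W.a₁ : F) * x₁ + W.a₃ = y₁ - (-y₁ - (W.a₁ : F) * x₁ - W.a₃) := by ring
    rw [h6, div_mul_cancel₀ _ h5]
    ring
  · have hx' : x₁ - x₂ ≠ 0 := sub_ne_zero.2 hx
    have h3 : (bs W F).toAffine.slope x₁ x₂ y₁ y₂ * (x₁ - x₂) = y₁ - y₂ := by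
      rw [slope_of_X_ne hx, div_mul_cancel₀ _ hx']
    refine ⟨h3, mul_left_cancel₀ hx' ?_⟩
    linear_combination (y₁ + y₂ + W.a₁ * x₂ + W.a₃) * h3 + e1 - e2

theorem addX_eq {F : Type} [Field F] (x₁ x₂ l : F) :
    (bs W F).toAffine.addX x₁ x₂ l = l ^ 2 + W.a₁ * l - W.a₂ - x₁ - x₂ := by
  rw [Affine.addX, a1, a2]

theorem addY_eq {F : Type} [Field F] (x₁ x₂ y₁ l : F) :
    (bs W F).toAffine.addY x₁ x₂ y₁ l = -(l * ((bs W F).toAffine.addX x₁ x₂ l - x₁) + y₁) -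
      W.a₁ * (bs W F).toAffine.addX x₁ x₂ l - W.a₃ := by
  rw [Affine.addY, negY_eq, Affine.negAddY]

section two

variable (hr : RM w r)
include hr

/-- the reduction of the slope -/
theorem slope_red {x₁ x₂ y₁ y₂ : Ω} (h₁ : (bs W Ω).toAffine.Equation x₁ y₁)
    (h₂ : (bs W Ω).toAffine.Equation x₂ y₂) (i1 : w x₁ ≤ 1) (i2 : w x₂ ≤ 1) (j1 : w y₁ ≤ 1)
    (j2 : w y₂ ≤ 1)
    (hn1 : (bs W k).toAffine.Equation (r x₁) (r y₁))
    (hn2 : (bs W k).toAffine.Equation (r x₂) (r y₂))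
    (hxy : ¬(r x₁ = r x₂ ∧ r y₁ = (bs W k).toAffine.negY (r x₂) (r y₂))) :
    ¬(x₁ = x₂ ∧ y₁ = (bs W Ω).toAffine.negY x₂ y₂) ∧
    w ((bs W Ω).toAffine.slope x₁ x₂ y₁ y₂) ≤ 1 ∧
    r ((bs W Ω).toAffine.slope x₁ x₂ y₁ y₂) =
      (bs W k).toAffine.slope (r x₁) (r x₂) (r y₁) (r y₂) := by
  have b1 : w ((W.a₁ : ℤ) : Ω) ≤ 1 := w_int w _
  have b2 : w ((W.a₂ : ℤ) : Ω) ≤ 1 := w_int w _
  have b3 : w ((W.a₃ : ℤ) : Ω) ≤ 1 := w_int w _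
  have b4 : w ((W.a₄ : ℤ) : Ω) ≤ 1 := w_int w _
  have hne : ¬(x₁ = x₂ ∧ y₁ = (bs W Ω).toAffine.negY x₂ y₂) := by
    rintro ⟨rfl, h⟩
    apply hxy
    refine ⟨rfl, ?_⟩
    rw [h, negY_eq, negY_eq, hr.sub (w_sub (w_neg j2) (w_mul b1 i1)) b3, hr.sub (w_neg j2) (w_mul b1 i1),
      hr.neg j2, hr.mul b1 i1, hr.int, hr.int]
  obtain ⟨s1, s2⟩ := slope_rel h₁ h₂ hne
  obtain ⟨t1, t2⟩ := slope_rel hn1 hn2 hxy
  set l := (bs W Ω).toAffine.slope x₁ x₂ y₁ y₂ with hl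
  set l' := (bs W k).toAffine.slope (r x₁) (r x₂) (r y₁) (r y₂) with hl'
  have key : ∀ {a b : Ω}, w a ≤ 1 → w b ≤ 1 → l * b = a → r b ≠ 0 → l' * r b = r a →
      w l ≤ 1 ∧ r l = l' := by
    intro a b ha hb hlb hrb hlb'
    have hb1 : w b = 1 := (hr.ne_zero hb).1 hrb
    have hb0 : b ≠ 0 := by rintro rfl; rw [map_zero] at hb1; exact zero_ne_one hb1
    have e : l = a / b := by rw [eq_div_iff hb0, hlb]
    refine ⟨?_, ?_⟩
    · rw [e]; exact w_div ha hb1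
    · rw [e, hr.div ha hb1, div_eq_iff hrb, hlb']
  refine ⟨hne, ?_⟩
  by_cases hx : r x₁ = r x₂
  · -- the second form
    have hD : w (y₁ + y₂ + W.a₁ * x₂ + W.a₃) ≤ 1 :=
      w_add (w_add (w_add j1 j2) (w_mul b1 i2)) b3
    have hrD : r (y₁ + y₂ + W.a₁ * x₂ + W.a₃) = r y₁ + r y₂ + W.a₁ * r x₂ + W.a₃ := by
      rw [hr.add (w_add (w_add j1 j2) (w_mul b1 i2)) b3, hr.add (w_add j1 j2) (w_mul b1 i2),
        hr.add j1 j2, hr.mul b1 i2, hr.int, hr.int]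
    have hN : w (x₁ ^ 2 + x₁ * x₂ + x₂ ^ 2 + W.a₂ * (x₁ + x₂) + W.a₄ - W.a₁ * y₁) ≤ 1 :=
      w_sub (w_add (w_add (w_add (w_add (w_pow i1 2) (w_mul i1 i2)) (w_pow i2 2))
        (w_mul b2 (w_add i1 i2))) b4) (w_mul b1 j1)
    have hrN : r (x₁ ^ 2 + x₁ * x₂ + x₂ ^ 2 + W.a₂ * (x₁ + x₂) + W.a₄ - W.a₁ * y₁) =
        r x₁ ^ 2 + r x₁ * r x₂ + r x₂ ^ 2 + W.a₂ * (r x₁ + r x₂) + W.a₄ - W.a₁ * r y₁ := by
      rw [hr.sub (w_add (w_add (w_add (w_add (w_pow i1 2) (w_mul i1 i2)) (w_pow i2 2))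
          (w_mul b2 (w_add i1 i2))) b4) (w_mul b1 j1),
        hr.add (w_add (w_add (w_add (w_pow i1 2) (w_mul i1 i2)) (w_pow i2 2))
          (w_mul b2 (w_add i1 i2))) b4,
        hr.add (w_add (w_add (w_pow i1 2) (w_mul i1 i2)) (w_pow i2 2)) (w_mul b2 (w_add i1 i2)),
        hr.add (w_add (w_pow i1 2) (w_mul i1 i2)) (w_pow i2 2),
        hr.add (w_pow i1 2) (w_mul i1 i2), hr.mul i1 i2, hr.mul b2 (w_add i1 i2), hr.add i1 i2,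
        hr.mul b1 j1, hr.pow i1, hr.pow i2, hr.int, hr.int, hr.int]
    refine key hN hD s2 ?_ ?_
    · rw [hrD]
      intro h0
      apply hxy
      refine ⟨hx, ?_⟩
      rw [negY_eq]
      linear_combination h0
    · rw [hrD, hrN]
      exact t2
  · refine key (w_sub j1 j2) (w_sub i1 i2) s1 ?_ ?_
    · rw [hr.sub i1 i2]
      exact sub_ne_zero.2 hx
    · rw [hr.sub i1 i2, hr.sub j1 j2]
      exact t1

/-- the sum of two integral points which are not opposite -/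
theorem add_fin {x₁ x₂ y₁ y₂ : Ω} (h₁ : (bs W Ω).toAffine.Nonsingular x₁ y₁)
    (h₂ : (bs W Ω).toAffine.Nonsingular x₂ y₂) {x₁' x₂' y₁' y₂' : k}
    (n1 : (bs W k).toAffine.Nonsingular x₁' y₁')
    (n2 : (bs W k).toAffine.Nonsingular x₂' y₂')
    (r1 : Rd w r W (.some x₁ y₁ h₁) (.some x₁' y₁' n1))
    (r2 : Rd w r W (.some x₂ y₂ h₂) (.some x₂' y₂' n2))
    (hxy : ¬(x₁' = x₂' ∧ y₁' = (bs W k).toAffine.negY x₂' y₂')) :
    Rd w r W (.some x₁ y₁ h₁ + .some x₂ y₂ h₂) (.some x₁' y₁' n1 + .some x₂' y₂' n2) := by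
  obtain ⟨i1, j1, rfl, rfl⟩ := r1
  obtain ⟨i2, j2, rfl, rfl⟩ := r2
  have b1 : w ((W.a₁ : ℤ) : Ω) ≤ 1 := w_int w _
  have b2 : w ((W.a₂ : ℤ) : Ω) ≤ 1 := w_int w _
  have b3 : w ((W.a₃ : ℤ) : Ω) ≤ 1 := w_int w _
  obtain ⟨hne, hl, hrl⟩ := slope_red hr h₁.1 h₂.1 i1 i2 j1 j2 n1.1 n2.1 hxy
  rw [Point.add_some hne, Point.add_some hxy]
  set l := (bs W Ω).toAffine.slope x₁ x₂ y₁ y₂ with hl'
  have hX : w ((bs W Ω).toAffine.addX x₁ x₂ l) ≤ 1 := by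
    rw [addX_eq]
    exact w_sub (w_sub (w_sub (w_add (w_pow hl 2) (w_mul b1 hl)) b2) i1) i2
  have hrX : r ((bs W Ω).toAffine.addX x₁ x₂ l) =
      (bs W k).toAffine.addX (r x₁) (r x₂) (r l) := by
    rw [addX_eq, addX_eq, hr.sub (w_sub (w_sub (w_add (w_pow hl 2) (w_mul b1 hl)) b2) i1) i2,
      hr.sub (w_sub (w_add (w_pow hl 2) (w_mul b1 hl)) b2) i1,
      hr.sub (w_add (w_pow hl 2) (w_mul b1 hl)) b2, hr.add (w_pow hl 2) (w_mul b1 hl),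
      hr.pow hl, hr.mul b1 hl, hr.int, hr.int]
  have hYa : w (l * ((bs W Ω).toAffine.addX x₁ x₂ l - x₁) + y₁) ≤ 1 :=
    w_add (w_mul hl (w_sub hX i1)) j1
  have hY : w ((bs W Ω).toAffine.addY x₁ x₂ y₁ l) ≤ 1 := by
    rw [addY_eq]
    exact w_sub (w_sub (w_neg hYa) (w_mul b1 hX)) b3
  have hrY : r ((bs W Ω).toAffine.addY x₁ x₂ y₁ l) =
      (bs W k).toAffine.addY (r x₁) (r x₂) (r y₁) (r l) := by
    rw [addY_eq, addY_eq, hr.sub (w_sub (w_neg hYa) (w_mul b1 hX)) b3,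
      hr.sub (w_neg hYa) (w_mul b1 hX), hr.neg hYa, hr.add (w_mul hl (w_sub hX i1)) j1,
      hr.mul hl (w_sub hX i1), hr.sub hX i1, hr.mul b1 hX, hr.int, hr.int, hrX]
  refine ⟨hX, hY, ?_, ?_⟩
  · rw [hrX, hrl]
  · rw [hrY, hrl]

/-- the sum of two integral points which are opposite modulo the maximal ideal -/
theorem add_opp {x₁ x₂ y₁ y₂ : Ω} (h₁ : (bs W Ω).toAffine.Nonsingular x₁ y₁)
    (h₂ : (bs W Ω).toAffine.Nonsingular x₂ y₂) {x₁' x₂' y₁' y₂' : k}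
    (n1 : (bs W k).toAffine.Nonsingular x₁' y₁')
    (n2 : (bs W k).toAffine.Nonsingular x₂' y₂')
    (r1 : Rd w r W (.some x₁ y₁ h₁) (.some x₁' y₁' n1))
    (r2 : Rd w r W (.some x₂ y₂ h₂) (.some x₂' y₂' n2))
    (hxy : x₁' = x₂' ∧ y₁' = (bs W k).toAffine.negY x₂' y₂') :
    Rd w r W (.some x₁ y₁ h₁ + .some x₂ y₂ h₂) (.some x₁' y₁' n1 + .some x₂' y₂' n2) := by
  obtain ⟨i1, j1, rfl, rfl⟩ := r1
  obtain ⟨i2, j2, rfl, rfl⟩ := r2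
  have b1 : w ((W.a₁ : ℤ) : Ω) ≤ 1 := w_int w _
  have b2 : w ((W.a₂ : ℤ) : Ω) ≤ 1 := w_int w _
  have b3 : w ((W.a₃ : ℤ) : Ω) ≤ 1 := w_int w _
  have b4 : w ((W.a₄ : ℤ) : Ω) ≤ 1 := w_int w _
  rw [Point.add_of_Y_eq hxy.1 hxy.2]
  obtain ⟨hx, hy⟩ := hxy
  by_cases hne : x₁ = x₂ ∧ y₁ = (bs W Ω).toAffine.negY x₂ y₂
  · rw [Point.add_of_Y_eq hne.1 hne.2]
    trivial
  rw [Point.add_some hne]
  obtain ⟨s1, s2⟩ := slope_rel h₁.1 h₂.1 hne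
  set l := (bs W Ω).toAffine.slope x₁ x₂ y₁ y₂ with hl'
  show 1 < w ((bs W Ω).toAffine.addX x₁ x₂ l)
  have hl : 1 < w l := by
    by_contra hcon
    rw [not_lt] at hcon
    have hD : w (y₁ + y₂ + W.a₁ * x₂ + W.a₃) ≤ 1 :=
      w_add (w_add (w_add j1 j2) (w_mul b1 i2)) b3
    have hrD : r (y₁ + y₂ + W.a₁ * x₂ + W.a₃) = 0 := by
      rw [hr.add (w_add (w_add j1 j2) (w_mul b1 i2)) b3, hr.add (w_add j1 j2) (w_mul b1 i2),
        hr.add j1 j2, hr.mul b1 i2, hr.int, hr.int, hy, negY_eq]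
      ring
    have hrN : r (x₁ ^ 2 + x₁ * x₂ + x₂ ^ 2 + W.a₂ * (x₁ + x₂) + W.a₄ - W.a₁ * y₁) =
        3 * r x₁ ^ 2 + 2 * W.a₂ * r x₁ + W.a₄ - W.a₁ * r y₁ := by
      rw [hr.sub (w_add (w_add (w_add (w_add (w_pow i1 2) (w_mul i1 i2)) (w_pow i2 2))
          (w_mul b2 (w_add i1 i2))) b4) (w_mul b1 j1),
        hr.add (w_add (w_add (w_add (w_pow i1 2) (w_mul i1 i2)) (w_pow i2 2))
          (w_mul b2 (w_add i1 i2))) b4,
        hr.add (w_add (w_add (w_pow i1 2) (w_mul i1 i2)) (w_pow i2 2)) (w_mul b2 (w_add i1 i2)),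
        hr.add (w_add (w_pow i1 2) (w_mul i1 i2)) (w_pow i2 2),
        hr.add (w_pow i1 2) (w_mul i1 i2), hr.mul i1 i2, hr.mul b2 (w_add i1 i2), hr.add i1 i2,
        hr.mul b1 j1, hr.pow i1, hr.pow i2, hr.int, hr.int, hr.int, ← hx]
      ring
    rw [← s2, hr.mul hcon hD, hrD, mul_zero] at hrN
    have hr1 : r (y₁ - y₂) = 0 := by
      rw [← s1, hr.mul hcon (w_sub i1 i2), hr.sub i1 i2, hx, sub_self, mul_zero]
    rw [hr.sub j1 j2] at hr1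
    rcases (nonsing_iff.1 n1).2 with h3 | h3
    · apply h3
      linear_combination hrN
    · apply h3
      have h4 : r y₁ + r y₂ + W.a₁ * r x₂ + W.a₃ = 0 := by
        rw [hy, negY_eq]; ring
      rw [hx]
      linear_combination h4 + hr1
  have hll : w l < w l ^ 2 := by
    calc w l = w l ^ 1 := (pow_one _).symm
      _ < w l ^ 2 := pow_lt_pow_right₀ hl (by norm_num)
  rw [addX_eq]
  have e : l ^ 2 + W.a₁ * l - W.a₂ - x₁ - x₂ = l ^ 2 + (W.a₁ * l - W.a₂ - x₁ - x₂) := by ring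
  rw [e, Valuation.map_add_eq_of_lt_left, map_pow]
  · exact hl.trans hll
  · rw [map_pow]
    refine (w_sub (w_sub (w_sub ?_ (b2.trans hl.le)) (i1.trans hl.le)) (i2.trans hl.le)).trans_lt hll
    rw [map_mul]
    exact mul_le_of_le_one_left' b1

end two

/-- an integral point plus a point with large coordinates -/
theorem add_big (hr : RM w r) {x₁ x₂ y₁ y₂ : Ω} (h₁ : (bs W Ω).toAffine.Nonsingular x₁ y₁)
    (h₂ : (bs W Ω).toAffine.Nonsingular x₂ y₂) {x₁' y₁' : k}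
    (n1 : (bs W k).toAffine.Nonsingular x₁' y₁')
    (r1 : Rd w r W (.some x₁ y₁ h₁) (.some x₁' y₁' n1)) (r2 : 1 < w x₂) :
    Rd w r W (.some x₁ y₁ h₁ + .some x₂ y₂ h₂) (.some x₁' y₁' n1) := by
  obtain ⟨i1, j1, rfl, rfl⟩ := r1
  have b1 : w ((W.a₁ : ℤ) : Ω) ≤ 1 := w_int w _
  have b2 : w ((W.a₂ : ℤ) : Ω) ≤ 1 := w_int w _
  have b3 : w ((W.a₃ : ℤ) : Ω) ≤ 1 := w_int w _
  have b4 : w ((W.a₄ : ℤ) : Ω) ≤ 1 := w_int w _
  have b6 : w ((W.a₆ : ℤ) : Ω) ≤ 1 := w_int w _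
  have hx12 : x₁ ≠ x₂ := by
    rintro rfl
    exact absurd i1 (not_le.2 r2)
  obtain ⟨g1, g2⟩ := w_y_gt h₂.1 r2
  have hx0 : 0 < w x₂ := zero_lt_one.trans r2
  have hy1 : 1 < w y₂ := r2.trans g1
  have hd : w (x₂ - x₁) = w x₂ := by
    rw [Valuation.map_sub_swap]
    apply Valuation.map_sub_eq_of_lt_right
    exact i1.trans_lt r2
  have hne : ¬(x₁ = x₂ ∧ y₁ = (bs W Ω).toAffine.negY x₂ y₂) := fun h => hx12 h.1
  obtain ⟨s1, -⟩ := slope_rel h₁.1 h₂.1 hne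
  rw [Point.add_some hne]
  set l := (bs W Ω).toAffine.slope x₁ x₂ y₁ y₂ with hl'
  set x₃ := (bs W Ω).toAffine.addX x₁ x₂ l with hx₃
  have e3 : x₃ = l ^ 2 + W.a₁ * l - W.a₂ - x₁ - x₂ := addX_eq _ _ _
  have e1 := eqn h₁.1
  have e2 := eqn h₂.1
  set Fy : Ω := 2 * y₁ + W.a₁ * x₁ + W.a₃ with hFy
  set Gx : Ω := W.a₄ + 3 * x₁ ^ 2 + 2 * W.a₂ * x₁ - W.a₁ * y₁ with hGx
  set c : Ω := W.a₆ + y₁ ^ 2 + W.a₁ * x₁ * y₁ - (W.a₂ + 2 * x₁) * x₁ ^ 2 with hc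
  have iF : w Fy ≤ 1 := w_add (w_add (w_mul (w_two w) j1) (w_mul b1 i1)) b3
  have iG : w Gx ≤ 1 := w_sub (w_add (w_add b4 (w_mul (w_three w) (w_pow i1 2)))
    (w_mul (w_mul (w_two w) b2) i1)) (w_mul b1 j1)
  have ic : w c ≤ 1 := w_sub (w_add (w_add b6 (w_pow j1 2)) (w_mul (w_mul b1 i1) j1))
    (w_mul (w_add b2 (w_mul (w_two w) i1)) (w_pow i1 2))
  have s1' : l * (x₂ - x₁) = y₂ - y₁ := by linear_combination -s1
  have main : (x₂ - x₁) ^ 2 * (x₃ - x₁) = -y₂ * Fy + x₂ * Gx + c := by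
    have e4 : (x₂ - x₁) ^ 2 * (x₃ - x₁) = (l * (x₂ - x₁)) ^ 2 +
        W.a₁ * (l * (x₂ - x₁)) * (x₂ - x₁) - (W.a₂ + 2 * x₁ + x₂) * (x₂ - x₁) ^ 2 := by
      rw [e3]; ring
    rw [e4, s1', hFy, hGx, hc]
    linear_combination e2
  have hxy : w (-y₂ * Fy + x₂ * Gx + c) ≤ w y₂ := by
    refine w_add (w_add ?_ ?_) (ic.trans hy1.le)
    · rw [map_mul, Valuation.map_neg]; exact mul_le_of_le_one_right' iF
    · rw [map_mul]; exact (mul_le_of_le_one_right' iG).trans g1.le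
  have hx31 : w (x₃ - x₁) < 1 := by
    have h5 := congrArg w main
    rw [map_mul, map_pow, hd] at h5
    by_contra hcon
    rw [not_lt] at hcon
    have h6 : w x₂ ^ 2 ≤ w y₂ := by
      calc w x₂ ^ 2 ≤ w x₂ ^ 2 * w (x₃ - x₁) := le_mul_of_one_le_right' hcon
        _ ≤ w y₂ := by rw [h5]; exact hxy
    exact absurd h6 (not_le.2 g2)
  have i3 : w x₃ ≤ 1 := by
    have : x₃ = (x₃ - x₁) + x₁ := by ring
    rw [this]; exact w_add hx31.le i1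
  have hrx : r x₃ = r x₁ := (hr.eq_iff i3 i1).2 hx31
  -- the second coordinate
  have hl31 : w (l * (x₃ - x₁) + Fy) < 1 := by
    have h5 : (x₂ - x₁) ^ 3 * (l * (x₃ - x₁) + Fy) =
        (y₂ - y₁) * (-y₂ * Fy + x₂ * Gx + c) + Fy * (x₂ - x₁) ^ 3 := by
      rw [← main, ← s1']; ring
    have h6 : (y₂ - y₁) * (-y₂ * Fy + x₂ * Gx + c) + Fy * (x₂ - x₁) ^ 3 =
        (Fy * (W.a₁ * (x₂ * y₂) + W.a₃ * y₂ - W.a₂ * x₂ ^ 2 - W.a₄ * x₂ - W.a₆) +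
          Gx * (x₂ * y₂)) + c * y₂ + y₁ * Fy * y₂ - y₁ * Gx * x₂ - y₁ * c +
          Fy * (-3 * x₂ ^ 2 * x₁ + 3 * x₂ * x₁ ^ 2 - x₁ ^ 3) := by
      linear_combination (-Fy) * e2
    have hB : (1 : ℝ≥0) ≤ w (x₂ * y₂) := by
      rw [map_mul]; exact one_le_mul r2.le hy1.le
    have hBy : w y₂ ≤ w (x₂ * y₂) := by
      rw [map_mul]; exact le_mul_of_one_le_left' r2.le
    have hBx2 : w (x₂ ^ 2) ≤ w (x₂ * y₂) := by
      rw [map_mul, map_pow, pow_two]; exact mul_le_mul_right g1.le _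
    have hBx : w x₂ ≤ w (x₂ * y₂) := by
      rw [map_mul]; exact le_mul_of_one_le_right' hy1.le
    have tm : ∀ {a b : Ω}, w a ≤ 1 → w b ≤ w (x₂ * y₂) → w (a * b) ≤ w (x₂ * y₂) := by
      intro a b ha hb
      rw [map_mul w a b]
      exact (mul_le_of_le_one_left' ha).trans hb
    have h7 : w ((y₂ - y₁) * (-y₂ * Fy + x₂ * Gx + c) + Fy * (x₂ - x₁) ^ 3) ≤ w (x₂ * y₂) := by
      rw [h6]
      have h33 : w (-3 : Ω) ≤ 1 := w_neg (w_three w)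
      refine w_add (w_sub (w_sub (w_add (w_add (w_add (tm iF ?_) (tm iG le_rfl)) (tm ic hBy))
        (tm (w_mul j1 iF) hBy)) (tm (w_mul j1 iG) hBx)) ((w_mul j1 ic).trans hB)) (tm iF ?_)
      · exact w_sub (w_sub (w_sub (w_add (tm b1 le_rfl) (tm b3 hBy)) (tm b2 hBx2)) (tm b4 hBx))
          (b6.trans hB)
      · refine w_sub (w_add ?_ ?_) ((w_pow i1 3).trans hB)
        · rw [mul_assoc, mul_comm (x₂ ^ 2) x₁, ← mul_assoc]
          exact tm (w_mul h33 i1) hBx2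
        · rw [mul_assoc, mul_comm x₂ (x₁ ^ 2), ← mul_assoc]
          exact tm (w_mul (w_three w) (w_pow i1 2)) hBx
    by_contra hcon
    rw [not_lt] at hcon
    have h8 := congrArg w h5
    rw [map_mul, map_pow, hd] at h8
    have h9 : w x₂ ^ 3 ≤ w x₂ * w y₂ := by
      calc w x₂ ^ 3 ≤ w x₂ ^ 3 * w (l * (x₃ - x₁) + Fy) := le_mul_of_one_le_right' hcon
        _ ≤ w (x₂ * y₂) := by rw [h8]; exact h7
        _ = _ := map_mul _ _ _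
    have h10 : w x₂ * w y₂ < w x₂ ^ 3 := by
      have : w x₂ ^ 3 = w x₂ * w x₂ ^ 2 := by ring
      rw [this]
      exact mul_lt_mul_of_pos_left g2 hx0
    exact absurd h9 (not_le.2 h10)
  have eY : (bs W Ω).toAffine.addY x₁ x₂ y₁ l - y₁ =
      -(l * (x₃ - x₁) + Fy) - W.a₁ * (x₃ - x₁) := by
    rw [addY_eq, ← hx₃, hFy]; ring
  have hY1 : w ((bs W Ω).toAffine.addY x₁ x₂ y₁ l - y₁) < 1 := by
    rw [eY]
    refine (Valuation.map_sub _ _ _).trans_lt (max_lt ?_ ?_)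
    · rw [Valuation.map_neg]; exact hl31
    · rw [map_mul]; exact (mul_le_of_le_one_left' b1).trans_lt hx31
  have iY : w ((bs W Ω).toAffine.addY x₁ x₂ y₁ l) ≤ 1 := by
    have : (bs W Ω).toAffine.addY x₁ x₂ y₁ l = ((bs W Ω).toAffine.addY x₁ x₂ y₁ l - y₁) + y₁ := by
      ring
    rw [this]; exact w_add hY1.le j1
  exact ⟨i3, iY, hrx, (hr.eq_iff iY j1).2 hY1⟩

end red

end Pool.Agent.K4H53.BSD
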