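import Mathlib
import Pool.Agent.K4H53.BSD.Red2

/-!
# The points with large coordinates and the parameter `z = - x / y`
-/

set_option autoImplicit false
set_option linter.all false

open WeierstrassCurve WeierstrassCurve.Affine
open scoped NNReal Classical

namespace Pool.Agent.K4H53.BSD

section alg

/-- the relations of the points on a line -/
theorem vieta {F : Type} [Field F] {W : WeierstrassCurve ℤ} {x₁ x₂ y₁ y₂ : F}
    (h₁ : (bs W F).toAffine.Equation x₁ y₁) (h₂ : (bs W F).toAffine.Equation x₂ y₂)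
    (hxy : ¬(x₁ = x₂ ∧ y₁ = (bs W F).toAffine.negY x₂ y₂)) :
    let l := (bs W F).toAffine.slope x₁ x₂ y₁ y₂
    let c := y₁ - l * x₁
    let x₃ := (bs W F).toAffine.addX x₁ x₂ l
    x₁ + x₂ + x₃ = l ^ 2 + W.a₁ * l - W.a₂ ∧
      x₁ * x₂ + x₁ * x₃ + x₂ * x₃ = W.a₄ - 2 * l * c - W.a₁ * c - W.a₃ * l ∧
      x₁ * x₂ * x₃ = c ^ 2 + W.a₃ * c - W.a₆ ∧ y₁ = l * x₁ + c ∧ y₂ = l * x₂ + c := by
  intro l c x₃
  obtain ⟨s1, s2⟩ := slope_rel h₁ h₂ hxy
  have e3 : x₃ = l ^ 2 + W.a₁ * l - W.a₂ - x₁ - x₂ := addX_eq _ _ _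
  have e1 := eqn h₁
  have hy1 : y₁ = l * x₁ + c := by show y₁ = l * x₁ + (y₁ - l * x₁); ring
  have hy2 : y₂ = l * x₂ + c := by
    show y₂ = l * x₂ + (y₁ - l * x₁)
    linear_combination s1
  have r1 : x₁ + x₂ + x₃ = l ^ 2 + W.a₁ * l - W.a₂ := by rw [e3]; ring
  have s2' : l * (y₁ + y₂ + W.a₁ * x₂ + W.a₃) =
      x₁ ^ 2 + x₁ * x₂ + x₂ ^ 2 + W.a₂ * (x₁ + x₂) + W.a₄ - W.a₁ * y₁ := s2
  have r2 : x₁ * x₂ + x₁ * x₃ + x₂ * x₃ = W.a₄ - 2 * l * c - W.a₁ * c - W.a₃ * l := by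
    rw [hy1, hy2] at s2'
    linear_combination (x₁ + x₂) * r1 + s2'
  refine ⟨r1, r2, ?_, hy1, hy2⟩
  rw [hy1] at e1
  linear_combination (x₁ ^ 2) * r1 * (-1) + x₁ * r2 - e1

end alg

section fil

variable {Ω k : Type} [Field Ω] [Field k] {w : Valuation Ω ℝ≥0} {W : WeierstrassCurve ℤ}

/-- the bounds for the coefficients of the line -/
theorem core {x1 x2 x3 l c : Ω} {b1 b2 b3 b4 b6 : Ω} (i1 : w b1 ≤ 1) (i2 : w b2 ≤ 1)
    (i3 : w b3 ≤ 1) (i4 : w b4 ≤ 1) (i6 : w b6 ≤ 1)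
    (h1 : x1 + x2 + x3 = l ^ 2 + b1 * l - b2)
    (h2 : x1 * x2 + x1 * x3 + x2 * x3 = b4 - 2 * l * c - b1 * c - b3 * l)
    (h3 : x1 * x2 * x3 = c ^ 2 + b3 * c - b6) (g1 : 1 < w x1) (g2 : 1 < w x2)
    (h12 : w x2 ≤ w x1) : w x2 ≤ w x3 := by
  by_contra hcon
  rw [not_le] at hcon
  have p1 : (0 : ℝ≥0) < w x1 := zero_lt_one.trans g1
  have p2 : (0 : ℝ≥0) < w x2 := zero_lt_one.trans g2
  have sq : ∀ {a b : Ω} {B : ℝ≥0}, w b ≤ 1 → 1 ≤ B → w (a ^ 2 + b * a) ≤ B → w a ^ 2 ≤ B := by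
    intro a b B hb hB h
    rcases le_or_gt (w a) 1 with ha | ha
    · exact (pow_le_one₀ zero_le ha).trans hB
    · have e : w (a ^ 2 + b * a) = w (a ^ 2) := by
        apply Valuation.map_add_eq_of_lt_left
        rw [map_mul, map_pow]
        calc w b * w a ≤ w a := mul_le_of_le_one_left' hb
          _ = w a ^ 1 := (pow_one _).symm
          _ < w a ^ 2 := pow_lt_pow_right₀ ha (by norm_num)
      rw [← map_pow, ← e]; exact h
  have hl : w l ^ 2 ≤ w x1 := by
    apply sq i1 g1.le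
    have e : l ^ 2 + b1 * l = x1 + x2 + x3 + b2 := by linear_combination -h1
    rw [e]
    exact w_add (w_add (w_add le_rfl h12) (hcon.le.trans h12)) (i2.trans g1.le)
  have hc : w c ^ 2 < w x1 * w x2 ^ 2 := by
    have hB : (1 : ℝ≥0) < w x1 * w x2 ^ 2 := one_lt_mul_of_lt_of_le g1 (one_le_pow₀ g2.le)
    have h4 : w (c ^ 2 + b3 * c) < w x1 * w x2 ^ 2 := by
      have e : c ^ 2 + b3 * c = x1 * x2 * x3 + b6 := by linear_combination -h3
      rw [e]
      refine (Valuation.map_add _ _ _).trans_lt (max_lt ?_ (i6.trans_lt hB))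
      rw [map_mul, map_mul, pow_two, mul_assoc]
      exact mul_lt_mul_of_pos_left (mul_lt_mul_of_pos_left hcon p2) p1
    rcases le_or_gt (w c) 1 with hc1 | hc1
    · exact (pow_le_one₀ zero_le hc1).trans_lt hB
    · have e : w (c ^ 2 + b3 * c) = w (c ^ 2) := by
        apply Valuation.map_add_eq_of_lt_left
        rw [map_mul, map_pow]
        calc w b3 * w c ≤ w c := mul_le_of_le_one_left' i3
          _ = w c ^ 1 := (pow_one _).symm
          _ < w c ^ 2 := pow_lt_pow_right₀ hc1 (by norm_num)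
      rw [← map_pow, ← e]; exact h4
  have hlc : w (2 * l * c + b1 * c + b3 * l) = w x1 * w x2 := by
    have e : 2 * l * c + b1 * c + b3 * l = -(x1 * x2 + (x3 * (x1 + x2) - b4)) := by
      linear_combination h2
    rw [e, Valuation.map_neg, ← map_mul]
    apply Valuation.map_add_eq_of_lt_left
    refine (Valuation.map_sub _ _ _).trans_lt (max_lt ?_ ?_)
    · rw [map_mul, map_mul, mul_comm]
      have h5 : w (x1 + x2) ≤ w x1 := w_add le_rfl h12
      calc w (x1 + x2) * w x3 ≤ w x1 * w x3 := mul_le_mul_left h5 _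
        _ < w x1 * w x2 := mul_lt_mul_of_pos_left hcon p1
    · rw [map_mul]
      exact i4.trans_lt (one_lt_mul_of_lt_of_le g1 g2.le)
  have sqlt : ∀ {A B : ℝ≥0}, A ^ 2 < B ^ 2 → A < B := fun h => lt_of_pow_lt_pow_left₀ 2 zero_le h
  have hq : (w x1 * w x2) ^ 2 = w x1 * (w x1 * w x2 ^ 2) := by ring
  have k1 : w l * w c < w x1 * w x2 := by
    apply sqlt
    rw [mul_pow, hq]
    calc w l ^ 2 * w c ^ 2 ≤ w x1 * w c ^ 2 := mul_le_mul_left hl _
      _ < w x1 * (w x1 * w x2 ^ 2) := mul_lt_mul_of_pos_left hc p1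
  have k2 : w c < w x1 * w x2 := by
    apply sqlt
    rw [hq]
    exact hc.trans_le (le_mul_of_one_le_left' g1.le)
  have k3 : w l < w x1 * w x2 := by
    apply sqlt
    rw [hq]
    refine hl.trans_lt ?_
    exact lt_mul_of_one_lt_right p1 (one_lt_mul_of_lt_of_le g1 (one_le_pow₀ g2.le))
  have h6 : w (2 * l * c + b1 * c + b3 * l) < w x1 * w x2 := by
    refine (Valuation.map_add _ _ _).trans_lt (max_lt ((Valuation.map_add _ _ _).trans_lt
      (max_lt ?_ ?_)) ?_)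
    · rw [map_mul, map_mul, mul_assoc]
      exact (mul_le_of_le_one_left' (w_two w)).trans_lt k1
    · rw [map_mul]; exact (mul_le_of_le_one_left' i1).trans_lt k2
    · rw [map_mul]; exact (mul_le_of_le_one_left' i3).trans_lt k3
  exact absurd hlc (ne_of_lt h6)

/-- the first coordinate of the sum of points with large coordinates -/
theorem big_add {x₁ x₂ y₁ y₂ : Ω}
    (h₁ : (bs W Ω).toAffine.Equation x₁ y₁) (h₂ : (bs W Ω).toAffine.Equation x₂ y₂)
    (hxy : ¬(x₁ = x₂ ∧ y₁ = (bs W Ω).toAffine.negY x₂ y₂)) {R : ℝ≥0} (hR : 1 < R)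
    (g1 : R ≤ w x₁) (g2 : R ≤ w x₂) :
    R ≤ w ((bs W Ω).toAffine.addX x₁ x₂ ((bs W Ω).toAffine.slope x₁ x₂ y₁ y₂)) := by
  obtain ⟨r1, r2, r3, r4, r5⟩ := vieta h₁ h₂ hxy
  rcases le_total (w x₂) (w x₁) with h | h
  · exact g2.trans (core (w_int w _) (w_int w _) (w_int w _) (w_int w _) (w_int w _) r1 r2 r3
      (hR.trans_le g1) (hR.trans_le g2) h)
  · refine g1.trans (core (l := (bs W Ω).toAffine.slope x₁ x₂ y₁ y₂)
      (c := y₁ - (bs W Ω).toAffine.slope x₁ x₂ y₁ y₂ * x₁)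
      (w_int w W.a₁) (w_int w W.a₂) (w_int w W.a₃) (w_int w W.a₄)
      (w_int w W.a₆) ?_ ?_ ?_ (hR.trans_le g2) (hR.trans_le g1) h)
    · linear_combination r1
    · linear_combination r2
    · linear_combination r3

/-- the parameter -/
noncomputable def Z : (bs W Ω).toAffine.Point → Ω
  | .zero => 0
  | .some x y _ => -x / y

/-- the points with large coordinates -/
def In1 (w : Valuation Ω ℝ≥0) (P : (bs W Ω).toAffine.Point) : Prop :=
  ∀ x y h, P = Point.some x y h → 1 < w x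

theorem In1.zero : In1 w (0 : (bs W Ω).toAffine.Point) :=
  fun x y h he => absurd he.symm (Point.some_ne_zero _)

theorem In1.add {P Q : (bs W Ω).toAffine.Point} (hP : In1 w P) (hQ : In1 w Q) :
    In1 w (P + Q) := by
  rcases P with _ | ⟨x₁, y₁, h₁⟩
  · rw [← Point.zero_def, zero_add]; exact hQ
  rcases Q with _ | ⟨x₂, y₂, h₂⟩
  · rw [← Point.zero_def, add_zero]; exact hP
  intro x y h he
  by_cases hxy : x₁ = x₂ ∧ y₁ = (bs W Ω).toAffine.negY x₂ y₂
  · rw [Point.add_of_Y_eq hxy.1 hxy.2] at he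
    exact absurd he.symm (Point.some_ne_zero _)
  · rw [Point.add_some hxy] at he
    obtain ⟨e1, e2⟩ := Point.some.inj he
    rw [← e1]
    have g1 := hP _ _ _ rfl
    have g2 := hQ _ _ _ rfl
    rcases le_total (w x₁) (w x₂) with h5 | h5
    · exact g1.trans_le (big_add h₁.1 h₂.1 hxy g1 le_rfl h5)
    · exact g2.trans_le (big_add h₁.1 h₂.1 hxy g2 h5 le_rfl)

theorem In1.neg {P : (bs W Ω).toAffine.Point} (hP : In1 w P) : In1 w (-P) := by
  rcases P with _ | ⟨x₁, y₁, h₁⟩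
  · rw [← Point.zero_def, neg_zero]; exact In1.zero
  · intro x y h he
    rw [Point.neg_some] at he
    obtain ⟨e1, e2⟩ := Point.some.inj he
    rw [← e1]
    exact hP _ _ _ rfl

theorem w_Z {x y : Ω} (h : (bs W Ω).toAffine.Nonsingular x y) (hx : 1 < w x) :
    w (Z (Point.some x y h)) ^ 2 * w x = 1 := by
  have h2 := w_y_big h.1 hx
  have hx0 : w x ≠ 0 := (zero_lt_one.trans hx).ne'
  have hy0 : w y ≠ 0 := by
    intro h0
    rw [h0, zero_pow two_ne_zero] at h2
    exact pow_ne_zero 3 hx0 h2.symm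
  show w (-x / y) ^ 2 * w x = 1
  rw [map_div₀, Valuation.map_neg, div_pow, h2]
  field_simp

/-- the parameter of the opposite point -/
theorem Z_neg {ρ : ℝ≥0} {P : (bs W Ω).toAffine.Point} (hP : In1 w P) (hρ : w (Z P) ≤ ρ) :
    w (Z (-P) + Z P) ≤ ρ ^ 2 := by
  rcases P with _ | ⟨x, y, h⟩
  · rw [← Point.zero_def, neg_zero]
    show w ((0 : Ω) + 0) ≤ _
    rw [add_zero, map_zero]; exact zero_le
  · have hx := hP _ _ _ rfl
    obtain ⟨g1, g2⟩ := w_y_gt h.1 hx
    have hx0 : w x ≠ 0 := (zero_lt_one.trans hx).ne'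
    have hy0 : w y ≠ 0 := ((zero_lt_one.trans hx).trans g1).ne'
    have hy : y ≠ 0 := by rintro rfl; exact hy0 (map_zero w)
    have h3 : w (W.a₁ * x + W.a₃) ≤ w x := by
      refine w_add ?_ ((w_int w _).trans hx.le)
      rw [map_mul]; exact mul_le_of_le_one_left' (w_int w _)
    have h4 : w (y + (W.a₁ * x + W.a₃)) = w y := by
      apply Valuation.map_add_eq_of_lt_left
      exact h3.trans_lt g1
    have h5 : y + (W.a₁ * x + W.a₃) ≠ 0 := by
      intro h0
      rw [h0, map_zero] at h4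
      exact hy0 h4.symm
    have h5' : -y - W.a₁ * x - W.a₃ ≠ 0 := by
      intro h0; apply h5; linear_combination -h0
    rw [Point.neg_some]
    show w (-x / (bs W Ω).toAffine.negY x y + -x / y) ≤ _
    rw [negY_eq]
    have e : -x / (-y - W.a₁ * x - W.a₃) + -x / y =
        (x / y) * (-(W.a₁ * x + W.a₃) / (y + (W.a₁ * x + W.a₃))) := by
      have e1 : -x / (-y - W.a₁ * x - W.a₃) = x / (y + (W.a₁ * x + W.a₃)) := by
        rw [← neg_div_neg_eq]
        congr 1 <;> ring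
      rw [e1]
      have key : ∀ D : Ω, D ≠ 0 → x / D + -x / y = (x / y) * (-(D - y) / D) := by
        intro D hD
        field_simp
        ring
      have e2 : W.a₁ * x + W.a₃ = (y + (W.a₁ * x + W.a₃)) - y := by ring
      rw [key _ h5]
      congr 3
      ring
    have h6 : w (x / y) ≤ ρ := by
      have : w (-x / y) ≤ ρ := hρ
      rwa [map_div₀, Valuation.map_neg, ← map_div₀] at this
    rw [e, map_mul, pow_two]
    refine mul_le_mul' h6 ?_
    rw [map_div₀, Valuation.map_neg, h4]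
    refine le_trans ?_ h6
    rw [map_div₀]
    exact div_le_div_of_nonneg_right h3 zero_le

end fil

end Pool.Agent.K4H53.BSD
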