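import Mathlib
import Pool.Agent.K4H53.BSD.Fil2

/-!
# The group of the points with nonsingular reduction
-/

set_option autoImplicit false
set_option linter.all false

open WeierstrassCurve WeierstrassCurve.Affine
open scoped NNReal Classical

namespace Pool.Agent.K4H53.BSD

section act

variable {F F' F'' : Type} [Field F] [Field F'] [Field F''] {W : WeierstrassCurve ℤ}

/-- the map on the points -/
noncomputable def am (W : WeierstrassCurve ℤ) (φ : F →+* F') :
    (bs W F).toAffine.Point →+ (bs W F').toAffine.Point :=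
  Point.map (W' := W.toAffine) (S := ℤ) φ.toIntAlgHom

theorem ns_map (φ : F →+* F') {x y : F} (h : (bs W F).toAffine.Nonsingular x y) :
    (bs W F').toAffine.Nonsingular (φ x) (φ y) := by
  rw [nonsing_iff] at h ⊢
  obtain ⟨h1, h2⟩ := h
  have e := eqn h1
  refine ⟨?_, ?_⟩
  · rw [Affine.equation_iff, a1, a2, a3, a4, a6]
    have := congrArg φ e
    simp only [map_add, map_mul, map_pow, map_intCast] at this
    exact this
  · refine h2.imp (fun h3 h4 => h3 ?_) (fun h3 h4 => h3 ?_)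
    · apply φ.injective
      simp only [map_add, map_mul, map_pow, map_intCast, map_ofNat]
      exact h4
    · apply φ.injective
      simp only [map_add, map_mul, map_pow, map_intCast, map_ofNat, map_zero]
      exact h4

theorem am_some (φ : F →+* F') {x y : F} (h : (bs W F).toAffine.Nonsingular x y) :
    am W φ (Point.some x y h) = Point.some (φ x) (φ y) (ns_map φ h) := rfl

theorem am_zero (φ : F →+* F') : am W φ 0 = 0 := map_zero _

theorem am_zero' (φ : F →+* F') : am W φ (Point.zero) = 0 := rfl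

theorem am_comp (φ : F →+* F') (ψ : F' →+* F'') (P : (bs W F).toAffine.Point) :
    am W ψ (am W φ P) = am W (ψ.comp φ) P := by
  rcases P with _ | ⟨x, y, h⟩
  · rfl
  · rfl

theorem am_id (P : (bs W F).toAffine.Point) : am W (RingHom.id F) P = P := by
  rcases P with _ | ⟨x, y, h⟩
  · rfl
  · rfl

theorem am_inj (φ : F →+* F') : Function.Injective (am W φ) := by
  intro P Q h
  rcases P with _ | ⟨x, y, h1⟩ <;> rcases Q with _ | ⟨x', y', h2⟩
  · rfl
  · exact absurd h.symm (Point.some_ne_zero _)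
  · exact absurd h (Point.some_ne_zero _)
  · rw [am_some, am_some] at h
    obtain ⟨e1, e2⟩ := Point.some.inj h
    have e1 := φ.injective e1
    have e2 := φ.injective e2
    subst e1
    subst e2
    rfl

end act

section rd

variable {Ω k : Type} [Field Ω] [Field k] {w : Valuation Ω ℝ≥0} {r : Ω → k}
  {W : WeierstrassCurve ℤ}

theorem Rd.zero : Rd w r W 0 0 := trivial

theorem rd_zero_iff {P : (bs W Ω).toAffine.Point} : Rd w r W P 0 ↔ In1 w P := by
  rcases P with _ | ⟨x, y, h⟩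
  · exact ⟨fun _ => In1.zero, fun _ => trivial⟩
  · refine ⟨fun h1 x' y' h' he => ?_, fun h1 => h1 _ _ _ rfl⟩
    obtain ⟨e1, e2⟩ := Point.some.inj he
    rw [← e1]; exact h1

theorem Rd.uniq {P : (bs W Ω).toAffine.Point} {Q Q' : (bs W k).toAffine.Point}
    (h : Rd w r W P Q) (h' : Rd w r W P Q') : Q = Q' := by
  rcases P with _ | ⟨x, y, h1⟩ <;> rcases Q with _ | ⟨a, b, h2⟩ <;> rcases Q' with _ | ⟨a', b', h3⟩
  · rfl
  · exact absurd h' id
  · exact absurd h id
  · exact absurd h id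
  · rfl
  · exact absurd h (not_lt.2 h'.1)
  · exact absurd h' (not_lt.2 h.1)
  · obtain ⟨-, -, rfl, rfl⟩ := h
    obtain ⟨-, -, rfl, rfl⟩ := h'
    rfl

variable (hr : RM w r)
include hr

theorem Rd.neg {P : (bs W Ω).toAffine.Point} {Q : (bs W k).toAffine.Point}
    (h : Rd w r W P Q) : Rd w r W (-P) (-Q) := by
  rcases P with _ | ⟨x, y, h1⟩ <;> rcases Q with _ | ⟨a, b, h2⟩
  · trivial
  · exact absurd h id
  · exact h
  · obtain ⟨i1, i2, rfl, rfl⟩ := h
    have b1 : w ((W.a₁ : ℤ) : Ω) ≤ 1 := w_int w _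
    have b3 : w ((W.a₃ : ℤ) : Ω) ≤ 1 := w_int w _
    rw [Point.neg_some, Point.neg_some]
    refine ⟨i1, ?_, rfl, ?_⟩
    · rw [negY_eq]; exact w_sub (w_sub (w_neg i2) (w_mul b1 i1)) b3
    · rw [negY_eq, negY_eq, hr.sub (w_sub (w_neg i2) (w_mul b1 i1)) b3,
        hr.sub (w_neg i2) (w_mul b1 i1), hr.neg i2, hr.mul b1 i1, hr.int, hr.int]

theorem Rd.add {P P' : (bs W Ω).toAffine.Point} {Q Q' : (bs W k).toAffine.Point}
    (h : Rd w r W P Q) (h' : Rd w r W P' Q') : Rd w r W (P + P') (Q + Q') := by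
  rcases P with _ | ⟨x, y, h1⟩
  · rcases Q with _ | ⟨a, b, h2⟩
    · rw [← Point.zero_def, ← Point.zero_def, zero_add, zero_add]; exact h'
    · exact absurd h id
  rcases P' with _ | ⟨x', y', h1'⟩
  · rcases Q' with _ | ⟨a', b', h2'⟩
    · rw [← Point.zero_def, ← Point.zero_def, add_zero, add_zero]; exact h
    · exact absurd h' id
  rcases Q with _ | ⟨a, b, h2⟩ <;> rcases Q' with _ | ⟨a', b', h2'⟩
  · have k1 : In1 w (Point.some x y h1) := rd_zero_iff.1 h
    have k2 : In1 w (Point.some x' y' h1') := rd_zero_iff.1 h'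
    rw [← Point.zero_def, add_zero]
    exact rd_zero_iff.2 (k1.add k2)
  · rw [← Point.zero_def, zero_add, add_comm]
    exact add_big hr h1' h1 h2' h' h
  · rw [← Point.zero_def, add_zero]
    exact add_big hr h1 h1' h2 h h'
  · by_cases hxy : a = a' ∧ b = (bs W k).toAffine.negY a' b'
    · exact add_opp hr h1 h1' h2 h2' h h' hxy
    · exact add_fin hr h1 h1' h2 h2' h h' hxy

theorem Rd.sub {P P' : (bs W Ω).toAffine.Point} {Q Q' : (bs W k).toAffine.Point}
    (h : Rd w r W P Q) (h' : Rd w r W P' Q') : Rd w r W (P - P') (Q - Q') := by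
  rw [sub_eq_add_neg, sub_eq_add_neg]
  exact Rd.add hr h (Rd.neg hr h')

/-- the reduction and automorphisms -/
theorem Rd.act {P : (bs W Ω).toAffine.Point} {Q : (bs W k).toAffine.Point}
    (h : Rd w r W P Q) (σ : Ω →+* Ω) (τ : k →+* k) (hσ : ∀ x, w (σ x) = w x)
    (hτ : ∀ x, w x ≤ 1 → r (σ x) = τ (r x)) : Rd w r W (am W σ P) (am W τ Q) := by
  rcases P with _ | ⟨x, y, h1⟩ <;> rcases Q with _ | ⟨a, b, h2⟩
  · trivial
  · exact absurd h id
  · show 1 < w (σ x)
    rw [hσ]; exact h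
  · obtain ⟨i1, i2, rfl, rfl⟩ := h
    exact ⟨(hσ x).le.trans i1, (hσ y).le.trans i2, hτ _ i1, hτ _ i2⟩

end rd

section e0

variable {Ω k : Type} [Field Ω] [Field k] {W : WeierstrassCurve ℤ}

/-- the points with nonsingular reduction -/
def In0 (w : Valuation Ω ℝ≥0) (P : (bs W Ω).toAffine.Point) : Prop :=
  ∀ x y h, P = Point.some x y h → 1 < w x ∨
    w ((W.a₁ : Ω) * y - (3 * x ^ 2 + 2 * W.a₂ * x + W.a₄)) = 1 ∨ w (2 * y + W.a₁ * x + W.a₃) = 1

variable {w : Valuation Ω ℝ≥0} {r : Ω → k}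

theorem In0.zero : In0 w (0 : (bs W Ω).toAffine.Point) :=
  fun x y h he => absurd he.symm (Point.some_ne_zero _)

theorem in0_iff (hr : RM w r) {P : (bs W Ω).toAffine.Point} :
    In0 w P ↔ ∃ Q : (bs W k).toAffine.Point, Rd w r W P Q := by
  have b1 : w ((W.a₁ : ℤ) : Ω) ≤ 1 := w_int w _
  have b2 : w ((W.a₂ : ℤ) : Ω) ≤ 1 := w_int w _
  have b3 : w ((W.a₃ : ℤ) : Ω) ≤ 1 := w_int w _
  have b4 : w ((W.a₄ : ℤ) : Ω) ≤ 1 := w_int w _
  have b6 : w ((W.a₆ : ℤ) : Ω) ≤ 1 := w_int w _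
  rcases P with _ | ⟨x, y, h⟩
  · exact ⟨fun _ => ⟨0, trivial⟩, fun _ => In0.zero⟩
  rcases lt_or_ge 1 (w x) with hx | hx
  · refine ⟨fun _ => ⟨0, hx⟩, fun _ x' y' h' he => Or.inl ?_⟩
    obtain ⟨e1, e2⟩ := Point.some.inj he
    rw [← e1]; exact hx
  have hy : w y ≤ 1 := w_y h.1 hx
  have i1 : w ((W.a₁ : Ω) * y - (3 * x ^ 2 + 2 * W.a₂ * x + W.a₄)) ≤ 1 :=
    w_sub (w_mul b1 hy) (w_add (w_add (w_mul (w_three w) (w_pow hx 2))
      (w_mul (w_mul (w_two w) b2) hx)) b4)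
  have i2 : w (2 * y + W.a₁ * x + W.a₃) ≤ 1 :=
    w_add (w_add (w_mul (w_two w) hy) (w_mul b1 hx)) b3
  have r1 : r ((W.a₁ : Ω) * y - (3 * x ^ 2 + 2 * W.a₂ * x + W.a₄)) =
      W.a₁ * r y - (3 * r x ^ 2 + 2 * W.a₂ * r x + W.a₄) := by
    rw [hr.sub (w_mul b1 hy) (w_add (w_add (w_mul (w_three w) (w_pow hx 2))
      (w_mul (w_mul (w_two w) b2) hx)) b4), hr.add (w_add (w_mul (w_three w) (w_pow hx 2))
      (w_mul (w_mul (w_two w) b2) hx)) b4, hr.add (w_mul (w_three w) (w_pow hx 2))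
      (w_mul (w_mul (w_two w) b2) hx), hr.mul b1 hy, hr.mul (w_three w) (w_pow hx 2),
      hr.mul (w_mul (w_two w) b2) hx, hr.mul (w_two w) b2, hr.pow hx, hr.int, hr.int, hr.int,
      hr.two, hr.three]
  have r2 : r (2 * y + W.a₁ * x + W.a₃) = 2 * r y + W.a₁ * r x + W.a₃ := by
    rw [hr.add (w_add (w_mul (w_two w) hy) (w_mul b1 hx)) b3,
      hr.add (w_mul (w_two w) hy) (w_mul b1 hx), hr.mul (w_two w) hy, hr.mul b1 hx, hr.int, hr.int,
      hr.two]
  have heq : (bs W k).toAffine.Equation (r x) (r y) := by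
    have e := congrArg r (eqn h.1)
    rw [hr.add (w_add (w_pow hy 2) (w_mul (w_mul b1 hx) hy)) (w_mul b3 hy),
      hr.add (w_pow hy 2) (w_mul (w_mul b1 hx) hy), hr.mul (w_mul b1 hx) hy, hr.mul b1 hx,
      hr.mul b3 hy, hr.pow hy,
      hr.add (w_add (w_add (w_pow hx 3) (w_mul b2 (w_pow hx 2))) (w_mul b4 hx)) b6,
      hr.add (w_add (w_pow hx 3) (w_mul b2 (w_pow hx 2))) (w_mul b4 hx),
      hr.add (w_pow hx 3) (w_mul b2 (w_pow hx 2)), hr.mul b2 (w_pow hx 2), hr.mul b4 hx,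
      hr.pow hx, hr.pow hx, hr.int, hr.int, hr.int, hr.int, hr.int] at e
    rw [Affine.equation_iff, a1, a2, a3, a4, a6]
    exact e
  constructor
  · intro h0
    have h1 : w ((W.a₁ : Ω) * y - (3 * x ^ 2 + 2 * W.a₂ * x + W.a₄)) = 1 ∨
        w (2 * y + W.a₁ * x + W.a₃) = 1 := (h0 x y h rfl).resolve_left (not_lt.2 hx)
    have hns : (bs W k).toAffine.Nonsingular (r x) (r y) := by
      rw [nonsing_iff]
      refine ⟨heq, h1.imp (fun h2 h3 => ?_) (fun h2 h3 => ?_)⟩
      · rw [← hr.ne_zero i1, r1] at h2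
        exact h2 (sub_eq_zero.2 h3)
      · rw [← hr.ne_zero i2, r2] at h2
        exact h2 h3
    exact ⟨.some _ _ hns, hx, hy, rfl, rfl⟩
  · rintro ⟨Q, hQ⟩ x' y' h' he
    obtain ⟨e1, e2⟩ := Point.some.inj he
    subst e1
    subst e2
    right
    rcases Q with _ | ⟨a, b, h2⟩
    · exact absurd hQ (not_lt.2 hx)
    · obtain ⟨-, -, rfl, rfl⟩ := hQ
      refine (nonsing_iff.1 h2).2.imp (fun h3 => ?_) (fun h3 => ?_)
      · rw [← hr.ne_zero i1, r1]
        exact sub_ne_zero.2 h3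
      · rw [← hr.ne_zero i2, r2]
        exact h3

/-- the residue map of a valuation -/
theorem exists_rm (w : Valuation Ω ℝ≥0) :
    ∃ r : Ω → IsLocalRing.ResidueField w.valuationSubring, RM w r ∧
      ∀ c, ∃ x, w x ≤ 1 ∧ r x = c := by
  let R := w.valuationSubring
  let φ : R →+* IsLocalRing.ResidueField R := IsLocalRing.residue R
  have hφ : ∀ {x : Ω} (h : x ∈ R), φ ⟨x, h⟩ = 0 ↔ w x < 1 := by
    intro x h
    rw [IsLocalRing.residue_eq_zero_iff]
    exact (ValuationSubring.valuation_lt_one_iff R ⟨x, h⟩).trans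
      (Valuation.isEquiv_iff_val_lt_one.1 (Valuation.isEquiv_valuation_valuationSubring w).symm)
  refine ⟨fun x => if h : x ∈ R then φ ⟨x, h⟩ else 0, ⟨?_, ?_, ?_, ?_⟩, ?_⟩
  · intro x y hx hy
    have hx' : x ∈ R := hx
    have hy' : y ∈ R := hy
    have hxy : x + y ∈ R := R.add_mem _ _ hx' hy'
    simp only [dif_pos hx', dif_pos hy', dif_pos hxy]
    rw [← map_add]; rfl
  · intro x y hx hy
    have hx' : x ∈ R := hx
    have hy' : y ∈ R := hy
    have hxy : x * y ∈ R := R.mul_mem _ _ hx' hy'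
    simp only [dif_pos hx', dif_pos hy', dif_pos hxy]
    rw [← map_mul]; rfl
  · have h1 : (1 : Ω) ∈ R := R.one_mem
    simp only [dif_pos h1]
    exact map_one φ
  · intro x hx
    have hx' : x ∈ R := hx
    simp only [dif_pos hx']
    exact hφ hx'
  · intro c
    obtain ⟨⟨x, hx⟩, rfl⟩ := IsLocalRing.residue_surjective (R := R) c
    refine ⟨x, hx, ?_⟩
    simp only [dif_pos hx]
    rfl

/-- the group of the points with nonsingular reduction -/
noncomputable def G0 (W : WeierstrassCurve ℤ) (w : Valuation Ω ℝ≥0) :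
    AddSubgroup (bs W Ω).toAffine.Point where
  carrier := {P | In0 w P}
  zero_mem' := In0.zero
  add_mem' := by
    intro P Q hP hQ
    obtain ⟨r, hr, -⟩ := exists_rm w
    obtain ⟨P', hP'⟩ := (in0_iff hr).1 hP
    obtain ⟨Q', hQ'⟩ := (in0_iff hr).1 hQ
    exact (in0_iff hr).2 ⟨_, Rd.add hr hP' hQ'⟩
  neg_mem' := by
    intro P hP
    obtain ⟨r, hr, -⟩ := exists_rm w
    obtain ⟨P', hP'⟩ := (in0_iff hr).1 hP
    exact (in0_iff hr).2 ⟨_, Rd.neg hr hP'⟩

theorem mem_G0 {P : (bs W Ω).toAffine.Point} : P ∈ G0 W w ↔ In0 w P := Iff.rfl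

/-- the group of the points with large coordinates -/
noncomputable def G1 (W : WeierstrassCurve ℤ) (w : Valuation Ω ℝ≥0) :
    AddSubgroup (bs W Ω).toAffine.Point where
  carrier := {P | In1 w P}
  zero_mem' := In1.zero
  add_mem' := fun hP hQ => hP.add hQ
  neg_mem' := fun hP => hP.neg

theorem In1.in0 {P : (bs W Ω).toAffine.Point} (h : In1 w P) : In0 w P :=
  fun x y h' he => Or.inl (h x y h' he)

theorem In0.act {P : (bs W Ω).toAffine.Point} (h : In0 w P) (σ : Ω →+* Ω)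
    (hσ : ∀ x, w (σ x) = w x) : In0 w (am W σ P) := by
  rcases P with _ | ⟨x, y, h1⟩
  · exact In0.zero
  · intro x' y' h' he
    rw [am_some] at he
    obtain ⟨e1, e2⟩ := Point.some.inj he
    rw [← e1, ← e2]
    have e3 : (W.a₁ : Ω) * σ y - (3 * σ x ^ 2 + 2 * W.a₂ * σ x + W.a₄) =
      σ ((W.a₁ : Ω) * y - (3 * x ^ 2 + 2 * W.a₂ * x + W.a₄)) := by
      simp only [map_add, map_mul, map_pow, map_intCast, map_ofNat, map_sub]
    have e4 : 2 * σ y + W.a₁ * σ x + W.a₃ = σ (2 * y + W.a₁ * x + W.a₃) := by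
      simp only [map_add, map_mul, map_pow, map_intCast, map_ofNat, map_sub]
    rw [e3, e4, hσ, hσ, hσ]
    exact h x y h1 rfl

theorem In1.act {P : (bs W Ω).toAffine.Point} (h : In1 w P) (σ : Ω →+* Ω)
    (hσ : ∀ x, w (σ x) = w x) : In1 w (am W σ P) := by
  rcases P with _ | ⟨x, y, h1⟩
  · exact In1.zero
  · intro x' y' h' he
    rw [am_some] at he
    obtain ⟨e1, e2⟩ := Point.some.inj he
    rw [← e1, hσ]
    exact h x y h1 rfl

theorem Z_act (P : (bs W Ω).toAffine.Point) (σ : Ω →+* Ω) : Z (am W σ P) = σ (Z P) := by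
  rcases P with _ | ⟨x, y, h1⟩
  · exact (map_zero σ).symm
  · show -σ x / σ y = σ (-x / y)
    rw [map_div₀, map_neg]

end e0

end Pool.Agent.K4H53.BSD
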