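import Mathlib
import Pool.Agent.K4H53.BSD.Red3

/-!
# Hensel's lemma over the fixed field of a group of automorphisms of an algebraically closed field
-/

set_option autoImplicit false
set_option linter.all false

open WeierstrassCurve WeierstrassCurve.Affine Polynomial
open scoped NNReal Classical

namespace Pool.Agent.K4H53.BSD

section hen

variable {Ω : Type} [Field Ω] [IsAlgClosed Ω] {w : Valuation Ω ℝ≥0}

theorem exists_root_O (f : w.integer[X]) (hf : f.Monic) (hd : f.natDegree ≠ 0) :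
    ∃ a : w.integer, f.IsRoot a := by
  have h1 : (f.map (algebraMap w.integer Ω)).degree ≠ 0 := by
    rw [hf.degree_map]
    intro h
    apply hd
    exact natDegree_eq_of_degree_eq_some h
  obtain ⟨x, hx⟩ := IsAlgClosed.exists_root _ h1
  have h2 : IsIntegral w.integer x := by
    refine ⟨f, hf, ?_⟩
    rw [IsRoot, eval_map] at hx
    exact hx
  have h3 : w x ≤ 1 := (Valuation.integer.integers w).mem_of_integral h2
  refine ⟨⟨x, h3⟩, ?_⟩
  rw [IsRoot, eval_map] at hx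
  have h4 : algebraMap w.integer Ω (f.eval ⟨x, h3⟩) = 0 := by
    rw [← eval₂_at_apply]
    exact hx
  exact Subtype.ext h4

theorem near_root (n : ℕ) : ∀ (f : w.integer[X]) (hf : f.Monic) (hn : f.natDegree = n)
    (b : w.integer), w ((f.eval b : w.integer) : Ω) < 1 → ∃ a : w.integer, f.IsRoot a ∧ w ((b : Ω) - a) < 1 := by
  induction n with
  | zero =>
    intro f hf hn b hb
    rw [hf.natDegree_eq_zero.1 hn] at hb
    simp at hb
  | succ n ih =>
    intro f hf hn b hb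
    obtain ⟨a, ha⟩ := exists_root_O f hf (by rw [hn]; exact Nat.succ_ne_zero n)
    obtain ⟨g, hg⟩ := dvd_iff_isRoot.2 ha
    have hgm : g.Monic := by
      apply (monic_X_sub_C a).of_mul_monic_left
      rw [← hg]; exact hf
    have hgn : g.natDegree = n := by
      have h1 := (monic_X_sub_C a).natDegree_mul hgm
      rw [← hg, hn, natDegree_X_sub_C] at h1
      omega
    have h2 : w ((b : Ω) - a) * w ((g.eval b : w.integer) : Ω) < 1 := by
      rw [← map_mul]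
      have : ((b : Ω) - a) * ((g.eval b : w.integer) : Ω) = ((f.eval b : w.integer) : Ω) := by
        rw [hg, eval_mul, eval_sub, eval_X, eval_C]; rfl
      rw [this]; exact hb
    rcases lt_or_ge (w ((b : Ω) - a)) 1 with h3 | h3
    · exact ⟨a, ha, h3⟩
    · have h4 : w ((g.eval b : w.integer) : Ω) < 1 := by
        by_contra hcon
        rw [not_lt] at hcon
        exact absurd h2 (not_lt.2 (one_le_mul h3 hcon))
      obtain ⟨a', ha', h5⟩ := ih g hgm hgn b h4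
      refine ⟨a', ?_, h5⟩
      rw [hg, IsRoot, eval_mul, ha'.eq_zero, mul_zero]

theorem root_uniq (f : w.integer[X]) (b a a' : w.integer) (ha : f.IsRoot a) (ha' : f.IsRoot a')
    (h : w ((b : Ω) - a) < 1) (h' : w ((b : Ω) - a') < 1)
    (hd : w ((f.derivative.eval b : w.integer) : Ω) = 1) : a = a' := by
  by_contra hne
  obtain ⟨g, hg⟩ := dvd_iff_isRoot.2 ha
  have h1 : g.IsRoot a' := by
    rw [hg, IsRoot, eval_mul, eval_sub, eval_X, eval_C] at ha'
    rcases mul_eq_zero.1 ha' with h2 | h2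
    · exact absurd (sub_eq_zero.1 h2).symm hne
    · exact h2
  obtain ⟨g', hg'⟩ := dvd_iff_isRoot.2 h1
  have h3 : f.derivative.eval b = (b - a') * g'.eval b + (b - a) * g'.eval b +
      (b - a) * (b - a') * g'.derivative.eval b := by
    rw [hg, hg']
    simp only [derivative_mul, derivative_sub, derivative_X, derivative_C, eval_add, eval_mul,
      eval_sub, eval_X, eval_C, eval_one, eval_zero]
    ring
  have h4 : w ((f.derivative.eval b : w.integer) : Ω) < 1 := by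
    rw [h3]
    have i : ∀ x : w.integer, w (x : Ω) ≤ 1 := fun x => x.2
    push_cast
    have lt_mul : ∀ {x y : Ω}, w x < 1 → w y ≤ 1 → w (x * y) < 1 := by
      intro x y hx hy
      rw [map_mul]
      exact (mul_le_of_le_one_right' hy).trans_lt hx
    refine (Valuation.map_add _ _ _).trans_lt (max_lt ((Valuation.map_add _ _ _).trans_lt
      (max_lt (lt_mul h' (i _)) (lt_mul h (i _)))) ?_)
    rw [mul_assoc]
    exact lt_mul h (w_mul h'.le (i _))
  rw [hd] at h4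
  exact lt_irrefl _ h4

variable {k0 : Type} [Field k0] [Algebra k0 Ω]

/-- fixed by the group `H` -/
def fx (H : Subgroup (Ω ≃ₐ[k0] Ω)) (x : Ω) : Prop := ∀ σ ∈ H, σ x = x

variable {H : Subgroup (Ω ≃ₐ[k0] Ω)}

theorem fx.add {x y : Ω} (hx : fx H x) (hy : fx H y) : fx H (x + y) := fun σ h => by
  rw [map_add, hx σ h, hy σ h]
theorem fx.sub {x y : Ω} (hx : fx H x) (hy : fx H y) : fx H (x - y) := fun σ h => by
  rw [map_sub, hx σ h, hy σ h]
theorem fx.mul {x y : Ω} (hx : fx H x) (hy : fx H y) : fx H (x * y) := fun σ h => by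
  rw [map_mul, hx σ h, hy σ h]
theorem fx.div {x y : Ω} (hx : fx H x) (hy : fx H y) : fx H (x / y) := fun σ h => by
  rw [map_div₀, hx σ h, hy σ h]
theorem fx.neg {x : Ω} (hx : fx H x) : fx H (-x) := fun σ h => by
  rw [map_neg, hx σ h]
theorem fx.pow {x : Ω} (hx : fx H x) (n : ℕ) : fx H (x ^ n) := fun σ h => by
  rw [map_pow, hx σ h]
theorem fx.inv {x : Ω} (hx : fx H x) : fx H (x⁻¹) := fun σ h => by
  rw [map_inv₀, hx σ h]
theorem fx_int (n : ℤ) : fx H (n : Ω) := fun σ h => map_intCast σ n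
theorem fx_nat (n : ℕ) : fx H (n : Ω) := fun σ h => map_natCast σ n
theorem fx_zero : fx H (0 : Ω) := fun σ h => map_zero σ
theorem fx_one : fx H (1 : Ω) := fun σ h => map_one σ

theorem hensel (hσ : ∀ (σ : Ω ≃ₐ[k0] Ω) (x : Ω), w (σ x) = w x) (f : w.integer[X])
    (hf : f.Monic) (hfx : ∀ i, fx H (f.coeff i : Ω)) (b : w.integer) (hb : fx H (b : Ω))
    (h1 : w ((f.eval b : w.integer) : Ω) < 1) (h2 : w ((f.derivative.eval b : w.integer) : Ω) = 1) :
    ∃ a : w.integer, fx H (a : Ω) ∧ f.IsRoot a ∧ w ((b : Ω) - a) < 1 := by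
  obtain ⟨a, ha, hab⟩ := near_root _ f hf rfl b h1
  refine ⟨a, fun σ hσH => ?_, ha, hab⟩
  have i : w (σ (a : Ω)) ≤ 1 := by rw [hσ]; exact a.2
  have h3 : f.IsRoot ⟨σ a, i⟩ := by
    have h4 : ((f.eval a : w.integer) : Ω) = 0 := by rw [ha.eq_zero]; rfl
    apply Subtype.ext
    rw [eval_eq_sum_range] at h4 ⊢
    have h5 := congrArg σ h4
    push_cast at h5 ⊢
    rw [map_sum, map_zero] at h5
    rw [← h5]
    refine Finset.sum_congr rfl fun j _ => ?_
    rw [map_mul, map_pow, hfx j σ hσH]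
  have h6 : w ((b : Ω) - σ a) < 1 := by
    have h7 : (b : Ω) - σ a = σ ((b : Ω) - a) := by rw [map_sub, hb σ hσH]
    rw [h7, hσ]; exact hab
  have h8 := root_uniq f b a ⟨σ a, i⟩ ha h3 hab h6 h2
  exact (congrArg Subtype.val h8).symm

theorem hensel3 (hσ : ∀ (σ : Ω ≃ₐ[k0] Ω) (x : Ω), w (σ x) = w x) {c2 c1 c0 b : Ω}
    (i2 : w c2 ≤ 1) (i1 : w c1 ≤ 1) (i0 : w c0 ≤ 1) (ib : w b ≤ 1) (f2 : fx H c2) (f1 : fx H c1)
    (f0 : fx H c0) (fb : fx H b) (h1 : w (b ^ 3 + c2 * b ^ 2 + c1 * b + c0) < 1)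
    (h2 : w (3 * b ^ 2 + 2 * c2 * b + c1) = 1) :
    ∃ x, fx H x ∧ w x ≤ 1 ∧ x ^ 3 + c2 * x ^ 2 + c1 * x + c0 = 0 ∧ w (b - x) < 1 := by
  let C2 : w.integer := ⟨c2, i2⟩
  let C1 : w.integer := ⟨c1, i1⟩
  let C0 : w.integer := ⟨c0, i0⟩
  let f : w.integer[X] := X ^ 3 + C C2 * X ^ 2 + C C1 * X + C C0
  have hf : f.Monic := by
    show (X ^ 3 + C C2 * X ^ 2 + C C1 * X + C C0 : w.integer[X]).Monic
    monicity!
  obtain ⟨a, ha1, ha2, ha3⟩ := hensel (H := H) hσ f hf (fun i => by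
      show fx H (((X ^ 3 + C C2 * X ^ 2 + C C1 * X + C C0 : w.integer[X]).coeff i : w.integer) : Ω)
      simp only [coeff_add, coeff_X_pow, coeff_C_mul, coeff_X, coeff_C]
      push_cast
      refine fx.add (fx.add (fx.add ?_ (fx.mul f2 ?_)) (fx.mul f1 ?_)) ?_ <;>
        split_ifs <;> first | exact fx_one | exact fx_zero | exact f0)
    ⟨b, ib⟩ fb (by
      show w ((eval ⟨b, ib⟩ (X ^ 3 + C C2 * X ^ 2 + C C1 * X + C C0 : w.integer[X]) : w.integer) : Ω) < 1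
      simp only [eval_add, eval_mul, eval_pow, eval_X, eval_C]
      exact h1) (by
      show w ((eval ⟨b, ib⟩ (derivative (X ^ 3 + C C2 * X ^ 2 + C C1 * X + C C0 : w.integer[X])) :
        w.integer) : Ω) = 1
      simp only [derivative_add, derivative_mul, derivative_C, derivative_X_pow, derivative_X,
        eval_add, eval_mul, eval_pow, eval_X, eval_C, eval_zero, eval_one]
      push_cast
      have c3 : ((3 : w.integer) : Ω) = 3 := rfl
      have c2' : ((2 : w.integer) : Ω) = 2 := rfl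
      convert h2 using 2
      simp only [c3, c2', C2, C1]
      ring)
  refine ⟨a, ha1, a.2, ?_, ha3⟩
  have h3 : eval a (X ^ 3 + C C2 * X ^ 2 + C C1 * X + C C0 : w.integer[X]) = 0 := ha2
  simp only [eval_add, eval_mul, eval_pow, eval_X, eval_C] at h3
  exact congrArg Subtype.val h3

theorem hensel2 (hσ : ∀ (σ : Ω ≃ₐ[k0] Ω) (x : Ω), w (σ x) = w x) {c1 c0 b : Ω}
    (i1 : w c1 ≤ 1) (i0 : w c0 ≤ 1) (ib : w b ≤ 1) (f1 : fx H c1)
    (f0 : fx H c0) (fb : fx H b) (h1 : w (b ^ 2 + c1 * b + c0) < 1)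
    (h2 : w (2 * b + c1) = 1) :
    ∃ x, fx H x ∧ w x ≤ 1 ∧ x ^ 2 + c1 * x + c0 = 0 ∧ w (b - x) < 1 := by
  let C1 : w.integer := ⟨c1, i1⟩
  let C0 : w.integer := ⟨c0, i0⟩
  let f : w.integer[X] := X ^ 2 + C C1 * X + C C0
  have hf : f.Monic := by
    show (X ^ 2 + C C1 * X + C C0 : w.integer[X]).Monic
    monicity!
  obtain ⟨a, ha1, ha2, ha3⟩ := hensel (H := H) hσ f hf (fun i => by
      show fx H (((X ^ 2 + C C1 * X + C C0 : w.integer[X]).coeff i : w.integer) : Ω)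
      simp only [coeff_add, coeff_X_pow, coeff_C_mul, coeff_X, coeff_C]
      push_cast
      refine fx.add (fx.add ?_ (fx.mul f1 ?_)) ?_ <;>
        split_ifs <;> first | exact fx_one | exact fx_zero | exact f0)
    ⟨b, ib⟩ fb (by
      show w ((eval ⟨b, ib⟩ (X ^ 2 + C C1 * X + C C0 : w.integer[X]) : w.integer) : Ω) < 1
      simp only [eval_add, eval_mul, eval_pow, eval_X, eval_C]
      exact h1) (by
      show w ((eval ⟨b, ib⟩ (derivative (X ^ 2 + C C1 * X + C C0 : w.integer[X])) :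
        w.integer) : Ω) = 1
      simp only [derivative_add, derivative_mul, derivative_C, derivative_X_pow, derivative_X,
        eval_add, eval_mul, eval_pow, eval_X, eval_C, eval_zero, eval_one]
      push_cast
      have c2' : ((2 : w.integer) : Ω) = 2 := rfl
      convert h2 using 2
      simp only [c2', C1]
      ring)
  refine ⟨a, ha1, a.2, ?_, ha3⟩
  have h3 : eval a (X ^ 2 + C C1 * X + C C0 : w.integer[X]) = 0 := ha2
  simp only [eval_add, eval_mul, eval_pow, eval_X, eval_C] at h3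
  exact congrArg Subtype.val h3

end hen

section lift

variable {Ω k k0 : Type} [Field Ω] [IsAlgClosed Ω] [Field k] [Field k0] [Algebra k0 Ω]
  {w : Valuation Ω ℝ≥0} {r : Ω → k} {W : WeierstrassCurve ℤ} {H : Subgroup (Ω ≃ₐ[k0] Ω)}

/-- the point is fixed by `H` -/
def pfx (H : Subgroup (Ω ≃ₐ[k0] Ω)) (P : (bs W Ω).toAffine.Point) : Prop :=
  ∀ σ ∈ H, am W (σ : Ω →+* Ω) P = P

theorem pfx_some {x y : Ω} {h : (bs W Ω).toAffine.Nonsingular x y} :
    pfx H (Point.some x y h) ↔ fx H x ∧ fx H y := by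
  constructor
  · intro h1
    refine ⟨fun σ hσ => ?_, fun σ hσ => ?_⟩
    · have h2 := h1 σ hσ
      rw [am_some] at h2
      exact (Point.some.inj h2).1
    · have h2 := h1 σ hσ
      rw [am_some] at h2
      exact (Point.some.inj h2).2
  · rintro ⟨h1, h2⟩ σ hσ
    rw [am_some]
    have e1 : (σ : Ω →+* Ω) x = x := h1 σ hσ
    have e2 : (σ : Ω →+* Ω) y = y := h2 σ hσ
    congr 1

theorem pfx.zero : pfx H (0 : (bs W Ω).toAffine.Point) := fun σ _ => map_zero _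
theorem pfx.add {P Q : (bs W Ω).toAffine.Point} (hP : pfx H P) (hQ : pfx H Q) : pfx H (P + Q) :=
  fun σ h => by rw [map_add, hP σ h, hQ σ h]
theorem pfx.sub {P Q : (bs W Ω).toAffine.Point} (hP : pfx H P) (hQ : pfx H Q) : pfx H (P - Q) :=
  fun σ h => by rw [map_sub, hP σ h, hQ σ h]
theorem pfx.neg {P : (bs W Ω).toAffine.Point} (hP : pfx H P) : pfx H (-P) :=
  fun σ h => by rw [map_neg, hP σ h]
theorem pfx.nsmul {P : (bs W Ω).toAffine.Point} (hP : pfx H P) (n : ℕ) : pfx H (n • P) :=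
  fun σ h => by rw [map_nsmul, hP σ h]

/-- lifting of a point -/
theorem lift_pt (hσ : ∀ (σ : Ω ≃ₐ[k0] Ω) (x : Ω), w (σ x) = w x) (hr : RM w r)
    {x' y' : k} (h : (bs W k).toAffine.Nonsingular x' y') {x0 y0 : Ω} (hx : w x0 ≤ 1)
    (hy : w y0 ≤ 1) (fx0 : fx H x0) (fy0 : fx H y0) (ex : r x0 = x') (ey : r y0 = y') :
    ∃ P : (bs W Ω).toAffine.Point, pfx H P ∧ Rd w r W P (Point.some x' y' h) := by
  subst ex
  subst ey
  have b1 : w ((W.a₁ : ℤ) : Ω) ≤ 1 := w_int w _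
  have b2 : w ((W.a₂ : ℤ) : Ω) ≤ 1 := w_int w _
  have b3 : w ((W.a₃ : ℤ) : Ω) ≤ 1 := w_int w _
  have b4 : w ((W.a₄ : ℤ) : Ω) ≤ 1 := w_int w _
  have b6 : w ((W.a₆ : ℤ) : Ω) ≤ 1 := w_int w _
  have e := eqn h.1
  -- the equation at `(x0, y0)`
  set E : Ω := y0 ^ 2 + W.a₁ * x0 * y0 + W.a₃ * y0 - (x0 ^ 3 + W.a₂ * x0 ^ 2 + W.a₄ * x0 + W.a₆)
    with hE
  have iE : w E ≤ 1 := w_sub (w_add (w_add (w_pow hy 2) (w_mul (w_mul b1 hx) hy)) (w_mul b3 hy))
    (w_add (w_add (w_add (w_pow hx 3) (w_mul b2 (w_pow hx 2))) (w_mul b4 hx)) b6)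
  have rE : r E = 0 := by
    rw [hE, hr.sub (w_add (w_add (w_pow hy 2) (w_mul (w_mul b1 hx) hy)) (w_mul b3 hy))
      (w_add (w_add (w_add (w_pow hx 3) (w_mul b2 (w_pow hx 2))) (w_mul b4 hx)) b6),
      hr.add (w_add (w_pow hy 2) (w_mul (w_mul b1 hx) hy)) (w_mul b3 hy),
      hr.add (w_pow hy 2) (w_mul (w_mul b1 hx) hy), hr.mul (w_mul b1 hx) hy, hr.mul b1 hx,
      hr.mul b3 hy, hr.pow hy,
      hr.add (w_add (w_add (w_pow hx 3) (w_mul b2 (w_pow hx 2))) (w_mul b4 hx)) b6,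
      hr.add (w_add (w_pow hx 3) (w_mul b2 (w_pow hx 2))) (w_mul b4 hx),
      hr.add (w_pow hx 3) (w_mul b2 (w_pow hx 2)), hr.mul b2 (w_pow hx 2), hr.mul b4 hx,
      hr.pow hx, hr.pow hx, hr.int, hr.int, hr.int, hr.int, hr.int]
    rw [e, sub_self]
  have wE : w E < 1 := (hr.zero_iff iE).1 rE
  have i1 : w ((W.a₁ : Ω) * y0 - (3 * x0 ^ 2 + 2 * W.a₂ * x0 + W.a₄)) ≤ 1 :=
    w_sub (w_mul b1 hy) (w_add (w_add (w_mul (w_three w) (w_pow hx 2))
      (w_mul (w_mul (w_two w) b2) hx)) b4)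
  have i2 : w (2 * y0 + W.a₁ * x0 + W.a₃) ≤ 1 :=
    w_add (w_add (w_mul (w_two w) hy) (w_mul b1 hx)) b3
  have r1 : r ((W.a₁ : Ω) * y0 - (3 * x0 ^ 2 + 2 * W.a₂ * x0 + W.a₄)) =
      W.a₁ * r y0 - (3 * r x0 ^ 2 + 2 * W.a₂ * r x0 + W.a₄) := by
    rw [hr.sub (w_mul b1 hy) (w_add (w_add (w_mul (w_three w) (w_pow hx 2))
      (w_mul (w_mul (w_two w) b2) hx)) b4), hr.add (w_add (w_mul (w_three w) (w_pow hx 2))
      (w_mul (w_mul (w_two w) b2) hx)) b4, hr.add (w_mul (w_three w) (w_pow hx 2))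
      (w_mul (w_mul (w_two w) b2) hx), hr.mul b1 hy, hr.mul (w_three w) (w_pow hx 2),
      hr.mul (w_mul (w_two w) b2) hx, hr.mul (w_two w) b2, hr.pow hx, hr.int, hr.int, hr.int,
      hr.two, hr.three]
  have r2 : r (2 * y0 + W.a₁ * x0 + W.a₃) = 2 * r y0 + W.a₁ * r x0 + W.a₃ := by
    rw [hr.add (w_add (w_mul (w_two w) hy) (w_mul b1 hx)) b3,
      hr.add (w_mul (w_two w) hy) (w_mul b1 hx), hr.mul (w_two w) hy, hr.mul b1 hx, hr.int, hr.int,
      hr.two]
  -- from a solution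
  have fin : ∀ x y : Ω, fx H x → fx H y → w x ≤ 1 → w y ≤ 1 → w (x0 - x) < 1 → w (y0 - y) < 1 →
      y ^ 2 + W.a₁ * x * y + W.a₃ * y = x ^ 3 + W.a₂ * x ^ 2 + W.a₄ * x + W.a₆ →
      ∃ P : (bs W Ω).toAffine.Point, pfx H P ∧ Rd w r W P (Point.some (r x0) (r y0) h) := by
    intro x y fxx fyy jx jy hxx hyy heq
    have ex : r x = r x0 := ((hr.eq_iff hx jx).2 hxx).symm
    have ey : r y = r y0 := ((hr.eq_iff hy jy).2 hyy).symm
    have hns : (bs W Ω).toAffine.Nonsingular x y := by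
      rw [nonsing_iff]
      refine ⟨by rw [Affine.equation_iff, a1, a2, a3, a4, a6]; exact heq, ?_⟩
      refine (nonsing_iff.1 h).2.imp (fun h3 h4 => h3 ?_) (fun h3 h4 => h3 ?_)
      · have h5 := congrArg r h4
        rw [hr.mul b1 jy, hr.add (w_add (w_mul (w_three w) (w_pow jx 2))
          (w_mul (w_mul (w_two w) b2) jx)) b4, hr.add (w_mul (w_three w) (w_pow jx 2))
          (w_mul (w_mul (w_two w) b2) jx), hr.mul (w_three w) (w_pow jx 2),
          hr.mul (w_mul (w_two w) b2) jx, hr.mul (w_two w) b2, hr.pow jx, hr.int, hr.int, hr.int,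
          hr.two, hr.three, ex, ey] at h5
        exact h5
      · have h5 := congrArg r h4
        rw [hr.add (w_add (w_mul (w_two w) jy) (w_mul b1 jx)) b3,
          hr.add (w_mul (w_two w) jy) (w_mul b1 jx), hr.mul (w_two w) jy, hr.mul b1 jx, hr.int,
          hr.int, hr.two, hr.zero, ex, ey] at h5
        exact h5
    exact ⟨Point.some x y hns, pfx_some.2 ⟨fxx, fyy⟩, jx, jy, ex, ey⟩
  rcases (nonsing_iff.1 h).2 with h3 | h3
  · -- solve for `x`
    have h4 : w ((W.a₁ : Ω) * y0 - (3 * x0 ^ 2 + 2 * W.a₂ * x0 + W.a₄)) = 1 := by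
      rw [← hr.ne_zero i1, r1]; exact sub_ne_zero.2 h3
    obtain ⟨x, p1, p2, p3, p4⟩ := hensel3 (H := H) hσ (c2 := W.a₂) (c1 := W.a₄ - W.a₁ * y0)
      (c0 := W.a₆ - y0 ^ 2 - W.a₃ * y0) (b := x0) b2 (w_sub b4 (w_mul b1 hy))
      (w_sub (w_sub b6 (w_pow hy 2)) (w_mul b3 hy)) hx (fx_int _) ((fx_int _).sub ((fx_int _).mul fy0))
      (((fx_int _).sub (fy0.pow 2)).sub ((fx_int _).mul fy0)) fx0 (by
        rw [← Valuation.map_neg]
        convert wE using 2
        rw [hE]; ring) (by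
        rw [← Valuation.map_neg]
        convert h4 using 2
        ring)
    exact fin x y0 p1 fy0 p2 hy p4 (by rw [sub_self, map_zero]; exact zero_lt_one) (by
      linear_combination -p3)
  · have h4 : w (2 * y0 + W.a₁ * x0 + W.a₃) = 1 := by
      rw [← hr.ne_zero i2, r2]; exact h3
    obtain ⟨y, p1, p2, p3, p4⟩ := hensel2 (H := H) hσ (c1 := W.a₁ * x0 + W.a₃)
      (c0 := -(x0 ^ 3 + W.a₂ * x0 ^ 2 + W.a₄ * x0 + W.a₆)) (b := y0) (w_add (w_mul b1 hx) b3)
      (w_neg (w_add (w_add (w_add (w_pow hx 3) (w_mul b2 (w_pow hx 2))) (w_mul b4 hx)) b6)) hy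
      (((fx_int _).mul fx0).add (fx_int _))
      ((((fx0.pow 3).add ((fx_int _).mul (fx0.pow 2))).add ((fx_int _).mul fx0)).add (fx_int _)).neg
      fy0 (by
        convert wE using 2
        rw [hE]; ring) (by
        convert h4 using 2
        ring)
    exact fin x0 y fx0 p1 hx p2 (by rw [sub_self, map_zero]; exact zero_lt_one) p4 (by
      linear_combination p3)

/-- the point with given parameter -/
theorem lift_z (hσ : ∀ (σ : Ω ≃ₐ[k0] Ω) (x : Ω), w (σ x) = w x) (hW : (W.Δ : Ω) ≠ 0) {t : Ω}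
    (ht : w t < 1) (ht0 : t ≠ 0) (ft : fx H t) :
    ∃ P : (bs W Ω).toAffine.Point, pfx H P ∧ In1 w P ∧ Z P = t := by
  have b1 : w ((W.a₁ : ℤ) : Ω) ≤ 1 := w_int w _
  have b2 : w ((W.a₂ : ℤ) : Ω) ≤ 1 := w_int w _
  have b3 : w ((W.a₃ : ℤ) : Ω) ≤ 1 := w_int w _
  have b4 : w ((W.a₄ : ℤ) : Ω) ≤ 1 := w_int w _
  have b6 : w ((W.a₆ : ℤ) : Ω) ≤ 1 := w_int w _
  have tm : ∀ {a : Ω}, w a ≤ 1 → w (t * a) < 1 := by
    intro a ha
    rw [map_mul]; exact (mul_le_of_le_one_right' ha).trans_lt ht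
  have lt_add : ∀ {a b : Ω}, w a < 1 → w b < 1 → w (a + b) < 1 := fun ha hb =>
    (Valuation.map_add _ _ _).trans_lt (max_lt ha hb)
  obtain ⟨v, p1, p2, p3, p4⟩ := hensel3 (H := H) hσ (c2 := -(1 - W.a₁ * t - W.a₂ * t ^ 2))
    (c1 := (W.a₃ + W.a₄ * t) * t ^ 3) (c0 := W.a₆ * t ^ 6) (b := 1)
    (w_neg (w_sub (w_sub (by rw [map_one]) (w_mul b1 ht.le)) (w_mul b2 (w_pow ht.le 2))))
    (w_mul (w_add b3 (w_mul b4 ht.le)) (w_pow ht.le 3)) (w_mul b6 (w_pow ht.le 6))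
    (by rw [map_one])
    ((fx_one.sub ((fx_int _).mul ft)).sub ((fx_int _).mul (ft.pow 2))).neg
    (((fx_int _).add ((fx_int _).mul ft)).mul (ft.pow 3)) ((fx_int _).mul (ft.pow 6)) fx_one (by
      have e : (1 : Ω) ^ 3 + -(1 - W.a₁ * t - W.a₂ * t ^ 2) * 1 ^ 2 + (W.a₃ + W.a₄ * t) * t ^ 3 * 1 +
          W.a₆ * t ^ 6 = t * (W.a₁ + W.a₂ * t + (W.a₃ + W.a₄ * t) * t ^ 2 + W.a₆ * t ^ 5) := by ring
      rw [e]
      exact tm (w_add (w_add (w_add b1 (w_mul b2 ht.le)) (w_mul (w_add b3 (w_mul b4 ht.le))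
        (w_pow ht.le 2))) (w_mul b6 (w_pow ht.le 5)))) (by
      have e : (3 : Ω) * 1 ^ 2 + 2 * -(1 - W.a₁ * t - W.a₂ * t ^ 2) * 1 +
          (W.a₃ + W.a₄ * t) * t ^ 3 = 1 + t * (2 * W.a₁ + 2 * W.a₂ * t +
            (W.a₃ + W.a₄ * t) * t ^ 2) := by ring
      rw [e, Valuation.map_add_eq_of_lt_left, map_one]
      rw [map_one]
      exact tm (w_add (w_add (w_mul (w_two w) b1) (w_mul (w_mul (w_two w) b2) ht.le))
        (w_mul (w_add b3 (w_mul b4 ht.le)) (w_pow ht.le 2))))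
  have hv : w v = 1 := by
    have e : v = 1 - (1 - v) := by ring
    rw [e, Valuation.map_sub_eq_of_lt_left, map_one]
    rw [map_one]; exact p4
  have hv0 : v ≠ 0 := by rintro rfl; rw [map_zero] at hv; exact zero_ne_one hv
  have heq : (bs W Ω).toAffine.Equation (v / t ^ 2) (-v / t ^ 3) := by
    rw [Affine.equation_iff, a1, a2, a3, a4, a6]
    field_simp
    linear_combination -p3
  have hΔ : (bs W Ω).Δ ≠ 0 := by
    rw [WeierstrassCurve.map_Δ]
    simpa using hW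
  have hns : (bs W Ω).toAffine.Nonsingular (v / t ^ 2) (-v / t ^ 3) :=
    (WeierstrassCurve.Affine.equation_iff_nonsingular_of_Δ_ne_zero hΔ).1 heq
  refine ⟨Point.some _ _ hns, pfx_some.2 ⟨p1.div (ft.pow 2), p1.neg.div (ft.pow 3)⟩, ?_, ?_⟩
  · intro x y h he
    obtain ⟨e1, e2⟩ := Point.some.inj he
    rw [← e1, map_div₀, hv, map_pow]
    have h5 : 0 < w t := by
      rw [Valuation.pos_iff]; exact ht0
    rw [one_lt_div (pow_pos h5 2)]
    exact pow_lt_one₀ zero_le ht two_ne_zero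
  · show -(v / t ^ 2) / (-v / t ^ 3) = t
    field_simp

end lift

end Pool.Agent.K4H53.BSD
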