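import Mathlib
import Pool.Agent.K4H53.BSD.Hen

/-!
# Points with large coordinates are divisible by two
-/

set_option autoImplicit false
set_option linter.all false

open WeierstrassCurve WeierstrassCurve.Affine Polynomial
open scoped NNReal Classical

namespace Pool.Agent.K4H53.BSD

/-- the explicit half of a point -/
theorem half_pt {F : Type} [Field F] {W : WeierstrassCurve ℤ} (h2 : (2 : F) ≠ 0) {e1 e2 e3 : F}
    (hb2 : (W.a₁ : F) ^ 2 + 4 * W.a₂ = -4 * (e1 + e2 + e3))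
    (hb4 : 2 * (2 * (W.a₄ : F) + W.a₁ * W.a₃) = 4 * (e1 * e2 + e1 * e3 + e2 * e3))
    (hb6 : (W.a₃ : F) ^ 2 + 4 * W.a₆ = -4 * (e1 * e2 * e3)) {x y u1 u2 u3 : F}
    (h : (bs W F).toAffine.Nonsingular x y) (k1 : u1 ^ 2 = x - e1) (k2 : u2 ^ 2 = x - e2)
    (k3 : u3 ^ 2 = x - e3) (hη : 2 * y + W.a₁ * x + W.a₃ = 2 * (u1 * u2 * u3))
    (n : (u1 + u2) * (u1 + u3) * (u2 + u3) ≠ 0) :
    ∃ h' : (bs W F).toAffine.Nonsingular (x + (u1 * u2 + u1 * u3 + u2 * u3))
      (((u1 + u2) * (u1 + u3) * (u2 + u3)) -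
        (W.a₁ * (x + (u1 * u2 + u1 * u3 + u2 * u3)) + W.a₃) / 2),
      Point.some _ _ h' + Point.some _ _ h' = Point.some x y h := by
  set X : F := x + (u1 * u2 + u1 * u3 + u2 * u3) with hX
  set N : F := (u1 + u2) * (u1 + u3) * (u2 + u3) with hN
  set Y : F := N - (W.a₁ * X + W.a₃) / 2 with hY
  have h4 : (4 : F) ≠ 0 := by
    have : (4 : F) = 2 * 2 := by norm_num
    rw [this]; exact mul_ne_zero h2 h2
  have hYN : 2 * Y + W.a₁ * X + W.a₃ = 2 * N := by
    rw [hY]; field_simp; ring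
  have q1 : X - e1 = (u1 + u2) * (u1 + u3) := by rw [hX]; linear_combination -k1
  have q2 : X - e2 = (u1 + u2) * (u2 + u3) := by rw [hX]; linear_combination -k2
  have q3 : X - e3 = (u1 + u3) * (u2 + u3) := by rw [hX]; linear_combination -k3
  have hNN : N ^ 2 = (X - e1) * (X - e2) * (X - e3) := by rw [q1, q2, q3, hN]; ring
  have hder : (X - e1) * (X - e2) + (X - e1) * (X - e3) + (X - e2) * (X - e3) =
      N * (2 * (u1 + u2 + u3)) := by rw [q1, q2, q3, hN]; ring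
  have heq : (bs W F).toAffine.Equation X Y := by
    rw [Affine.equation_iff, a1, a2, a3, a4, a6]
    apply mul_left_cancel₀ h4
    have e5 : 4 * (Y ^ 2 + W.a₁ * X * Y + W.a₃ * Y) = (2 * Y + W.a₁ * X + W.a₃) ^ 2 -
        (W.a₁ * X + W.a₃) ^ 2 := by ring
    rw [e5, hYN]
    linear_combination 4 * hNN + (-X ^ 2) * hb2 + (-X) * hb4 - hb6
  have hns : (bs W F).toAffine.Nonsingular X Y := by
    rw [nonsing_iff]
    refine ⟨heq, Or.inr ?_⟩
    rw [hYN]
    exact mul_ne_zero h2 n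
  refine ⟨hns, ?_⟩
  have hne : Y ≠ (bs W F).toAffine.negY X Y := by
    intro h5
    rw [negY_eq] at h5
    apply mul_ne_zero h2 n
    rw [← hYN]
    linear_combination h5
  have hne' : ¬(X = X ∧ Y = (bs W F).toAffine.negY X Y) := fun h5 => hne h5.2
  obtain ⟨-, s2⟩ := slope_rel hns.1 hns.1 hne'
  rw [Point.add_some hne']
  set l := (bs W F).toAffine.slope X X Y Y with hl
  have hl2 : 2 * l + W.a₁ = 2 * (u1 + u2 + u3) := by
    have e6 : Y + Y + W.a₁ * X + W.a₃ = 2 * N := by rw [← hYN]; ring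
    rw [e6] at s2
    have e7 : 2 * (2 * N) * (2 * l + W.a₁) = 2 * (2 * N) * (2 * (u1 + u2 + u3)) := by
      linear_combination 4 * s2 - 2 * (W.a₁ : F) * hYN + 4 * hder + (2 * X) * hb2 + hb4
    exact mul_left_cancel₀ (mul_ne_zero h2 (mul_ne_zero h2 n)) e7
  have hXX : (bs W F).toAffine.addX X X l = x := by
    rw [addX_eq]
    apply mul_left_cancel₀ h4
    have e8 : 4 * (l ^ 2 + W.a₁ * l - W.a₂ - X - X) = (2 * l + W.a₁) ^ 2 -
      ((W.a₁ : F) ^ 2 + 4 * W.a₂) - 8 * X := by ring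
    rw [e8, hl2, hb2, hX]
    linear_combination 4 * k1 + 4 * k2 + 4 * k3
  have hYY : (bs W F).toAffine.addY X X Y l = y := by
    rw [addY_eq, hXX]
    apply mul_left_cancel₀ h2
    have e9 : 2 * (-(l * (x - X) + Y) - W.a₁ * x - W.a₃) = -(2 * l + W.a₁) * (x - X) -
        (2 * Y + W.a₁ * X + W.a₃) - (W.a₁ * x + W.a₃) := by ring
    rw [e9, hl2, hYN, hX, hN]
    linear_combination -hη
  congr 1

section deep

variable {Ω : Type} [Field Ω] [IsAlgClosed Ω] {w : Valuation Ω ℝ≥0}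

/-- the square root near one -/
theorem exists_sqrt (h2 : w (2 : Ω) ≠ 0) {δ : Ω} (hδ : w δ < w 8) :
    ∃ c : Ω, c ^ 2 = 1 - δ ∧ w (c - 1) < w 4 := by
  obtain ⟨c, hc⟩ := IsAlgClosed.exists_pow_nat_eq (1 - δ) (n := 2) (by norm_num)
  have h8 : w (8 : Ω) = w 4 * w 2 := by rw [← map_mul]; norm_num
  have p2 : 0 < w (2 : Ω) := lt_of_le_of_ne zero_le h2.symm
  have key : ∀ c : Ω, c ^ 2 = 1 - δ → w 2 ≤ w (c + 1) → w (c - 1) < w 4 := by
    intro c hc h
    by_contra hcon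
    rw [not_lt] at hcon
    have h3 : w 8 ≤ w δ := by
      have e : δ = -((c - 1) * (c + 1)) := by linear_combination hc
      rw [h8, e, Valuation.map_neg, map_mul]
      exact mul_le_mul' hcon h
    exact absurd hδ (not_lt.2 h3)
  by_cases h : w 2 ≤ w (c + 1)
  · exact ⟨c, hc, key c hc h⟩
  · rw [not_le] at h
    refine ⟨-c, by rw [← hc]; ring, key (-c) (by rw [← hc]; ring) ?_⟩
    have e : (-c + 1) = 2 - (c + 1) := by ring
    rw [e, Valuation.map_sub_eq_of_lt_left]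
    exact h

theorem sqrt_uniq (h2 : w (2 : Ω) ≠ 0) {c c' : Ω} (h : c ^ 2 = c' ^ 2) (h1 : w (c - 1) < w 4)
    (h1' : w (c' - 1) < w 4) : c = c' := by
  rcases sq_eq_sq_iff_eq_or_eq_neg.1 h with h3 | h3
  · exact h3
  · exfalso
    have h4 : w (2 : Ω) < w 4 := by
      have e : (2 : Ω) = -(c - 1) - (c' - 1) := by rw [h3]; ring
      rw [e]
      refine (Valuation.map_sub _ _ _).trans_lt (max_lt ?_ h1')
      rw [Valuation.map_neg]; exact h1
    have h5 : w (4 : Ω) = w 2 * w 2 := by rw [← map_mul]; norm_num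
    rw [h5] at h4
    exact absurd (mul_le_of_le_one_left' (w_two w)) (not_le.2 h4)

variable {k0 : Type} [Field k0] [Algebra k0 Ω] {H : Subgroup (Ω ≃ₐ[k0] Ω)} {W : WeierstrassCurve ℤ}

theorem exists_roots (h2 : (2 : Ω) ≠ 0) : ∃ e1 e2 e3 : Ω,
    (W.a₁ : Ω) ^ 2 + 4 * W.a₂ = -4 * (e1 + e2 + e3) ∧
    2 * (2 * (W.a₄ : Ω) + W.a₁ * W.a₃) = 4 * (e1 * e2 + e1 * e3 + e2 * e3) ∧
    (W.a₃ : Ω) ^ 2 + 4 * W.a₆ = -4 * (e1 * e2 * e3) := by
  have h4 : (4 : Ω) ≠ 0 := by
    have : (4 : Ω) = 2 * 2 := by norm_num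
    rw [this]; exact mul_ne_zero h2 h2
  set B2 : Ω := ((W.a₁ : Ω) ^ 2 + 4 * W.a₂) / 4 with hB2
  set B4 : Ω := 2 * (2 * (W.a₄ : Ω) + W.a₁ * W.a₃) / 4 with hB4
  set B6 : Ω := ((W.a₃ : Ω) ^ 2 + 4 * W.a₆) / 4 with hB6
  obtain ⟨e1, h1⟩ := IsAlgClosed.exists_root (X ^ 3 + C B2 * X ^ 2 + C B4 * X + C B6 : Polynomial Ω) (by
    have : (X ^ 3 + C B2 * X ^ 2 + C B4 * X + C B6 : Polynomial Ω).degree = 3 := by compute_degree!
    rw [this]; norm_num)
  simp only [IsRoot, eval_add, eval_mul, eval_pow, eval_X, eval_C] at h1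
  obtain ⟨e2, h3⟩ := IsAlgClosed.exists_root (X ^ 2 + C (B2 + e1) * X + C (B4 + e1 * (B2 + e1)) : Polynomial Ω) (by
    have : (X ^ 2 + C (B2 + e1) * X + C (B4 + e1 * (B2 + e1)) : Polynomial Ω).degree = 2 := by compute_degree!
    rw [this]; norm_num)
  simp only [IsRoot, eval_add, eval_mul, eval_pow, eval_X, eval_C] at h3
  refine ⟨e1, e2, -(B2 + e1 + e2), ?_, ?_, ?_⟩
  · have : (W.a₁ : Ω) ^ 2 + 4 * W.a₂ = 4 * B2 := by rw [hB2]; field_simp
    rw [this]; ring
  · have : 2 * (2 * (W.a₄ : Ω) + W.a₁ * W.a₃) = 4 * B4 := by rw [hB4]; field_simp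
    rw [this]
    linear_combination 4 * h3
  · have : (W.a₃ : Ω) ^ 2 + 4 * W.a₆ = 4 * B6 := by rw [hB6]; field_simp
    rw [this]
    linear_combination 4 * h1 - 4 * e1 * h3

/-- points with large coordinates are divisible by two -/
theorem halve (hσ : ∀ (σ : Ω ≃ₐ[k0] Ω) (x : Ω), w (σ x) = w x) (h2 : w (2 : Ω) ≠ 0)
    {x y : Ω} {h : (bs W Ω).toAffine.Nonsingular x y} (hfx : pfx H (Point.some x y h))
    (hx : 1 < w 32 * w x) :
    ∃ (x' y' : Ω) (h' : (bs W Ω).toAffine.Nonsingular x' y'), pfx H (Point.some x' y' h') ∧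
      Point.some x' y' h' + Point.some x' y' h' = Point.some x y h ∧ w x' = w 4 * w x := by
  obtain ⟨ffx, ffy⟩ := pfx_some.1 hfx
  have h20 : (2 : Ω) ≠ 0 := fun h0 => h2 (by rw [h0, map_zero])
  have h40 : (4 : Ω) ≠ 0 := by
    have : (4 : Ω) = 2 * 2 := by norm_num
    rw [this]; exact mul_ne_zero h20 h20
  obtain ⟨e1, e2, e3, hb2, hb4, hb6⟩ := exists_roots (W := W) (Ω := Ω) h20
  have w32 : w (32 : Ω) = w 4 * w 8 := by rw [← map_mul]; norm_num
  have h32 : w (32 : Ω) ≤ 1 := by exact_mod_cast w_nat w 32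
  have hx1 : 1 < w x := by
    by_contra hcon
    rw [not_lt] at hcon
    exact absurd hx (not_lt.2 (mul_le_one' h32 hcon))
  have px : 0 < w x := zero_lt_one.trans hx1
  have hx0 : x ≠ 0 := by rintro rfl; rw [map_zero] at px; exact lt_irrefl _ px
  -- the cubic
  have cub : ∀ t : Ω, (t - e1) * (t - e2) * (t - e3) = 0 ↔
      4 * t ^ 3 + ((W.a₁ : Ω) ^ 2 + 4 * W.a₂) * t ^ 2 + 2 * (2 * (W.a₄ : Ω) + W.a₁ * W.a₃) * t +
        ((W.a₃ : Ω) ^ 2 + 4 * W.a₆) = 0 := by
    intro t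
    have : 4 * t ^ 3 + ((W.a₁ : Ω) ^ 2 + 4 * W.a₂) * t ^ 2 +
        2 * (2 * (W.a₄ : Ω) + W.a₁ * W.a₃) * t + ((W.a₃ : Ω) ^ 2 + 4 * W.a₆) =
        4 * ((t - e1) * (t - e2) * (t - e3)) := by
      rw [hb2, hb4, hb6]; ring
    rw [this]
    exact ⟨fun h => by rw [h, mul_zero], fun h => (mul_eq_zero.1 h).resolve_left h40⟩
  have wroot : ∀ t : Ω, (t - e1) * (t - e2) * (t - e3) = 0 → w t * 1 < w 8 * w x := by
    intro t ht
    have h5 := (cub t).1 ht
    have h6 : w (4 * t) ≤ 1 := by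
      by_contra hcon
      rw [not_le] at hcon
      have e : (4 * t) ^ 3 = -(((W.a₁ : Ω) ^ 2 + 4 * W.a₂) * (4 * t) ^ 2 +
          8 * (2 * (W.a₄ : Ω) + W.a₁ * W.a₃) * (4 * t) + 16 * ((W.a₃ : Ω) ^ 2 + 4 * W.a₆)) := by
        linear_combination 16 * h5
      have i2 : w ((W.a₁ : Ω) ^ 2 + 4 * W.a₂) ≤ 1 := by
        have := w_int w (W.a₁ ^ 2 + 4 * W.a₂); push_cast at this; exact this
      have i4 : w (8 * (2 * (W.a₄ : Ω) + W.a₁ * W.a₃)) ≤ 1 := by
        have := w_int w (8 * (2 * W.a₄ + W.a₁ * W.a₃)); push_cast at this; exact this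
      have i6 : w (16 * ((W.a₃ : Ω) ^ 2 + 4 * W.a₆)) ≤ 1 := by
        have := w_int w (16 * (W.a₃ ^ 2 + 4 * W.a₆)); push_cast at this; exact this
      have h7 : w ((4 * t) ^ 3) ≤ w (4 * t) ^ 2 := by
        rw [e, Valuation.map_neg]
        have o : (1 : ℝ≥0) ≤ w (4 * t) ^ 2 := one_le_pow₀ hcon.le
        refine w_add (w_add ?_ ?_) (i6.trans o)
        · rw [map_mul, map_pow w (4 * t)]; exact mul_le_of_le_one_left' i2
        · rw [map_mul]
          refine (mul_le_of_le_one_left' i4).trans ?_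
          calc w (4 * t) = w (4 * t) ^ 1 := (pow_one _).symm
            _ ≤ w (4 * t) ^ 2 := pow_le_pow_right₀ hcon.le (by norm_num)
      rw [map_pow] at h7
      exact absurd h7 (not_le.2 (pow_lt_pow_right₀ hcon (by norm_num)))
    rw [mul_one]
    have h8 : w 4 * w t < w 4 * (w 8 * w x) := by
      rw [← map_mul, ← mul_assoc, ← w32]
      exact h6.trans_lt hx
    exact lt_of_mul_lt_mul_left h8 zero_le
  -- the square roots
  have hsq : ∀ t : Ω, (t - e1) * (t - e2) * (t - e3) = 0 → ∃ c : Ω, c ^ 2 = 1 - t / x ∧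
      w (c - 1) < w 4 := by
    intro t ht
    apply exists_sqrt h2
    rw [map_div₀, div_lt_iff₀ px]
    have := wroot t ht
    rwa [mul_one] at this
  obtain ⟨c1, k1, l1⟩ := hsq e1 (by ring)
  obtain ⟨c2, k2, l2⟩ := hsq e2 (by ring)
  obtain ⟨c3, k3, l3⟩ := hsq e3 (by ring)
  have p4 : 0 < w (4 : Ω) := lt_of_le_of_lt zero_le l1
  have w4 : w (4 : Ω) ≤ 1 := by exact_mod_cast w_nat w 4
  have w42 : w (4 : Ω) ≤ w 2 := by
    have h5 : w (4 : Ω) = w 2 * w 2 := by rw [← map_mul]; norm_num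
    rw [h5]; exact mul_le_of_le_one_left' (w_two w)
  have unit : ∀ {c : Ω}, w (c - 1) < w 4 → w c = 1 := by
    intro c hc
    have e : c = 1 + (c - 1) := by ring
    rw [e, Valuation.map_add_eq_of_lt_left, map_one]
    rw [map_one]; exact hc.trans_le w4
  have u1 := unit l1
  have u2 := unit l2
  have u3 := unit l3
  -- the symmetric functions are fixed
  have hperm : ∀ σ ∈ H, σ (c1 + c2 + c3) = c1 + c2 + c3 ∧ σ (c1 * c2 * c3) = c1 * c2 * c3 := by
    intro σ hσH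
    let P : Ω → Ω → Prop := fun t c => c ^ 2 = 1 - t / x ∧ w (c - 1) < w 4
    let cc : Ω → Ω := fun t => if h : ∃ c, P t c then h.choose else 0
    have hcc : ∀ t c, P t c → cc t = c := by
      intro t c hc
      have h : ∃ c, P t c := ⟨c, hc⟩
      have e : cc t = h.choose := dif_pos h
      rw [e]
      exact sqrt_uniq h2 (h.choose_spec.1.trans hc.1.symm) h.choose_spec.2 hc.2
    have img : ∀ t c, P t c → P (σ t) (σ c) := by
      intro t c hc
      refine ⟨?_, ?_⟩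
      · rw [← map_pow, hc.1, map_sub, map_div₀, map_one, ffx σ hσH]
      · have : σ c - 1 = σ (c - 1) := by rw [map_sub, map_one]
        rw [this, hσ]; exact hc.2
    have s1 : σ e1 + σ e2 + σ e3 = e1 + e2 + e3 := by
      apply mul_left_cancel₀ (neg_ne_zero.2 h40)
      have := congrArg σ hb2
      simp only [map_add, map_mul, map_pow, map_intCast, map_ofNat, map_neg] at this
      rw [← this, hb2]
    have s2 : σ e1 * σ e2 + σ e1 * σ e3 + σ e2 * σ e3 = e1 * e2 + e1 * e3 + e2 * e3 := by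
      apply mul_left_cancel₀ h40
      have := congrArg σ hb4
      simp only [map_add, map_mul, map_pow, map_intCast, map_ofNat, map_neg] at this
      rw [← this, hb4]
    have s3 : σ e1 * σ e2 * σ e3 = e1 * e2 * e3 := by
      apply mul_left_cancel₀ (neg_ne_zero.2 h40)
      have := congrArg σ hb6
      simp only [map_add, map_mul, map_pow, map_intCast, map_ofNat, map_neg] at this
      rw [← this, hb6]
    have hM : ({σ e1, σ e2, σ e3} : Multiset Ω) = {e1, e2, e3} := by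
      have g : ∀ a b c : Ω, ((({a, b, c} : Multiset Ω).map (fun t => X - C t)).prod).roots =
          {a, b, c} := fun a b c => roots_multiset_prod_X_sub_C _
      rw [← g, ← g e1 e2 e3]
      congr 1
      simp only [Multiset.insert_eq_cons, Multiset.map_cons, Multiset.map_singleton,
        Multiset.prod_cons, Multiset.prod_singleton]
      have t1 := congrArg (C : Ω → Polynomial Ω) s1
      have t2 := congrArg (C : Ω → Polynomial Ω) s2
      have t3 := congrArg (C : Ω → Polynomial Ω) s3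
      simp only [C_add, C_mul] at t1 t2 t3
      linear_combination (-X ^ 2) * t1 + X * t2 - t3
    have hmap := congrArg (Multiset.map cc) hM
    simp only [Multiset.insert_eq_cons, Multiset.map_cons, Multiset.map_singleton] at hmap
    have d1 := hcc _ _ (img _ _ ⟨k1, l1⟩)
    have d2 := hcc _ _ (img _ _ ⟨k2, l2⟩)
    have d3 := hcc _ _ (img _ _ ⟨k3, l3⟩)
    rw [d1, d2, d3, hcc _ _ ⟨k1, l1⟩, hcc _ _ ⟨k2, l2⟩, hcc _ _ ⟨k3, l3⟩] at hmap
    constructor
    · have := congrArg Multiset.sum hmap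
      simp only [Multiset.sum_cons, Multiset.sum_singleton] at this
      rw [map_add, map_add]
      linear_combination this
    · have := congrArg Multiset.prod hmap
      simp only [Multiset.prod_cons, Multiset.prod_singleton] at this
      rw [map_mul, map_mul]
      linear_combination this
  have fs1 : fx H (c1 + c2 + c3) := fun σ hh => (hperm σ hh).1
  have fs3 : fx H (c1 * c2 * c3) := fun σ hh => (hperm σ hh).2
  have hs2 : c1 * c2 + c1 * c3 + c2 * c3 = ((c1 + c2 + c3) ^ 2 -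
      (3 + ((W.a₁ : Ω) ^ 2 + 4 * W.a₂) / (4 * x))) / 2 := by
    rw [hb2]
    field_simp
    have t1 : x * c1 ^ 2 = x - e1 := by rw [k1]; field_simp
    have t2 : x * c2 ^ 2 = x - e2 := by rw [k2]; field_simp
    have t3 : x * c3 ^ 2 = x - e3 := by rw [k3]; field_simp
    linear_combination -t1 - t2 - t3
  have fs2 : fx H (c1 * c2 + c1 * c3 + c2 * c3) := by
    rw [hs2]
    have n2 : fx H (2 : Ω) := by exact_mod_cast fx_nat (H := H) 2
    have n3 : fx H (3 : Ω) := by exact_mod_cast fx_nat (H := H) 3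
    have n4 : fx H (4 : Ω) := by exact_mod_cast fx_nat (H := H) 4
    exact ((fs1.pow 2).sub (n3.add ((((fx_int _).pow 2).add (n4.mul (fx_int _))).div
      (n4.mul ffx)))).div n2
  -- the scale
  have hp0 : c1 * c2 * c3 ≠ 0 := by
    intro h0
    have := congrArg w h0
    rw [map_mul, map_mul, u1, u2, u3, map_zero] at this
    simp at this
  set η : Ω := 2 * y + W.a₁ * x + W.a₃ with hη
  set s : Ω := η / (2 * x * (c1 * c2 * c3)) with hs
  have fη : fx H η := by
    have n2 : fx H (2 : Ω) := by exact_mod_cast fx_nat (H := H) 2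
    exact ((n2.mul ffy).add ((fx_int _).mul ffx)).add (fx_int _)
  have fs : fx H s := by
    have n2 : fx H (2 : Ω) := by exact_mod_cast fx_nat (H := H) 2
    exact fη.div ((n2.mul ffx).mul fs3)
  have hη2 : η ^ 2 = 4 * ((x - e1) * (x - e2) * (x - e3)) := by
    have e := eqn h.1
    rw [hη]
    linear_combination 4 * e + x ^ 2 * hb2 + x * hb4 + hb6
  have t1 : x * c1 ^ 2 = x - e1 := by rw [k1]; field_simp
  have t2 : x * c2 ^ 2 = x - e2 := by rw [k2]; field_simp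
  have t3 : x * c3 ^ 2 = x - e3 := by rw [k3]; field_simp
  have hsη : s * (2 * x * (c1 * c2 * c3)) = η :=
    div_mul_cancel₀ _ (mul_ne_zero (mul_ne_zero h20 hx0) hp0)
  have hs2x : s ^ 2 = x := by
    have e1' : (4 * x ^ 2 * (c1 * c2 * c3) ^ 2) * s ^ 2 = (4 * x ^ 2 * (c1 * c2 * c3) ^ 2) * x := by
      have e2' : (4 * x ^ 2 * (c1 * c2 * c3) ^ 2) * s ^ 2 = (s * (2 * x * (c1 * c2 * c3))) ^ 2 := by
        ring
      rw [e2', hsη, hη2, ← t1, ← t2, ← t3]
      ring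
    exact mul_left_cancel₀ (mul_ne_zero (mul_ne_zero h40 (pow_ne_zero 2 hx0))
      (pow_ne_zero 2 hp0)) e1'
  have q1 : (s * c1) ^ 2 = x - e1 := by rw [mul_pow, hs2x, t1]
  have q2 : (s * c2) ^ 2 = x - e2 := by rw [mul_pow, hs2x, t2]
  have q3 : (s * c3) ^ 2 = x - e3 := by rw [mul_pow, hs2x, t3]
  have hprod : 2 * y + W.a₁ * x + W.a₃ = 2 * ((s * c1) * (s * c2) * (s * c3)) := by
    have e : 2 * ((s * c1) * (s * c2) * (s * c3)) = (s ^ 2) * (2 * (s * (c1 * c2 * c3))) := by ring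
    rw [e, hs2x, ← hη, ← hsη]
    ring
  have hs0 : s ≠ 0 := by
    intro h0
    rw [h0, zero_pow two_ne_zero] at hs2x
    exact hx0 hs2x.symm
  have two_unit : ∀ {c c' : Ω}, w (c - 1) < w 4 → w (c' - 1) < w 4 → w (c + c') = w 2 := by
    intro c c' hc hc'
    have e : c + c' = 2 + ((c - 1) + (c' - 1)) := by ring
    rw [e]
    apply Valuation.map_add_eq_of_lt_left
    exact ((Valuation.map_add _ _ _).trans_lt (max_lt hc hc')).trans_le w42
  have ne_of_w : ∀ {z : Ω}, w z = w 2 → z ≠ 0 := by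
    rintro z hz rfl
    rw [map_zero] at hz
    exact h2 hz.symm
  have hn : ((s * c1 + s * c2) * (s * c1 + s * c3) * (s * c2 + s * c3)) ≠ 0 := by
    have e : (s * c1 + s * c2) * (s * c1 + s * c3) * (s * c2 + s * c3) =
        s ^ 3 * ((c1 + c2) * (c1 + c3) * (c2 + c3)) := by ring
    rw [e]
    exact mul_ne_zero (pow_ne_zero 3 hs0) (mul_ne_zero (mul_ne_zero (ne_of_w (two_unit l1 l2))
      (ne_of_w (two_unit l1 l3))) (ne_of_w (two_unit l2 l3)))
  obtain ⟨h', hadd⟩ := half_pt h20 hb2 hb4 hb6 h q1 q2 q3 hprod hn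
  have eX : x + ((s * c1) * (s * c2) + (s * c1) * (s * c3) + (s * c2) * (s * c3)) =
      x * (1 + (c1 * c2 + c1 * c3 + c2 * c3)) := by
    have e : (s * c1) * (s * c2) + (s * c1) * (s * c3) + (s * c2) * (s * c3) =
      s ^ 2 * (c1 * c2 + c1 * c3 + c2 * c3) := by ring
    rw [e, hs2x]; ring
  have fX : fx H (x + ((s * c1) * (s * c2) + (s * c1) * (s * c3) + (s * c2) * (s * c3))) := by
    rw [eX]
    exact ffx.mul (fx_one.add fs2)
  refine ⟨_, _, h', pfx_some.2 ⟨fX, ?_⟩, hadd, ?_⟩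
  · have n2 : fx H (2 : Ω) := by exact_mod_cast fx_nat (H := H) 2
    have e : (s * c1 + s * c2) * (s * c1 + s * c3) * (s * c2 + s * c3) =
        s ^ 3 * ((c1 + c2 + c3) * (c1 * c2 + c1 * c3 + c2 * c3) - c1 * c2 * c3) := by ring
    rw [e]
    exact ((fs.pow 3).mul ((fs1.mul fs2).sub fs3)).sub ((((fx_int _).mul fX).add (fx_int _)).div n2)
  · rw [eX, map_mul, mul_comm]
    congr 1
    have e : 1 + (c1 * c2 + c1 * c3 + c2 * c3) = 4 + (((c1 - 1) * c2 + (c2 - 1)) +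
      ((c1 - 1) * c3 + (c3 - 1)) + ((c2 - 1) * c3 + (c3 - 1))) := by ring
    rw [e]
    apply Valuation.map_add_eq_of_lt_left
    have g : ∀ {a b : Ω}, w (a - 1) < w 4 → w (b - 1) < w 4 →
        w ((a - 1) * b + (b - 1)) < w 4 := by
      intro a b ha hb
      refine (Valuation.map_add _ _ _).trans_lt (max_lt ?_ hb)
      rw [map_mul, unit hb, mul_one]; exact ha
    exact (Valuation.map_add _ _ _).trans_lt (max_lt ((Valuation.map_add _ _ _).trans_lt
      (max_lt (g l1 l2) (g l1 l3))) (g l2 l3))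

end deep

end Pool.Agent.K4H53.BSD
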