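import Mathlib
import Pool.Agent.K4H53.BSD.Red3

/-!
# The norm from a quadratic extension of a finite field is surjective on the nonsingular points
-/

set_option autoImplicit false
set_option linter.all false

open WeierstrassCurve WeierstrassCurve.Affine Polynomial
open scoped NNReal Classical

namespace Pool.Agent.K4H53.BSD

section cnt

variable {k : Type} [Field k]

/-- the quadratic polynomial whose roots are the coordinates of the other points of the line -/
def gq (a1 a2 a3 a4 xR yR m x : k) : k :=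
  x ^ 2 - (m ^ 2 + a1 * m - a2 - xR) * x + (a4 - 2 * m * (yR - m * xR) - a1 * (yR - m * xR) -
    a3 * m - xR * (m ^ 2 + a1 * m - a2 - xR))

theorem gq_line {a1 a2 a3 a4 a6 xR yR : k}
    (hR : yR ^ 2 + a1 * xR * yR + a3 * yR = xR ^ 3 + a2 * xR ^ 2 + a4 * xR + a6) (m x : k) :
    (yR + m * (x - xR)) ^ 2 + a1 * x * (yR + m * (x - xR)) + a3 * (yR + m * (x - xR)) -
      (x ^ 3 + a2 * x ^ 2 + a4 * x + a6) = -(x - xR) * gq a1 a2 a3 a4 xR yR m x := by
  unfold gq
  linear_combination hR

theorem gq_self (a1 a2 a3 a4 xR yR m : k) :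
    gq a1 a2 a3 a4 xR yR m xR = (3 * xR ^ 2 + 2 * a2 * xR + a4 - a1 * yR) -
      m * (2 * yR + a1 * xR + a3) := by
  unfold gq
  ring

/-- two singular points coincide -/
theorem sing_uniq {a1 a2 a3 a4 a6 x y x' y' : k}
    (h : y ^ 2 + a1 * x * y + a3 * y = x ^ 3 + a2 * x ^ 2 + a4 * x + a6)
    (h1 : a1 * y - (3 * x ^ 2 + 2 * a2 * x + a4) = 0) (h2 : 2 * y + a1 * x + a3 = 0)
    (h' : y' ^ 2 + a1 * x' * y' + a3 * y' = x' ^ 3 + a2 * x' ^ 2 + a4 * x' + a6)
    (h1' : a1 * y' - (3 * x' ^ 2 + 2 * a2 * x' + a4) = 0) (h2' : 2 * y' + a1 * x' + a3 = 0) :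
    x = x' ∧ y = y' := by
  have hx : x = x' := by
    by_contra hne
    have hd : x' - x ≠ 0 := sub_ne_zero.2 (Ne.symm hne)
    -- the slope
    obtain ⟨m, hm⟩ : ∃ m, y' = y + m * (x' - x) := ⟨(y' - y) / (x' - x), by field_simp; ring⟩
    subst hm
    -- the cubic polynomial at `x + d`
    have e1 : (x' - x) ^ 2 * (m ^ 2 + a1 * m - a2 - 3 * x) - (x' - x) ^ 3 = 0 := by
      linear_combination h' - h - (x' - x) * h1 - m * (x' - x) * h2
    have e1' : m ^ 2 + a1 * m - a2 - 3 * x - (x' - x) = 0 := by
      have : (x' - x) ^ 2 * (m ^ 2 + a1 * m - a2 - 3 * x - (x' - x)) = 0 := by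
        linear_combination e1
      exact (mul_eq_zero.1 this).resolve_left (pow_ne_zero 2 hd)
    have e2 : 2 * (x' - x) * (m ^ 2 + a1 * m - a2 - 3 * x) - 3 * (x' - x) ^ 2 = 0 := by
      linear_combination h1' + m * h2' - h1 - m * h2
    have e3 : (x' - x) ^ 2 = 0 := by
      linear_combination 2 * (x' - x) * e1' - e2
    exact hd (pow_eq_zero_iff two_ne_zero |>.1 e3)
  subst hx
  refine ⟨rfl, ?_⟩
  have e : (y' - y) ^ 2 = 0 := by linear_combination h' - h - (y' - y) * h2
  exact (sub_eq_zero.1 (pow_eq_zero_iff two_ne_zero |>.1 e)).symm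

theorem cnt [Fintype k] {a1 a2 a3 a4 a6 xR yR : k}
    (hR : yR ^ 2 + a1 * xR * yR + a3 * yR = xR ^ 3 + a2 * xR ^ 2 + a4 * xR + a6)
    (hns : ¬ (a1 * yR - (3 * xR ^ 2 + 2 * a2 * xR + a4) = 0 ∧ 2 * yR + a1 * xR + a3 = 0)) :
    ∃ m : k, (∀ x, gq a1 a2 a3 a4 xR yR m x ≠ 0) ∨
      ∃ x, gq a1 a2 a3 a4 xR yR m x = 0 ∧ 2 * x - (m ^ 2 + a1 * m - a2 - xR) = 0 ∧
        ¬ (a1 * (yR + m * (x - xR)) - (3 * x ^ 2 + 2 * a2 * x + a4) = 0 ∧
          2 * (yR + m * (x - xR)) + a1 * x + a3 = 0) := by
  by_contra hcon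
  push Not at hcon
  set g : k → k → k := fun m x => gq a1 a2 a3 a4 xR yR m x with hg
  have hroot : ∀ m, ∃ x, g m x = 0 := fun m => (hcon m).1
  have hdbl : ∀ m x, g m x = 0 → 2 * x - (m ^ 2 + a1 * m - a2 - xR) = 0 →
      (a1 * (yR + m * (x - xR)) - (3 * x ^ 2 + 2 * a2 * x + a4) = 0 ∧
          2 * (yR + m * (x - xR)) + a1 * x + a3 = 0) := by
    intro m x h1 h2
    exact (hcon m).2 x h1 h2
  have hon : ∀ m x, g m x = 0 → (yR + m * (x - xR)) ^ 2 + a1 * x * (yR + m * (x - xR)) +
      a3 * (yR + m * (x - xR)) = x ^ 3 + a2 * x ^ 2 + a4 * x + a6 := by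
    intro m x h
    have := gq_line hR m x
    rw [show gq a1 a2 a3 a4 xR yR m x = 0 from h, mul_zero] at this
    exact sub_eq_zero.1 this
  -- the other root
  have hoth : ∀ m x, g m x = 0 → g m ((m ^ 2 + a1 * m - a2 - xR) - x) = 0 := by
    intro m x h
    have e : g m ((m ^ 2 + a1 * m - a2 - xR) - x) = g m x := by
      simp only [hg, gq]; ring
    rw [e, h]
  have hcomm := Finset.sum_card_bipartiteAbove_eq_sum_card_bipartiteBelow
    (s := (Finset.univ : Finset k)) (t := (Finset.univ : Finset k)) (fun m x => g m x = 0)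
  -- bounds
  have two : ∀ m, (∀ x, g m x = 0 → 2 * x - (m ^ 2 + a1 * m - a2 - xR) ≠ 0) →
      2 ≤ (Finset.univ.bipartiteAbove (fun m x => g m x = 0) m).card := by
    intro m h
    obtain ⟨x, hx⟩ := hroot m
    have hne : x ≠ (m ^ 2 + a1 * m - a2 - xR) - x := by
      intro h1
      apply h x hx
      linear_combination h1
    have h3 : ({x, (m ^ 2 + a1 * m - a2 - xR) - x} : Finset k) ⊆
        Finset.univ.bipartiteAbove (fun m x => g m x = 0) m := by
      intro z hz
      rw [Finset.mem_bipartiteAbove]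
      refine ⟨Finset.mem_univ _, ?_⟩
      rcases Finset.mem_insert.1 hz with rfl | hz
      · exact hx
      · rw [Finset.mem_singleton.1 hz]; exact hoth m x hx
    have h4 := Finset.card_le_card h3
    rwa [Finset.card_pair hne] at h4
  have one : ∀ m, 1 ≤ (Finset.univ.bipartiteAbove (fun m x => g m x = 0) m).card := by
    intro m
    obtain ⟨x, hx⟩ := hroot m
    exact Finset.card_pos.2 ⟨x, (Finset.mem_bipartiteAbove _).2 ⟨Finset.mem_univ _, hx⟩⟩
  have ub2 : ∀ x, x ≠ xR → (Finset.univ.bipartiteBelow (fun m x => g m x = 0) x).card ≤ 2 := by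
    intro x hx
    have hx' : x - xR ≠ 0 := sub_ne_zero.2 hx
    by_cases hex : ∃ m, g m x = 0
    · obtain ⟨m1, h1⟩ := hex
      have h3 : Finset.univ.bipartiteBelow (fun m x => g m x = 0) x ⊆
          ({m1, (-(yR + m1 * (x - xR)) - a1 * x - a3 - yR) / (x - xR)} : Finset k) := by
        intro m hm
        have hm' : g m x = 0 := ((Finset.mem_bipartiteBelow _).1 hm).2
        have e1 := hon m1 x h1
        have e2 := hon m x hm'
        have e3 : (m - m1) * ((yR + m * (x - xR)) + (yR + m1 * (x - xR)) + a1 * x + a3) = 0 := by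
          have : (x - xR) * ((m - m1) * ((yR + m * (x - xR)) + (yR + m1 * (x - xR)) +
            a1 * x + a3)) = 0 := by linear_combination e2 - e1
          exact (mul_eq_zero.1 this).resolve_left hx'
        rw [Finset.mem_insert, Finset.mem_singleton]
        rcases mul_eq_zero.1 e3 with h | h
        · exact Or.inl (sub_eq_zero.1 h)
        · right
          rw [eq_div_iff hx']
          linear_combination h
      exact (Finset.card_le_card h3).trans Finset.card_le_two
    · push Not at hex
      have : Finset.univ.bipartiteBelow (fun m x => g m x = 0) x = ∅ := by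
        rw [Finset.eq_empty_iff_forall_notMem]
        intro m hm
        exact hex m ((Finset.mem_bipartiteBelow _).1 hm).2
      rw [this, Finset.card_empty]
      exact Nat.zero_le _
  have ub1 : (Finset.univ.bipartiteBelow (fun m x => g m x = 0) xR).card ≤ 1 := by
    rw [Finset.card_le_one]
    intro m hm m' hm'
    have e1 : g m xR = 0 := ((Finset.mem_bipartiteBelow _).1 hm).2
    have e2 : g m' xR = 0 := ((Finset.mem_bipartiteBelow _).1 hm').2
    simp only [hg, gq_self] at e1 e2
    by_contra hne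
    have e3 : (m - m') * (2 * yR + a1 * xR + a3) = 0 := by linear_combination e2 - e1
    have e4 := (mul_eq_zero.1 e3).resolve_left (sub_ne_zero.2 hne)
    apply hns
    refine ⟨?_, e4⟩
    rw [e4] at e1
    linear_combination -e1
  by_cases hA : ∃ ms us, g ms us = 0 ∧ 2 * us - (ms ^ 2 + a1 * ms - a2 - xR) = 0
  · obtain ⟨ms, us, hs, hs2⟩ := hA
    obtain ⟨s1, s2⟩ := hdbl ms us hs hs2
    have s0 := hon ms us hs
    have husR : us ≠ xR := by
      rintro rfl
      apply hns
      rw [sub_self, mul_zero, add_zero] at s1 s2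
      exact ⟨s1, s2⟩
    have ubs : (Finset.univ.bipartiteBelow (fun m x => g m x = 0) us).card ≤ 1 := by
      rw [Finset.card_le_one]
      have key : ∀ m, g m us = 0 → m = ms := by
        intro m hm
        have e2 := hon m us hm
        have e3 : ((m - ms) * (us - xR)) ^ 2 = 0 := by
          linear_combination e2 - s0 - (m - ms) * (us - xR) * s2
        have e4 := pow_eq_zero_iff two_ne_zero |>.1 e3
        exact sub_eq_zero.1 ((mul_eq_zero.1 e4).resolve_right (sub_ne_zero.2 husR))
      intro m hm m' hm'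
      rw [key m ((Finset.mem_bipartiteBelow _).1 hm).2, key m' ((Finset.mem_bipartiteBelow _).1 hm').2]
    have lb : ∀ m, 2 ≤ (Finset.univ.bipartiteAbove (fun m x => g m x = 0) m).card +
        (if m = ms then 1 else 0) := by
      intro m
      split_ifs with h
      · exact Nat.succ_le_succ (one m)
      · rw [add_zero]
        apply two
        intro x hx h2
        obtain ⟨t1, t2⟩ := hdbl m x hx h2
        obtain ⟨e1, e2⟩ := sing_uniq (hon m x hx) t1 t2 s0 s1 s2
        subst e1
        apply h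
        have : (m - ms) * (x - xR) = 0 := by linear_combination e2
        exact sub_eq_zero.1 ((mul_eq_zero.1 this).resolve_right (sub_ne_zero.2 husR))
    have ub : ∀ x, (Finset.univ.bipartiteBelow (fun m x => g m x = 0) x).card +
        ((if x = xR then 1 else 0) + (if x = us then 1 else 0)) ≤ 2 := by
      intro x
      by_cases h1 : x = xR
      · subst h1
        rw [if_pos rfl, if_neg (Ne.symm husR)]
        omega
      · by_cases h2 : x = us
        · subst h2
          rw [if_pos rfl, if_neg h1]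
          omega
        · rw [if_neg h1, if_neg h2]
          have := ub2 x h1
          omega
    have l1 := Finset.sum_le_sum (s := (Finset.univ : Finset k)) (fun m _ => lb m)
    have l2 := Finset.sum_le_sum (s := (Finset.univ : Finset k)) (fun x _ => ub x)
    rw [Finset.sum_add_distrib, Finset.sum_ite_eq' Finset.univ ms, if_pos (Finset.mem_univ _)] at l1
    rw [Finset.sum_add_distrib, Finset.sum_add_distrib, Finset.sum_ite_eq' Finset.univ xR,
      Finset.sum_ite_eq' Finset.univ us, if_pos (Finset.mem_univ _), if_pos (Finset.mem_univ _)] at l2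
    omega
  · push Not at hA
    have lb : ∀ m, 2 ≤ (Finset.univ.bipartiteAbove (fun m x => g m x = 0) m).card := by
      intro m
      exact two m (fun x hx => hA m x hx)
    have ub : ∀ x, (Finset.univ.bipartiteBelow (fun m x => g m x = 0) x).card +
        (if x = xR then 1 else 0) ≤ 2 := by
      intro x
      by_cases h1 : x = xR
      · subst h1
        rw [if_pos rfl]
        omega
      · rw [if_neg h1]
        have := ub2 x h1
        omega
    have l1 := Finset.sum_le_sum (s := (Finset.univ : Finset k)) (fun m _ => lb m)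
    have l2 := Finset.sum_le_sum (s := (Finset.univ : Finset k)) (fun x _ => ub x)
    rw [Finset.sum_add_distrib, Finset.sum_ite_eq' Finset.univ xR, if_pos (Finset.mem_univ _)] at l2
    omega

end cnt

section quad

variable {k' : Type} [Field k'] [Finite k'] {τ : k' →+* k'}

/-- the fixed field -/
def fixF (τ : k' →+* k') : Subfield k' := RingHom.eqLocusField τ (RingHom.id k')

theorem mem_fixF {x : k'} : x ∈ fixF τ ↔ τ x = x := Iff.rfl

theorem card_quad (hτ : ∀ x, τ (τ x) = x) (hne : ∃ x, τ x ≠ x) :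
    Nat.card k' = Nat.card (fixF τ) ^ 2 := by
  obtain ⟨ω, hω⟩ := hne
  have hd : ω - τ ω ≠ 0 := sub_ne_zero.2 (Ne.symm hω)
  have hd' : τ ω - ω ≠ 0 := sub_ne_zero.2 hω
  let e : (fixF τ) × (fixF τ) → k' := fun z => (z.1 : k') + z.2 * ω
  have he : Function.Bijective e := by
    constructor
    · rintro ⟨⟨a, ha⟩, ⟨b, hb⟩⟩ ⟨⟨a', ha'⟩, ⟨b', hb'⟩⟩ h
      have h1 : a + b * ω = a' + b' * ω := h
      have h2 := congrArg τ h1
      rw [map_add, map_add, map_mul, map_mul, mem_fixF.1 ha, mem_fixF.1 hb, mem_fixF.1 ha',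
        mem_fixF.1 hb'] at h2
      have h3 : (b - b') * (ω - τ ω) = 0 := by linear_combination h1 - h2
      have h4 : b = b' := sub_eq_zero.1 ((mul_eq_zero.1 h3).resolve_right hd)
      subst h4
      have h5 : a = a' := by linear_combination h1
      subst h5
      rfl
    · intro x
      have hb : τ ((x - τ x) / (ω - τ ω)) = (x - τ x) / (ω - τ ω) := by
        rw [map_div₀, map_sub, map_sub, hτ, hτ]
        field_simp
        ring
      have ha : τ (x - (x - τ x) / (ω - τ ω) * ω) = x - (x - τ x) / (ω - τ ω) * ω := by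
        rw [map_sub, map_mul, hb]
        field_simp
        ring
      refine ⟨⟨⟨_, ha⟩, ⟨_, hb⟩⟩, ?_⟩
      show x - (x - τ x) / (ω - τ ω) * ω + (x - τ x) / (ω - τ ω) * ω = x
      ring
  rw [← Nat.card_congr (Equiv.ofBijective e he), Nat.card_prod, sq]

/-- a quadratic polynomial over the fixed field has a root -/
theorem root_quad (hτ : ∀ x, τ (τ x) = x) (hne : ∃ x, τ x ≠ x) {A B : k'} (hA : τ A = A)
    (hB : τ B = B) : ∃ x : k', x ^ 2 + A * x + B = 0 := by
  haveI := Fintype.ofFinite k'
  haveI : Fintype (fixF τ) := Fintype.ofFinite _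
  let K := AlgebraicClosure k'
  let ι : k' →+* K := algebraMap k' K
  obtain ⟨x, hx⟩ : ∃ x : K, x ^ 2 + ι A * x + ι B = 0 := by
    have hd : (X ^ 2 + C (ι A) * X + C (ι B) : K[X]).degree ≠ 0 := by
      have : (X ^ 2 + C (ι A) * X + C (ι B) : K[X]).degree = 2 := by compute_degree!
      rw [this]; decide
    obtain ⟨x, hx⟩ := IsAlgClosed.exists_root _ hd
    refine ⟨x, ?_⟩
    rw [IsRoot] at hx
    simpa using hx
  set q := Fintype.card (fixF τ) with hq
  have hcard : Fintype.card k' = q ^ 2 := by
    have := card_quad hτ hne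
    rwa [Nat.card_eq_fintype_card, Nat.card_eq_fintype_card] at this
  -- the characteristic and the Frobenius
  obtain ⟨p, hp⟩ := CharP.exists (fixF τ)
  haveI := hp
  obtain ⟨n, hpp, hn⟩ := FiniteField.card (fixF τ) p
  haveI : Fact p.Prime := ⟨hpp⟩
  haveI : CharP k' p := charP_of_injective_algebraMap (algebraMap (fixF τ) k').injective p
  haveI : CharP K p := charP_of_injective_algebraMap (algebraMap k' K).injective p
  have frob : ∀ a b : K, (a + b) ^ q = a ^ q + b ^ q := by
    intro a b
    rw [hq, hn]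
    exact add_pow_char_pow a b p n
  have fA : (ι A) ^ q = ι A := by
    rw [← map_pow]
    congr 1
    have := FiniteField.pow_card (⟨A, hA⟩ : fixF τ)
    exact congrArg Subtype.val this
  have fB : (ι B) ^ q = ι B := by
    rw [← map_pow]
    congr 1
    have := FiniteField.pow_card (⟨B, hB⟩ : fixF τ)
    exact congrArg Subtype.val this
  have froot : ∀ z : K, z ^ 2 + ι A * z + ι B = 0 → (z ^ q) ^ 2 + ι A * z ^ q + ι B = 0 := by
    intro z hz
    have h1 : (z ^ 2 + ι A * z + ι B) ^ q = 0 ^ q := by rw [hz]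
    rw [frob, frob, mul_pow, fA, fB, zero_pow (by rw [hq]; exact Fintype.card_ne_zero)] at h1
    rw [← pow_mul, mul_comm q 2, pow_mul]
    exact h1
  have hx1 := froot x hx
  have h2 : (x ^ q - x) * (x ^ q + x + ι A) = 0 := by linear_combination hx1 - hx
  have hxq : (x ^ q) ^ q = x := by
    rcases mul_eq_zero.1 h2 with h | h
    · have h3 : x ^ q = x := sub_eq_zero.1 h
      rw [h3, h3]
    · have h3 : x + x ^ q = - ι A := by linear_combination h
      have h4 : (x + x ^ q) ^ q = (- ι A) ^ q := by rw [h3]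
      rw [frob] at h4
      have h5 : (- ι A) ^ q = - ι A := by
        have e := frob (ι A) (-ι A)
        rw [add_neg_cancel, zero_pow (by rw [hq]; exact Fintype.card_ne_zero), fA] at e
        linear_combination -e
      rw [h5] at h4
      linear_combination h4 - h3
  have h6 : x ^ Fintype.card k' = x := by
    rw [hcard, sq, pow_mul]; exact hxq
  have h7 : ∃ a : k', ι a = x := by
    have h8 : (X ^ Fintype.card k' - X : k'[X]) = ∏ a : k', (X - C a) :=
      by
        have hm : (X ^ Fintype.card k' - X : k'[X]).Monic :=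
          monic_X_pow_sub (by rw [degree_X]; exact_mod_cast Fintype.one_lt_card)
        have h10 := Polynomial.prod_multiset_X_sub_C_of_monic_of_roots_card_eq hm (by
          rw [FiniteField.roots_X_pow_card_sub_X,
            FiniteField.X_pow_card_sub_X_natDegree_eq _ Fintype.one_lt_card]
          rfl)
        rw [FiniteField.roots_X_pow_card_sub_X] at h10
        exact h10.symm
    have h9 := congrArg (fun f => Polynomial.eval₂ ι x f) h8
    simp only [eval₂_sub, eval₂_pow, eval₂_X, Polynomial.eval₂_finset_prod, eval₂_C] at h9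
    rw [h6, sub_self] at h9
    obtain ⟨a, -, ha⟩ := Finset.prod_eq_zero_iff.1 h9.symm
    exact ⟨a, (sub_eq_zero.1 ha).symm⟩
  obtain ⟨a, ha⟩ := h7
  refine ⟨a, ?_⟩
  apply ι.injective
  rw [map_add, map_add, map_mul, map_pow, map_zero, ha]
  exact hx

variable {W : WeierstrassCurve ℤ}

theorem slope_two {F : Type} [Field F] {x y m : F} (h : (bs W F).toAffine.Nonsingular x y)
    (hm : (W.a₁ : F) * y - (3 * x ^ 2 + 2 * W.a₂ * x + W.a₄) + m * (2 * y + W.a₁ * x + W.a₃) = 0) :
    y ≠ (bs W F).toAffine.negY x y ∧ (bs W F).toAffine.slope x x y y = m := by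
  have h2 : 2 * y + W.a₁ * x + W.a₃ ≠ (0 : F) := by
    intro h0
    rw [h0, mul_zero, add_zero] at hm
    rcases (nonsing_iff.1 h).2 with h3 | h3
    · exact h3 (sub_eq_zero.1 hm)
    · exact h3 h0
  have hy : y ≠ (bs W F).toAffine.negY x y := by
    rw [negY_eq]
    intro h0
    apply h2
    linear_combination h0
  refine ⟨hy, ?_⟩
  rw [slope_of_Y_ne rfl hy, a1, a2, a4, negY_eq]
  rw [negY_eq] at hy
  rw [div_eq_iff (sub_ne_zero.2 hy)]
  linear_combination -hm

/-- surjectivity of the norm -/
theorem norm_surj (hτ : ∀ x, τ (τ x) = x) (hne : ∃ x, τ x ≠ x) (R : (bs W k').toAffine.Point)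
    (hR : am W τ R = R) : ∃ P : (bs W k').toAffine.Point, P + am W τ P = R := by
  rcases R with _ | ⟨xR, yR0, h⟩
  · refine ⟨0, ?_⟩
    rw [am_zero, add_zero]; rfl
  rw [am_some] at hR
  obtain ⟨hxR, hyR0⟩ := Point.some.inj hR
  set yR : k' := -yR0 - W.a₁ * xR - W.a₃ with hyR
  have hyRf : τ yR = yR := by
    rw [hyR, map_sub, map_sub, map_neg, map_mul, map_intCast, map_intCast, hxR, hyR0]
  have hyR0' : yR0 = -yR - W.a₁ * xR - W.a₃ := by rw [hyR]; ring
  have heq : yR ^ 2 + W.a₁ * xR * yR + W.a₃ * yR = xR ^ 3 + W.a₂ * xR ^ 2 + W.a₄ * xR + W.a₆ := by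
    have e := eqn h.1
    rw [hyR0'] at e
    linear_combination e
  have hns : ¬ ((W.a₁ : k') * yR - (3 * xR ^ 2 + 2 * W.a₂ * xR + W.a₄) = 0 ∧
      2 * yR + W.a₁ * xR + W.a₃ = 0) := by
    rintro ⟨h1, h2⟩
    rcases (nonsing_iff.1 h).2 with h3 | h3
    · apply h3
      rw [hyR0']
      linear_combination h1 - W.a₁ * h2
    · apply h3
      rw [hyR0']
      linear_combination -h2
  haveI := Fintype.ofFinite (fixF τ)
  -- the count in the fixed field
  have iR : ((⟨xR, hxR⟩ : fixF τ) : k') = xR := rfl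
  have jR : ((⟨yR, hyRf⟩ : fixF τ) : k') = yR := rfl
  obtain ⟨⟨m, hm⟩, hcase⟩ := cnt (k := fixF τ) (a1 := W.a₁) (a2 := W.a₂) (a3 := W.a₃) (a4 := W.a₄)
    (a6 := W.a₆) (xR := ⟨xR, hxR⟩) (yR := ⟨yR, hyRf⟩) (by
      apply Subtype.ext
      push_cast
      exact heq) (by
      rintro ⟨h1, h2⟩
      apply hns
      have h1' := congrArg Subtype.val h1
      have h2' := congrArg Subtype.val h2
      push_cast at h1' h2'
      exact ⟨h1', h2'⟩)
  have hgv : ∀ (x : k') (hx : x ∈ fixF τ), ((gq (W.a₁ : fixF τ) W.a₂ W.a₃ W.a₄ ⟨xR, hxR⟩ ⟨yR, hyRf⟩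
      ⟨m, hm⟩ ⟨x, hx⟩ : fixF τ) : k') = gq (W.a₁ : k') W.a₂ W.a₃ W.a₄ xR yR m x := by
    intro x hx
    unfold gq
    push_cast
    rfl
  have hmf : τ m = m := hm
  -- the point of the line
  have hline : ∀ x, gq (W.a₁ : k') W.a₂ W.a₃ W.a₄ xR yR m x = 0 →
      (yR + m * (x - xR)) ^ 2 + W.a₁ * x * (yR + m * (x - xR)) + W.a₃ * (yR + m * (x - xR)) =
      x ^ 3 + W.a₂ * x ^ 2 + W.a₄ * x + W.a₆ := by
    intro x hx
    have := gq_line heq m x
    rw [hx, mul_zero] at this
    exact sub_eq_zero.1 this
  -- the derivative along the line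
  have hder : ∀ x, gq (W.a₁ : k') W.a₂ W.a₃ W.a₄ xR yR m x = 0 →
      W.a₁ * (yR + m * (x - xR)) - (3 * x ^ 2 + 2 * W.a₂ * x + W.a₄) +
        m * (2 * (yR + m * (x - xR)) + W.a₁ * x + W.a₃) =
      -(x - xR) * (2 * x - (m ^ 2 + W.a₁ * m - W.a₂ - xR)) := by
    intro x hx
    unfold gq at hx
    linear_combination -hx
  have hRR : (Point.some xR yR0 h : (bs W k').toAffine.Point) = Point.some xR yR0 h := rfl
  rcases hcase with hno | ⟨⟨x, hx⟩, h1, h2, h3⟩
  · -- no root in the fixed field
    obtain ⟨x, hx⟩ := root_quad hτ hne (A := -(m ^ 2 + W.a₁ * m - W.a₂ - xR))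
      (B := W.a₄ - 2 * m * (yR - m * xR) - W.a₁ * (yR - m * xR) -
        W.a₃ * m - xR * (m ^ 2 + W.a₁ * m - W.a₂ - xR))
      (by simp only [map_neg, map_sub, map_add, map_mul, map_pow, map_intCast, hmf, hxR])
      (by simp only [map_neg, map_sub, map_add, map_mul, map_pow, map_intCast, map_ofNat, hmf, hxR,
        hyRf])
    have hg : gq (W.a₁ : k') W.a₂ W.a₃ W.a₄ xR yR m x = 0 := by
      unfold gq; linear_combination hx
    have hxne : τ x ≠ x := by
      intro h0
      apply hno ⟨x, h0⟩
      apply Subtype.ext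
      rw [hgv x h0, hg]
      rfl
    have hg' : gq (W.a₁ : k') W.a₂ W.a₃ W.a₄ xR yR m (τ x) = 0 := by
      have e := congrArg τ hg
      unfold gq at e ⊢
      simp only [map_neg, map_sub, map_add, map_mul, map_pow, map_intCast, map_ofNat, hmf, hxR,
        hyRf, map_zero] at e
      exact e
    have hsum : x + τ x = m ^ 2 + W.a₁ * m - W.a₂ - xR := by
      have : (x - τ x) * (x + τ x - (m ^ 2 + W.a₁ * m - W.a₂ - xR)) = 0 := by
        unfold gq at hg hg'
        linear_combination hg - hg'
      exact sub_eq_zero.1 ((mul_eq_zero.1 this).resolve_left (sub_ne_zero.2 (Ne.symm hxne)))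
    have hxR' : x ≠ xR := by
      rintro rfl
      exact hxne hxR
    have hns' : (bs W k').toAffine.Nonsingular x (yR + m * (x - xR)) := by
      rw [nonsing_iff]
      refine ⟨by rw [Affine.equation_iff, a1, a2, a3, a4, a6]; exact hline x hg, ?_⟩
      by_contra hcon
      push Not at hcon
      obtain ⟨s1, s2⟩ := hcon
      have h4 := hder x hg
      rw [s2, mul_zero, add_zero, s1, sub_self] at h4
      rcases mul_eq_zero.1 h4.symm with h5 | h5
      · exact hxR' (sub_eq_zero.1 (neg_eq_zero.1 h5))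
      · apply hxne
        linear_combination hsum - h5
    refine ⟨Point.some _ _ hns', ?_⟩
    rw [am_some]
    have hty : τ (yR + m * (x - xR)) = yR + m * (τ x - xR) := by
      simp only [map_add, map_mul, map_sub, hmf, hxR, hyRf]
    have hslope : (bs W k').toAffine.slope x (τ x) (yR + m * (x - xR)) (τ (yR + m * (x - xR))) = m := by
      rw [slope_of_X_ne (Ne.symm hxne), hty, div_eq_iff (sub_ne_zero.2 (Ne.symm hxne))]
      ring
    rw [Point.add_some (fun h0 => hxne h0.1.symm)]
    have ex : (bs W k').toAffine.addX x (τ x) ((bs W k').toAffine.slope x (τ x)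
        (yR + m * (x - xR)) (τ (yR + m * (x - xR)))) = xR := by
      rw [hslope, addX_eq]
      linear_combination -hsum
    have ey : (bs W k').toAffine.addY x (τ x) (yR + m * (x - xR)) ((bs W k').toAffine.slope x (τ x)
        (yR + m * (x - xR)) (τ (yR + m * (x - xR)))) = yR0 := by
      rw [addY_eq, ex, hslope, hyR0']
      ring
    congr 1
  · -- a double root
    have hg : gq (W.a₁ : k') W.a₂ W.a₃ W.a₄ xR yR m x = 0 := by
      rw [← hgv x hx, h1]; rfl
    have h2' : 2 * x - (m ^ 2 + W.a₁ * m - W.a₂ - xR) = 0 := by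
      have := congrArg Subtype.val h2
      push_cast at this
      exact this
    have hns' : (bs W k').toAffine.Nonsingular x (yR + m * (x - xR)) := by
      rw [nonsing_iff]
      refine ⟨by rw [Affine.equation_iff, a1, a2, a3, a4, a6]; exact hline x hg, ?_⟩
      by_contra hcon
      push Not at hcon
      obtain ⟨s1, s2⟩ := hcon
      apply h3
      constructor
      · apply Subtype.ext
        push_cast
        exact sub_eq_zero.2 s1
      · apply Subtype.ext
        push_cast
        exact s2
    have h4 := hder x hg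
    rw [h2', mul_zero] at h4
    obtain ⟨hy, hsl⟩ := slope_two hns' h4
    refine ⟨Point.some _ _ hns', ?_⟩
    have hxf : τ x = x := hx
    have hty : τ (yR + m * (x - xR)) = yR + m * (x - xR) := by
      simp only [map_add, map_mul, map_sub, hmf, hxR, hyRf, hxf]
    have e1 : am W τ (Point.some x (yR + m * (x - xR)) hns') =
        Point.some x (yR + m * (x - xR)) hns' := by
      rw [am_some]
      congr 1
    rw [e1, Point.add_some (fun h0 => hy h0.2)]
    have ex : (bs W k').toAffine.addX x x ((bs W k').toAffine.slope x x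
        (yR + m * (x - xR)) (yR + m * (x - xR))) = xR := by
      rw [hsl, addX_eq]
      linear_combination -h2'
    have ey : (bs W k').toAffine.addY x x (yR + m * (x - xR)) ((bs W k').toAffine.slope x x
        (yR + m * (x - xR)) (yR + m * (x - xR))) = yR0 := by
      rw [addY_eq, ex, hsl, hyR0']
      ring
    congr 1

/-- a point of norm zero is a difference -/
theorem norm_ker (hτ : ∀ x, τ (τ x) = x) (hne : ∃ x, τ x ≠ x) (P : (bs W k').toAffine.Point)
    (hP : P + am W τ P = 0) : ∃ Q : (bs W k').toAffine.Point, P = Q - am W τ Q := by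
  haveI : Finite (bs W k').toAffine.Point := by
    have : Function.Injective (fun P : (bs W k').toAffine.Point =>
        (match P with
          | .zero => (none : Option (k' × k'))
          | .some x y _ => some (x, y))) := by
      intro P Q h
      rcases P with _ | ⟨x, y, h1⟩ <;> rcases Q with _ | ⟨x', y', h2⟩
      · rfl
      · simp at h
      · simp at h
      · simp only [Option.some.injEq, Prod.mk.injEq] at h
        obtain ⟨rfl, rfl⟩ := h
        rfl
    exact Finite.of_injective _ this
  have hinv : ∀ P : (bs W k').toAffine.Point, am W τ (am W τ P) = P := by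
    intro P
    rw [am_comp]
    have : τ.comp τ = RingHom.id k' := RingHom.ext hτ
    rw [this, am_id]
  let T := am W τ
  let N : (bs W k').toAffine.Point →+ (bs W k').toAffine.Point := AddMonoidHom.id _ + T
  let D : (bs W k').toAffine.Point →+ (bs W k').toAffine.Point := AddMonoidHom.id _ - T
  have hN : ∀ P, N P = P + T P := fun P => rfl
  have hD : ∀ P, D P = P - T P := fun P => rfl
  have hT : ∀ P, T (T P) = P := hinv
  -- the range of `N` is the kernel of `D`
  have h1 : N.range = D.ker := by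
    ext R
    rw [AddMonoidHom.mem_range, AddMonoidHom.mem_ker, hD, sub_eq_zero]
    constructor
    · rintro ⟨P, rfl⟩
      rw [hN, map_add, hT, add_comm]
    · intro h
      obtain ⟨P, hP⟩ := norm_surj hτ hne R h.symm
      exact ⟨P, hP⟩
  have h2 : D.range ≤ N.ker := by
    rintro _ ⟨P, rfl⟩
    rw [AddMonoidHom.mem_ker, hN, hD, map_sub, hT]
    abel
  have c1 : Nat.card (bs W k').toAffine.Point = Nat.card N.range * Nat.card N.ker := by
    rw [AddSubgroup.card_eq_card_quotient_mul_card_addSubgroup N.ker,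
      Nat.card_congr (QuotientAddGroup.quotientKerEquivRange N).toEquiv]
  have c2 : Nat.card (bs W k').toAffine.Point = Nat.card D.range * Nat.card D.ker := by
    rw [AddSubgroup.card_eq_card_quotient_mul_card_addSubgroup D.ker,
      Nat.card_congr (QuotientAddGroup.quotientKerEquivRange D).toEquiv]
  have h3 : Nat.card N.ker = Nat.card D.range := by
    rw [c1, h1, mul_comm] at c2
    have : 0 < Nat.card D.ker := Nat.card_pos
    exact Nat.eq_of_mul_eq_mul_right this c2
  have h4 : D.range = N.ker := by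
    apply AddSubgroup.eq_of_le_of_card_ge h2
    rw [h3]
  have h5 : P ∈ D.range := by
    rw [h4, AddMonoidHom.mem_ker]; exact hP
  obtain ⟨Q, hQ⟩ := h5
  exact ⟨Q, hQ.symm⟩

end quad

end Pool.Agent.K4H53.BSD
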