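import Mathlib
import Pool.Agent.K4H53.BSD.Nrm
import Pool.Agent.K4H53.BSD.Halve

/-!
# Unramified quadratic steps
-/

set_option autoImplicit false
set_option linter.all false

open WeierstrassCurve WeierstrassCurve.Affine Polynomial
open scoped NNReal Classical

namespace Pool.Agent.K4H53.BSD

attribute [-instance] Subtype.instDecidableEq

section quad

variable {Ω k k0 : Type} [Field Ω] [IsAlgClosed Ω] [Field k] [Field k0] [Algebra k0 Ω]
  {w : Valuation Ω ℝ≥0} {r : Ω → k} {W : WeierstrassCurve ℤ}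

/-- the fixed field of `H` is unramified with uniformiser `π` and finite residue field -/
structure UR (w : Valuation Ω ℝ≥0) (π : k0) (H : Subgroup (Ω ≃ₐ[k0] Ω)) : Prop where
  val : ∀ x, fx H x → x ≠ 0 → ∃ n : ℤ, w x = w (algebraMap k0 Ω π) ^ n
  fin : ∃ F : Finset Ω, ∀ x, fx H x → w x ≤ 1 → ∃ y ∈ F, w (x - y) < 1

/-- a quadratic step -/
structure QS (H H' : Subgroup (Ω ≃ₐ[k0] Ω)) (σ : Ω ≃ₐ[k0] Ω) : Prop where
  le : H' ≤ H
  mem : σ ∈ H
  nrm : ∀ τ ∈ H', σ⁻¹ * τ * σ ∈ H'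
  gen : ∀ τ ∈ H, τ ∈ H' ∨ σ⁻¹ * τ ∈ H'
  sq : σ * σ ∈ H'
  mov : ∃ x, fx H' x ∧ σ x ≠ x

variable {H H' : Subgroup (Ω ≃ₐ[k0] Ω)} {σ : Ω ≃ₐ[k0] Ω} {π : k0}

theorem fx_alg (c : k0) : fx H (algebraMap k0 Ω c) := fun σ _ => σ.commutes c

theorem fx.mono (hle : H' ≤ H) {x : Ω} (h : fx H x) : fx H' x := fun τ hτ => h τ (hle hτ)

theorem pfx.mono (hle : H' ≤ H) {P : (bs W Ω).toAffine.Point} (h : pfx H P) : pfx H' P :=
  fun τ hτ => h τ (hle hτ)

theorem UR.mono (hle : H' ≤ H) (h : UR w π H') : UR w π H :=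
  ⟨fun x hx => h.val x (hx.mono hle), by
    obtain ⟨F, hF⟩ := h.fin
    exact ⟨F, fun x hx => hF x (hx.mono hle)⟩⟩

theorem UR.lt (h : UR w π H) (h1 : w (algebraMap k0 Ω π) < 1) (h0 : w (algebraMap k0 Ω π) ≠ 0)
    {x : Ω} (hx : fx H x) (hx1 : w x < 1) : w x ≤ w (algebraMap k0 Ω π) := by
  by_cases h2 : x = 0
  · rw [h2, map_zero]; exact zero_le
  obtain ⟨n, hn⟩ := h.val x hx h2
  have hn0 : 0 < n := by
    by_contra hcon
    push Not at hcon
    have : 1 ≤ w (algebraMap k0 Ω π) ^ n := one_le_zpow_of_nonpos₀ (pos_iff_ne_zero.2 h0) h1.le hcon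
    rw [hn] at hx1
    exact absurd hx1 (not_lt.2 this)
  rw [hn]
  calc w (algebraMap k0 Ω π) ^ n ≤ w (algebraMap k0 Ω π) ^ (1 : ℤ) :=
        zpow_le_zpow_right_of_le_one₀ (pos_iff_ne_zero.2 h0) h1.le (by omega)
    _ = _ := zpow_one _

namespace QS

variable (hq : QS H H' σ)
include hq

theorem fx_iff {x : Ω} : fx H x ↔ fx H' x ∧ σ x = x := by
  refine ⟨fun h => ⟨h.mono hq.le, h σ hq.mem⟩, fun ⟨h1, h2⟩ τ hτ => ?_⟩
  rcases hq.gen τ hτ with h3 | h3
  · exact h1 τ h3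
  · have h4 := h1 _ h3
    rw [AlgEquiv.mul_apply] at h4
    have h5 := congrArg σ h4
    rw [h2] at h5
    exact (σ.apply_symm_apply (τ x)).symm.trans h5

theorem fxσ {x : Ω} (h : fx H' x) : fx H' (σ x) := fun τ hτ => by
  have h1 := h _ (hq.nrm τ hτ)
  rw [AlgEquiv.mul_apply, AlgEquiv.mul_apply] at h1
  have h5 := congrArg σ h1
  rw [← AlgEquiv.mul_apply, mul_inv_cancel, AlgEquiv.one_apply] at h5
  exact h5

theorem inv {x : Ω} (h : fx H' x) : σ (σ x) = x := by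
  have := h _ hq.sq
  rwa [AlgEquiv.mul_apply] at this

theorem pfxσ {P : (bs W Ω).toAffine.Point} (h : pfx H' P) : pfx H' (am W (σ : Ω →+* Ω) P) := by
  rcases P with _ | ⟨x, y, hP⟩
  · exact pfx.zero
  · rw [am_some]
    obtain ⟨h1, h2⟩ := pfx_some.1 h
    exact pfx_some.2 ⟨hq.fxσ h1, hq.fxσ h2⟩

theorem pinv {P : (bs W Ω).toAffine.Point} (h : pfx H' P) :
    am W (σ : Ω →+* Ω) (am W (σ : Ω →+* Ω) P) = P := by
  rcases P with _ | ⟨x, y, hP⟩
  · rfl
  · rw [am_some, am_some]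
    obtain ⟨h1, h2⟩ := pfx_some.1 h
    have e1 : (σ : Ω →+* Ω) ((σ : Ω →+* Ω) x) = x := hq.inv h1
    have e2 : (σ : Ω →+* Ω) ((σ : Ω →+* Ω) y) = y := hq.inv h2
    congr 1

theorem pfx_iff {P : (bs W Ω).toAffine.Point} :
    pfx H P ↔ pfx H' P ∧ am W (σ : Ω →+* Ω) P = P := by
  rcases P with _ | ⟨x, y, hP⟩
  · exact ⟨fun _ => ⟨pfx.zero, rfl⟩, fun _ => pfx.zero⟩
  · rw [pfx_some, pfx_some, am_some, hq.fx_iff, hq.fx_iff]
    constructor
    · rintro ⟨⟨h1, h2⟩, h3, h4⟩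
      refine ⟨⟨h1, h3⟩, ?_⟩
      have e1 : (σ : Ω →+* Ω) x = x := h2
      have e2 : (σ : Ω →+* Ω) y = y := h4
      congr 1
    · rintro ⟨⟨h1, h2⟩, h3⟩
      obtain ⟨e1, e2⟩ := Point.some.inj h3
      exact ⟨⟨h1, e1⟩, h2, e2⟩

end QS

/-- the residue field of the fixed field -/
def kf (hr : RM w r) (H : Subgroup (Ω ≃ₐ[k0] Ω)) : Subfield k where
  carrier := {c | ∃ x, fx H x ∧ w x ≤ 1 ∧ r x = c}
  mul_mem' := by
    rintro _ _ ⟨x, h1, h2, rfl⟩ ⟨y, h3, h4, rfl⟩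
    exact ⟨x * y, h1.mul h3, w_mul h2 h4, hr.mul h2 h4⟩
  one_mem' := ⟨1, fx_one, by rw [map_one], hr.one⟩
  add_mem' := by
    rintro _ _ ⟨x, h1, h2, rfl⟩ ⟨y, h3, h4, rfl⟩
    exact ⟨x + y, h1.add h3, w_add h2 h4, hr.add h2 h4⟩
  zero_mem' := ⟨0, fx_zero, by rw [map_zero]; exact zero_le, hr.zero⟩
  neg_mem' := by
    rintro _ ⟨x, h1, h2, rfl⟩
    exact ⟨-x, h1.neg, w_neg h2, hr.neg h2⟩
  inv_mem' := by
    rintro _ ⟨x, h1, h2, rfl⟩
    rcases eq_or_lt_of_le h2 with h3 | h3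
    · refine ⟨1 / x, fx_one.div h1, w_div (by rw [map_one]) h3, ?_⟩
      rw [hr.div (by rw [map_one]) h3, hr.one, one_div]
    · rw [(hr.zero_iff h2).2 h3, inv_zero]
      exact ⟨0, fx_zero, by rw [map_zero]; exact zero_le, hr.zero⟩

theorem mem_kf {hr : RM w r} {c : k} : c ∈ kf hr H ↔ ∃ x, fx H x ∧ w x ≤ 1 ∧ r x = c := Iff.rfl

theorem kf_finite (hr : RM w r) (h : UR w π H) : Finite (kf hr H) := by
  obtain ⟨F, hF⟩ := h.fin
  have : ((kf hr H : Subfield k) : Set k) ⊆ (F.image r : Finset k) := by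
    rintro c ⟨x, h1, h2, rfl⟩
    obtain ⟨y, hy, h3⟩ := hF x h1 h2
    have h4 : w y ≤ 1 := by
      have e : y = x - (x - y) := by ring
      rw [e]; exact w_sub h2 h3.le
    rw [Finset.coe_image]
    exact ⟨y, hy, ((hr.eq_iff h2 h4).2 h3).symm⟩
  exact (Finset.finite_toSet _).subset this

/-- existence of a generator of the ring of integers -/
theorem exists_omega (hσ : ∀ (σ : Ω ≃ₐ[k0] Ω) (x : Ω), w (σ x) = w x) (hr : RM w r)
    (h : UR w π H') (hq : QS H H' σ) (h1 : w (algebraMap k0 Ω π) < 1)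
    (h0 : w (algebraMap k0 Ω π) ≠ 0) : ∃ ω, fx H' ω ∧ w ω ≤ 1 ∧ w (ω - σ ω) = 1 := by
  by_contra hcon
  push Not at hcon
  have hlt : ∀ x, fx H' x → w x ≤ 1 → w (x - σ x) < 1 := fun x hx hx1 =>
    lt_of_le_of_ne (w_sub hx1 (by rw [hσ]; exact hx1)) (hcon x hx hx1)
  haveI := kf_finite hr h
  -- approximation modulo the maximal ideal
  have happ : ∀ x, fx H' x → w x ≤ 1 → ∃ y, fx H y ∧ w y ≤ 1 ∧ w (x - y) < 1 := by
    intro x hx hx1
    have hσ1 : w (σ x) ≤ 1 := by rw [hσ]; exact hx1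
    have hrσ : r (σ x) = r x := ((hr.eq_iff hx1 hσ1).2 (hlt x hx hx1)).symm
    by_cases h2 : (2 : k) = 0
    · -- characteristic two
      have hc2 : CharP k 2 := CharTwo.of_one_ne_zero_of_two_eq_zero one_ne_zero h2
      have hinj : Function.Injective (fun c : kf hr H' => c ^ 2) := by
        intro a b hab
        have h3 : (a : k) ^ 2 = (b : k) ^ 2 := congrArg Subtype.val hab
        apply Subtype.ext
        have h4 : ((a : k) - b) ^ 2 = 0 := by
          linear_combination h3 - h2 * (a * b - b ^ 2 : k)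
        exact sub_eq_zero.1 (pow_eq_zero_iff two_ne_zero |>.1 h4)
      obtain ⟨⟨d, x', hx', hx1', hd⟩, hd2⟩ := Finite.surjective_of_injective hinj
        ⟨r x, x, hx, hx1, rfl⟩
      have hd2' : d ^ 2 = r x := congrArg Subtype.val hd2
      have hσ1' : w (σ x') ≤ 1 := by rw [hσ]; exact hx1'
      have hrσ' : r (σ x') = r x' := ((hr.eq_iff hx1' hσ1').2 (hlt x' hx' hx1')).symm
      refine ⟨x' * σ x', ?_, w_mul hx1' hσ1', ?_⟩
      · rw [hq.fx_iff]
        refine ⟨hx'.mul (hq.fxσ hx'), ?_⟩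
        rw [map_mul, hq.inv hx', mul_comm]
      · rw [← hr.eq_iff hx1 (w_mul hx1' hσ1'), hr.mul hx1' hσ1', hrσ', hd, ← hd2', sq]
    · have hw2 : w (2 : Ω) = 1 := by
        rw [← hr.ne_zero (w_two w), hr.two]; exact h2
      have hi : w ((x + σ x) / 2) ≤ 1 := w_div (w_add hx1 hσ1) hw2
      refine ⟨(x + σ x) / 2, ?_, hi, ?_⟩
      · rw [hq.fx_iff]
        have n2 : fx H' (2 : Ω) := by exact_mod_cast fx_nat (H := H') 2
        refine ⟨(hx.add (hq.fxσ hx)).div n2, ?_⟩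
        rw [map_div₀, map_add, hq.inv hx, map_ofNat, add_comm]
      · rw [← hr.eq_iff hx1 hi, hr.div (w_add hx1 hσ1) hw2, hr.add hx1 hσ1, hrσ, hr.two]
        field_simp
        ring
  have hπ0 : algebraMap k0 Ω π ≠ 0 := by
    intro h2
    rw [h2, map_zero] at h0
    exact h0 rfl
  set P : Ω := algebraMap k0 Ω π with hP
  have happn : ∀ (n : ℕ) x, fx H' x → w x ≤ 1 → ∃ y, fx H y ∧ w (x - y) ≤ w P ^ n := by
    intro n
    induction n with
    | zero =>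
      intro x hx hx1
      exact ⟨0, fx_zero, by rw [sub_zero, pow_zero]; exact hx1⟩
    | succ n ih =>
      intro x hx hx1
      obtain ⟨y, hy, hxy⟩ := ih x hx hx1
      have hx' : fx H' ((x - y) / P ^ n) := (hx.sub (hy.mono hq.le)).div ((fx_alg π).pow n)
      have hx1' : w ((x - y) / P ^ n) ≤ 1 := by
        rw [map_div₀, map_pow]
        exact div_le_one_of_le₀ hxy zero_le
      obtain ⟨y', hy', hy1', hxy'⟩ := happ _ hx' hx1'
      refine ⟨y + P ^ n * y', hy.add (((fx_alg π).pow n).mul hy'), ?_⟩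
      have e : x - (y + P ^ n * y') = P ^ n * ((x - y) / P ^ n - y') := by
        field_simp
        ring
      rw [e, map_mul, map_pow, pow_succ]
      exact mul_le_mul_right (h.lt h1 h0 (hx'.sub (hy'.mono hq.le)) hxy') _
  -- contradiction
  have hfix : ∀ x, fx H' x → w x ≤ 1 → σ x = x := by
    intro x hx hx1
    have hle : ∀ n : ℕ, w (x - σ x) ≤ w P ^ n := by
      intro n
      obtain ⟨y, hy, hxy⟩ := happn n x hx hx1
      have e : x - σ x = (x - y) - σ (x - y) := by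
        rw [map_sub, hy σ hq.mem]; ring
      rw [e]
      exact w_sub hxy (by rw [hσ]; exact hxy)
    by_contra hne
    have hpos : 0 < w (x - σ x) := by
      rw [Valuation.pos_iff]; exact sub_ne_zero.2 (Ne.symm hne)
    obtain ⟨n, hn⟩ := NNReal.exists_pow_lt_of_lt_one hpos h1
    exact absurd (hle n) (not_le.2 hn)
  obtain ⟨x, hx, hxm⟩ := hq.mov
  by_cases hx1 : w x ≤ 1
  · exact hxm (hfix x hx hx1)
  · have hx0 : x ≠ 0 := by
      rintro rfl
      rw [map_zero] at hx1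
      exact hx1 zero_le
    have hxi : w (1 / x) ≤ 1 := by
      rw [map_div₀, map_one]
      push Not at hx1
      exact div_le_one_of_le₀ hx1.le zero_le
    have := hfix (1 / x) (fx_one.div hx) hxi
    rw [map_div₀, map_one] at this
    apply hxm
    exact inv_injective (by rw [← one_div, ← one_div]; exact this)

/-- the automorphism of the residue field -/
theorem exists_tau (hr : RM w r) (hs : ∀ c, ∃ x, w x ≤ 1 ∧ r x = c) (f : Ω →+* Ω)
    (hf : ∀ x, w (f x) = w x) : ∃ τ : k →+* k, ∀ x, w x ≤ 1 → r (f x) = τ (r x) := by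
  choose s hs1 hs2 using hs
  have hi : ∀ {x}, w x ≤ 1 → w (f x) ≤ 1 := fun h => by rw [hf]; exact h
  have key : ∀ x, w x ≤ 1 → r (f x) = r (f (s (r x))) := by
    intro x hx
    have h1 : w (x - s (r x)) < 1 := (hr.eq_iff hx (hs1 _)).1 (hs2 _).symm
    rw [hr.eq_iff (hi hx) (hi (hs1 _)), ← map_sub, hf]
    exact h1
  refine ⟨⟨⟨⟨fun c => r (f (s c)), ?_⟩, ?_⟩, ?_, ?_⟩, key⟩
  · have h1 := key 1 (by rw [map_one])
    rw [map_one, hr.one] at h1
    exact h1.symm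
  · intro a b
    have h1 := key (s a * s b) (w_mul (hs1 a) (hs1 b))
    rw [map_mul, hr.mul (hi (hs1 a)) (hi (hs1 b)), hr.mul (hs1 a) (hs1 b), hs2, hs2] at h1
    exact h1.symm
  · have h1 := key 0 (by rw [map_zero]; exact zero_le)
    rw [map_zero, hr.zero] at h1
    exact h1.symm
  · intro a b
    have h1 := key (s a + s b) (w_add (hs1 a) (hs1 b))
    rw [map_add, hr.add (hi (hs1 a)) (hi (hs1 b)), hr.add (hs1 a) (hs1 b), hs2, hs2] at h1
    exact h1.symm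

end quad

section step

variable {Ω k k0 : Type} [Field Ω] [IsAlgClosed Ω] [Field k] [Field k0] [Algebra k0 Ω]
  {w : Valuation Ω ℝ≥0} {r : Ω → k} {W : WeierstrassCurve ℤ}
  {H H' : Subgroup (Ω ≃ₐ[k0] Ω)} {σ : Ω ≃ₐ[k0] Ω} {π : k0}

/-- the reduction of a fixed point is rational -/
theorem rd_kf (hr : RM w r) {P : (bs W Ω).toAffine.Point} {Q : (bs W k).toAffine.Point}
    (h : pfx H P) (hP : Rd w r W P Q) :
    ∃ Q' : (bs W (kf hr H)).toAffine.Point, am W (kf hr H).subtype Q' = Q := by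
  rcases P with _ | ⟨x, y, h1⟩ <;> rcases Q with _ | ⟨a, b, h2⟩
  · exact ⟨0, rfl⟩
  · exact absurd hP id
  · exact ⟨0, rfl⟩
  · obtain ⟨i1, i2, rfl, rfl⟩ := hP
    obtain ⟨f1, f2⟩ := pfx_some.1 h
    have m1 : r x ∈ kf hr H := ⟨x, f1, i1, rfl⟩
    have m2 : r y ∈ kf hr H := ⟨y, f2, i2, rfl⟩
    have hns : (bs W (kf hr H)).toAffine.Nonsingular ⟨r x, m1⟩ ⟨r y, m2⟩ := by
      rw [nonsing_iff] at h2 ⊢
      obtain ⟨e1, e2⟩ := h2
      refine ⟨?_, ?_⟩
      · rw [Affine.equation_iff, a1, a2, a3, a4, a6]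
        apply Subtype.ext
        push_cast
        exact eqn e1
      · refine e2.imp (fun h3 h4 => h3 ?_) (fun h3 h4 => h3 ?_)
        · have := congrArg Subtype.val h4
          push_cast at this
          exact this
        · have := congrArg Subtype.val h4
          push_cast at this
          exact this
    exact ⟨Point.some _ _ hns, rfl⟩

/-- lifting of the rational points of the residue field -/
theorem lift_kf (hσ : ∀ (σ : Ω ≃ₐ[k0] Ω) (x : Ω), w (σ x) = w x) (hr : RM w r)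
    (Q : (bs W (kf hr H)).toAffine.Point) :
    ∃ P : (bs W Ω).toAffine.Point, pfx H P ∧ Rd w r W P (am W (kf hr H).subtype Q) := by
  rcases Q with _ | ⟨⟨_, x, fx, ix, rfl⟩, ⟨_, y, fy, iy, rfl⟩, h⟩
  · exact ⟨0, pfx.zero, trivial⟩
  · exact lift_pt hσ hr (ns_map (kf hr H).subtype h) ix iy fx fy rfl rfl

/-- the first step -/
theorem step0 (hσ : ∀ (σ : Ω ≃ₐ[k0] Ω) (x : Ω), w (σ x) = w x)
    (h : UR w π H') (hq : QS H H' σ) (h1 : w (algebraMap k0 Ω π) < 1)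
    (h0 : w (algebraMap k0 Ω π) ≠ 0) {P : (bs W Ω).toAffine.Point} (hP : pfx H' P)
    (hP0 : In0 w P) (hσP : am W (σ : Ω →+* Ω) P = -P) :
    ∃ S : (bs W Ω).toAffine.Point, pfx H' S ∧ In0 w S ∧
      In1 w (P - (S - am W (σ : Ω →+* Ω) S)) := by
  obtain ⟨r, hr, hs⟩ := exists_rm w
  obtain ⟨τ, hτ⟩ := exists_tau hr hs (σ : Ω →+* Ω) (hσ σ)
  obtain ⟨ω, ω1, ω2, ω3⟩ := exists_omega hσ hr h hq h1 h0
  haveI := kf_finite hr h
  obtain ⟨Q, hQ⟩ := (in0_iff hr).1 hP0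
  obtain ⟨Q', rfl⟩ := rd_kf hr hP hQ
  -- the involution of the residue field
  have hmap : ∀ c ∈ kf hr H', τ c ∈ kf hr H' := by
    rintro _ ⟨x, fx, ix, rfl⟩
    exact ⟨σ x, hq.fxσ fx, by rw [hσ]; exact ix, hτ x ix⟩
  let τ' : kf hr H' →+* kf hr H' := (τ.comp (kf hr H').subtype).codRestrict _ (fun c => hmap _ c.2)
  have hτ'2 : ∀ x, τ' (τ' x) = x := by
    rintro ⟨_, x, fx, ix, rfl⟩
    apply Subtype.ext
    show τ (τ (r x)) = r x
    rw [← hτ x ix, ← hτ _ (by show w (σ x) ≤ 1; rw [hσ]; exact ix)]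
    exact congrArg r (hq.inv fx)
  have hτ'ne : ∃ x, τ' x ≠ x := by
    refine ⟨⟨r ω, ω, ω1, ω2, rfl⟩, fun h2 => ?_⟩
    have h3 : τ (r ω) = r ω := congrArg Subtype.val h2
    rw [← hτ ω ω2] at h3
    have h4 := (hr.eq_iff (show w (σ ω) ≤ 1 by rw [hσ]; exact ω2) ω2).1 h3
    have e : σ ω - ω = -(ω - σ ω) := by ring
    have h4 : w (σ ω - ω) < 1 := h4
    rw [e, Valuation.map_neg, ω3] at h4
    exact lt_irrefl _ h4
  have hcomm : ∀ Q : (bs W (kf hr H')).toAffine.Point, am W τ (am W (kf hr H').subtype Q) =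
      am W (kf hr H').subtype (am W τ' Q) := by
    intro Q
    rw [am_comp, am_comp]
    rfl
  have hN : Q' + am W τ' Q' = 0 := by
    apply am_inj (kf hr H').subtype
    have e1 := Rd.act hr hQ (σ : Ω →+* Ω) τ (hσ σ) hτ
    rw [hσP] at e1
    have e2 := (Rd.neg hr hQ).uniq e1
    rw [map_add, am_zero, ← hcomm, ← e2, add_neg_cancel]
  obtain ⟨S', hS'⟩ := norm_ker hτ'2 hτ'ne Q' hN
  obtain ⟨S, hS1, hS2⟩ := lift_kf hσ hr S'
  refine ⟨S, hS1, (in0_iff hr).2 ⟨_, hS2⟩, ?_⟩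
  rw [← rd_zero_iff (r := r)]
  have e3 := Rd.sub hr hQ (Rd.sub hr hS2 (Rd.act hr hS2 (σ : Ω →+* Ω) τ (hσ σ) hτ))
  have e4 : am W (kf hr H').subtype Q' - (am W (kf hr H').subtype S' -
      am W τ (am W (kf hr H').subtype S')) = 0 := by
    rw [hcomm, ← map_sub, ← map_sub, ← hS', sub_self, am_zero]
  rw [e4] at e3
  exact e3

end step

end Pool.Agent.K4H53.BSD
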