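import Mathlib
import Pool.Agent.K4H53.BSD.Quad

/-!
# Triviality of the first cohomology of the points with nonsingular reduction
-/

set_option autoImplicit false
set_option linter.all false

open WeierstrassCurve WeierstrassCurve.Affine Polynomial
open scoped NNReal Classical

namespace Pool.Agent.K4H53.BSD

section h1

variable {Ω k0 : Type} [Field Ω] [IsAlgClosed Ω] [Field k0] [Algebra k0 Ω]
  {w : Valuation Ω ℝ≥0} {W : WeierstrassCurve ℤ}
  {H H' : Subgroup (Ω ≃ₐ[k0] Ω)} {σ : Ω ≃ₐ[k0] Ω} {π : k0}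

theorem Z_lt {P : (bs W Ω).toAffine.Point} (hP : In1 w P) : w (Z P) < 1 := by
  rcases P with _ | ⟨x, y, h⟩
  · show w (0 : Ω) < 1
    rw [map_zero]; exact zero_lt_one
  · have hx := hP _ _ _ rfl
    have h1 := w_Z h hx
    by_contra hcon
    rw [not_lt] at hcon
    have : 1 < w (Z (Point.some x y h)) ^ 2 * w x :=
      lt_of_lt_of_le hx (le_mul_of_one_le_left zero_le (one_le_pow₀ hcon))
    rw [h1] at this
    exact lt_irrefl _ this

theorem Z_eq_zero {P : (bs W Ω).toAffine.Point} (hP : In1 w P) (h0 : Z P = 0) : P = 0 := by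
  rcases P with _ | ⟨x, y, h⟩
  · rfl
  · have h1 := w_Z h (hP _ _ _ rfl)
    rw [h0, map_zero, zero_pow two_ne_zero, zero_mul] at h1
    exact absurd h1 zero_ne_one

theorem fx_Z {P : (bs W Ω).toAffine.Point} (hP : pfx H P) : fx H (Z P) := by
  rcases P with _ | ⟨x, y, h⟩
  · exact fx_zero
  · obtain ⟨h1, h2⟩ := pfx_some.1 hP
    exact h1.neg.div h2

theorem Z_neg_le {ρ : ℝ≥0} (hρ : ρ ≤ 1) {P : (bs W Ω).toAffine.Point} (hP : In1 w P)
    (h : w (Z P) ≤ ρ) : w (Z (-P)) ≤ ρ := by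
  have h1 := Z_neg hP h
  have e : Z (-P) = (Z (-P) + Z P) - Z P := by ring
  rw [e]
  refine w_sub (h1.trans ?_) h
  rw [sq]; exact mul_le_of_le_one_left' hρ

/-- difference of two points -/
theorem Z_sub {ρ : ℝ≥0} (hρ : ρ < 1) {P Q : (bs W Ω).toAffine.Point} (hP : In1 w P)
    (hQ : In1 w Q) (h1 : w (Z P) ≤ ρ) (h2 : w (Z Q) ≤ ρ) :
    w (Z (P - Q) - (Z P - Z Q)) ≤ ρ ^ 2 := by
  have h3 := Z_add hρ hP hQ.neg h1 (Z_neg_le hρ.le hQ h2)
  have h4 := Z_neg hQ h2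
  have e : Z (P - Q) - (Z P - Z Q) = (Z (P + -Q) - Z P - Z (-Q)) + (Z (-Q) + Z Q) := by
    rw [sub_eq_add_neg P Q]; ring
  rw [e]
  exact w_add h3 h4

/-- one step of the approximation -/
theorem step1 (hσ : ∀ (σ : Ω ≃ₐ[k0] Ω) (x : Ω), w (σ x) = w x) (hW : (W.Δ : Ω) ≠ 0)
    (hq : QS H H' σ) {ω : Ω} (ω1 : fx H' ω) (ω2 : w ω ≤ 1) (ω3 : w (ω - σ ω) = 1)
    {d : Ω} (fd : fx H d) (hd0 : d ≠ 0) (hd1 : w d < 1) {P : (bs W Ω).toAffine.Point}
    (hP : pfx H' P) (hP1 : In1 w P) (hσP : am W (σ : Ω →+* Ω) P = -P) (hZ : w (Z P) ≤ w d) :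
    ∃ S : (bs W Ω).toAffine.Point, pfx H' S ∧ In1 w S ∧
      w (Z (P - (S - am W (σ : Ω →+* Ω) S))) ≤ w (d ^ 2) := by
  by_cases hz0 : Z P = 0
  · refine ⟨0, pfx.zero, In1.zero, ?_⟩
    rw [am_zero, sub_zero, sub_zero, hz0, map_zero]; exact zero_le
  have hw0 : w (ω - σ ω) ≠ 0 := by rw [ω3]; exact one_ne_zero
  have hω0 : ω - σ ω ≠ 0 := by
    intro h0
    rw [h0, map_zero] at hw0
    exact hw0 rfl
  have hω : ω ≠ 0 := by
    rintro rfl
    rw [map_zero, sub_zero] at hω0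
    exact hω0 rfl
  have hσω : w (σ ω) ≤ 1 := by rw [hσ]; exact ω2
  have hσd : σ d = d := fd σ hq.mem
  have fd' : fx H' d := fd.mono hq.le
  set c : Ω := Z P / d with hc
  have hcd : c * d = Z P := div_mul_cancel₀ _ hd0
  have hc1 : w c ≤ 1 := by
    rw [hc, map_div₀]
    exact div_le_one_of_le₀ hZ zero_le
  have hc0 : c ≠ 0 := div_ne_zero hz0 hd0
  set a : Ω := c * ω / (ω - σ ω) with ha
  have ha1 : w a ≤ 1 := w_div (w_mul hc1 ω2) ω3
  have ha0 : a ≠ 0 := div_ne_zero (mul_ne_zero hc0 hω) hω0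
  have fc : fx H' c := (fx_Z hP).div fd'
  have fa : fx H' a := (fc.mul ω1).div (ω1.sub (hq.fxσ ω1))
  obtain ⟨S, hS, hS1, hSZ⟩ := lift_z (W := W) (H := H') hσ hW (t := d * a)
    (by rw [map_mul]; exact (mul_le_of_le_one_right' ha1).trans_lt hd1)
    (mul_ne_zero hd0 ha0) (fd'.mul fa)
  have hS2 : In1 w (am W (σ : Ω →+* Ω) S) := hS1.act _ (hσ σ)
  have hle1 : w (Z S) ≤ w d := by
    rw [hSZ, map_mul]; exact mul_le_of_le_one_right' ha1
  have hle2 : w (Z (am W (σ : Ω →+* Ω) S)) ≤ w d := by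
    rw [Z_act]
    show w (σ (Z S)) ≤ _
    rw [hσ]; exact hle1
  have hD1 : In1 w (S - am W (σ : Ω →+* Ω) S) := by
    rw [sub_eq_add_neg]; exact hS1.add hS2.neg
  have hDz := Z_sub hd1 hS1 hS2 hle1 hle2
  have hd2 : w d ^ 2 ≤ w d := by rw [sq]; exact mul_le_of_le_one_left' hd1.le
  have hDle : w (Z (S - am W (σ : Ω →+* Ω) S)) ≤ w d := by
    have e : Z (S - am W (σ : Ω →+* Ω) S) = (Z (S - am W (σ : Ω →+* Ω) S) -
      (Z S - Z (am W (σ : Ω →+* Ω) S))) + (Z S - Z (am W (σ : Ω →+* Ω) S)) := by ring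
    rw [e]
    exact w_add (hDz.trans hd2) (w_sub hle1 hle2)
  have hPz := Z_sub hd1 hP1 hD1 hZ hDle
  refine ⟨S, hS, hS1, ?_⟩
  have e1 : Z (P - (S - am W (σ : Ω →+* Ω) S)) =
      (Z (P - (S - am W (σ : Ω →+* Ω) S)) - (Z P - Z (S - am W (σ : Ω →+* Ω) S))) -
      (Z (S - am W (σ : Ω →+* Ω) S) - (Z S - Z (am W (σ : Ω →+* Ω) S))) +
      (Z P - Z S + Z (am W (σ : Ω →+* Ω) S)) := by ring
  rw [e1, map_pow]
  refine w_add (w_sub hPz hDz) ?_
  -- the main term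
  have e2 : Z P - Z S + Z (am W (σ : Ω →+* Ω) S) = -(d * σ ω * (c + σ c)) / (ω - σ ω) := by
    have e3 : Z (am W (σ : Ω →+* Ω) S) = d * (σ c * σ ω / (σ ω - ω)) := by
      rw [Z_act, hSZ]
      show σ (d * (c * ω / (ω - σ ω))) = _
      rw [map_mul, hσd, map_div₀, map_mul, map_sub, hq.inv ω1]
    have hω0' : σ ω - ω ≠ 0 := by
      rw [← neg_sub]; exact neg_ne_zero.2 hω0
    rw [e3, hSZ, ← hcd, ha]
    field_simp
    have e4 : σ ω - ω = -(ω - σ ω) := by ring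
    rw [e4]
    ring
  rw [e2, map_div₀, ω3, div_one, Valuation.map_neg, map_mul, map_mul]
  have e5 : w d * w (c + σ c) ≤ w d ^ 2 := by
    have e6 : d * (c + σ c) = Z (-P) + Z P := by
      have e7 : σ c * d = Z (-P) := by
        rw [← hσP, Z_act]
        show σ c * d = σ (Z P)
        rw [← hcd, map_mul, hσd]
      linear_combination hcd + e7
    rw [← map_mul, e6]
    exact Z_neg hP1 hZ
  calc w d * w (σ ω) * w (c + σ c) ≤ w d * 1 * w (c + σ c) := by gcongr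
    _ = w d * w (c + σ c) := by rw [mul_one]
    _ ≤ _ := e5

theorem neg_diff (hq : QS H H' σ) {P S : (bs W Ω).toAffine.Point} (hS : pfx H' S)
    (hσP : am W (σ : Ω →+* Ω) P = -P) : am W (σ : Ω →+* Ω) (P - (S - am W (σ : Ω →+* Ω) S)) =
      -(P - (S - am W (σ : Ω →+* Ω) S)) := by
  rw [map_sub, map_sub, hσP, hq.pinv hS]
  abel

/-- approximation -/
theorem step2 (hσ : ∀ (σ : Ω ≃ₐ[k0] Ω) (x : Ω), w (σ x) = w x) (hW : (W.Δ : Ω) ≠ 0)
    (h : UR w π H') (hq : QS H H' σ) (h1 : w (algebraMap k0 Ω π) < 1)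
    (h0 : w (algebraMap k0 Ω π) ≠ 0) {P : (bs W Ω).toAffine.Point} (hP : pfx H' P)
    (hP0 : In0 w P) (hσP : am W (σ : Ω →+* Ω) P = -P) (n : ℕ) :
    ∃ S : (bs W Ω).toAffine.Point, pfx H' S ∧ In0 w S ∧
      In1 w (P - (S - am W (σ : Ω →+* Ω) S)) ∧
      w (Z (P - (S - am W (σ : Ω →+* Ω) S))) ≤ w (algebraMap k0 Ω π ^ (2 ^ n)) := by
  obtain ⟨r, hr, hs⟩ := exists_rm w
  obtain ⟨ω, ω1, ω2, ω3⟩ := exists_omega hσ hr h hq h1 h0
  have hπ0 : algebraMap k0 Ω π ≠ 0 := by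
    intro h2
    rw [h2, map_zero] at h0
    exact h0 rfl
  induction n with
  | zero =>
    obtain ⟨S, hS, hS0, hS1⟩ := step0 hσ h hq h1 h0 hP hP0 hσP
    refine ⟨S, hS, hS0, hS1, ?_⟩
    rw [pow_zero, pow_one]
    exact h.lt h1 h0 (fx_Z (hP.sub (hS.sub (hq.pfxσ hS)))) (Z_lt hS1)
  | succ n ih =>
    obtain ⟨S, hS, hS0, hS1, hSZ⟩ := ih
    have hw : w (algebraMap k0 Ω π ^ (2 ^ n)) < 1 := by
      rw [map_pow]
      exact pow_lt_one₀ zero_le h1 (pow_ne_zero n two_ne_zero)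
    obtain ⟨S', hS', hS'1, hS'Z⟩ := step1 hσ hW hq ω1 ω2 ω3 (d := algebraMap k0 Ω π ^ (2 ^ n))
      ((fx_alg π).pow _) (pow_ne_zero _ hπ0) hw (hP.sub (hS.sub (hq.pfxσ hS))) hS1
      (neg_diff hq hS hσP) hSZ
    have e : P - (S + S' - am W (σ : Ω →+* Ω) (S + S')) =
        P - (S - am W (σ : Ω →+* Ω) S) - (S' - am W (σ : Ω →+* Ω) S') := by
      rw [map_add]; abel
    refine ⟨S + S', hS.add hS', (G0 W w).add_mem hS0 hS'1.in0, ?_, ?_⟩
    · rw [e, sub_eq_add_neg _ (S' - am W (σ : Ω →+* Ω) S')]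
      refine hS1.add (In1.neg ?_)
      rw [sub_eq_add_neg]
      exact hS'1.add (hS'1.act _ (hσ σ)).neg
    · rw [e, pow_succ, pow_mul]
      exact hS'Z

/-- a small point of order two is zero -/
theorem small_two {P : (bs W Ω).toAffine.Point} (hP : P + P = 0)
    (h : ∀ x y h, P = Point.some x y h → 1 < w x ∧ 1 < w 4 * w x) : P = 0 := by
  rcases P with _ | ⟨x, y, hxy⟩
  · rfl
  exfalso
  obtain ⟨hx1, hx4⟩ := h x y hxy rfl
  by_cases hy : y = (bs W Ω).toAffine.negY x y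
  · have e := eqn hxy.1
    have hy' : 2 * y + W.a₁ * x + W.a₃ = 0 := by
      rw [negY_eq] at hy
      linear_combination hy
    have b1 : w ((W.a₁ : ℤ) : Ω) ≤ 1 := w_int w _
    have b2 : w ((W.a₂ : ℤ) : Ω) ≤ 1 := w_int w _
    have b3 : w ((W.a₃ : ℤ) : Ω) ≤ 1 := w_int w _
    have b4 : w ((W.a₄ : ℤ) : Ω) ≤ 1 := w_int w _
    have b6 : w ((W.a₆ : ℤ) : Ω) ≤ 1 := w_int w _
    have w4 : w (4 : Ω) ≤ 1 := by exact_mod_cast w_nat w 4
    have e2 : 4 * x ^ 3 = -(((W.a₁ : Ω) ^ 2 + 4 * W.a₂) * x ^ 2 + (2 * (2 * W.a₄ + W.a₁ * W.a₃)) * x +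
        (W.a₃ ^ 2 + 4 * W.a₆)) := by
      linear_combination (2 * y + W.a₁ * x + W.a₃) * hy' - 4 * e
    have e3 : w (4 * x ^ 3) ≤ w x ^ 2 := by
      have hx2 : (1 : ℝ≥0) ≤ w x ^ 2 := one_le_pow₀ hx1.le
      have hx3 : w x ≤ w x ^ 2 := by rw [sq]; exact le_mul_of_one_le_left zero_le hx1.le
      rw [e2, Valuation.map_neg]
      refine w_add (w_add ?_ ?_) ?_
      · rw [map_mul, map_pow]
        exact mul_le_of_le_one_left' (w_add (w_pow b1 2) (w_mul w4 b2))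
      · rw [map_mul]
        exact (mul_le_of_le_one_left' (w_mul (w_two w) (w_add (w_mul (w_two w) b4)
          (w_mul b1 b3)))).trans hx3
      · exact (w_add (w_pow b3 2) (w_mul w4 b6)).trans hx2
    rw [map_mul, map_pow] at e3
    have e4 : w x ^ 2 < w 4 * w x ^ 3 := by
      calc w x ^ 2 = 1 * w x ^ 2 := (one_mul _).symm
        _ < (w 4 * w x) * w x ^ 2 := by
          apply mul_lt_mul_of_pos_right hx4
          exact pow_pos (zero_lt_one.trans hx1) 2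
        _ = _ := by ring
    exact absurd e3 (not_le.2 e4)
  · rw [Point.add_some (fun h0 => hy h0.2)] at hP
    exact Point.some_ne_zero _ hP

/-- triviality of the cohomology -/
theorem h1_e0 (hσ : ∀ (σ : Ω ≃ₐ[k0] Ω) (x : Ω), w (σ x) = w x) (hW : (W.Δ : Ω) ≠ 0)
    (h2 : w (2 : Ω) ≠ 0)
    (h : UR w π H') (hq : QS H H' σ) (h1 : w (algebraMap k0 Ω π) < 1)
    (h0 : w (algebraMap k0 Ω π) ≠ 0) {P : (bs W Ω).toAffine.Point} (hP : pfx H' P)
    (hP0 : In0 w P) (hσP : am W (σ : Ω →+* Ω) P = -P) :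
    ∃ S : (bs W Ω).toAffine.Point, pfx H' S ∧ In0 w S ∧ P = S - am W (σ : Ω →+* Ω) S := by
  have h32 : w (32 : Ω) ≠ 0 := by
    have : (32 : Ω) = 2 ^ 5 := by norm_num
    rw [this, map_pow]; exact pow_ne_zero 5 h2
  obtain ⟨n, hn⟩ := NNReal.exists_pow_lt_of_lt_one (pos_iff_ne_zero.2 h32) h1
  obtain ⟨S, hS, hS0, hS1, hSZ⟩ := step2 hσ hW h hq h1 h0 hP hP0 hσP n
  have hneg := neg_diff hq hS hσP
  have hpf : pfx H' (P - (S - am W (σ : Ω →+* Ω) S)) := hP.sub (hS.sub (hq.pfxσ hS))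
  set P' := P - (S - am W (σ : Ω →+* Ω) S) with hP'
  have key : ∃ R : (bs W Ω).toAffine.Point, pfx H' R ∧ In0 w R ∧ P' = R - am W (σ : Ω →+* Ω) R := by
    rcases hPP : P' with _ | ⟨x, y, hxy⟩
    · exact ⟨0, pfx.zero, In0.zero, by rw [am_zero, sub_zero]; rfl⟩
    rw [hPP] at hneg hpf hSZ hS1
    have hx1 := hS1 _ _ _ rfl
    have hZx := w_Z hxy hx1
    have hx32 : 1 < w 32 * w x := by
      have e1 : w (Z (Point.some x y hxy)) ≤ w (algebraMap k0 Ω π) ^ n := by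
        refine hSZ.trans ?_
        rw [map_pow]
        exact pow_le_pow_of_le_one zero_le h1.le n.lt_two_pow_self.le
      have e2 : w (Z (Point.some x y hxy)) < w 32 := e1.trans_lt hn
      have e3 : w (Z (Point.some x y hxy)) ^ 2 < w 32 := by
        rw [sq]
        exact (mul_le_of_le_one_left' (Z_lt hS1).le).trans_lt e2
      rw [← hZx]
      exact mul_lt_mul_of_pos_right e3 (zero_lt_one.trans hx1)
    obtain ⟨x', y', hxy', hR, hRR, hRx⟩ := halve hσ h2 hpf hx32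
    have hw16 : (1 : ℝ≥0) < w 4 * (w 4 * w x) := by
      have e1 : w (32 : Ω) ≤ w 4 * w 4 := by
        rw [← map_mul]
        have : (32 : Ω) = (4 * 4) * 2 := by norm_num
        rw [this, map_mul _ _ (2 : Ω)]
        exact mul_le_of_le_one_right' (w_two w)
      calc 1 < w 32 * w x := hx32
        _ ≤ (w 4 * w 4) * w x := by gcongr
        _ = _ := by ring
    have w4 : w (4 : Ω) ≤ 1 := by exact_mod_cast w_nat w 4
    have hB : 1 < w 4 * w x := hw16.trans_le (mul_le_of_le_one_left' w4)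
    have hR1 : In1 w (Point.some x' y' hxy') := by
      intro a b hab he
      obtain ⟨e1, e2⟩ := Point.some.inj he
      rw [← e1, hRx]; exact hB
    refine ⟨Point.some x' y' hxy', hR, hR1.in0, ?_⟩
    -- the sum of the conjugates is of order two
    have hsum : Point.some x' y' hxy' + am W (σ : Ω →+* Ω) (Point.some x' y' hxy') = 0 := by
      apply small_two (w := w)
      · have e1 : Point.some x' y' hxy' + am W (σ : Ω →+* Ω) (Point.some x' y' hxy') +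
          (Point.some x' y' hxy' + am W (σ : Ω →+* Ω) (Point.some x' y' hxy')) =
          (Point.some x' y' hxy' + Point.some x' y' hxy') +
            am W (σ : Ω →+* Ω) (Point.some x' y' hxy' + Point.some x' y' hxy') := by
          rw [map_add]; abel
        rw [e1, hRR, hneg, add_neg_cancel]
      · intro a b hab he
        rw [am_some] at he
        by_cases hc : x' = (σ : Ω →+* Ω) x' ∧
            y' = (bs W Ω).toAffine.negY ((σ : Ω →+* Ω) x') ((σ : Ω →+* Ω) y')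
        · rw [Point.add_of_Y_eq hc.1 hc.2] at he
          exact absurd he.symm (Point.some_ne_zero _)
        · rw [Point.add_some hc] at he
          obtain ⟨e1, e2⟩ := Point.some.inj he
          have hσx : w ((σ : Ω →+* Ω) x') = w x' := hσ σ x'
          have hbig := big_add (W := W) hxy'.1 (ns_map (σ : Ω →+* Ω) hxy').1 hc hB hRx.ge
            (by rw [hσx]; exact hRx.ge)
          rw [e1] at hbig
          exact ⟨hB.trans_le hbig, hw16.trans_le (mul_le_mul_right hbig _)⟩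
    rw [← hRR]
    have e3 : am W (σ : Ω →+* Ω) (Point.some x' y' hxy') = -Point.some x' y' hxy' :=
      eq_neg_of_add_eq_zero_right hsum
    rw [e3, sub_neg_eq_add]
  obtain ⟨R, hR, hR0, hRe⟩ := key
  refine ⟨S + R, hS.add hR, (G0 W w).add_mem hS0 hR0, ?_⟩
  have e : P = P' + (S - am W (σ : Ω →+* Ω) S) := by rw [hP']; abel
  rw [e, hRe, map_add]
  abel

end h1

end Pool.Agent.K4H53.BSD
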