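import Mathlib
import Pool.Agent.K4H53.BSD.H1

/-!
# The group of components: finiteness, parity, and cohomology
-/

set_option autoImplicit false
set_option linter.all false

open WeierstrassCurve WeierstrassCurve.Affine Polynomial
open scoped NNReal Classical

namespace Pool.Agent.K4H53.BSD

section fin

variable {Ω k0 : Type} [Field Ω] [IsAlgClosed Ω] [Field k0] [Algebra k0 Ω]
  {w : Valuation Ω ℝ≥0} {W : WeierstrassCurve ℤ}
  {H H' : Subgroup (Ω ≃ₐ[k0] Ω)} {σ : Ω ≃ₐ[k0] Ω} {π : k0}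

theorem fin_one (h : UR w π H) : ∃ F : Finset Ω, (∀ y ∈ F, fx H y ∧ w y ≤ 1) ∧
    ∀ x, fx H x → w x ≤ 1 → ∃ y ∈ F, w (x - y) < 1 := by
  obtain ⟨F, hF⟩ := h.fin
  let c : Ω → Ω := fun y => if hy : ∃ x, fx H x ∧ w x ≤ 1 ∧ w (x - y) < 1 then hy.choose else 0
  refine ⟨F.image c, ?_, ?_⟩
  · intro z hz
    obtain ⟨y, -, rfl⟩ := Finset.mem_image.1 hz
    by_cases hy : ∃ x, fx H x ∧ w x ≤ 1 ∧ w (x - y) < 1
    · simp only [c, dif_pos hy]
      exact ⟨hy.choose_spec.1, hy.choose_spec.2.1⟩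
    · simp only [c, dif_neg hy]
      exact ⟨fx_zero, by rw [map_zero]; exact zero_le⟩
  · intro x hx hx1
    obtain ⟨y, hyF, hxy⟩ := hF x hx hx1
    have hy : ∃ x, fx H x ∧ w x ≤ 1 ∧ w (x - y) < 1 := ⟨x, hx, hx1, hxy⟩
    refine ⟨c y, Finset.mem_image_of_mem _ hyF, ?_⟩
    simp only [c, dif_pos hy]
    have e : x - hy.choose = (x - y) - (hy.choose - y) := by ring
    rw [e]
    exact (Valuation.map_sub _ _ _).trans_lt (max_lt hxy hy.choose_spec.2.2)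

theorem fin_pow (h : UR w π H) (h1 : w (algebraMap k0 Ω π) < 1)
    (h0 : w (algebraMap k0 Ω π) ≠ 0) (n : ℕ) :
    ∃ F : Finset Ω, (∀ y ∈ F, fx H y ∧ w y ≤ 1) ∧
      ∀ x, fx H x → w x ≤ 1 → ∃ y ∈ F, w (x - y) ≤ w (algebraMap k0 Ω π) ^ n := by
  obtain ⟨F1, hF1, hF2⟩ := fin_one h
  have hπ0 : algebraMap k0 Ω π ≠ 0 := by
    intro h2
    rw [h2, map_zero] at h0
    exact h0 rfl
  induction n with
  | zero =>
    refine ⟨{0}, fun y hy => ?_, fun x hx hx1 => ⟨0, Finset.mem_singleton_self _, ?_⟩⟩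
    · rw [Finset.mem_singleton.1 hy]
      exact ⟨fx_zero, by rw [map_zero]; exact zero_le⟩
    · rw [sub_zero, pow_zero]; exact hx1
  | succ n ih =>
    obtain ⟨F, hF, hF'⟩ := ih
    refine ⟨(F ×ˢ F1).image (fun z => z.1 + algebraMap k0 Ω π ^ n * z.2), ?_, ?_⟩
    · intro z hz
      obtain ⟨⟨a, b⟩, hab, rfl⟩ := Finset.mem_image.1 hz
      obtain ⟨ha, hb⟩ := Finset.mem_product.1 hab
      obtain ⟨a1, a2⟩ := hF a ha
      obtain ⟨b1, b2⟩ := hF1 b hb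
      exact ⟨a1.add (((fx_alg π).pow n).mul b1), w_add a2 (w_mul (w_pow h1.le n) b2)⟩
    · intro x hx hx1
      obtain ⟨y, hy, hxy⟩ := hF' x hx hx1
      have hfx : fx H ((x - y) / algebraMap k0 Ω π ^ n) :=
        (hx.sub (hF y hy).1).div ((fx_alg π).pow n)
      have hwx : w ((x - y) / algebraMap k0 Ω π ^ n) ≤ 1 := by
        rw [map_div₀, map_pow]
        exact div_le_one_of_le₀ hxy zero_le
      obtain ⟨y', hy', hxy'⟩ := hF2 _ hfx hwx
      refine ⟨y + algebraMap k0 Ω π ^ n * y', Finset.mem_image.2 ⟨(y, y'),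
        Finset.mem_product.2 ⟨hy, hy'⟩, rfl⟩, ?_⟩
      have e : x - (y + algebraMap k0 Ω π ^ n * y') =
          algebraMap k0 Ω π ^ n * ((x - y) / algebraMap k0 Ω π ^ n - y') := by
        field_simp
        ring
      rw [e, map_mul, map_pow, pow_succ]
      exact mul_le_mul_right (h.lt h1 h0 (hfx.sub (hF1 y' hy').1) hxy') _

/-- the discriminant is in the ideal of the partial derivatives -/
theorem disc_id {x y : Ω} (h : (bs W Ω).toAffine.Equation x y) :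
    w (256 * (W.Δ : Ω)) ≤ max (w (2 * y + W.a₁ * x + W.a₃))
      (w ((W.a₁ : Ω) * y - (3 * x ^ 2 + 2 * W.a₂ * x + W.a₄))) ∨ 1 < w x := by
  by_cases hx : w x ≤ 1
  swap
  · right; exact not_le.1 hx
  left
  have hy : w y ≤ 1 := w_y h hx
  have e := eqn h
  have b1 : w ((W.a₁ : ℤ) : Ω) ≤ 1 := w_int w _
  have b2 : w ((W.a₂ : ℤ) : Ω) ≤ 1 := w_int w _
  have b3 : w ((W.a₃ : ℤ) : Ω) ≤ 1 := w_int w _
  have b4 : w ((W.a₄ : ℤ) : Ω) ≤ 1 := w_int w _
  have b6 : w ((W.a₆ : ℤ) : Ω) ≤ 1 := w_int w _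
  set η : Ω := 2 * y + W.a₁ * x + W.a₃ with hη
  set ξ : Ω := (W.a₁ : Ω) * y - (3 * x ^ 2 + 2 * W.a₂ * x + W.a₄) with hξ
  have hB2 : w ((W.b₂ : ℤ) : Ω) ≤ 1 := w_int w _
  have hB4 : w ((W.b₄ : ℤ) : Ω) ≤ 1 := w_int w _
  have hB6 : w ((W.b₆ : ℤ) : Ω) ≤ 1 := w_int w _
  have nn : ∀ n : ℕ, w (n : Ω) ≤ 1 := w_nat w
  have c2 : (W.b₂ : Ω) = W.a₁ ^ 2 + 4 * W.a₂ := by rw [WeierstrassCurve.b₂]; push_cast; ring
  have c4 : (W.b₄ : Ω) = 2 * W.a₄ + W.a₁ * W.a₃ := by rw [WeierstrassCurve.b₄]; push_cast; ring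
  have c6 : (W.b₆ : Ω) = W.a₃ ^ 2 + 4 * W.a₆ := by rw [WeierstrassCurve.b₆]; push_cast; ring
  have cΔ : 4 * (W.Δ : Ω) = -(W.b₂ : Ω) ^ 2 * (W.b₂ * W.b₆ - W.b₄ ^ 2) - 32 * (W.b₄ : Ω) ^ 3 -
      108 * (W.b₆ : Ω) ^ 2 + 36 * (W.b₂ : Ω) * W.b₄ * W.b₆ := by
    have h8 : 4 * (W.b₈ : Ω) = W.b₂ * W.b₆ - W.b₄ ^ 2 := by
      have := W.b_relation
      have h9 := congrArg (fun n : ℤ => (n : Ω)) this
      push_cast at h9
      exact h9
    rw [WeierstrassCurve.Δ]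
    push_cast
    linear_combination (-(W.b₂ : Ω) ^ 2) * h8
  have hf : η ^ 2 = 4 * x ^ 3 + W.b₂ * x ^ 2 + 2 * W.b₄ * x + W.b₆ := by
    rw [c2, c4, c6, hη]
    linear_combination 4 * e
  have hf' : 12 * x ^ 2 + 2 * W.b₂ * x + 2 * W.b₄ = 2 * W.a₁ * η - 4 * ξ := by
    rw [c2, c4, hη, hξ]; ring
  have key : 256 * (W.Δ : Ω) = (16 * ((18 * (8 * W.b₄) - 6 * (W.b₂ : Ω) ^ 2) * (4 * x) +
      (-4 * (W.b₂ : Ω) ^ 3 + 15 * W.b₂ * (8 * W.b₄) - 27 * (16 * W.b₆))) * η +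
      (4 * ((2 * (W.b₂ : Ω) ^ 2 - 6 * (8 * W.b₄)) * (4 * x) ^ 2 + (2 * (W.b₂ : Ω) ^ 3 -
        7 * W.b₂ * (8 * W.b₄) + 9 * (16 * W.b₆)) * (4 * x) + ((W.b₂ : Ω) ^ 2 * (8 * W.b₄) -
        4 * (8 * (W.b₄ : Ω)) ^ 2 + 3 * W.b₂ * (16 * W.b₆)))) * (2 * W.a₁)) * η -
      (16 * ((2 * (W.b₂ : Ω) ^ 2 - 6 * (8 * W.b₄)) * (4 * x) ^ 2 + (2 * (W.b₂ : Ω) ^ 3 -
        7 * W.b₂ * (8 * W.b₄) + 9 * (16 * W.b₆)) * (4 * x) + ((W.b₂ : Ω) ^ 2 * (8 * W.b₄) -
        4 * (8 * (W.b₄ : Ω)) ^ 2 + 3 * W.b₂ * (16 * W.b₆)))) * ξ := by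
    have h10 : (4 * ((2 * (W.b₂ : Ω) ^ 2 - 6 * (8 * W.b₄)) * (4 * x) ^ 2 + (2 * (W.b₂ : Ω) ^ 3 -
        7 * W.b₂ * (8 * W.b₄) + 9 * (16 * W.b₆)) * (4 * x) + ((W.b₂ : Ω) ^ 2 * (8 * W.b₄) -
        4 * (8 * (W.b₄ : Ω)) ^ 2 + 3 * W.b₂ * (16 * W.b₆)))) * (12 * x ^ 2 + 2 * W.b₂ * x + 2 * W.b₄)
        + 16 * ((18 * (8 * W.b₄) - 6 * (W.b₂ : Ω) ^ 2) * (4 * x) +
      (-4 * (W.b₂ : Ω) ^ 3 + 15 * W.b₂ * (8 * W.b₄) - 27 * (16 * W.b₆))) *
        (4 * x ^ 3 + W.b₂ * x ^ 2 + 2 * W.b₄ * x + W.b₆) = 64 * (4 * (W.Δ : Ω)) := by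
      rw [cΔ]; ring
    rw [← hf, hf'] at h10
    linear_combination -h10
  rw [key]
  have n : ∀ (m : ℕ), w (m : Ω) ≤ 1 := w_nat w
  have n2 : w (2 : Ω) ≤ 1 := by exact_mod_cast n 2
  have n3 : w (3 : Ω) ≤ 1 := by exact_mod_cast n 3
  have n4 : w (4 : Ω) ≤ 1 := by exact_mod_cast n 4
  have n6 : w (6 : Ω) ≤ 1 := by exact_mod_cast n 6
  have n7 : w (7 : Ω) ≤ 1 := by exact_mod_cast n 7
  have n8 : w (8 : Ω) ≤ 1 := by exact_mod_cast n 8
  have n9 : w (9 : Ω) ≤ 1 := by exact_mod_cast n 9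
  have n15 : w (15 : Ω) ≤ 1 := by exact_mod_cast n 15
  have n16 : w (16 : Ω) ≤ 1 := by exact_mod_cast n 16
  have n18 : w (18 : Ω) ≤ 1 := by exact_mod_cast n 18
  have n27 : w (27 : Ω) ≤ 1 := by exact_mod_cast n 27
  have hη1 : w η ≤ 1 := w_add (w_add (w_mul n2 hy) (w_mul b1 hx)) b3
  have hV : w ((2 * (W.b₂ : Ω) ^ 2 - 6 * (8 * W.b₄)) * (4 * x) ^ 2 + (2 * (W.b₂ : Ω) ^ 3 -
        7 * W.b₂ * (8 * W.b₄) + 9 * (16 * W.b₆)) * (4 * x) + ((W.b₂ : Ω) ^ 2 * (8 * W.b₄) -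
        4 * (8 * (W.b₄ : Ω)) ^ 2 + 3 * W.b₂ * (16 * W.b₆))) ≤ 1 :=
    w_add (w_add (w_mul (w_sub (w_mul n2 (w_pow hB2 2)) (w_mul n6 (w_mul n8 hB4)))
      (w_pow (w_mul n4 hx) 2)) (w_mul (w_add (w_sub (w_mul n2 (w_pow hB2 3))
        (w_mul (w_mul n7 hB2) (w_mul n8 hB4))) (w_mul n9 (w_mul n16 hB6))) (w_mul n4 hx)))
      (w_add (w_sub (w_mul (w_pow hB2 2) (w_mul n8 hB4)) (w_mul n4 (w_pow (w_mul n8 hB4) 2)))
        (w_mul (w_mul n3 hB2) (w_mul n16 hB6)))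
  have hU : w ((18 * (8 * W.b₄) - 6 * (W.b₂ : Ω) ^ 2) * (4 * x) +
      (-4 * (W.b₂ : Ω) ^ 3 + 15 * W.b₂ * (8 * W.b₄) - 27 * (16 * W.b₆))) ≤ 1 :=
    w_add (w_mul (w_sub (w_mul n18 (w_mul n8 hB4)) (w_mul n6 (w_pow hB2 2))) (w_mul n4 hx))
      (w_sub (w_add (w_mul (w_neg n4) (w_pow hB2 3)) (w_mul (w_mul n15 hB2) (w_mul n8 hB4)))
        (w_mul n27 (w_mul n16 hB6)))
  refine (Valuation.map_sub _ _ _).trans (max_le_max ?_ ?_)
  · rw [map_mul]
    exact mul_le_of_le_one_left' (w_add (w_mul (w_mul n16 hU) hη1)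
      (w_mul (w_mul n4 hV) (w_mul n2 b1)))
  · rw [map_mul]
    exact mul_le_of_le_one_left' (w_mul n16 hV)

/-- close points have the same component -/
theorem close {ε : ℝ≥0} (hε : ε < w (256 * (W.Δ : Ω))) {x1 y1 x2 y2 : Ω}
    (h1 : (bs W Ω).toAffine.Nonsingular x1 y1) (h2 : (bs W Ω).toAffine.Nonsingular x2 y2)
    (i1 : w x1 ≤ 1) (i2 : w x2 ≤ 1) (dx : w (x1 - x2) ≤ ε) (dy : w (y1 - y2) ≤ ε) :
    In0 w (Point.some x1 y1 h1 - Point.some x2 y2 h2) := by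
  have b1 : w ((W.a₁ : ℤ) : Ω) ≤ 1 := w_int w _
  have b2 : w ((W.a₂ : ℤ) : Ω) ≤ 1 := w_int w _
  have b3 : w ((W.a₃ : ℤ) : Ω) ≤ 1 := w_int w _
  have hle : w (256 * (W.Δ : Ω)) ≤ 1 := by
    have n256 : w (256 : Ω) ≤ 1 := by exact_mod_cast w_nat w 256
    exact w_mul n256 (w_int w _)
  rw [sub_eq_add_neg, Point.neg_some]
  by_cases hc : x1 = x2 ∧ y1 = (bs W Ω).toAffine.negY x2 ((bs W Ω).toAffine.negY x2 y2)
  · rw [Point.add_of_Y_eq hc.1 hc.2]; exact In0.zero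
  rw [Point.add_some hc]
  apply In1.in0
  intro X Y hXY he
  obtain ⟨rfl, -⟩ := Point.some.inj he
  have hn2 : (bs W Ω).toAffine.Nonsingular x2 ((bs W Ω).toAffine.negY x2 y2) :=
    (nonsingular_neg _ _).2 h2
  obtain ⟨s1, s2⟩ := slope_rel h1.1 hn2.1 hc
  set l := (bs W Ω).toAffine.slope x1 x2 y1 ((bs W Ω).toAffine.negY x2 y2) with hl
  rw [negY_eq] at s1 s2
  -- the slope is large
  have hbig : 1 < w l := by
    by_contra hcon
    rw [not_lt] at hcon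
    rcases disc_id (w := w) h1.1 with h3 | h3
    swap
    · exact absurd h3 (not_lt.2 i1)
    rcases le_max_iff.1 h3 with h4 | h4
    · have e : 2 * y1 + W.a₁ * x1 + W.a₃ = l * (x1 - x2) + (y1 - y2) + W.a₁ * (x1 - x2) := by
        linear_combination -s1
      have h5 : w (2 * y1 + W.a₁ * x1 + W.a₃) ≤ ε := by
        rw [e]
        refine w_add (w_add ?_ dy) ?_
        · rw [map_mul]; exact (mul_le_of_le_one_left' hcon).trans dx
        · rw [map_mul]; exact (mul_le_of_le_one_left' b1).trans dx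
      exact absurd (h4.trans h5) (not_le.2 hε)
    · have e : (W.a₁ : Ω) * y1 - (3 * x1 ^ 2 + 2 * W.a₂ * x1 + W.a₄) =
          -(l * (y1 - y2)) - (x1 - x2) * (2 * x1 + x2 + W.a₂) := by
        linear_combination s2
      have h5 : w ((W.a₁ : Ω) * y1 - (3 * x1 ^ 2 + 2 * W.a₂ * x1 + W.a₄)) ≤ ε := by
        rw [e]
        refine w_sub ?_ ?_
        · rw [Valuation.map_neg, map_mul]; exact (mul_le_of_le_one_left' hcon).trans dy
        · rw [map_mul]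
          exact (mul_le_of_le_one_right' (w_add (w_add (w_mul (w_two w) i1) i2) b2)).trans dx
      exact absurd (h4.trans h5) (not_le.2 hε)
  rw [addX_eq]
  have e : l ^ 2 + W.a₁ * l - W.a₂ - x1 - x2 = l ^ 2 + (W.a₁ * l - W.a₂ - x1 - x2) := by ring
  rw [e, Valuation.map_add_eq_of_lt_left, map_pow]
  · exact one_lt_pow₀ hbig two_ne_zero
  · have h6 : w l < w l ^ 2 := by
      rw [sq]
      calc w l = w l * 1 := (mul_one _).symm
        _ < w l * w l := mul_lt_mul_of_pos_left hbig (zero_lt_one.trans hbig)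
    rw [map_pow]
    refine lt_of_le_of_lt ?_ h6
    refine w_sub (w_sub (w_sub ?_ (b2.trans hbig.le)) (i1.trans hbig.le)) (i2.trans hbig.le)
    rw [map_mul]; exact mul_le_of_le_one_left' b1

/-- the subgroup of the fixed points -/
noncomputable def EH (W : WeierstrassCurve ℤ) (H : Subgroup (Ω ≃ₐ[k0] Ω)) :
    AddSubgroup (bs W Ω).toAffine.Point where
  carrier := {P | pfx H P}
  zero_mem' := pfx.zero
  add_mem' := fun h1 h2 => h1.add h2
  neg_mem' := fun h => h.neg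

/-- the index is finite -/
theorem fin_comp (hW : (W.Δ : Ω) ≠ 0) (h2 : w (2 : Ω) ≠ 0)
    (h : UR w π H) (h1 : w (algebraMap k0 Ω π) < 1) (h0 : w (algebraMap k0 Ω π) ≠ 0) :
    Finite (EH W H ⧸ (G0 W w).addSubgroupOf (EH W H)) := by
  have hpos : 0 < w (256 * (W.Δ : Ω)) := by
    rw [Valuation.pos_iff]
    have : (256 : Ω) = 2 ^ 8 := by norm_num
    rw [this]
    refine mul_ne_zero (pow_ne_zero 8 ?_) hW
    rintro h3
    rw [h3, map_zero] at h2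
    exact h2 rfl
  obtain ⟨n, hn⟩ := NNReal.exists_pow_lt_of_lt_one hpos h1
  obtain ⟨F, hF1, hF2⟩ := fin_pow h h1 h0 n
  let cls : (bs W Ω).toAffine.Point → Option (Ω × Ω) := fun P =>
    match P with
    | .zero => none
    | .some x y _ => if hx : 1 < w x then none else
        if hc : ∃ ab : Ω × Ω, ab.1 ∈ F ∧ ab.2 ∈ F ∧ w (x - ab.1) ≤ w (algebraMap k0 Ω π) ^ n ∧
          w (y - ab.2) ≤ w (algebraMap k0 Ω π) ^ n then some hc.choose else none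
  have hcls : ∀ P, cls P ∈ insert none ((F ×ˢ F).image some) := by
    intro P
    rcases P with _ | ⟨x, y, hP⟩
    · exact Finset.mem_insert_self _ _
    · simp only [cls]
      split_ifs with hx hc
      · exact Finset.mem_insert_self _ _
      · refine Finset.mem_insert_of_mem (Finset.mem_image.2 ⟨_, ?_, rfl⟩)
        exact Finset.mem_product.2 ⟨hc.choose_spec.1, hc.choose_spec.2.1⟩
      · exact Finset.mem_insert_self _ _
  have key : ∀ P Q : (bs W Ω).toAffine.Point, pfx H P → pfx H Q → cls P = cls Q →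
      In0 w (P - Q) := by
    have hex : ∀ x y (hP : (bs W Ω).toAffine.Nonsingular x y), pfx H (Point.some x y hP) →
        ¬ 1 < w x → ∃ ab : Ω × Ω, ab.1 ∈ F ∧ ab.2 ∈ F ∧
          w (x - ab.1) ≤ w (algebraMap k0 Ω π) ^ n ∧ w (y - ab.2) ≤ w (algebraMap k0 Ω π) ^ n := by
      intro x y hP hp hx
      rw [not_lt] at hx
      obtain ⟨f1, f2⟩ := pfx_some.1 hp
      obtain ⟨a, ha, ha'⟩ := hF2 x f1 hx
      obtain ⟨b, hb, hb'⟩ := hF2 y f2 (w_y hP.1 hx)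
      exact ⟨(a, b), ha, hb, ha', hb'⟩
    have hnone : ∀ P, pfx H P → cls P = none → In1 w P := by
      intro P hp hc
      rcases P with _ | ⟨x, y, hP⟩
      · exact In1.zero
      · intro x' y' h' he
        obtain ⟨e1, e2⟩ := Point.some.inj he
        rw [← e1]
        by_contra hcon
        simp only [cls] at hc
        rw [dif_neg hcon, dif_pos (hex x y hP hp hcon)] at hc
        exact absurd hc (by simp)
    intro P Q hP hQ hPQ
    by_cases hc : cls P = none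
    · have h3 := hnone P hP hc
      have h4 := hnone Q hQ (hPQ ▸ hc)
      rw [sub_eq_add_neg]
      exact (h3.add h4.neg).in0
    · rcases P with _ | ⟨x, y, hP'⟩
      · exact absurd rfl hc
      rcases Q with _ | ⟨x', y', hQ'⟩
      · exact absurd hPQ hc
      have hx : ¬ 1 < w x := by
        intro h3
        apply hc
        simp only [cls]
        rw [dif_pos h3]
      have hx' : ¬ 1 < w x' := by
        intro h3
        apply hc
        rw [hPQ]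
        simp only [cls]
        rw [dif_pos h3]
      have h5 := hex x y hP' hP hx
      have h6 := hex x' y' hQ' hQ hx'
      simp only [cls] at hPQ
      rw [dif_neg hx, dif_neg hx', dif_pos h5, dif_pos h6] at hPQ
      have h7 := Option.some.inj hPQ
      obtain ⟨-, -, p1, p2⟩ := h5.choose_spec
      obtain ⟨-, -, p3, p4⟩ := h6.choose_spec
      rw [h7] at p1 p2
      apply close hn hP' hQ' (not_lt.1 hx) (not_lt.1 hx')
      · have e : x - x' = (x - h6.choose.1) - (x' - h6.choose.1) := by ring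
        rw [e]; exact w_sub p1 p3
      · have e : y - y' = (y - h6.choose.2) - (y' - h6.choose.2) := by ring
        rw [e]; exact w_sub p2 p4
  have hsj : Function.Surjective (QuotientAddGroup.mk : EH W H →
    (EH W H ⧸ (G0 W w).addSubgroupOf (EH W H))) := QuotientAddGroup.mk_surjective
  let g := Function.surjInv hsj
  have hg : ∀ q, QuotientAddGroup.mk (g q) = q := Function.surjInv_eq hsj
  let f : (EH W H ⧸ (G0 W w).addSubgroupOf (EH W H)) →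
      (insert none ((F ×ˢ F).image some) : Finset (Option (Ω × Ω))) := fun q =>
    ⟨cls (g q : EH W H), hcls _⟩
  apply Finite.of_injective f
  intro q q' hqq
  have h8 : cls (g q : EH W H) = cls (g q' : EH W H) := congrArg Subtype.val hqq
  have h9 := key _ _ (g q : EH W H).2 (g q' : EH W H).2 h8
  rw [← hg q, ← hg q', eq_comm, QuotientAddGroup.eq, AddSubgroup.mem_addSubgroupOf]
  show In0 w (-(g q' : (bs W Ω).toAffine.Point) + (g q : (bs W Ω).toAffine.Point))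
  rw [neg_add_eq_sub]
  exact h9

/-- there is no element of order two in the group of components -/
def NT2 (w : Valuation Ω ℝ≥0) (W : WeierstrassCurve ℤ) (H : Subgroup (Ω ≃ₐ[k0] Ω)) : Prop :=
  ∀ P : (bs W Ω).toAffine.Point, pfx H P → In0 w (P + P) → In0 w P

theorem odd_mul (hW : (W.Δ : Ω) ≠ 0) (h2 : w (2 : Ω) ≠ 0)
    (h : UR w π H) (h1 : w (algebraMap k0 Ω π) < 1) (h0 : w (algebraMap k0 Ω π) ≠ 0)
    (hN : NT2 w W H) : ∃ m : ℕ, ∀ P : (bs W Ω).toAffine.Point, pfx H P →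
      In0 w ((2 * m + 1) • P) := by
  haveI := fin_comp hW h2 h h1 h0
  have hN0 : Nat.card (EH W H ⧸ (G0 W w).addSubgroupOf (EH W H)) ≠ 0 := Nat.card_pos.ne'
  obtain ⟨a, m, hm, hcard⟩ := Nat.exists_eq_two_pow_mul_odd hN0
  obtain ⟨j, rfl⟩ := hm
  refine ⟨j, fun P hP => ?_⟩
  have hall : In0 w ((2 ^ a * (2 * j + 1)) • P) := by
    rw [← hcard]
    have h3 : Nat.card (EH W H ⧸ (G0 W w).addSubgroupOf (EH W H)) •
        (QuotientAddGroup.mk (⟨P, hP⟩ : EH W H) : EH W H ⧸ (G0 W w).addSubgroupOf (EH W H)) = 0 :=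
      card_nsmul_eq_zero'
    rw [← QuotientAddGroup.mk_nsmul, QuotientAddGroup.eq_zero_iff,
      AddSubgroup.mem_addSubgroupOf] at h3
    exact h3
  clear hcard
  induction a with
  | zero => rwa [pow_zero, one_mul] at hall
  | succ a ih =>
    apply ih
    apply hN _ (hP.nsmul _)
    rw [← two_nsmul, ← mul_nsmul']
    convert hall using 2
    ring

/-- parity goes up -/
theorem NT2.up (hσ : ∀ (σ : Ω ≃ₐ[k0] Ω) (x : Ω), w (σ x) = w x) (hW : (W.Δ : Ω) ≠ 0)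
    (h2 : w (2 : Ω) ≠ 0)
    (h : UR w π H') (hq : QS H H' σ) (h1 : w (algebraMap k0 Ω π) < 1)
    (h0 : w (algebraMap k0 Ω π) ≠ 0) (hN : NT2 w W H) : NT2 w W H' := by
  intro P hP hPP
  have hs := hq.pfxσ hP
  set P' := am W (σ : Ω →+* Ω) P with hP'
  have hPP' : In0 w (P' + P') := by
    rw [hP', ← map_add]; exact hPP.act _ (hσ σ)
  -- the sum of the conjugates
  have hQ : pfx H (P + P') := by
    rw [hq.pfx_iff]
    refine ⟨hP.add hs, ?_⟩
    rw [map_add, hP', hq.pinv hP, add_comm]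
  have hQ0 : In0 w (P + P') := by
    apply hN _ hQ
    have e : P + P' + (P + P') = (P + P) + (P' + P') := by abel
    rw [e]
    exact (G0 W w).add_mem hPP hPP'
  have he0 : In0 w (P' - P) := by
    have e : P' - P = (P + P') - (P + P) := by abel
    rw [e]
    exact (G0 W w).sub_mem hQ0 hPP
  obtain ⟨S, hS, hS0, hSe⟩ := h1_e0 hσ hW h2 h hq h1 h0 (hs.sub hP) he0 (by
    rw [map_sub, hP', hq.pinv hP]; abel)
  have hfix : pfx H (P + S) := by
    rw [hq.pfx_iff]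
    refine ⟨hP.add hS, ?_⟩
    rw [map_add]
    have e : am W (σ : Ω →+* Ω) P = P + (S - am W (σ : Ω →+* Ω) S) := by
      rw [← hSe, hP']; abel
    rw [e]; abel
  have h3 : In0 w (P + S) := by
    apply hN _ hfix
    have e : P + S + (P + S) = (P + P) + (S + S) := by abel
    rw [e]
    exact (G0 W w).add_mem hPP ((G0 W w).add_mem hS0 hS0)
  have e : P = (P + S) - S := by abel
  rw [e]
  exact (G0 W w).sub_mem h3 hS0

/-- parity goes down -/
theorem NT2.down (hle : H' ≤ H) (hN : NT2 w W H') : NT2 w W H := fun P hP => hN P (hP.mono hle)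

/-- triviality of the cohomology of all points -/
theorem h1_e (hσ : ∀ (σ : Ω ≃ₐ[k0] Ω) (x : Ω), w (σ x) = w x) (hW : (W.Δ : Ω) ≠ 0)
    (h2 : w (2 : Ω) ≠ 0)
    (h : UR w π H') (hq : QS H H' σ) (h1 : w (algebraMap k0 Ω π) < 1)
    (h0 : w (algebraMap k0 Ω π) ≠ 0) (hN : NT2 w W H') {P : (bs W Ω).toAffine.Point}
    (hP : pfx H' P) (hσP : am W (σ : Ω →+* Ω) P = -P) :
    ∃ S : (bs W Ω).toAffine.Point, pfx H' S ∧ P = S - am W (σ : Ω →+* Ω) S := by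
  obtain ⟨m, hm⟩ := odd_mul hW h2 h h1 h0 hN
  obtain ⟨S, hS, -, hSe⟩ := h1_e0 hσ hW h2 h hq h1 h0 (hP.nsmul (2 * m + 1)) (hm P hP) (by
    rw [map_nsmul, hσP, smul_neg])
  refine ⟨S - m • P, hS.sub (hP.nsmul m), ?_⟩
  rw [map_sub, map_nsmul, hσP]
  have e : P = (2 * m + 1) • P - (m • P + m • P) := by
    rw [add_nsmul, mul_nsmul', two_nsmul, one_nsmul]; abel
  conv_lhs => rw [e, hSe]
  rw [smul_neg]
  abel

end fin

end Pool.Agent.K4H53.BSD
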