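import Mathlib
import Pool.Agent.K4H53.BSD.Comp

/-!
# Descent along an unramified extension of degree a power of two
-/

set_option autoImplicit false
set_option linter.all false

open WeierstrassCurve WeierstrassCurve.Affine Polynomial
open scoped NNReal Classical

namespace Pool.Agent.K4H53.BSD

section grp

/-- a subgroup of index two in the chain -/
theorem exists_mid {G : Type} [Group G] (N : Subgroup G) [hN : N.Normal] {n : ℕ}
    (hi : N.index = 2 ^ (n + 1)) : ∃ (H : Subgroup G) (σ : G), H.Normal ∧ H.index = 2 ^ n ∧ N ≤ H ∧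
      σ ∈ H ∧ σ ∉ N ∧ σ * σ ∈ N ∧ ∀ τ ∈ H, τ ∈ N ∨ σ⁻¹ * τ ∈ N := by
  have hc : Nat.card (G ⧸ N) = 2 ^ (n + 1) := hi
  haveI : Finite (G ⧸ N) := Nat.finite_of_card_ne_zero (by rw [hc]; positivity)
  have hp : IsPGroup 2 (G ⧸ N) := IsPGroup.of_card hc
  haveI : Nontrivial (G ⧸ N) := by
    rw [← Finite.one_lt_card_iff_nontrivial, hc]
    exact Nat.one_lt_two_pow (Nat.succ_ne_zero n)
  haveI := hp.center_nontrivial
  have hp' : IsPGroup 2 (Subgroup.center (G ⧸ N)) := hp.to_subgroup _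
  obtain ⟨m, hm⟩ := (IsPGroup.iff_card).1 hp'
  have hd : 2 ∣ Nat.card (Subgroup.center (G ⧸ N)) := by
    have h1 : 1 < Nat.card (Subgroup.center (G ⧸ N)) := Finite.one_lt_card
    rw [hm] at h1 ⊢
    rcases m with _ | m
    · simp at h1
    · exact dvd_pow_self 2 (Nat.succ_ne_zero m)
  obtain ⟨⟨z, hz⟩, hoz⟩ := exists_prime_orderOf_dvd_card' 2 hd
  rw [Subgroup.orderOf_mk] at hoz
  obtain ⟨σ, rfl⟩ := QuotientGroup.mk_surjective z
  have hzp : ∀ y ∈ Subgroup.zpowers (σ : G ⧸ N), y = 1 ∨ y = σ := by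
    rintro _ ⟨j, rfl⟩
    have h2 : (σ : G ⧸ N) ^ (2 : ℤ) = 1 := by
      have := pow_orderOf_eq_one (σ : G ⧸ N)
      rw [hoz] at this
      exact_mod_cast this
    rcases Int.even_or_odd' j with ⟨i, rfl | rfl⟩
    · left
      show (σ : G ⧸ N) ^ (2 * i) = 1
      rw [zpow_mul, h2, one_zpow]
    · right
      show (σ : G ⧸ N) ^ (2 * i + 1) = σ
      rw [zpow_add, zpow_mul, h2, one_zpow, one_mul, zpow_one]
  haveI hnz : (Subgroup.zpowers (σ : G ⧸ N)).Normal := by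
    constructor
    intro y hy g
    have : g * y * g⁻¹ = y := by
      rcases hzp y hy with rfl | rfl
      · rw [mul_one, mul_inv_cancel]
      · rw [Subgroup.mem_center_iff.1 hz g, mul_assoc, mul_inv_cancel, mul_one]
    rw [this]; exact hy
  refine ⟨(Subgroup.zpowers (σ : G ⧸ N)).comap (QuotientGroup.mk' N), σ, inferInstance, ?_, ?_, ?_,
    ?_, ?_, ?_⟩
  · rw [Subgroup.index_comap_of_surjective _ (QuotientGroup.mk'_surjective N)]
    have h1 := Subgroup.index_mul_card (Subgroup.zpowers (σ : G ⧸ N))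
    rw [Nat.card_zpowers, hoz, hc, pow_succ] at h1
    exact Nat.eq_of_mul_eq_mul_right two_pos h1
  · intro τ hτ
    rw [Subgroup.mem_comap]
    have : QuotientGroup.mk' N τ = 1 := (QuotientGroup.eq_one_iff τ).2 hτ
    rw [this]; exact one_mem _
  · rw [Subgroup.mem_comap]
    exact Subgroup.mem_zpowers _
  · intro h
    have h1 : (σ : G ⧸ N) = 1 := (QuotientGroup.eq_one_iff σ).2 h
    rw [h1, orderOf_one] at hoz
    omega
  · rw [← QuotientGroup.eq_one_iff, QuotientGroup.mk_mul]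
    have := pow_orderOf_eq_one (σ : G ⧸ N)
    rw [hoz, sq] at this
    exact this
  · intro τ hτ
    rw [Subgroup.mem_comap] at hτ
    rcases hzp _ hτ with h | h
    · left
      exact (QuotientGroup.eq_one_iff τ).1 h
    · right
      exact QuotientGroup.eq.1 h.symm

end grp

section chain

variable {Ω k0 : Type} [Field Ω] [IsAlgClosed Ω] [Field k0] [Algebra k0 Ω]
  {w : Valuation Ω ℝ≥0} {W : WeierstrassCurve ℤ}
  {H H' : Subgroup (Ω ≃ₐ[k0] Ω)} {σ : Ω ≃ₐ[k0] Ω} {π : k0}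

/-- descent of a trivialisation along a quadratic step -/
theorem desc_one (hσ : ∀ (σ : Ω ≃ₐ[k0] Ω) (x : Ω), w (σ x) = w x) (hW : (W.Δ : Ω) ≠ 0)
    (h2 : w (2 : Ω) ≠ 0)
    (h : UR w π H') (hq : QS H H' σ) (h1 : w (algebraMap k0 Ω π) < 1)
    (h0 : w (algebraMap k0 Ω π) ≠ 0) (hN : NT2 w W H')
    (f : (Ω ≃ₐ[k0] Ω) → (bs W Ω).toAffine.Point)
    (hf : ∀ σ τ, f (σ * τ) = f σ + am W (σ : Ω →+* Ω) (f τ))
    (hf' : ∃ R, ∀ τ ∈ H', f τ = am W (τ : Ω →+* Ω) R - R) :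
    ∃ R, ∀ τ ∈ H, f τ = am W (τ : Ω →+* Ω) R - R := by
  obtain ⟨R, hR⟩ := hf'
  have hmul : ∀ (σ τ : Ω ≃ₐ[k0] Ω) (P : (bs W Ω).toAffine.Point),
      am W ((σ * τ : Ω ≃ₐ[k0] Ω) : Ω →+* Ω) P = am W (σ : Ω →+* Ω) (am W (τ : Ω →+* Ω) P) := by
    intro σ τ P
    rw [am_comp]; rfl
  let g : (Ω ≃ₐ[k0] Ω) → (bs W Ω).toAffine.Point := fun τ => f τ - (am W (τ : Ω →+* Ω) R - R)
  have hg : ∀ τ, g τ = f τ - (am W (τ : Ω →+* Ω) R - R) := fun τ => rfl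
  have hgc : ∀ σ τ, g (σ * τ) = g σ + am W (σ : Ω →+* Ω) (g τ) := by
    intro σ τ
    rw [hg, hg, hg, hf, hmul, map_sub, map_sub]
    abel
  have hg0 : ∀ τ ∈ H', g τ = 0 := by
    intro τ hτ
    rw [hg, hR τ hτ, sub_self]
  have hP : pfx H' (g σ) := by
    intro τ hτ
    have e1 : g (τ * σ) = am W (τ : Ω →+* Ω) (g σ) := by
      rw [hgc, hg0 τ hτ, zero_add]
    have e2 : g (τ * σ) = g σ := by
      have e3 : τ * σ = σ * (σ⁻¹ * τ * σ) := by group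
      rw [e3, hgc, hg0 _ (hq.nrm τ hτ), map_zero, add_zero]
    rw [← e1, e2]
  have hPσ : am W (σ : Ω →+* Ω) (g σ) = -g σ := by
    have e1 := hgc σ σ
    rw [hg0 _ hq.sq] at e1
    exact eq_neg_of_add_eq_zero_right e1.symm
  obtain ⟨S, hS, hSe⟩ := h1_e hσ hW h2 h hq h1 h0 hN hP hPσ
  refine ⟨R - S, fun τ hτ => ?_⟩
  have hd : ∀ τ ∈ H', f τ = am W (τ : Ω →+* Ω) (R - S) - (R - S) := by
    intro τ hτ
    rw [map_sub, hS τ hτ, hR τ hτ]; abel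
  have hdσ : f σ = am W (σ : Ω →+* Ω) (R - S) - (R - S) := by
    have e1 : f σ = g σ + (am W (σ : Ω →+* Ω) R - R) := by rw [hg]; abel
    rw [e1, hSe, map_sub]; abel
  rcases hq.gen τ hτ with h3 | h3
  · exact hd τ h3
  · obtain ⟨ρ, rfl⟩ : ∃ ρ, τ = σ * ρ := ⟨σ⁻¹ * τ, by group⟩
    rw [inv_mul_cancel_left] at h3
    rw [hf, hd ρ h3, hdσ, hmul, map_sub (am W (σ : Ω →+* Ω)) _ (R - S)]
    abel

/-- the chain -/
theorem chain (hσ : ∀ (σ : Ω ≃ₐ[k0] Ω) (x : Ω), w (σ x) = w x) (hW : (W.Δ : Ω) ≠ 0)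
    (h2 : w (2 : Ω) ≠ 0) (h1 : w (algebraMap k0 Ω π) < 1)
    (h0 : w (algebraMap k0 Ω π) ≠ 0) (n : ℕ) : ∀ (N : Subgroup (Ω ≃ₐ[k0] Ω)), N.Normal →
    N.index = 2 ^ n → UR w π N → (∀ H' : Subgroup (Ω ≃ₐ[k0] Ω), N ≤ H' → ∀ σ, σ ∉ H' →
      ∃ x, fx H' x ∧ σ x ≠ x) → NT2 w W (⊤ : Subgroup (Ω ≃ₐ[k0] Ω)) →
    NT2 w W N ∧ ∀ f : (Ω ≃ₐ[k0] Ω) → (bs W Ω).toAffine.Point,
      (∀ σ τ, f (σ * τ) = f σ + am W (σ : Ω →+* Ω) (f τ)) →
      (∃ R, ∀ τ ∈ N, f τ = am W (τ : Ω →+* Ω) R - R) →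
      ∃ R, ∀ τ, f τ = am W (τ : Ω →+* Ω) R - R := by
  induction n with
  | zero =>
    intro N _ hi _ _ hT
    rw [pow_zero, Subgroup.index_eq_one] at hi
    subst hi
    exact ⟨hT, fun f _ ⟨R, hR⟩ => ⟨R, fun τ => hR τ trivial⟩⟩
  | succ n ih =>
    intro N hN hi hU hcl hT
    obtain ⟨H, σ, hHn, hHi, hle, hσH, hσN, hσσ, hgen⟩ := exists_mid N hi
    obtain ⟨ih1, ih2⟩ := ih H hHn hHi (hU.mono hle) (fun H' hH' => hcl H' (hle.trans hH')) hT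
    have hq : QS H N σ := by
      refine ⟨hle, hσH, fun τ hτ => ?_, hgen, hσσ, hcl N le_rfl σ hσN⟩
      have := hN.conj_mem τ hτ σ⁻¹
      rwa [inv_inv] at this
    have hNN : NT2 w W N := NT2.up hσ hW h2 hU hq h1 h0 ih1
    exact ⟨hNN, fun f hf hfN => ih2 f hf (desc_one hσ hW h2 hU hq h1 h0 hNN f hf hfN)⟩

end chain

end Pool.Agent.K4H53.BSD
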