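import Pool.Agent.K4H53.BSD.Spl

/-!
# Unramified places: local triviality over `ℚ_p`
-/

set_option autoImplicit false
set_option linter.all false

open NumberField IsDedekindDomain WithZero WeierstrassCurve WeierstrassCurve.Affine
open scoped NNReal Classical

namespace Pool.Agent.K4H53.BSD

open Pool.Agent.Y852.GS (vv near small_zero act_comp)
open Pool.Agent.Y304.CT (V)
open Pool.Agent.TH115.GD (Pt act rs ak IsCoc LocTriv)
open Pool.Agent.Y702.G (sh base E0)
open Pool.Agent.Y355.G (isSh')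

theorem exists_res {k L A : Type} [Field k] [Field L] [Field A] [Algebra k L] [Normal k L]
    (φ : L →+* A) (τ : A ≃+* A)
    (hτ : ∀ y : k, τ (φ (algebraMap k L y)) = φ (algebraMap k L y)) :
    ∃ g : L ≃ₐ[k] L, ∀ x, τ (φ x) = φ (g x) := by
  letI : Algebra L A := φ.toAlgebra
  letI : Algebra k A := (φ.comp (algebraMap k L)).toAlgebra
  haveI : IsScalarTower k L A := IsScalarTower.of_algebraMap_eq fun x => rfl
  let τ' : A ≃ₐ[k] A := AlgEquiv.ofRingEquiv (f := τ) (fun x => hτ x)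
  exact ⟨τ'.restrictNormal L, fun x => (τ'.restrictNormal_commutes L x).symm⟩

theorem exists_phi {A B : Type} [Field A] [Field B] [IsAlgClosed B] (κ : A →+* B) :
    ∃ φ : AlgebraicClosure A →+* B, ∀ y, φ (algebraMap _ _ y) = κ y := by
  letI : Algebra A B := κ.toAlgebra
  let φ : AlgebraicClosure A →ₐ[A] B := IsAlgClosed.lift
  exact ⟨φ.toRingHom, fun y => φ.commutes y⟩

theorem normal_Q {L : Type} [Field L] [Algebra ℚ L] [IsAlgClosed L]
    (h : Algebra.IsAlgebraic ℚ L) : Normal ℚ L := by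
  haveI := h
  haveI : IsAlgClosure ℚ L := ⟨inferInstance, h⟩
  exact IsAlgClosure.normal ℚ L

variable {K : Type} [Field K] [NumberField K] [IsGalois ℚ K]

theorem splu (W : WeierstrassCurve ℤ) (hW : W.Δ ≠ 0) {n : ℕ} (hn : Module.finrank ℚ K = 2 ^ n)
    (g : (AlgebraicClosure K ≃ₐ[ℚ] AlgebraicClosure K) → Pt (sh W) (AlgebraicClosure K))
    (hg : ∀ σ τ, g (σ * τ) = g σ + act (sh W) (ak σ) (g τ))
    (v : HeightOneSpectrum (𝓞 K)) (p : HeightOneSpectrum (𝓞 ℚ))
    (hval : ∀ x : ℚ, v.valuation K (algebraMap ℚ K x) = p.valuation ℚ x)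
    (hodd : Odd (E0 W (p.adicCompletion ℚ) Valued.v).index)
    (hloc : LocTriv (sh W) (v.adicCompletion K) (AlgebraicClosure (v.adicCompletion K))
        (fun σ : AlgebraicClosure K ≃ₐ[K] AlgebraicClosure K => g (σ.restrictScalars ℚ))) :
    LocTriv (F := ℚ) (Ω := AlgebraicClosure K) (sh W) (p.adicCompletion ℚ)
          (AlgebraicClosure (p.adicCompletion ℚ)) g := by
  obtain ⟨κ, j, hκ, -⟩ := pack v p hval
  obtain ⟨ι, P, hP⟩ := hloc
  obtain ⟨φ, hφ⟩ := exists_phi (B := Om p) κ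
  haveI hN1 : Normal ℚ (AlgebraicClosure K) :=
    normal_Q (Algebra.IsAlgebraic.trans ℚ K (AlgebraicClosure K))
  let ψ : AlgebraicClosure (v.adicCompletion K) →ₐ[ℚ] AlgebraicClosure (p.adicCompletion ℚ) :=
    { φ with
      commutes' := fun x => by
        show φ (algebraMap ℚ _ x) = _
        rw [eq_ratCast, eq_ratCast, map_ratCast] }
  have hψ : ∀ x, ψ x = φ x := fun x => rfl
  let ι' : AlgebraicClosure K →ₐ[ℚ] AlgebraicClosure (p.adicCompletion ℚ) :=
    ψ.comp (ι.restrictScalars ℚ)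
  have hι' : ∀ x, ι' x = φ (ι x) := fun x => rfl
  have hinj : Function.Injective ι' := ι'.toRingHom.injective
  have hex : ∀ τ : Om p ≃ₐ[p.adicCompletion ℚ] Om p,
      ∃ g : AlgebraicClosure K ≃ₐ[ℚ] AlgebraicClosure K, ∀ x, τ (ι' x) = ι' (g x) := fun τ =>
    exists_res ι'.toRingHom τ.toRingEquiv (fun y => by
      show τ (ι' (algebraMap ℚ _ y)) = ι' (algebraMap ℚ _ y)
      rw [eq_ratCast, map_ratCast, map_ratCast])
  choose ρ hρ using hex
  have hρm : ∀ σ τ, ρ (σ * τ) = ρ σ * ρ τ := by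
    intro σ τ
    ext x
    apply hinj
    rw [← hρ, AlgEquiv.mul_apply, AlgEquiv.mul_apply, hρ τ, hρ σ]
  -- the isomorphism with the short model
  set T := Pool.Agent.Y355.G.tr (isSh' W (Om p)) with hT
  have Tadd : ∀ P Q, T (P + Q) = T P + T Q := fun P Q =>
    Pool.Agent.Y355.G.tr_add (isSh' W (Om p)) P Q
  have Tinj : ∀ P Q, T P = T Q → P = Q := fun P Q h =>
    Pool.Agent.Y355.G.tr_inj (isSh' W (Om p)) h
  have Tsub : ∀ P Q, T (P - Q) = T P - T Q := fun P Q => by
    rw [eq_sub_iff_add_eq, ← Tadd, sub_add_cancel]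
  choose Ti hTi' using Pool.Agent.Y355.G.tr_surj (isSh' W (Om p))
  have hTi : ∀ Q, T (Ti Q) = Q := hTi'
  have nat : ∀ (σ : Om p ≃ₐ[p.adicCompletion ℚ] Om p) (P : (bs W (Om p)).toAffine.Point),
      T (am W (σ : Om p →+* Om p) P) = act (sh W) (rs ℚ σ) (T P) := by
    intro σ P
    rcases P with _ | ⟨x, y, hxy⟩
    · rfl
    · show Point.some (4 * σ x) (8 * σ y + 4 * ((W.a₁ : ℤ) : Om p) * σ x +
          4 * ((W.a₃ : ℤ) : Om p)) _ =
        Point.some (σ (4 * x)) (σ (8 * y + 4 * ((W.a₁ : ℤ) : Om p) * x +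
          4 * ((W.a₃ : ℤ) : Om p))) _
      simp only [map_mul, map_add, map_ofNat, map_intCast]
  have hcomp : ∀ σ : Om p ≃ₐ[p.adicCompletion ℚ] Om p,
      (rs ℚ σ).comp ι' = ι'.comp (ak (ρ σ)) := by
    intro σ
    refine AlgHom.ext fun x => ?_
    exact hρ σ x
  have hmain := (main_chain hW hn hval hκ hodd).2.2 (fun τ => Ti (act (sh W) ι' (g (ρ τ)))) ?_ ?_
  · obtain ⟨R, hR⟩ := hmain
    refine ⟨ι', T R, fun τ σ h => ?_⟩
    have hσ : σ = ρ τ := by
      ext x
      apply hinj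
      rw [← h, hρ]
    have h1 := hR τ
    have h2 := congrArg T h1
    rw [hTi, Tsub, nat, ← hσ] at h2
    exact h2
  · intro σ τ
    apply Tinj
    rw [Tadd, nat, hTi, hTi, hTi, hρm, hg, map_add, act_comp, act_comp, hcomp]
  · refine ⟨Ti (act (sh W) ψ P), fun τ hτ => ?_⟩
    apply Tinj
    rw [Tsub, nat, hTi, hTi]
    have hfix : ∀ y : v.adicCompletion K, τ (κ y) = κ y := fun y => NK_fix hκ hτ y
    obtain ⟨τv, hτv⟩ := exists_res (k := v.adicCompletion K) φ τ.toRingEquiv (fun y => by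
      rw [hφ]
      exact hfix y)
    have hτv' : ∀ x, τ (φ x) = φ (τv x) := hτv
    have hσK : ∀ x : K, (ρ τ) (algebraMap K _ x) = algebraMap K _ x := by
      intro x
      apply hinj
      rw [← hρ, hι', ι.commutes]
      have e : φ (algebraMap K (AlgebraicClosure (v.adicCompletion K)) x) =
          κ (algebraMap K (v.adicCompletion K) x) := by
        rw [← hφ]; rfl
      rw [e, hfix]
    let σ : AlgebraicClosure K ≃ₐ[K] AlgebraicClosure K :=
      AlgEquiv.ofRingEquiv (f := (ρ τ).toRingEquiv) hσK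
    have hσ : σ.restrictScalars ℚ = ρ τ := by
      ext x
      rfl
    have h1 := hP τv σ (fun x => by
      apply φ.injective
      rw [← hτv', ← hι', hρ, hι']
      rfl)
    rw [← hσ]
    have h2 := congrArg (act (sh W) ψ) h1
    have e3 : ψ.comp (rs ℚ τv) = (rs ℚ τ).comp ψ := by
      refine AlgHom.ext fun x => ?_
      exact (hτv' x).symm
    have e4 : act (sh W) ψ (act (sh W) (rs ℚ τv) P) = act (sh W) (rs ℚ τ) (act (sh W) ψ P) := by
      rw [act_comp, act_comp, e3]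
    rw [map_sub, e4] at h2
    rw [← h2]
    exact (act_comp (sh W) (ι.restrictScalars ℚ) ψ _).symm

end Pool.Agent.K4H53.BSD
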