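import Pool.Agent.K4H53.BSD.Pts
import Pool.Agent.Y238.G.Hasp

/-!
# The Euler factors at places of degree a power of two
-/

set_option autoImplicit false
set_option linter.all false

open NumberField IsDedekindDomain H300.HW Filter
open UpperHalfPlane MatrixGroups CongruenceSubgroup
open Pool.Agent.H921R2.TatePole
open W165.CE (pw pw_eq pw_luc finite_bad intCast_mem_iff)
open Pool.Agent.H82R3.EK (luc luc_eq card_points natCast_mem_iff nm_cpow prime_cpow)
open Pool.Agent.Y702.L (pv local_quad)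
open Pool.Agent.Y702.G
open Pool.Agent.Y18.BSD (co)
open Pool.Agent.Y238.G (pts_congr card_quot charP_quot mem_iff multipliable_factor pts_cubic)

namespace Pool.Agent.K4H53.BSD

attribute [-instance] Subtype.instDecidableEq

theorem pw_double (t u : ℂ) (d : ℕ) : pw t u (2 * d) = pw t u d ^ 2 - 2 * u ^ d := by
  obtain ⟨δ, hδ⟩ := IsAlgClosed.exists_pow_nat_eq (t ^ 2 - 4 * u) two_pos
  have h1 : (t + δ) / 2 + (t - δ) / 2 = t := by ring
  have h2 : (t + δ) / 2 * ((t - δ) / 2) = u := by linear_combination (-1 / 4 : ℂ) * hδ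
  rw [pw_eq h1 h2, pw_eq h1 h2, ← h2, mul_pow]
  ring

open scoped Classical in
theorem pt_pw (W : WeierstrassCurve ℤ) (p : ℕ) [hp : Fact p.Prime] (j : ℕ) :
    ∀ (k : Type) [Field k] [Finite k] [CharP k p], Nat.card k = p ^ 2 ^ j →
    ((Nat.card k : ℂ) - (pt W k : ℂ)) = pw ((p : ℂ) - (pt W (ZMod p) : ℂ))
      (if (p : ℤ) ∣ W.Δ then 0 else p) (2 ^ j) := by
  induction j with
  | zero =>
    intro k _ _ _ hk
    rw [pow_zero, pow_one] at hk
    haveI := Fintype.ofFinite k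
    have e : ZMod p ≃+* k := ZMod.ringEquiv k (by rw [← Nat.card_eq_fintype_card, hk])
    have h1 : pt W k = pt W (ZMod p) := (pts_congr W e).symm
    rw [hk, h1, pow_zero]
    rfl
  | succ j ih =>
    intro k _ _ _ hk
    haveI := Fintype.ofFinite k
    haveI : ExpChar k p := ExpChar.prime hp.out
    set τ : k →+* k := iterateFrobenius k p (2 ^ j) with hτd
    have hτx : ∀ x, τ x = x ^ p ^ 2 ^ j := fun x => iterateFrobenius_def _ _ _
    have hkc : Fintype.card k = p ^ 2 ^ (j + 1) := by rw [← Nat.card_eq_fintype_card, hk]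
    have hτ : ∀ x, τ (τ x) = x := by
      intro x
      rw [hτx, hτx, ← pow_mul, ← pow_add, ← two_mul, ← pow_succ', ← hkc, FiniteField.pow_card]
    have hq1 : 1 < p ^ 2 ^ j := Nat.one_lt_pow (by positivity) hp.out.one_lt
    have hne : ∃ x, τ x ≠ x := by
      by_contra hcon
      push Not at hcon
      have h1 : ∀ x : kˣ, x ^ (p ^ 2 ^ j - 1) = 1 := by
        intro x
        have h2 : x ^ (p ^ 2 ^ j) = x := by
          ext
          rw [Units.val_pow_eq_pow_val, ← hτx, hcon]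
        have h3 : x ^ (p ^ 2 ^ j - 1) * x = 1 * x := by
          rw [← pow_succ, Nat.sub_add_cancel hq1.le, h2, one_mul]
        exact mul_right_cancel h3
      have h4 := (FiniteField.forall_pow_eq_one_iff k _).1 h1
      have h5 := Nat.le_of_dvd (by omega) h4
      rw [hkc] at h5
      have h6 : p ^ 2 ^ j < p ^ 2 ^ (j + 1) :=
        Nat.pow_lt_pow_right hp.out.one_lt (Nat.pow_lt_pow_right (by norm_num) (by omega))
      omega
    have hF : Nat.card (fixF τ) = p ^ 2 ^ j := by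
      have h1 := card_quad hτ hne
      rw [hk, pow_succ, pow_mul] at h1
      exact (Nat.pow_left_injective two_ne_zero h1).symm
    haveI : CharP (fixF τ) p :=
      ((algebraMap (fixF τ) k).charP_iff (algebraMap (fixF τ) k).injective p).2 inferInstance
    have h1 := ih (fixF τ) hF
    have h2 := pts_quad (W := W) hτ hne (p ^ 2 ^ j : ℕ) (if (W.Δ : k) = 0 then 0 else 1)
      (by rw [hF]) rfl
    have h3 : (W.Δ : k) = 0 ↔ (p : ℤ) ∣ W.Δ := CharP.intCast_eq_zero_iff k p W.Δ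
    rw [pow_succ, mul_comm, pw_double, ← h1, hk, hF]
    have h4 := congrArg (fun z : ℤ => (z : ℂ)) h2
    by_cases hd : (p : ℤ) ∣ W.Δ
    · rw [if_pos (h3.2 hd)] at h4
      rw [if_pos hd, zero_pow (by positivity)]
      push_cast at h4 ⊢
      rw [pow_succ 2 j, pow_mul]
      linear_combination -h4
    · rw [if_neg (fun h => hd (h3.1 h))] at h4
      rw [if_neg hd]
      push_cast at h4 ⊢
      rw [pow_succ 2 j, pow_mul]
      linear_combination -h4

section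
variable {K : Type} [Field K] [NumberField K]

/-- the coefficient at the finite places -/
lemma av_eq2 (W : WeierstrassCurve ℤ)
    (hdeg1 : ∀ v : HeightOneSpectrum (𝓞 K), ((2 * W.Δ : ℤ) : 𝓞 K) ∈ v.asIdeal →
      ∃ j, deg v = 2 ^ j) (v : HeightOneSpectrum (𝓞 K)) (u : ℂ)
    (hu : u = if ((below v : ℕ) : ℤ) ∣ W.Δ then (0 : ℂ) else (below v : ℕ)) :
    ((av W v : ℤ) : ℂ) =
      pw (((below v : ℕ) : ℂ) - (pts W (ZMod (below v : ℕ)) : ℂ)) u (deg v) := by
  have hmax : v.asIdeal.IsMaximal := v.isPrime.isMaximal v.ne_bot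
  by_cases hbad : ((below v : ℕ) : ℤ) ∣ 2 * W.Δ
  · let _ : Field (𝓞 K ⧸ v.asIdeal) := Ideal.Quotient.field v.asIdeal
    have : Finite (𝓞 K ⧸ v.asIdeal) := Ideal.finiteQuotientOfFreeOfNeBot v.asIdeal v.ne_bot
    let _ : Fintype (𝓞 K ⧸ v.asIdeal) := Fintype.ofFinite _
    have hch := charP_quot v
    have hfp : Fact (below v : ℕ).Prime := ⟨(below v).2⟩
    obtain ⟨h1, h2, h3⟩ := nm_eq v
    have hcard : Ideal.absNorm v.asIdeal = Fintype.card (𝓞 K ⧸ v.asIdeal) := by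
      rw [Ideal.absNorm_apply, Submodule.cardQuot_apply, Nat.card_eq_fintype_card]
    have hmem : ((2 * W.Δ : ℤ) : 𝓞 K) ∈ v.asIdeal := by
      obtain ⟨c, hc⟩ := hbad
      rw [hc]
      push_cast
      exact v.asIdeal.mul_mem_right _ h3
    obtain ⟨j, hj⟩ := hdeg1 v hmem
    have h4 := pt_pw W (below v : ℕ) j (𝓞 K ⧸ v.asIdeal) (by rw [card_quot, hj])
    rw [hj, hu]
    refine Eq.trans ?_ h4
    unfold av
    rw [hcard, Nat.card_eq_fintype_card]
    push_cast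
    rfl
  · have hmax : v.asIdeal.IsMaximal := v.isPrime.isMaximal v.ne_bot
    let _ : Field (𝓞 K ⧸ v.asIdeal) := Ideal.Quotient.field v.asIdeal
    have : Finite (𝓞 K ⧸ v.asIdeal) := Ideal.finiteQuotientOfFreeOfNeBot v.asIdeal v.ne_bot
    let _ : Fintype (𝓞 K ⧸ v.asIdeal) := Fintype.ofFinite _
    have hch := charP_quot v
    have hfp : Fact (below v : ℕ).Prime := ⟨(below v).2⟩
    obtain ⟨h1, h2, h3⟩ := nm_eq v
    have hcard : Ideal.absNorm v.asIdeal = Fintype.card (𝓞 K ⧸ v.asIdeal) := by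
      rw [Ideal.absNorm_apply, Submodule.cardQuot_apply, Nat.card_eq_fintype_card]
    have hu' : u = ((below v : ℕ) : ℂ) := by
      rw [hu, if_neg (fun h => hbad (Dvd.dvd.mul_left h 2))]
    have hp2 : (below v : ℕ) ≠ 2 := by
      intro h
      apply hbad
      rw [h]
      exact dvd_mul_right _ _
    have hpD : ¬ ((below v : ℕ) : ℤ) ∣ W.Δ := fun h => hbad (Dvd.dvd.mul_left h 2)
    have h20 : (2 : 𝓞 K ⧸ v.asIdeal) ≠ 0 := by
      intro h
      have h' : ((2 : ℕ) : 𝓞 K ⧸ v.asIdeal) = 0 := by exact_mod_cast h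
      rw [CharP.cast_eq_zero_iff (𝓞 K ⧸ v.asIdeal) (below v : ℕ)] at h'
      exact hp2 ((Nat.prime_dvd_prime_iff_eq (below v).2 Nat.prime_two).1 h')
    have h20' : (2 : ZMod (below v : ℕ)) ≠ 0 := by
      intro h
      have h' : ((2 : ℕ) : ZMod (below v : ℕ)) = 0 := by exact_mod_cast h
      rw [ZMod.natCast_eq_zero_iff] at h'
      exact hp2 ((Nat.prime_dvd_prime_iff_eq (below v).2 Nat.prime_two).1 h')
    let _ : Algebra (ZMod (below v : ℕ)) (𝓞 K ⧸ v.asIdeal) := ZMod.algebra _ _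
    have hfin : Module.finrank (ZMod (below v : ℕ)) (𝓞 K ⧸ v.asIdeal) = deg v := by
      apply Nat.pow_right_injective (below v).2.two_le
      show (below v : ℕ) ^ _ = (below v : ℕ) ^ _
      rw [FiniteField.pow_finrank_eq_natCard (below v : ℕ), card_quot]
    have e1 := Pool.Agent.Y18.JT.s_cubext (below v : ℕ) hp2 W.b₂ (8 * W.b₄) (16 * W.b₆) (by
      intro h
      have h5 : W.b₂ ^ 2 * (8 * W.b₄) ^ 2 - 4 * (8 * W.b₄) ^ 3 - 4 * W.b₂ ^ 3 * (16 * W.b₆) -
          27 * (16 * W.b₆) ^ 2 + 18 * W.b₂ * (8 * W.b₄) * (16 * W.b₆) = 2 ^ 8 * W.Δ := by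
        have h6 := W.b_relation
        simp only [WeierstrassCurve.Δ]
        linear_combination (64 * W.b₂ ^ 2) * h6
      rw [h5] at h
      have hp : Prime ((below v : ℕ) : ℤ) := Nat.prime_iff_prime_int.1 (below v).2
      rcases hp.dvd_or_dvd h with h8 | h8
      · have h9 : ((below v : ℕ) : ℤ) ∣ ((2 : ℕ) : ℤ) := by
          exact_mod_cast hp.dvd_of_dvd_pow h8
        exact hp2 ((Nat.prime_dvd_prime_iff_eq (below v).2 Nat.prime_two).1
          (Int.natCast_dvd_natCast.1 h9))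
      · exact hpD h8) (𝓞 K ⧸ v.asIdeal)
    rw [hfin, ← pts_cubic W (𝓞 K ⧸ v.asIdeal) h20,
      ← pts_cubic W (ZMod (below v : ℕ)) h20'] at e1
    rw [hu']
    have e3 : (((below v : ℕ) : ℂ) - (pts W (ZMod (below v : ℕ)) : ℂ)) =
        ((((below v : ℕ) : ℤ) - (pts W (ZMod (below v : ℕ)) : ℤ) : ℤ) : ℂ) := by
      push_cast
      rfl
    have e4 : ((below v : ℕ) : ℂ) = (((below v : ℕ) : ℤ) : ℂ) := by
      push_cast
      rfl
    rw [e3, e4, pw_luc]
    congr 1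
    unfold av
    rw [hcard]
    exact e1

/-- the factor in terms of the prime below -/
lemma factor_eq2 (W : WeierstrassCurve ℤ)
    (hdeg1 : ∀ v : HeightOneSpectrum (𝓞 K), ((2 * W.Δ : ℤ) : 𝓞 K) ∈ v.asIdeal →
      ∃ j, deg v = 2 ^ j) (v : HeightOneSpectrum (𝓞 K)) (s u : ℂ)
    (hu : u = if ((below v : ℕ) : ℤ) ∣ W.Δ then (0 : ℂ) else (below v : ℕ)) :
    factor W s v = (1 - pw (((below v : ℕ) : ℂ) - (pts W (ZMod (below v : ℕ)) : ℂ)) u (deg v) *
        (((below v : ℕ) : ℂ) ^ (-s)) ^ deg v +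
      u ^ deg v * (((below v : ℕ) : ℂ) ^ (-s)) ^ (2 * deg v))⁻¹ := by
  have hdeg : deg v ≠ 0 := (nm_eq v).2.1.ne'
  unfold factor
  rw [av_eq2 W hdeg1 v u hu, nm_cpow]
  by_cases h : ((below v : ℕ) : ℤ) ∣ W.Δ
  · rw [if_pos h] at hu
    rw [if_pos ((mem_iff W v).2 h), hu, zero_pow hdeg, zero_mul]
  · rw [if_neg h] at hu
    have hpc : ((Ideal.absNorm v.asIdeal : ℕ) : ℂ) ^ (1 - 2 * s) =
        (((below v : ℕ) : ℂ)) ^ deg v * (((below v : ℕ) : ℂ) ^ (-s)) ^ (2 * deg v) := by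
      rw [nm_cpow, prime_cpow _ (below v).2.ne_zero, mul_pow, ← pow_mul]
    rw [if_neg (fun h' => h ((mem_iff W v).1 h')), hu, hpc]

end

open Classical in
/-- the Euler product over the subfield `F` of the cyclotomic field -/
theorem hasp2 (W : WeierstrassCurve ℤ) (hΔ : W.Δ ≠ 0) (N : ℕ) [NeZero N]
    (f : CuspForm (Gamma0 N : Subgroup (GL (Fin 2) ℝ)) 2) (hf : IsForm W N f)
    (n : ℕ) [NeZero n] (L : Type) [Field L] [NumberField L] [IsCyclotomicExtension {n} ℚ L]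
    (F : IntermediateField ℚ L)
    (hdeg1 : ∀ v : HeightOneSpectrum (𝓞 F), ((2 * W.Δ : ℤ) : 𝓞 F) ∈ v.asIdeal →
      ∃ j, deg v = 2 ^ j)
    (G : DirichletCharacter ℂ n → ℂ → ℂ) (s : ℂ) (hs : 3 / 2 < s.re)
    (hG : ∀ χ ∈ YY n L F, HasProd (fun p : Nat.Primes =>
      (1 - co f p * Pool.Agent.Y702.L.pv n χ p * ((p : ℕ) : ℂ) ^ (-s) +
        (if (p : ℕ) ∣ N then (0 : ℂ) else (p : ℕ)) * Pool.Agent.Y702.L.pv n χ p ^ 2 *
          ((p : ℕ) : ℂ) ^ (-2 * s))⁻¹) (G χ s)) :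
    HasProd (factor (K := F) W s) (∏ᶠ χ : YY n L F, G χ s) := by
  have hab : IsAbelianGalois ℚ L := IsCyclotomicExtension.isAbelianGalois {n} ℚ L
  rw [finprod_eq_prod_of_fintype]
  have h1 : HasProd (fun p : Nat.Primes => ∏ χ : YY n L F,
      (1 - co f p * pv n χ p * ((p : ℕ) : ℂ) ^ (-s) +
        (if (p : ℕ) ∣ N then (0 : ℂ) else (p : ℕ)) * pv n χ p ^ 2 *
          ((p : ℕ) : ℂ) ^ (-2 * s))⁻¹)
      (∏ χ : YY n L F, G χ s) := by
    apply hasProd_prod
    intro χ _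
    exact hG χ.1 χ.2
  have h2 : ∀ p : Nat.Primes, ∏ χ : YY n L F,
      (1 - co f p * pv n χ p * ((p : ℕ) : ℂ) ^ (-s) +
        (if (p : ℕ) ∣ N then (0 : ℂ) else (p : ℕ)) * pv n χ p ^ 2 *
          ((p : ℕ) : ℂ) ^ (-2 * s))⁻¹ =
      ∏ v : {v : HeightOneSpectrum (𝓞 F) // below v = p}, factor W s v.1 := by
    intro p
    have hlev : (if (p : ℕ) ∣ N then (0 : ℂ) else ((p : ℕ) : ℂ)) =
        if ((p : ℕ) : ℤ) ∣ W.Δ then (0 : ℂ) else ((p : ℕ) : ℂ) := by
      by_cases h : (p : ℕ) ∣ N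
      · rw [if_pos h, if_pos ((hf.level p p.2).1 h)]
      · rw [if_neg h, if_neg (fun h' => h ((hf.level p p.2).2 h'))]
    rw [hlev]
    set u : ℂ := if ((p : ℕ) : ℤ) ∣ W.Δ then (0 : ℂ) else ((p : ℕ) : ℂ) with hu
    have h3 : ∀ v : {v : HeightOneSpectrum (𝓞 F) // below v = p}, factor W s v.1 =
        (1 - pw (((p : ℕ) : ℂ) - (pts W (ZMod (p : ℕ)) : ℂ)) u (deg v.1) *
          (((p : ℕ) : ℂ) ^ (-s)) ^ deg v.1 +
          u ^ deg v.1 * (((p : ℕ) : ℂ) ^ (-s)) ^ (2 * deg v.1))⁻¹ := by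
      rintro ⟨v, hv⟩
      subst hv
      exact factor_eq2 W hdeg1 v s u hu
    have h4 : ∏ v : {v : HeightOneSpectrum (𝓞 F) // below v = p}, factor W s v.1 =
        (∏ v : {v : HeightOneSpectrum (𝓞 F) // below v = p},
          (1 - pw (((p : ℕ) : ℂ) - (pts W (ZMod (p : ℕ)) : ℂ)) u (deg v.1) *
          (((p : ℕ) : ℂ) ^ (-s)) ^ deg v.1 +
          u ^ deg v.1 * (((p : ℕ) : ℂ) ^ (-s)) ^ (2 * deg v.1)))⁻¹ := by
      rw [Finset.prod_congr rfl (fun v _ => h3 v), Finset.prod_inv_distrib]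
    rw [h4,
      local_quad n L F p (((p : ℕ) : ℂ) - (pts W (ZMod (p : ℕ)) : ℂ)) u (((p : ℕ) : ℂ) ^ (-s)),
      ← Finset.prod_inv_distrib]
    refine Finset.prod_congr rfl fun χ _ => ?_
    rw [hf.coef p p.2]
    congr 1
    have e1 : ((p : ℕ) : ℂ) ^ (-2 * s) = (((p : ℕ) : ℂ) ^ (-s)) ^ 2 := by
      rw [← Complex.cpow_nat_mul]
      congr 1
      push_cast
      ring
    rw [e1]
    ring
  simp_rw [h2] at h1
  have h3 : Multipliable (factor (K := F) W s) := multipliable_factor W s hs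
  rw [← (Equiv.sigmaFiberEquiv (below (K := F))).hasProd_iff]
  refine HasProd.sigma_of_hasProd h1 (fun p => ?_) ?_
  · exact hasProd_fintype _
  · exact (Equiv.sigmaFiberEquiv (below (K := F))).multipliable_iff.2 h3

end Pool.Agent.K4H53.BSD
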