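import Pool.Agent.K4H53.BSD.Spl

/-!
# Unramified places: minimality
-/

set_option autoImplicit false
set_option linter.all false

open NumberField IsDedekindDomain WithZero WeierstrassCurve WeierstrassCurve.Affine
open scoped NNReal Classical

namespace Pool.Agent.K4H53.BSD

open Pool.Agent.Y852.GS (vv near small_zero)
open Pool.Agent.Y304.CT (V)
open Pool.Agent.Y702.G (base MinimalAt)

theorem base_map {K Ω : Type} [Field K] [Field Ω] (l : K →+* Ω) (W : WeierstrassCurve ℤ) :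
    (base W K).map l = bs W Ω := by
  show (W.map (Int.castRingHom K)).map l = W.map (Int.castRingHom Ω)
  rw [WeierstrassCurve.map_map]
  congr 1
  exact RingHom.ext_int _ _

theorem I5_map {K Ω : Type} [Field K] [Field Ω] (l : K →+* Ω) (w : Valuation Ω ℝ≥0)
    (W : WeierstrassCurve ℤ) (C : VariableChange K) :
    I5 w ((⟨Units.map (l : K →* Ω) C.u, l C.r, l C.s, l C.t⟩ : VariableChange Ω) • bs W Ω) ↔
      (w (l (C • base W K).a₁) ≤ 1 ∧ w (l (C • base W K).a₂) ≤ 1 ∧ w (l (C • base W K).a₃) ≤ 1 ∧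
        w (l (C • base W K).a₄) ≤ 1 ∧ w (l (C • base W K).a₆) ≤ 1) := by
  have h : ((⟨Units.map (l : K →* Ω) C.u, l C.r, l C.s, l C.t⟩ : VariableChange Ω) • bs W Ω) =
      (C • base W K).map l := by
    rw [← base_map l W]
    exact WeierstrassCurve.map_variableChange (base W K) C l
  rw [h]
  exact ⟨fun h => ⟨h.a1, h.a2, h.a3, h.a4, h.a6⟩, fun h => ⟨h.1, h.2.1, h.2.2.1, h.2.2.2.1,
    h.2.2.2.2⟩⟩

variable {K : Type} [Field K] [NumberField K] {p : HeightOneSpectrum (𝓞 ℚ)} {W : WeierstrassCurve ℤ}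

/-- over `ℚ` -/
theorem minH_top (hW : W.Δ ≠ 0) (hM : MinimalAt W p) {ϖ : ℚ}
    (hϖ : p.valuation ℚ ϖ = exp (-1 : ℤ))
    (hU : UR (V p) (algebraMap ℚ (p.adicCompletion ℚ) ϖ)
      (⊤ : Subgroup (Om p ≃ₐ[p.adicCompletion ℚ] Om p))) :
    MinH (V p) W (⊤ : Subgroup (Om p ≃ₐ[p.adicCompletion ℚ] Om p)) := by
  intro d0 r s t fd fr fs ft hI
  by_contra hcon
  rw [not_le] at hcon
  set l : ℚ →+* Om p := (algebraMap (p.adicCompletion ℚ) (Om p)).comp
    (algebraMap ℚ (p.adicCompletion ℚ)) with hl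
  have hlx : ∀ x, l x = algebraMap (p.adicCompletion ℚ) (Om p) (algebraMap ℚ _ x) := fun x => rfl
  have hap : ∀ (x : Om p), fx (⊤ : Subgroup (Om p ≃ₐ[p.adicCompletion ℚ] Om p)) x →
      ∀ ε : ℝ≥0, 0 < ε → ∃ y : ℚ, V p (l y - x) ≤ ε := by
    intro x hx ε hε
    obtain ⟨y, hy⟩ := NK_approx (K := ℚ) l (hx.mono le_top) hε
    exact ⟨y, by rw [Valuation.map_sub_swap]; exact hy.le⟩
  obtain ⟨w1, w0⟩ := val_alg (bd_alg p) hϖ
  have hϖ0 : ϖ ≠ 0 := by
    rintro rfl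
    rw [map_zero] at hϖ
    exact exp_ne_zero hϖ.symm
  obtain ⟨k, hk⟩ := hU.val d0 fd d0.ne_zero
  set u : ℚˣ := Units.mk0 (ϖ ^ k) (zpow_ne_zero k hϖ0) with hu
  set d : (Om p)ˣ := Units.map (l : ℚ →* Om p) u with hd
  have hdv : (d : Om p) = l (ϖ ^ k) := rfl
  have hwd : V p (d : Om p) = V p (d0 : Om p) := by
    rw [hk, hdv, map_zpow₀, map_zpow₀]
    rfl
  have hd0 : V p (d : Om p) ≠ 0 := (Valuation.ne_zero_iff _).2 d.ne_zero
  have hpos : 0 < V p (d : Om p) := pos_iff_ne_zero.2 hd0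
  have hI1 := hI.scale hwd.symm
  obtain ⟨s', hs'⟩ := hap s fs (V p (d : Om p)) hpos
  obtain ⟨t', ht'⟩ := hap t ft (V p (d : Om p) ^ 3) (pow_pos hpos 3)
  obtain ⟨r', hr'⟩ := hap r fr (min (V p (d : Om p) ^ 2) (V p (d : Om p) ^ 3 / (V p s + 1)))
    (lt_min (pow_pos hpos 2) (div_pos (pow_pos hpos 3) (by positivity)))
  have hI2 : I5 (V p) ((⟨d, l r', l s', l t'⟩ : VariableChange (Om p)) • bs W (Om p)) := by
    refine hI1.move (hr'.trans (min_le_left _ _)) hs' (w_sub ht' ?_)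
    have h3 := hr'.trans (min_le_right _ _)
    rw [le_div_iff₀ (by positivity)] at h3
    rw [map_mul]
    refine le_trans ?_ h3
    gcongr
    exact le_add_of_nonneg_right zero_le
  have hI3 := (I5_map l (V p) W ⟨u, r', s', t'⟩).1 hI2
  have hB := bd_alg p
  have hle : ∀ x : ℚ, V p (l x) ≤ 1 → p.valuation ℚ x ≤ 1 := by
    intro x hx
    rw [hlx, hB.le_iff, vv] at hx
    exact hx
  have h4 := hM ⟨u, r', s', t'⟩ (hle _ hI3.1) (hle _ hI3.2.1) (hle _ hI3.2.2.1)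
    (hle _ hI3.2.2.2.1) (hle _ hI3.2.2.2.2)
  rw [WeierstrassCurve.variableChange_Δ, map_mul, map_pow] at h4
  have hD : p.valuation ℚ (base W ℚ).Δ ≠ 0 := by
    rw [Valuation.ne_zero_iff, WeierstrassCurve.map_Δ]
    simpa using hW
  have h5 : p.valuation ℚ ((u⁻¹ : ℚˣ) : ℚ) ^ 12 ≤ 1 := by
    by_contra hc
    rw [not_le] at hc
    have h6 : p.valuation ℚ (base W ℚ).Δ < p.valuation ℚ ((u⁻¹ : ℚˣ) : ℚ) ^ 12 *
        p.valuation ℚ (base W ℚ).Δ := by
      calc p.valuation ℚ (base W ℚ).Δ = 1 * p.valuation ℚ (base W ℚ).Δ := (one_mul _).symm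
        _ < _ := mul_lt_mul_of_pos_right hc (zero_lt_iff.2 hD)
    exact absurd h4 (not_le.2 h6)
  have h7 : p.valuation ℚ ((u⁻¹ : ℚˣ) : ℚ) ≤ 1 := by
    by_contra hc
    rw [not_le] at hc
    exact absurd h5 (not_le.2 (one_lt_pow₀ hc (by norm_num)))
  have h8 : V p (l ((u⁻¹ : ℚˣ) : ℚ)) ≤ 1 := by
    rw [hlx]
    apply hB.le
    rw [vv]
    exact h7
  rw [Units.val_inv_eq_inv_val, map_inv₀, map_inv₀] at h8
  have h9 : V p (l (u : ℚ)) < 1 := by
    have : l (u : ℚ) = (d : Om p) := rfl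
    rw [this, hwd]
    exact hcon
  have h10 : V p (l (u : ℚ)) ≠ 0 := hd0
  have h11 : 1 < (V p (l (u : ℚ)))⁻¹ := (one_lt_inv₀ (pos_iff_ne_zero.2 h10)).2 h9
  exact absurd h8 (not_le.2 h11)

variable {v : HeightOneSpectrum (𝓞 K)}

theorem minAt_of {κ : v.adicCompletion K →+* Om p} (hκ : Bd v (V p) κ)
    (hM : MinH (V p) W (NK (κ.comp (algebraMap K _)))) : MinimalAt W v := by
  intro C h1 h2 h3 h4 h6
  set l := κ.comp (algebraMap K (v.adicCompletion K)) with hl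
  have hlx : ∀ x, l x = κ (algebraMap K _ x) := fun x => rfl
  have hle : ∀ x : K, v.valuation K x ≤ 1 → V p (l x) ≤ 1 := by
    intro x hx
    rw [hlx]
    apply hκ.le
    rw [vv]
    exact hx
  have hfx : ∀ x, fx (NK l) (l x) := fun x τ hτ => hτ x
  have h7 := hM (Units.map (l : K →* Om p) C.u) (l C.r) (l C.s) (l C.t) (hfx _) (hfx _) (hfx _)
    (hfx _) ((I5_map l (V p) W C).2 ⟨hle _ h1, hle _ h2, hle _ h3, hle _ h4, hle _ h6⟩)
  have h8 : 1 ≤ v.valuation K (C.u : K) := by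
    by_contra hc
    rw [not_le] at hc
    have h9 : V p (l (C.u : K)) < 1 := by
      rw [hlx]
      apply hκ.lt
      rw [vv]
      exact hc
    exact absurd h7 (not_le.2 h9)
  rw [WeierstrassCurve.variableChange_Δ, map_mul, map_pow, Units.val_inv_eq_inv_val, map_inv₀]
  refine mul_le_of_le_one_left' ?_
  exact pow_le_one' (inv_le_one_of_one_le₀ h8) 12

/-- minimal over `ℚ` implies minimal over `K` -/
theorem min_up [IsGalois ℚ K] (hW : W.Δ ≠ 0) {n : ℕ} (hn : Module.finrank ℚ K = 2 ^ n)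
    (hval : ∀ x : ℚ, v.valuation K (algebraMap ℚ K x) = p.valuation ℚ x)
    (hM : MinimalAt W p) : MinimalAt W v := by
  obtain ⟨κ, j, hκ, -⟩ := pack v p hval
  obtain ⟨ϖ, hϖ⟩ := p.valuation_exists_uniformizer ℚ
  obtain ⟨h1, h0⟩ := val_alg (bd_alg p) hϖ
  obtain ⟨hnor, m, hm⟩ := NK_index (κ.comp (algebraMap K (v.adicCompletion K))) hn
  have hU := NK_UR hval hκ hϖ
  refine minAt_of hκ ?_
  refine chain_up (w := V p) (π := algebraMap ℚ (p.adicCompletion ℚ) ϖ) (fun H => MinH (V p) W H)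
    (fun H H' σ hU' hq hM' => MinH.up (V_inv p) hU' hq h1 h0 hM') m _ hnor hm hU
    (fun H' hH' σ hσ => NK_closed _ H' hH' σ hσ) ?_
  exact minH_top hW hM hϖ (hU.mono le_top)

end Pool.Agent.K4H53.BSD
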