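import Pool.Agent.R425.P.Al
import Pool.Agent.R425.G.An
import Pool.Agent.K4H53.BSD.Splu
import Pool.Agent.K4H53.BSD.Mink

/-!
# The algebraic side, the bad primes only unramified
-/

set_option autoImplicit false
set_option linter.all false

open NumberField IsDedekindDomain WithZero WeierstrassCurve WeierstrassCurve.Affine
open scoped NNReal Classical

namespace Pool.Agent.K4H53.BSD

open Pool.Agent.TH115.GD
open Pool.Agent.Y702.G (sh base pts E0 SelTriv)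
open Pool.Agent.R425 (Ev ev_of_disc unr_of_disc)
open Pool.Agent.R425.G Pool.Agent.R425.P

section tam

variable (W : WeierstrassCurve ℤ) {K : Type} [Field K] [NumberField K] [IsGalois ℚ K]

/-- the parity of the Tamagawa products -/
theorem tam_iff2 (hW : W.Δ ≠ 0) {n : ℕ} (hn : Module.finrank ℚ K = 2 ^ n) (m : ℕ)
    (hm : ∀ l : ℕ, l.Prime → l ∣ m → ¬ (l : ℤ) ∣ 2 * W.Δ)
    (hunr : ∀ (p : ℕ), p.Prime → ¬ p ∣ m → ∀ v : HeightOneSpectrum (𝓞 K), (p : 𝓞 K) ∈ v.asIdeal →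
      v.valuation K (p : K) = WithZero.exp (-1 : ℤ))
    (hbelow : ∀ v : HeightOneSpectrum (𝓞 K), ((W.Δ : ℤ) : 𝓞 K) ∈ v.asIdeal →
      (∀ x : ℚ, v.valuation K (algebraMap ℚ K x) = (v.under (𝓞 ℚ)).valuation ℚ x)) :
    Odd (∏ᶠ v : HeightOneSpectrum (𝓞 K), cv W v) ↔ Odd (∏ᶠ v : HeightOneSpectrum (𝓞 ℚ), cv W v) := by
  rw [tam_odd_iff W hW, tam_odd_iff W hW]
  constructor
  · intro h p
    by_cases hp : ((W.Δ : ℤ) : 𝓞 ℚ) ∈ p.asIdeal
    · have hlt : p.valuation ℚ (W.Δ : ℚ) < 1 := by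
        have h3 := (p.valuation_lt_one_iff_mem (K := ℚ) ((W.Δ : ℤ) : 𝓞 ℚ)).2 hp
        have e : algebraMap (𝓞 ℚ) ℚ ((W.Δ : ℤ) : 𝓞 ℚ) = (W.Δ : ℚ) := map_intCast _ _
        have h4 : p.valuation ℚ (algebraMap (𝓞 ℚ) ℚ ((W.Δ : ℤ) : 𝓞 ℚ)) < 1 := h3
        rwa [e] at h4
      have hne : p.valuation ℚ (2 * (Pool.Agent.Y702.G.sh W).Δ) ≠ 1 := by
        have e : 2 * (Pool.Agent.Y702.G.sh W).Δ = ((2 * 2 ^ 12 : ℤ) : ℚ) * (W.Δ : ℚ) := by
          rw [Pool.Agent.Y702.G.sh_disc]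
          push_cast
          ring
        rw [e, map_mul]
        have h5 : p.valuation ℚ (((2 * 2 ^ 12 : ℤ)) : ℚ) ≤ 1 := Pool.Agent.Y702.Fn.int_le_one p _
        exact (lt_of_le_of_lt (mul_le_of_le_one_left' h5) hlt).ne
      obtain ⟨v, hv1, hv2⟩ := Pool.Agent.Y702.G.exists_place (K := K) W hW m hm hunr p hne
      exact (comp_parity hW hn hv2).1 (h v)
    · rw [cv_one W p hp]
      exact odd_one
  · intro h v
    by_cases hv : ((W.Δ : ℤ) : 𝓞 K) ∈ v.asIdeal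
    · exact (comp_parity hW hn (hbelow v hv)).2 (h _)
    · rw [cv_one W v hv]
      exact odd_one

end tam

variable (W : WeierstrassCurve ℤ)

/-- negative discriminant -/
theorem sel_main3 (hΔ : W.Δ < 0) (hnr : ∀ x : ℚ, cub (sh W) x ≠ 0)
    (hsha : ∀ s : Pool.Agent.TH841.NF.D.Sha (base W ℚ), 2 • s = 0 → s = 0)
    (hfin : Finite (base W ℚ).toAffine.Point) (hcard : Odd (Nat.card (base W ℚ).toAffine.Point))
    (K : Type) [Field K] [NumberField K] [IsGalois ℚ K] (n m : ℕ) (hn : Module.finrank ℚ K = 2 ^ n)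
    (hm : ∀ l : ℕ, l.Prime → l ∣ m → ¬ (l : ℤ) ∣ 2 * W.Δ ∧ Odd ((l : ℤ) - pts W (ZMod l)))
    (hunr : ∀ (p : ℕ), p.Prime → ¬ p ∣ m → ∀ v : HeightOneSpectrum (𝓞 K), (p : 𝓞 K) ∈ v.asIdeal →
      v.valuation K (p : K) = exp (-1 : ℤ))
    (hodd : ∀ p : HeightOneSpectrum (𝓞 ℚ), Odd (cv W p)) : SelTriv (sh W) K := by
  have hV : (sh W).Δ ≠ 0 := Y355.G.sh_disc hΔ.ne
  have hnrK := Pool.Agent.Y702.G.no_root (sh W) hnr K n hn
  by_contra hcon
  obtain ⟨g, hg1, hg2, hg3, hg4, hg5⟩ :=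
    Pool.Agent.Y93.G.s_inv (sh W) rfl rfl hV K n hn hnrK hcon
  obtain ⟨A, M, iA, iA', iM, iM', iAM, iKM, θ, z, hθ, hA, hM, hz0, hzn, hzs, hloc, i, t, hrel⟩ :=
    Pool.Agent.Y141.G2.s_kump (sh W) rfl rfl hV K n hn hnrK g hg1 hg2 hg3 hg4 hg5
  apply hg5
  have hpar := Pool.Agent.Y76.GPar.s_par W hΔ.ne K A M θ z m hθ hnr hA hM hz0 hzn hm hunr hloc
  refine Pool.Agent.Y125.DQ.s_descq W hΔ hsha hfin hcard K g hg1 hg2 hg3 fun p => ?_
  by_cases hp : p.valuation ℚ (2 * (sh W).Δ) = 1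
  · exact (Pool.Agent.Y710.CV.s_conv Pool.Agent.Y46.G2.s_emb) (sh W) rfl rfl hV hnr K g hg1 hg2
      hg3 A θ z hθ hA i t hrel p
      ((Pool.Agent.Y67.LZ.s_lz Pool.Agent.Y500.G.s_fl) W hΔ.ne hnr A θ z hθ hA hz0 hzn hpar p hp)
  · obtain ⟨v, hv1, hv2⟩ := Pool.Agent.Y702.G.exists_place W hΔ.ne m
      (fun l hl hlm => (hm l hl hlm).1) hunr p hp
    exact splu W hΔ.ne hn g hg2 v p hv2 (hodd p) (hg4 v)

/-- positive discriminant -/
theorem selT_up2 (hΔ : W.Δ ≠ 0) (hnr : ∀ x : ℚ, cub (sh W) x ≠ 0) (hsQ : SelT (sh W) ℚ)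
    (K : Type) [Field K] [NumberField K] [IsGalois ℚ K] (hre : ∀ v : InfinitePlace K, v.IsReal)
    (n m : ℕ) (hn : Module.finrank ℚ K = 2 ^ n)
    (hm : ∀ l : ℕ, l.Prime → l ∣ m → ¬ (l : ℤ) ∣ 2 * W.Δ ∧ Odd ((l : ℤ) - pts W (ZMod l)))
    (hunr : ∀ (p : ℕ), p.Prime → ¬ p ∣ m → ∀ v : HeightOneSpectrum (𝓞 K), (p : 𝓞 K) ∈ v.asIdeal →
      v.valuation K (p : K) = exp (-1 : ℤ))
    (hodd : ∀ p : HeightOneSpectrum (𝓞 ℚ), Odd (cv W p)) : SelT (sh W) K := by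
  have hV : (sh W).Δ ≠ 0 := Y355.G.sh_disc hΔ
  have hnrK := Pool.Agent.Y702.G.no_root (sh W) hnr K n hn
  by_contra hcon
  obtain ⟨g, hg1, hg2, hg3, hg4, hg4', hg5⟩ := s_invP (sh W) rfl rfl hV K hre n hn hnrK hcon
  obtain ⟨A, M, iA, iA', iM, iM', iAM, iKM, θ, z, hθ, hA, hM, hz0, hzn, hzs, hloc, i, t, hrel⟩ :=
    Pool.Agent.Y141.G2.s_kump (sh W) rfl rfl hV K n hn hnrK g hg1 hg2 hg3 hg4 hg5
  apply hg5
  have hpar := Pool.Agent.Y76.GPar.s_par W hΔ K A M θ z m hθ hnr hA hM hz0 hzn hm hunr hloc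
  obtain ⟨v0⟩ : Nonempty (InfinitePlace K) := inferInstance
  have h := selT_use W (F := ℚ) (K := K) hsQ g ⟨hg1, fun σ τ => hg2 σ τ⟩ hg3 (fun p => by
    by_cases hp : p.valuation ℚ (2 * (sh W).Δ) = 1
    · exact (Pool.Agent.Y710.CV.s_conv Pool.Agent.Y46.G2.s_emb) (sh W) rfl rfl hV hnr K g hg1 hg2
        hg3 A θ z hθ hA i t hrel p
        ((Pool.Agent.Y67.LZ.s_lz Pool.Agent.Y500.G.s_fl) W hΔ hnr A θ z hθ hA hz0 hzn hpar p hp)
    · obtain ⟨v, hv1, hv2⟩ := Pool.Agent.Y702.G.exists_place W hΔ m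
        (fun l hl hlm => (hm l hl hlm).1) hunr p hp
      exact splu W hΔ hn g hg2 v p hv2 (hodd p) (hg4 v))
    (fun u => by
      have hu : u.IsReal := by
        rw [Subsingleton.elim u Rat.infinitePlace]
        exact Rat.isReal_infinitePlace
      exact loc_iso (sh W) g ((InfinitePlace.Completion.ringEquivRealOfIsReal hu).trans
        (InfinitePlace.Completion.ringEquivRealOfIsReal (hre v0)).symm) (hg4' v0))
  obtain ⟨T, hT, hT2⟩ := h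
  exact ⟨T, hT, fun σ => hT2 σ⟩

/-- the condition at infinity and at the ramified primes -/
def CondA (W : WeierstrassCurve ℤ) (K : Type) [Field K] [NumberField K] : Prop :=
  (0 < W.Δ → InfinitePlace.nrComplexPlaces K = 0) ∧
    ∀ l : ℕ, l.Prime → (l : ℤ) ∣ discr K → Odd ((l : ℤ) - pts W (ZMod l))

/-- **The algebraic side, going down.** -/
theorem alg_down (hΔ : W.Δ ≠ 0) (hnr : ∀ x : ℚ, cub (sh W) x ≠ 0) (K : Type) [Field K]
    [NumberField K] [IsGalois ℚ K] (n : ℕ) (hn : Module.finrank ℚ K = 2 ^ n)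
    (hco : ∀ l : ℕ, l.Prime → (l : ℤ) ∣ discr K → ¬ (l : ℤ) ∣ 2 * W.Δ)
    (h : Finite (base W K).toAffine.Point ∧
        ∀ s : Pool.Agent.TH841.NF.D.Sha (base W K), 2 • s = 0 → s = 0) :
    (Finite (base W ℚ).toAffine.Point ∧
        ∀ s : Pool.Agent.TH841.NF.D.Sha (base W ℚ), 2 • s = 0 → s = 0) ∧ CondA W K := by
  have hnrK := Pool.Agent.Y702.G.no_root (sh W) hnr K n hn
  obtain ⟨hfin, hsha⟩ := h
  have hS := selT_of W K hΔ hnrK hfin hsha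
  refine ⟨⟨fin_Q W hfin, sha_two W hΔ (selT_Q W hΔ hnrK hS)⟩, ?_, ?_⟩
  · intro hpos
    have hram : ∀ l : ℕ, l.Prime → (l : ℤ) ∣ discr K →
        ¬ ((∃ n : ℤ, (l : ℤ) ∣ n ^ 3 + W.b₂ * n ^ 2 + 8 * W.b₄ * n + 16 * W.b₆) ∨
          ∀ v : InfinitePlace K, ¬ v.IsReal) := fun l hl hld =>
      selT_noP W K hpos hnrK hS hl (hco l hl hld) (ev_of_disc K hn hl hld)
    by_contra hcx
    have hallc : ∀ v : InfinitePlace K, ¬ v.IsReal := by
      intro v hv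
      apply hcx
      rw [InfinitePlace.nrComplexPlaces, Fintype.card_eq_zero_iff]
      refine ⟨fun ⟨w, hw⟩ => ?_⟩
      obtain ⟨σ, rfl⟩ := InfinitePlace.exists_smul_eq_of_comap_eq (k := ℚ) (K := K) (w := v) (w' := w)
        (Subsingleton.elim _ _)
      exact InfinitePlace.not_isReal_iff_isComplex.2 hw (InfinitePlace.isReal_smul_iff.2 hv)
    have hdeg1 : 1 < Module.finrank ℚ K := by
      by_contra hle
      have hpos := Module.finrank_pos (R := ℚ) (M := K)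
      have h1 := InfinitePlace.card_add_two_mul_card_eq_rank K
      omega
    have hd2 := NumberField.abs_discr_gt_two hdeg1
    have hne1 : (discr K).natAbs ≠ 1 := by
      intro h1
      have h2 : |discr K| = 1 := by
        rw [Int.abs_eq_natAbs, h1]
        rfl
      omega
    obtain ⟨l, hl, hld⟩ := Nat.exists_prime_and_dvd hne1
    exact hram l hl (Int.natCast_dvd.2 hld) (Or.inr hallc)
  · intro l hl hld
    by_contra hev
    obtain ⟨r, hr⟩ := Pool.Agent.R425.G.exists_root W hl (hco l hl hld) hev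
    rcases lt_or_gt_of_ne hΔ with hneg | hpos
    · exact no_root_ram W K hneg hnrK hS hl (hco l hl hld) (ev_of_disc K hn hl hld) r hr
    · exact selT_noP W K hpos hnrK hS hl (hco l hl hld) (ev_of_disc K hn hl hld) (Or.inl ⟨r, hr⟩)

/-- **The algebraic side, going up.** -/
theorem alg_up (hΔ : W.Δ ≠ 0) (hnr : ∀ x : ℚ, cub (sh W) x ≠ 0) (K : Type) [Field K]
    [NumberField K] [IsGalois ℚ K] (n : ℕ) (hn : Module.finrank ℚ K = 2 ^ n)
    (hco : ∀ l : ℕ, l.Prime → (l : ℤ) ∣ discr K → ¬ (l : ℤ) ∣ 2 * W.Δ)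
    (htam : ∀ p : HeightOneSpectrum (𝓞 ℚ), Odd (cv W p))
    (h : Finite (base W ℚ).toAffine.Point ∧
        ∀ s : Pool.Agent.TH841.NF.D.Sha (base W ℚ), 2 • s = 0 → s = 0) (hA : CondA W K) :
    (Finite (base W K).toAffine.Point ∧
        ∀ s : Pool.Agent.TH841.NF.D.Sha (base W K), 2 • s = 0 → s = 0) := by
  have hnrK := Pool.Agent.Y702.G.no_root (sh W) hnr K n hn
  obtain ⟨hfin, hsha⟩ := h
  obtain ⟨hcx, hodd⟩ := hA
  have hm : ∀ l : ℕ, l.Prime → l ∣ (discr K).natAbs →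
      ¬ (l : ℤ) ∣ 2 * W.Δ ∧ Odd ((l : ℤ) - pts W (ZMod l)) := fun l hl hlm =>
    ⟨hco l hl (Int.natCast_dvd.2 hlm), hodd l hl (Int.natCast_dvd.2 hlm)⟩
  have hunr : ∀ (p : ℕ), p.Prime → ¬ p ∣ (discr K).natAbs → ∀ v : HeightOneSpectrum (𝓞 K),
      (p : 𝓞 K) ∈ v.asIdeal → v.valuation K (p : K) = exp (-1 : ℤ) := fun p hp hpm v hv =>
    unr_of_disc K hp (fun h => hpm (Int.natCast_dvd.1 h)) v hv
  rcases lt_or_gt_of_ne hΔ with hneg | hpos
  · have hcard := card_odd W hΔ hnr hfin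
    have hsel := sel_main3 W hneg hnr hsha hfin hcard K n (discr K).natAbs hn hm hunr htam
    obtain ⟨h1, h2, h3⟩ := Pool.Agent.Y355.G.s_desc W hΔ K hsel hnrK
    exact ⟨h2, h1⟩
  · have hre : ∀ v : InfinitePlace K, v.IsReal := by
      intro v
      have hcx' := hcx hpos
      rw [InfinitePlace.nrComplexPlaces, Fintype.card_eq_zero_iff] at hcx'
      by_contra hv
      exact hcx'.false ⟨v, InfinitePlace.not_isReal_iff_isComplex.1 hv⟩
    have hsQ := selT_of W ℚ hΔ hnr hfin hsha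
    have hSK := selT_up2 W hΔ hnr hsQ K hre n (discr K).natAbs hn hm hunr htam
    exact ⟨finite_of_selT W hΔ hSK, fun s hs => sha_two W hΔ hSK s hs⟩

end Pool.Agent.K4H53.BSD
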