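import Mathlib
import Pool.Agent.K4H53.BSD.Chain

/-!
# Minimality along an unramified extension of degree a power of two
-/

set_option autoImplicit false
set_option linter.all false

open WeierstrassCurve WeierstrassCurve.Affine Polynomial
open scoped NNReal Classical

namespace Pool.Agent.K4H53.BSD

section chainup

variable {Ω k0 : Type} [Field Ω] [IsAlgClosed Ω] [Field k0] [Algebra k0 Ω]
  {w : Valuation Ω ℝ≥0} {π : k0}

/-- going up along the chain -/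
theorem chain_up (Q : Subgroup (Ω ≃ₐ[k0] Ω) → Prop)
    (hQ : ∀ (H H' : Subgroup (Ω ≃ₐ[k0] Ω)) (σ : Ω ≃ₐ[k0] Ω), UR w π H' → QS H H' σ → Q H → Q H')
    (n : ℕ) : ∀ (N : Subgroup (Ω ≃ₐ[k0] Ω)), N.Normal →
    N.index = 2 ^ n → UR w π N → (∀ H' : Subgroup (Ω ≃ₐ[k0] Ω), N ≤ H' → ∀ σ, σ ∉ H' →
      ∃ x, fx H' x ∧ σ x ≠ x) → Q ⊤ → Q N := by
  induction n with
  | zero =>
    intro N _ hi _ _ hT
    rw [pow_zero, Subgroup.index_eq_one] at hi
    subst hi
    exact hT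
  | succ n ih =>
    intro N hN hi hU hcl hT
    obtain ⟨H, σ, hHn, hHi, hle, hσH, hσN, hσσ, hgen⟩ := exists_mid N hi
    have ih1 := ih H hHn hHi (hU.mono hle) (fun H' hH' => hcl H' (hle.trans hH')) hT
    have hq : QS H N σ := by
      refine ⟨hle, hσH, fun τ hτ => ?_, hgen, hσσ, hcl N le_rfl σ hσN⟩
      have := hN.conj_mem τ hτ σ⁻¹
      rwa [inv_inv] at this
    exact hQ H N σ hU hq ih1

end chainup

section min

variable {Ω : Type} [Field Ω] {w : Valuation Ω ℝ≥0}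

/-- the coefficients are integral -/
structure I5 (w : Valuation Ω ℝ≥0) (V : WeierstrassCurve Ω) : Prop where
  a1 : w V.a₁ ≤ 1
  a2 : w V.a₂ ≤ 1
  a3 : w V.a₃ ≤ 1
  a4 : w V.a₄ ≤ 1
  a6 : w V.a₆ ≤ 1

theorem I5.change {V : WeierstrassCurve Ω} (h : I5 w V) {ρ ς τ : Ω} (hρ : w ρ ≤ 1) (hς : w ς ≤ 1)
    (hτ : w τ ≤ 1) : I5 w ((⟨1, ρ, ς, τ⟩ : VariableChange Ω) • V) := by
  have h2 := w_two w
  have h3 := w_three w
  refine ⟨?_, ?_, ?_, ?_, ?_⟩
  · rw [variableChange_a₁]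
    simp only [inv_one, Units.val_one, one_mul]
    exact w_add h.a1 (w_mul h2 hς)
  · rw [variableChange_a₂]
    simp only [inv_one, Units.val_one, one_mul, one_pow]
    exact w_sub (w_add (w_sub h.a2 (w_mul hς h.a1)) (w_mul h3 hρ)) (w_pow hς 2)
  · rw [variableChange_a₃]
    simp only [inv_one, Units.val_one, one_mul, one_pow]
    exact w_add (w_add h.a3 (w_mul hρ h.a1)) (w_mul h2 hτ)
  · rw [variableChange_a₄]
    simp only [inv_one, Units.val_one, one_mul, one_pow]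
    exact w_sub (w_add (w_sub (w_add (w_sub h.a4 (w_mul hς h.a3)) (w_mul (w_mul h2 hρ) h.a2))
      (w_mul (w_add hτ (w_mul hρ hς)) h.a1)) (w_mul h3 (w_pow hρ 2))) (w_mul (w_mul h2 hς) hτ)
  · rw [variableChange_a₆]
    simp only [inv_one, Units.val_one, one_mul, one_pow]
    exact w_sub (w_sub (w_sub (w_add (w_add (w_add h.a6 (w_mul hρ h.a4)) (w_mul (w_pow hρ 2) h.a2))
      (w_pow hρ 3)) (w_mul hτ h.a3)) (w_pow hτ 2)) (w_mul (w_mul hρ hτ) h.a1)

/-- a change between integral equations is integral -/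
theorem I5.conv {V : WeierstrassCurve Ω} (h : I5 w V) {ρ ς τ : Ω}
    (h' : I5 w ((⟨1, ρ, ς, τ⟩ : VariableChange Ω) • V)) : w ρ ≤ 1 ∧ w ς ≤ 1 ∧ w τ ≤ 1 := by
  have h2 := w_two w
  have h3 := w_three w
  have n4 : w (4 : Ω) ≤ 1 := by exact_mod_cast w_nat w 4
  have hρ : w ρ ≤ 1 := by
    by_contra hcon
    rw [not_le] at hcon
    have b2 : w V.b₂ ≤ 1 := by
      rw [WeierstrassCurve.b₂]
      exact w_add (w_pow h.a1 2) (w_mul n4 h.a2)
    have b4 : w V.b₄ ≤ 1 := by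
      rw [WeierstrassCurve.b₄]
      exact w_add (w_mul h2 h.a4) (w_mul h.a1 h.a3)
    have b6 : w V.b₆ ≤ 1 := by
      rw [WeierstrassCurve.b₆]
      exact w_add (w_pow h.a3 2) (w_mul n4 h.a6)
    have b8 : w V.b₈ ≤ 1 := by
      rw [WeierstrassCurve.b₈]
      exact w_sub (w_add (w_sub (w_add (w_mul (w_pow h.a1 2) h.a6) (w_mul (w_mul n4 h.a2) h.a6))
        (w_mul (w_mul h.a1 h.a3) h.a4)) (w_mul h.a2 (w_pow h.a3 2))) (w_pow h.a4 2)
    have p1 : w ρ ≤ w ρ ^ 2 := by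
      rw [sq]; exact le_mul_of_one_le_left zero_le hcon.le
    have p2 : w ρ ^ 2 ≤ w ρ ^ 3 := pow_le_pow_right₀ hcon.le (by norm_num)
    have h1' : (1 : ℝ≥0) ≤ w ρ ^ 3 := one_le_pow₀ hcon.le
    by_cases hr : w (3 : Ω) = 1
    · -- use `b₈`
      have e : ((⟨1, ρ, ς, τ⟩ : VariableChange Ω) • V).b₈ = 3 * ρ ^ 4 + (V.b₈ + 3 * ρ * V.b₆ +
          3 * ρ ^ 2 * V.b₄ + ρ ^ 3 * V.b₂) := by
        rw [variableChange_b₈]
        simp only [inv_one, Units.val_one, one_mul, one_pow]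
        ring
      have h8 : w ((⟨1, ρ, ς, τ⟩ : VariableChange Ω) • V).b₈ ≤ 1 := by
        rw [WeierstrassCurve.b₈]
        exact w_sub (w_add (w_sub (w_add (w_mul (w_pow h'.a1 2) h'.a6)
          (w_mul (w_mul n4 h'.a2) h'.a6)) (w_mul (w_mul h'.a1 h'.a3) h'.a4))
          (w_mul h'.a2 (w_pow h'.a3 2))) (w_pow h'.a4 2)
      rw [e, Valuation.map_add_eq_of_lt_left, map_mul, hr, one_mul, map_pow] at h8
      · exact absurd h8 (not_le.2 (one_lt_pow₀ hcon (by norm_num)))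
      · rw [map_mul, hr, one_mul, map_pow]
        have p4 : w ρ ^ 3 < w ρ ^ 4 := pow_lt_pow_right₀ hcon (by norm_num)
        refine lt_of_le_of_lt ?_ p4
        refine w_add (w_add (w_add (b8.trans h1') ?_) ?_) ?_
        · rw [map_mul, map_mul]
          calc w 3 * w ρ * w V.b₆ ≤ 1 * w ρ * 1 := by gcongr
            _ = w ρ := by ring
            _ ≤ _ := p1.trans p2
        · rw [map_mul, map_mul, map_pow]
          calc w 3 * w ρ ^ 2 * w V.b₄ ≤ 1 * w ρ ^ 2 * 1 := by gcongr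
            _ = w ρ ^ 2 := by ring
            _ ≤ _ := p2
        · rw [map_mul, map_pow]
          exact mul_le_of_le_one_right' b2
    · -- then `4` is a unit
      have hr4 : w (4 : Ω) = 1 := by
        have e : (4 : Ω) = 1 + 3 := by norm_num
        rw [e, Valuation.map_add_eq_of_lt_left, map_one]
        rw [map_one]
        exact lt_of_le_of_ne h3 hr
      have e : ((⟨1, ρ, ς, τ⟩ : VariableChange Ω) • V).b₆ = 4 * ρ ^ 3 + (V.b₆ + 2 * ρ * V.b₄ +
          ρ ^ 2 * V.b₂) := by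
        rw [variableChange_b₆]
        simp only [inv_one, Units.val_one, one_mul, one_pow]
        ring
      have h6 : w ((⟨1, ρ, ς, τ⟩ : VariableChange Ω) • V).b₆ ≤ 1 := by
        rw [WeierstrassCurve.b₆]
        exact w_add (w_pow h'.a3 2) (w_mul n4 h'.a6)
      rw [e, Valuation.map_add_eq_of_lt_left, map_mul, hr4, one_mul, map_pow] at h6
      · exact absurd h6 (not_le.2 (one_lt_pow₀ hcon (by norm_num)))
      · rw [map_mul, hr4, one_mul, map_pow]
        have p4 : w ρ ^ 2 < w ρ ^ 3 := pow_lt_pow_right₀ hcon (by norm_num)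
        refine lt_of_le_of_lt ?_ p4
        refine w_add (w_add (b6.trans (one_le_pow₀ hcon.le)) ?_) ?_
        · rw [map_mul, map_mul]
          calc w 2 * w ρ * w V.b₄ ≤ 1 * w ρ * 1 := by gcongr
            _ = w ρ := by ring
            _ ≤ _ := p1
        · rw [map_mul, map_pow]
          exact mul_le_of_le_one_right' b2
  have hς : w ς ≤ 1 := by
    by_contra hcon
    rw [not_le] at hcon
    have e : ((⟨1, ρ, ς, τ⟩ : VariableChange Ω) • V).a₂ = -(ς ^ 2) + (V.a₂ - ς * V.a₁ + 3 * ρ) := by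
      rw [variableChange_a₂]
      simp only [inv_one, Units.val_one, one_mul, one_pow]
      ring
    have h6 := h'.a2
    have p4 : w ς < w ς ^ 2 := by
      calc w ς = w ς ^ 1 := (pow_one _).symm
        _ < _ := pow_lt_pow_right₀ hcon (by norm_num)
    rw [e, Valuation.map_add_eq_of_lt_left, Valuation.map_neg, map_pow] at h6
    · exact absurd h6 (not_le.2 (one_lt_pow₀ hcon (by norm_num)))
    · rw [Valuation.map_neg, map_pow]
      refine lt_of_le_of_lt ?_ p4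
      refine w_add (w_sub (h.a2.trans hcon.le) ?_) ((w_mul h3 hρ).trans hcon.le)
      rw [map_mul]
      exact mul_le_of_le_one_right' h.a1
  refine ⟨hρ, hς, ?_⟩
  by_contra hcon
  rw [not_le] at hcon
  have e : ((⟨1, ρ, ς, τ⟩ : VariableChange Ω) • V).a₆ = -(τ ^ 2) + (V.a₆ + ρ * V.a₄ +
      ρ ^ 2 * V.a₂ + ρ ^ 3 - τ * V.a₃ - ρ * τ * V.a₁) := by
    rw [variableChange_a₆]
    simp only [inv_one, Units.val_one, one_mul, one_pow]
    ring
  have h6 := h'.a6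
  have p4 : w τ < w τ ^ 2 := by
    calc w τ = w τ ^ 1 := (pow_one _).symm
      _ < _ := pow_lt_pow_right₀ hcon (by norm_num)
  rw [e, Valuation.map_add_eq_of_lt_left, Valuation.map_neg, map_pow] at h6
  · exact absurd h6 (not_le.2 (one_lt_pow₀ hcon (by norm_num)))
  · rw [Valuation.map_neg, map_pow]
    refine lt_of_le_of_lt ?_ p4
    refine w_sub (w_sub (w_add (w_add (w_add (h.a6.trans hcon.le) ((w_mul hρ h.a4).trans hcon.le))
      ((w_mul (w_pow hρ 2) h.a2).trans hcon.le)) ((w_pow hρ 3).trans hcon.le)) ?_) ?_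
    · rw [map_mul]
      exact mul_le_of_le_one_right' h.a3
    · rw [mul_assoc, map_mul, map_mul]
      calc w ρ * (w τ * w V.a₁) ≤ 1 * (w τ * 1) := by gcongr; exact h.a1
        _ = w τ := by ring

/-- the composition -/
theorem smul_smul' (V : WeierstrassCurve Ω) (d : Ωˣ) (r s t r' s' t' : Ω) :
    (⟨1, (r' - r) / d ^ 2, (s' - s) / d, (t' - t - (r' - r) * s) / d ^ 3⟩ : VariableChange Ω) •
      ((⟨d, r, s, t⟩ : VariableChange Ω) • V) = (⟨d, r', s', t'⟩ : VariableChange Ω) • V := by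
  rw [← mul_smul]
  congr 1
  have hd : (d : Ω) ≠ 0 := d.ne_zero
  rw [VariableChange.mul_def]
  ext
  · simp
  · simp
  · simp
    field_simp
    ring
  · simp
    field_simp
    ring

theorem I5.move {V : WeierstrassCurve Ω} {d : Ωˣ} {r s t r' s' t' : Ω}
    (h : I5 w ((⟨d, r, s, t⟩ : VariableChange Ω) • V)) (hr : w (r' - r) ≤ w d ^ 2)
    (hs : w (s' - s) ≤ w d) (ht : w (t' - t - (r' - r) * s) ≤ w d ^ 3) :
    I5 w ((⟨d, r', s', t'⟩ : VariableChange Ω) • V) := by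
  rw [← smul_smul' V d r s t r' s' t']
  refine h.change ?_ ?_ ?_
  · rw [map_div₀, map_pow]
    exact div_le_one_of_le₀ hr zero_le
  · rw [map_div₀]
    exact div_le_one_of_le₀ hs zero_le
  · rw [map_div₀, map_pow]
    exact div_le_one_of_le₀ ht zero_le

theorem I5.move_conv {V : WeierstrassCurve Ω} {d : Ωˣ} {r s t r' s' t' : Ω}
    (h : I5 w ((⟨d, r, s, t⟩ : VariableChange Ω) • V))
    (h' : I5 w ((⟨d, r', s', t'⟩ : VariableChange Ω) • V)) :
    w (r' - r) ≤ w d ^ 2 ∧ w (s' - s) ≤ w d ∧ w (t' - t - (r' - r) * s) ≤ w d ^ 3 := by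
  rw [← smul_smul' V d r s t r' s' t'] at h'
  obtain ⟨h1, h2, h3⟩ := h.conv h'
  have hd : w (d : Ω) ≠ 0 := (Valuation.ne_zero_iff _).2 d.ne_zero
  rw [map_div₀, map_pow] at h1 h3
  rw [map_div₀] at h2
  exact ⟨(div_le_one₀ (pos_iff_ne_zero.2 (pow_ne_zero _ hd))).1 h1,
    (div_le_one₀ (pos_iff_ne_zero.2 hd)).1 h2,
    (div_le_one₀ (pos_iff_ne_zero.2 (pow_ne_zero _ hd))).1 h3⟩

/-- change of the scale by a unit -/
theorem I5.scale {V : WeierstrassCurve Ω} {d d' : Ωˣ} {r s t : Ω}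
    (h : I5 w ((⟨d, r, s, t⟩ : VariableChange Ω) • V)) (hd : w (d : Ω) = w (d' : Ω)) :
    I5 w ((⟨d', r, s, t⟩ : VariableChange Ω) • V) := by
  obtain ⟨h1, h2, h3, h4, h6⟩ := h
  rw [variableChange_a₁] at h1
  rw [variableChange_a₂] at h2
  rw [variableChange_a₃] at h3
  rw [variableChange_a₄] at h4
  rw [variableChange_a₆] at h6
  have hi : w ((d'⁻¹ : Ωˣ) : Ω) = w ((d⁻¹ : Ωˣ) : Ω) := by
    rw [Units.val_inv_eq_inv_val, Units.val_inv_eq_inv_val, map_inv₀, map_inv₀, hd]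
  rw [map_mul] at h1
  rw [map_mul, map_pow] at h2 h3 h4 h6
  refine ⟨?_, ?_, ?_, ?_, ?_⟩
  · rw [variableChange_a₁, map_mul, hi]; exact h1
  · rw [variableChange_a₂, map_mul, map_pow, hi]; exact h2
  · rw [variableChange_a₃, map_mul, map_pow, hi]; exact h3
  · rw [variableChange_a₄, map_mul, map_pow, hi]; exact h4
  · rw [variableChange_a₆, map_mul, map_pow, hi]; exact h6

/-- action of a ring homomorphism -/
theorem I5.act {W : WeierstrassCurve ℤ} {d : Ωˣ} {r s t : Ω}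
    (h : I5 w ((⟨d, r, s, t⟩ : VariableChange Ω) • bs W Ω)) (f : Ω →+* Ω)
    (hf : ∀ x, w (f x) = w x) (hd : f d = d) :
    I5 w ((⟨d, f r, f s, f t⟩ : VariableChange Ω) • bs W Ω) := by
  have hdi : f ((d⁻¹ : Ωˣ) : Ω) = ((d⁻¹ : Ωˣ) : Ω) := by
    rw [Units.val_inv_eq_inv_val, map_inv₀, hd]
  have e1 : f (bs W Ω).a₁ = (bs W Ω).a₁ := map_intCast f _
  have e2 : f (bs W Ω).a₂ = (bs W Ω).a₂ := map_intCast f _
  have e3 : f (bs W Ω).a₃ = (bs W Ω).a₃ := map_intCast f _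
  have e4 : f (bs W Ω).a₄ = (bs W Ω).a₄ := map_intCast f _
  have e6 : f (bs W Ω).a₆ = (bs W Ω).a₆ := map_intCast f _
  obtain ⟨h1, h2, h3, h4, h6⟩ := h
  rw [variableChange_a₁] at h1
  rw [variableChange_a₂] at h2
  rw [variableChange_a₃] at h3
  rw [variableChange_a₄] at h4
  rw [variableChange_a₆] at h6
  rw [← hf] at h1 h2 h3 h4 h6
  simp only [map_mul, map_add, map_sub, map_pow, map_ofNat, hdi, e1, e2, e3, e4, e6] at h1 h2 h3 h4 h6
  refine ⟨?_, ?_, ?_, ?_, ?_⟩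
  · rw [variableChange_a₁]
    simp only [map_mul, map_pow]
    exact h1
  · rw [variableChange_a₂]
    simp only [map_mul, map_pow]
    exact h2
  · rw [variableChange_a₃]
    simp only [map_mul, map_pow]
    exact h3
  · rw [variableChange_a₄]
    simp only [map_mul, map_pow]
    exact h4
  · rw [variableChange_a₆]
    simp only [map_mul, map_pow]
    exact h6

end min

section step

variable {Ω k0 : Type} [Field Ω] [IsAlgClosed Ω] [Field k0] [Algebra k0 Ω]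
  {w : Valuation Ω ℝ≥0} {W : WeierstrassCurve ℤ}
  {H H' : Subgroup (Ω ≃ₐ[k0] Ω)} {σ : Ω ≃ₐ[k0] Ω} {π : k0}

/-- The equation is minimal over the fixed field of `H`. -/
def MinH (w : Valuation Ω ℝ≥0) (W : WeierstrassCurve ℤ) (H : Subgroup (Ω ≃ₐ[k0] Ω)) : Prop :=
  ∀ (d : Ωˣ) (r s t : Ω), fx H (d : Ω) → fx H r → fx H s → fx H t →
    I5 w ((⟨d, r, s, t⟩ : VariableChange Ω) • bs W Ω) → 1 ≤ w (d : Ω)

/-- an element which is almost fixed is close to a fixed one -/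
theorem near_fix (hq : QS H H' σ) {ω : Ω} (ω1 : fx H' ω) (ω2 : w ω ≤ 1) (ω3 : w (ω - σ ω) = 1)
    {x : Ω} (hx : fx H' x) : ∃ a, fx H a ∧ w (a - x) ≤ w (σ x - x) := by
  have hω0 : ω - σ ω ≠ 0 := by
    intro h0
    rw [h0, map_zero] at ω3
    exact zero_ne_one ω3
  have hω0' : σ ω - ω ≠ 0 := by
    rw [← neg_sub]; exact neg_ne_zero.2 hω0
  have hb : σ ((σ x - x) / (σ ω - ω)) = (σ x - x) / (σ ω - ω) := by
    rw [map_div₀, map_sub, map_sub, hq.inv hx, hq.inv ω1]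
    field_simp
    ring
  refine ⟨x - (σ x - x) / (σ ω - ω) * ω, ?_, ?_⟩
  · rw [hq.fx_iff]
    refine ⟨hx.sub ((((hq.fxσ hx).sub hx).div ((hq.fxσ ω1).sub ω1)).mul ω1), ?_⟩
    rw [map_sub, map_mul, hb]
    field_simp
    ring
  · have e : x - (σ x - x) / (σ ω - ω) * ω - x = -((σ x - x) * ω / (σ ω - ω)) := by ring
    rw [e, Valuation.map_neg, map_div₀, map_mul, ← Valuation.map_neg w (σ ω - ω), neg_sub, ω3,
      div_one]
    exact mul_le_of_le_one_right' ω2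

theorem MinH.up (hσ : ∀ (σ : Ω ≃ₐ[k0] Ω) (x : Ω), w (σ x) = w x)
    (h : UR w π H') (hq : QS H H' σ) (h1 : w (algebraMap k0 Ω π) < 1)
    (h0 : w (algebraMap k0 Ω π) ≠ 0) (hM : MinH w W H) : MinH w W H' := by
  intro d0 r s t fd fr fs ft hI
  by_contra hcon
  rw [not_le] at hcon
  obtain ⟨res, hr, hs⟩ := exists_rm w
  obtain ⟨ω, ω1, ω2, ω3⟩ := exists_omega hσ hr h hq h1 h0
  have hπ0 : algebraMap k0 Ω π ≠ 0 := by
    intro h2
    rw [h2, map_zero] at h0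
    exact h0 rfl
  obtain ⟨k, hk⟩ := h.val d0 fd d0.ne_zero
  set d : Ωˣ := Units.mk0 (algebraMap k0 Ω π ^ k) (zpow_ne_zero k hπ0) with hd
  have hdv : (d : Ω) = algebraMap k0 Ω π ^ k := rfl
  have hwd : w (d : Ω) = w (d0 : Ω) := by rw [hk, hdv, map_zpow₀]
  have hσd : ∀ τ : Ω ≃ₐ[k0] Ω, τ (d : Ω) = d := by
    intro τ
    rw [hdv, map_zpow₀, τ.commutes]
  have hI1 := hI.scale hwd.symm
  have hI2 := hI1.act (σ : Ω →+* Ω) (hσ σ) (hσd σ)
  obtain ⟨m1, m2, m3⟩ := hI1.move_conv hI2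
  obtain ⟨r', fr', hr'⟩ := near_fix hq ω1 ω2 ω3 fr
  obtain ⟨s', fs', hs'⟩ := near_fix hq ω1 ω2 ω3 fs
  have hI3 : I5 w ((⟨d, r', s', t + (r' - r) * s⟩ : VariableChange Ω) • bs W Ω) := by
    refine hI1.move (hr'.trans m1) (hs'.trans m2) ?_
    have e : t + (r' - r) * s - t - (r' - r) * s = 0 := by ring
    rw [e, map_zero]; exact zero_le
  have hI4 := hI3.act (σ : Ω →+* Ω) (hσ σ) (hσd σ)
  have er : (σ : Ω →+* Ω) r' = r' := fr' σ hq.mem
  have es : (σ : Ω →+* Ω) s' = s' := fs' σ hq.mem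
  rw [er, es] at hI4
  obtain ⟨-, -, m4⟩ := hI3.move_conv hI4
  have ft2 : fx H' (t + (r' - r) * s) := ft.add (((fr'.mono hq.le).sub fr).mul fs)
  obtain ⟨t', ft', ht'⟩ := near_fix hq ω1 ω2 ω3 ft2
  have hI5 : I5 w ((⟨d, r', s', t'⟩ : VariableChange Ω) • bs W Ω) := by
    refine hI3.move (by rw [sub_self, map_zero]; exact zero_le)
      (by rw [sub_self, map_zero]; exact zero_le) ?_
    rw [sub_self, zero_mul, sub_zero] at m4 ⊢
    exact ht'.trans m4
  have h5 := hM d r' s' t' (fun τ _ => hσd τ) fr' fs' ft' hI5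
  rw [hwd] at h5
  exact absurd h5 (not_le.2 hcon)

end step

end Pool.Agent.K4H53.BSD
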