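import Pool.Agent.K4H53.BSD.Pack
import Pool.Agent.K4H53.BSD.Min

/-!
# The group of a Galois extension of `ℚ` at an unramified place
-/

set_option autoImplicit false
set_option linter.all false

open NumberField IsDedekindDomain WithZero WeierstrassCurve WeierstrassCurve.Affine
open scoped NNReal Classical

namespace Pool.Agent.K4H53.BSD

open Pool.Agent.Y852.GS (vv near small_zero)
open Pool.Agent.Y304.CT (V)

section grp

variable {K : Type} [Field K] [NumberField K] {p : HeightOneSpectrum (𝓞 ℚ)}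

/-- the algebraic closure of `ℚ_p` -/
abbrev Om (p : HeightOneSpectrum (𝓞 ℚ)) : Type := AlgebraicClosure (p.adicCompletion ℚ)

instance galOm : IsGalois (p.adicCompletion ℚ) (Om p) := by
  haveI : CharZero (p.adicCompletion ℚ) := algebraRat.charZero _
  exact IsGalois.mk

/-- the group of the image of `K` -/
def NK (l : K →+* Om p) : Subgroup (Om p ≃ₐ[p.adicCompletion ℚ] Om p) where
  carrier := {τ | ∀ x, τ (l x) = l x}
  mul_mem' := by
    intro a b ha hb x
    rw [AlgEquiv.mul_apply, hb, ha]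
  one_mem' := fun x => rfl
  inv_mem' := by
    intro a ha x
    have := ha x
    exact (AlgEquiv.symm_apply_eq a).2 this.symm

theorem mem_NK {l : K →+* Om p} {τ : Om p ≃ₐ[p.adicCompletion ℚ] Om p} :
    τ ∈ NK l ↔ ∀ x, τ (l x) = l x := Iff.rfl

theorem exists_g_abs {L A : Type} [Field L] [NumberField L] [IsGalois ℚ L] [Field A]
    (l : L →+* A) (τ : A ≃+* A) : ∃ g : L ≃ₐ[ℚ] L, ∀ x, τ (l x) = l (g x) := by
  haveI : CharZero A := charZero_of_injective_ringHom l.injective
  letI : Algebra L A := l.toAlgebra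
  haveI : IsScalarTower ℚ L A := IsScalarTower.of_algebraMap_eq fun x => by
    show algebraMap ℚ A x = l (algebraMap ℚ L x)
    rw [eq_ratCast, eq_ratCast, map_ratCast]
  let τ' : A ≃ₐ[ℚ] A := AlgEquiv.ofRingEquiv (f := τ) (fun x => by
    rw [eq_ratCast, map_ratCast])
  refine ⟨τ'.restrictNormal L, fun x => ?_⟩
  exact (τ'.restrictNormal_commutes L x).symm

theorem exists_g [IsGalois ℚ K] (l : K →+* Om p) (τ : Om p ≃ₐ[p.adicCompletion ℚ] Om p) :
    ∃ g : K ≃ₐ[ℚ] K, ∀ x, τ (l x) = l (g x) :=
  exists_g_abs l τ.toRingEquiv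

/-- the index is a power of two -/
theorem NK_index [IsGalois ℚ K] (l : K →+* Om p) {n : ℕ} (hn : Module.finrank ℚ K = 2 ^ n) :
    (NK l).Normal ∧ ∃ m, (NK l).index = 2 ^ m := by
  choose g hg using exists_g (K := K) l
  let ρ : (Om p ≃ₐ[p.adicCompletion ℚ] Om p) →* (K ≃ₐ[ℚ] K) := MonoidHom.mk' g (by
    intro a b
    ext x
    apply l.injective
    rw [← hg, AlgEquiv.mul_apply, AlgEquiv.mul_apply, hg b, hg a])
  have hker : NK l = ρ.ker := by
    ext τ
    rw [mem_NK, MonoidHom.mem_ker]
    constructor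
    · intro h
      ext x
      apply l.injective
      show l (g τ x) = l x
      rw [← hg, h]
    · intro h x
      have : g τ = 1 := h
      rw [hg, this]; rfl
  refine ⟨by rw [hker]; infer_instance, ?_⟩
  rw [hker, Subgroup.index_ker]
  have h1 : Nat.card ρ.range ∣ Nat.card (K ≃ₐ[ℚ] K) := Subgroup.card_subgroup_dvd_card _
  rw [IsGalois.card_aut_eq_finrank, hn] at h1
  obtain ⟨m, -, hm⟩ := (Nat.dvd_prime_pow Nat.prime_two).1 h1
  exact ⟨m, hm⟩

/-- subgroups which contain the group of a number field are closed -/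
theorem NK_closed (l : K →+* Om p) (H' : Subgroup (Om p ≃ₐ[p.adicCompletion ℚ] Om p))
    (hle : NK l ≤ H') (σ : Om p ≃ₐ[p.adicCompletion ℚ] Om p) (hσ : σ ∉ H') :
    ∃ x, fx H' x ∧ σ x ≠ x := by
  obtain ⟨E, hE, hlE⟩ := Pool.Agent.Y304.CT.exists_finite p l
  have h1 : E.fixingSubgroup ≤ H' := by
    refine le_trans ?_ hle
    intro τ hτ x
    exact (IntermediateField.mem_fixingSubgroup_iff _ _).1 hτ _ (hlE x)
  have h2 : IsOpen (H' : Set (Om p ≃ₐ[p.adicCompletion ℚ] Om p)) :=
    Subgroup.isOpen_mono h1 (IntermediateField.fixingSubgroup_isOpen E)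
  let C : ClosedSubgroup (Om p ≃ₐ[p.adicCompletion ℚ] Om p) :=
    ⟨H', Subgroup.isClosed_of_isOpen _ h2⟩
  have h3 := InfiniteGalois.fixingSubgroup_fixedField C
  have h4 : σ ∉ (IntermediateField.fixedField C.toSubgroup).fixingSubgroup := by
    rw [h3]; exact hσ
  rw [IntermediateField.mem_fixingSubgroup_iff] at h4
  push Not at h4
  obtain ⟨x, hx, hne⟩ := h4
  refine ⟨x, fun τ hτ => ?_, hne⟩
  exact (IntermediateField.mem_fixedField_iff _ _).1 hx τ hτ

/-- elements which are approximated by the image of `K` -/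
theorem NK_approx [NumberField K] (l : K →+* Om p) {x : Om p} (hx : fx (NK l) x) {ε : ℝ≥0}
    (hε : 0 < ε) : ∃ y : K, V p (x - l y) < ε := by
  obtain ⟨α, hα⟩ := Field.exists_primitive_element ℚ K
  set w := V p with hw
  obtain ⟨ϖ, hϖ⟩ := p.valuation_exists_uniformizer ℚ
  have hB := bd_alg p
  have hϖ1 : w (algebraMap (p.adicCompletion ℚ) (Om p) (algebraMap ℚ _ ϖ)) < 1 := by
    apply hB.lt
    rw [vv, hϖ, ← exp_zero, exp_lt_exp]
    norm_num
  let S : Subalgebra (p.adicCompletion ℚ) (Om p) :=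
    { carrier := {x | ∀ ε : ℝ≥0, 0 < ε → ∃ y : K, w (x - l y) < ε}
      mul_mem' := by
        intro a b ha hb ε hε
        obtain ⟨y', hy'⟩ := hb (min 1 (ε / (w a + 1))) (lt_min one_pos (by positivity))
        have h1 : w (b - l y') < 1 := hy'.trans_le (min_le_left _ _)
        have h2 : w (b - l y') < ε / (w a + 1) := hy'.trans_le (min_le_right _ _)
        have h3 : w (l y') ≤ max (w b) 1 := by
          have e : l y' = b - (b - l y') := by ring
          rw [e]
          exact (Valuation.map_sub _ _ _).trans (max_le_max le_rfl h1.le)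
        obtain ⟨y, hy⟩ := ha (ε / (max (w b) 1 + 1)) (by positivity)
        refine ⟨y * y', ?_⟩
        have e : a * b - l (y * y') = a * (b - l y') + (a - l y) * l y' := by
          rw [map_mul]; ring
        rw [e]
        refine (Valuation.map_add _ _ _).trans_lt (max_lt ?_ ?_)
        · rw [map_mul]
          rw [lt_div_iff₀ (by positivity)] at h2
          refine lt_of_le_of_lt ?_ h2
          rw [mul_comm]
          exact mul_le_mul_right (le_add_of_nonneg_right zero_le) _
        · rw [map_mul]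
          rw [lt_div_iff₀ (by positivity)] at hy
          refine lt_of_le_of_lt ?_ hy
          exact mul_le_mul_right (h3.trans (le_add_of_nonneg_right zero_le)) _
      one_mem' := fun ε hε => ⟨1, by rw [map_one, sub_self, map_zero]; exact hε⟩
      add_mem' := by
        intro a b ha hb ε hε
        obtain ⟨y, hy⟩ := ha ε hε
        obtain ⟨y', hy'⟩ := hb ε hε
        refine ⟨y + y', ?_⟩
        have e : a + b - l (y + y') = (a - l y) + (b - l y') := by rw [map_add]; ring
        rw [e]
        exact (Valuation.map_add _ _ _).trans_lt (max_lt hy hy')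
      zero_mem' := fun ε hε => ⟨0, by rw [map_zero, sub_self, map_zero]; exact hε⟩
      algebraMap_mem' := by
        intro c ε hε
        obtain ⟨n, hn⟩ := NNReal.exists_pow_lt_of_lt_one hε hϖ1
        obtain ⟨q, hq⟩ := near p c n
        refine ⟨algebraMap ℚ K q, ?_⟩
        have e : algebraMap (p.adicCompletion ℚ) (Om p) c - l (algebraMap ℚ K q) =
            algebraMap (p.adicCompletion ℚ) (Om p) (c - algebraMap ℚ _ q) := by
          rw [map_sub, eq_ratCast (algebraMap ℚ K), eq_ratCast (algebraMap ℚ (p.adicCompletion ℚ)),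
            map_ratCast, map_ratCast]
        rw [e]
        exact (hB.small hϖ _ n hq).trans_lt hn }
  have hlα : l α ∈ S := fun ε hε => ⟨α, by rw [sub_self, map_zero]; exact hε⟩
  set E := IntermediateField.adjoin (p.adicCompletion ℚ) {l α} with hE
  have hlE : ∀ y, l y ∈ E := by
    intro y
    let T : IntermediateField ℚ K :=
      Subfield.toIntermediateField (E.toSubfield.comap l) (by
          intro q
          rw [Subfield.mem_comap, eq_ratCast, map_ratCast]
          exact SubfieldClass.ratCast_mem _ q)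
    have h1 : IntermediateField.adjoin ℚ {α} ≤ T := by
      rw [IntermediateField.adjoin_simple_le_iff]
      change l α ∈ E.toSubfield
      exact IntermediateField.mem_adjoin_simple_self _ _
    have h2 : y ∈ T := h1 (by rw [hα]; trivial)
    exact h2
  have hxE : x ∈ E := by
    rw [← InfiniteGalois.fixedField_fixingSubgroup E, IntermediateField.mem_fixedField_iff]
    intro τ hτ
    apply hx τ
    intro y
    exact (IntermediateField.mem_fixingSubgroup_iff _ _).1 hτ _ (hlE y)
  have hxS : x ∈ S := by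
    have h3 : E.toSubalgebra = Algebra.adjoin (p.adicCompletion ℚ) {l α} :=
      IntermediateField.adjoin_simple_toSubalgebra_of_isAlgebraic
        (Algebra.IsAlgebraic.isAlgebraic (l α))
    have h4 : x ∈ E.toSubalgebra := hxE
    rw [h3] at h4
    exact Algebra.adjoin_le (Set.singleton_subset_iff.2 hlα) h4
  exact hxS ε hε

variable {v : HeightOneSpectrum (𝓞 K)}

/-- the group is unramified -/
theorem NK_UR (hval : ∀ x : ℚ, v.valuation K (algebraMap ℚ K x) = p.valuation ℚ x)
    {κ : v.adicCompletion K →+* Om p} (hκ : Bd v (V p) κ) {ϖ : ℚ}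
    (hϖ : p.valuation ℚ ϖ = exp (-1 : ℤ)) :
    UR (V p) (algebraMap ℚ (p.adicCompletion ℚ) ϖ) (NK (κ.comp (algebraMap K _))) := by
  set l := κ.comp (algebraMap K (v.adicCompletion K)) with hl
  have hlx : ∀ x, l x = κ (algebraMap K _ x) := fun x => rfl
  have hlϖ : algebraMap (p.adicCompletion ℚ) (Om p) (algebraMap ℚ _ ϖ) = l (algebraMap ℚ K ϖ) := by
    rw [eq_ratCast (algebraMap ℚ K), eq_ratCast (algebraMap ℚ (p.adicCompletion ℚ)),
            map_ratCast, map_ratCast]
  have hϖK : v.valuation K (algebraMap ℚ K ϖ) = exp (-1 : ℤ) := by rw [hval, hϖ]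
  have hϖ0 : algebraMap ℚ K ϖ ≠ 0 := by
    intro h
    rw [h, map_zero] at hϖK
    exact exp_ne_zero hϖK.symm
  have hϖz : ∀ n : ℤ, v.valuation K (algebraMap ℚ K ϖ ^ n) = exp (-n : ℤ) := by
    intro n
    rw [map_zpow₀, hϖK, ← exp_zsmul]
    congr 1
    simp
  constructor
  · intro x hx hx0
    have hpos : 0 < V p x := by rw [Valuation.pos_iff]; exact hx0
    obtain ⟨y, hy⟩ := NK_approx l hx hpos
    have h1 : V p (l y) = V p x := by
      have e : l y = x - (x - l y) := by ring
      rw [e, Valuation.map_sub_eq_of_lt_left _ hy]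
    have hy0 : y ≠ 0 := by
      rintro rfl
      rw [map_zero, map_zero] at h1
      exact hpos.ne h1
    have hvy : v.valuation K y ≠ 0 := (Valuation.ne_zero_iff _).2 hy0
    refine ⟨-log (v.valuation K y), ?_⟩
    have h2 : V p (κ (algebraMap K _ (y / algebraMap ℚ K ϖ ^ (-log (v.valuation K y))))) = 1 := by
      rw [hκ.eq_iff, vv, map_div₀, hϖz, neg_neg, exp_log hvy, div_self hvy]
    rw [map_div₀, map_div₀, map_div₀, map_zpow₀, map_zpow₀, map_zpow₀, ← hlx, ← hlx, h1,
      ← hlϖ] at h2
    have h3 : V p (algebraMap (p.adicCompletion ℚ) (Om p) (algebraMap ℚ _ ϖ)) ^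
        (-log (v.valuation K y)) ≠ 0 := by
      apply zpow_ne_zero
      rw [hlϖ]
      exact (Valuation.ne_zero_iff _).2 ((map_ne_zero l).2 hϖ0)
    exact (div_eq_one_iff_eq h3).1 h2
  · haveI : Finite (𝓞 K ⧸ v.asIdeal) := Ideal.finiteQuotientOfFreeOfNeBot v.asIdeal v.ne_bot
    haveI := Fintype.ofFinite (𝓞 K ⧸ v.asIdeal)
    have hsj : Function.Surjective (Ideal.Quotient.mk v.asIdeal) := Ideal.Quotient.mk_surjective
    refine ⟨Finset.univ.image (fun c : 𝓞 K ⧸ v.asIdeal =>
      l ((Function.surjInv hsj c : 𝓞 K) : K)), ?_⟩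
    intro x hx hx1
    obtain ⟨y, hy⟩ := NK_approx l hx one_pos
    have h1 : V p (l y) ≤ 1 := by
      have e : l y = x - (x - l y) := by ring
      rw [e]
      exact w_sub hx1 hy.le
    rw [hlx, hκ.le_iff] at h1
    obtain ⟨a, ha⟩ := Pool.Agent.R425.exists_approxO v _ h1
    refine ⟨l ((Function.surjInv hsj (Ideal.Quotient.mk v.asIdeal a) : 𝓞 K) : K),
      Finset.mem_image_of_mem _ (Finset.mem_univ _), ?_⟩
    set b : 𝓞 K := Function.surjInv hsj (Ideal.Quotient.mk v.asIdeal a) with hb
    have hab : a - b ∈ v.asIdeal := by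
      rw [← Ideal.Quotient.eq_zero_iff_mem, map_sub, hb, Function.surjInv_eq hsj, sub_self]
    have h2 : V p (l y - l (a : K)) < 1 := by
      have := hκ.lt _ ha
      rwa [map_sub] at this
    have h3 : V p (l (a : K) - l (b : K)) < 1 := by
      rw [← map_sub, hlx]
      apply hκ.lt
      rw [vv]
      exact (HeightOneSpectrum.valuation_lt_one_iff_mem (K := K) v (a - b)).2 hab
    have e : x - l (b : K) = (x - l y) + ((l y - l (a : K)) + (l (a : K) - l (b : K))) := by ring
    rw [e]
    exact (Valuation.map_add _ _ _).trans_lt (max_lt hy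
      ((Valuation.map_add _ _ _).trans_lt (max_lt h2 h3)))

/-- the group fixes the completion -/
theorem NK_fix {κ : v.adicCompletion K →+* Om p} (hκ : Bd v (V p) κ)
    {τ : Om p ≃ₐ[p.adicCompletion ℚ] Om p} (hτ : τ ∈ NK (κ.comp (algebraMap K _)))
    (y : v.adicCompletion K) : τ (κ y) = κ y := by
  obtain ⟨ϖ, hϖ⟩ := v.valuation_exists_uniformizer K
  have h1 : V p (κ (algebraMap K _ ϖ)) < 1 := by
    apply hκ.lt
    rw [vv, hϖ, ← exp_zero, exp_lt_exp]
    norm_num
  by_contra hne
  have hpos : 0 < V p (τ (κ y) - κ y) := by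
    rw [Valuation.pos_iff]; exact sub_ne_zero.2 hne
  obtain ⟨n, hn⟩ := NNReal.exists_pow_lt_of_lt_one hpos h1
  obtain ⟨x, hx⟩ := near v y n
  have h2 : V p (κ y - κ (algebraMap K _ x)) ≤ V p (κ (algebraMap K _ ϖ)) ^ n := by
    rw [← map_sub]; exact hκ.small hϖ _ n hx
  have h3 : τ (κ (algebraMap K _ x)) = κ (algebraMap K _ x) := hτ x
  have e : τ (κ y) - κ y = τ (κ y - κ (algebraMap K _ x)) - (κ y - κ (algebraMap K _ x)) := by
    rw [map_sub, h3]; ring
  have h4 : V p (τ (κ y) - κ y) ≤ V p (κ (algebraMap K _ ϖ)) ^ n := by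
    rw [e]
    exact w_sub (by rw [V_inv]; exact h2) h2
  exact absurd h4 (not_le.2 hn)

end grp

end Pool.Agent.K4H53.BSD
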