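import Pool.Agent.K4H53.BSD.Chain
import Pool.Agent.Y304.CT.Emb
import Pool.Agent.Q98.SG.N
import Pool.Agent.Y852.GS.Base
import Pool.Agent.R425.Av

/-!
# The local fields of a Galois extension of `ℚ` at an unramified place
-/

set_option autoImplicit false
set_option linter.all false

open NumberField IsDedekindDomain WithZero WeierstrassCurve WeierstrassCurve.Affine
open scoped NNReal Classical

namespace Pool.Agent.K4H53.BSD

open Pool.Agent.TH115.GD (exists_compl_map)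
open Pool.Agent.Y852.GS (vv near small_zero)
open Pool.Agent.Y304.CT (V V_coe N_natCast_lt)

abbrev ZM : Type := WithZero (Multiplicative ℤ)

section pack

variable {K : Type} [Field K] [NumberField K]

/-- the spectral valuation is invariant -/
theorem V_inv (p : HeightOneSpectrum (𝓞 ℚ)) (σ : AlgebraicClosure (p.adicCompletion ℚ) ≃ₐ[p.adicCompletion ℚ]
    AlgebraicClosure (p.adicCompletion ℚ)) (x : AlgebraicClosure (p.adicCompletion ℚ)) :
    V p (σ x) = V p x := by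
  apply NNReal.eq
  exact (spectralNorm_eq_of_equiv σ x).symm

/-- the rational prime under a prime of `ℤ` -/
theorem exists_q (p : HeightOneSpectrum (𝓞 ℚ)) : ∃ q : ℕ, q.Prime ∧ (q : 𝓞 ℚ) ∈ p.asIdeal := by
  have h1 : p.asIdeal.IsPrime := p.isPrime
  have h2 : ((Ideal.absNorm p.asIdeal : ℕ) : 𝓞 ℚ) ∈ p.asIdeal := Ideal.absNorm_mem _
  have h3 : Ideal.absNorm p.asIdeal ≠ 0 := by
    simpa using Ideal.absNorm_ne_zero_of_nonZeroDivisors ⟨p.asIdeal, by simpa using p.ne_bot⟩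
  have h4 : ∀ n : ℕ, n ≠ 0 → (n : 𝓞 ℚ) ∈ p.asIdeal →
      ∃ q : ℕ, q.Prime ∧ (q : 𝓞 ℚ) ∈ p.asIdeal := by
    intro n
    induction n using Nat.recOnMul with
    | zero => intro h; exact absurd rfl h
    | one =>
      intro _ h
      rw [Nat.cast_one] at h
      exact absurd ((Ideal.eq_top_iff_one _).2 h) h1.ne_top
    | prime q hq => intro _ h; exact ⟨q, hq, h⟩
    | mul a b iha ihb =>
      intro h0 h
      rw [Nat.cast_mul] at h
      rcases h1.mem_or_mem h with h | h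
      · exact iha (fun h => h0 (by rw [h, zero_mul])) h
      · exact ihb (fun h => h0 (by rw [h, mul_zero])) h
  exact h4 _ h3 h2

theorem qlt {L : Type} [Field L] [NumberField L] (u : HeightOneSpectrum (𝓞 L)) (q : ℕ) :
    u.valuation L (q : L) < 1 ↔ (q : 𝓞 L) ∈ u.asIdeal := by
  have h := HeightOneSpectrum.valuation_lt_one_iff_mem (K := L) u ((q : ℕ) : 𝓞 L)
  have e : algebraMap (𝓞 L) L ((q : ℕ) : 𝓞 L) = (q : L) := map_natCast (algebraMap (𝓞 L) L) q
  rw [← e]
  exact h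

theorem qle {L : Type} [Field L] [NumberField L] (u : HeightOneSpectrum (𝓞 L)) (q : ℕ) :
    u.valuation L (q : L) ≤ 1 := by
  have h := u.valuation_le_one (K := L) ((q : ℕ) : 𝓞 L)
  have e : algebraMap (𝓞 L) L ((q : ℕ) : 𝓞 L) = (q : L) := map_natCast (algebraMap (𝓞 L) L) q
  rw [← e]
  exact h

theorem mem_of_val (v : HeightOneSpectrum (𝓞 K)) (p : HeightOneSpectrum (𝓞 ℚ))
    (hval : ∀ x : ℚ, v.valuation K (algebraMap ℚ K x) = p.valuation ℚ x) {q : ℕ}
    (hq : (q : 𝓞 ℚ) ∈ p.asIdeal) : (q : 𝓞 K) ∈ v.asIdeal := by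
  have h1 : p.valuation ℚ (q : ℚ) < 1 := (qlt p q).2 hq
  rw [← hval, map_natCast] at h1
  exact (qlt v q).1 h1

/-- the valuations of two primes which are conjugate -/
theorem conj_val [IsGalois ℚ K] (v w : HeightOneSpectrum (𝓞 K)) {q : ℕ} (hq : q.Prime)
    (hv : (q : 𝓞 K) ∈ v.asIdeal) (hw : (q : 𝓞 K) ∈ w.asIdeal) :
    ∃ g : K ≃ₐ[ℚ] K, (∀ x, v.valuation K x ≤ 1 → w.valuation K (g x) ≤ 1) ∧
      (∀ x, v.valuation K x < 1 → w.valuation K (g x) < 1) := by
  obtain ⟨g, hg⟩ := Pool.Agent.Q98.SG.exists_smul hq v.asIdeal w.asIdeal v.isPrime hv w.isPrime hw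
  have hmem : ∀ a : 𝓞 K, a ∈ v.asIdeal ↔ g • a ∈ w.asIdeal := by
    intro a
    rw [← hg]
    exact (Ideal.smul_mem_pointwise_smul_iff).symm
  have hcoe : ∀ a : 𝓞 K, ((g • a : 𝓞 K) : K) = g (a : K) := fun a => rfl
  have key : ∀ x, v.valuation K x ≤ 1 → ∃ n d : 𝓞 K, d ∉ v.asIdeal ∧ x * (d : K) = n := by
    intro x hx
    obtain ⟨n, d, h⟩ := v.exists_primeCompl_mul_eq_of_integer x hx
    exact ⟨n, d, d.2, h⟩
  have unit : ∀ (u : HeightOneSpectrum (𝓞 K)) (d : 𝓞 K), d ∉ u.asIdeal → u.valuation K (d : K) = 1 := by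
    intro u d hd
    refine le_antisymm (u.valuation_le_one _) (not_lt.1 fun h => hd ?_)
    exact (HeightOneSpectrum.valuation_lt_one_iff_mem (K := K) u d).1 h
  refine ⟨g, fun x hx => ?_, fun x hx => ?_⟩
  · obtain ⟨n, d, hd, h⟩ := key x hx
    have h1 := congrArg (fun y => w.valuation K (g y)) h
    simp only [map_mul] at h1
    rw [← hcoe d, unit w _ (fun hh => hd ((hmem d).2 hh)), mul_one, ← hcoe] at h1
    rw [h1]
    exact w.valuation_le_one _
  · obtain ⟨n, d, hd, h⟩ := key x hx.le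
    have h2 := congrArg (v.valuation K) h
    rw [map_mul, unit v d hd, mul_one] at h2
    rw [h2] at hx
    have h3 := (hmem n).1 ((HeightOneSpectrum.valuation_lt_one_iff_mem (K := K) v n).1 hx)
    have h1 := congrArg (fun y => w.valuation K (g y)) h
    simp only [map_mul] at h1
    rw [← hcoe d, unit w _ (fun hh => hd ((hmem d).2 hh)), mul_one, ← hcoe] at h1
    rw [h1]
    exact (HeightOneSpectrum.valuation_lt_one_iff_mem (K := K) w _).2 h3

/-- the completion of `ℚ` in the completion of `K` -/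
theorem exists_j (v : HeightOneSpectrum (𝓞 K)) (p : HeightOneSpectrum (𝓞 ℚ))
    (hval : ∀ x : ℚ, v.valuation K (algebraMap ℚ K x) = p.valuation ℚ x) :
    ∃ j : p.adicCompletion ℚ →+* v.adicCompletion K,
      (∀ x : ℚ, j (algebraMap ℚ _ x) = algebraMap K _ (algebraMap ℚ K x)) ∧
      ∀ y, (Valued.v (j y) : ZM) = Valued.v y := by
  obtain ⟨j, hj1, hj2, hj3⟩ := exists_compl_map p v (algebraMap ℚ K)
    (fun x hx => by rw [hval]; exact hx) (fun x hx => by rw [hval]; exact hx)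
  refine ⟨j, hj1, fun y => ?_⟩
  rcases eq_or_ne y 0 with rfl | hy
  · rw [map_zero, map_zero, map_zero]
  have hyv : (Valued.v y : ZM) ≠ 0 := (Valuation.ne_zero_iff _).2 hy
  -- `y = x (1 + ε)`
  obtain ⟨x, hx⟩ := near p y ((-log (Valued.v y : ZM)).toNat + 1)
  have hx' : (Valued.v (y - algebraMap ℚ (p.adicCompletion ℚ) x) : ZM) < Valued.v y := by
    refine lt_of_le_of_lt hx ?_
    conv_rhs => rw [← exp_log hyv]
    rw [exp_lt_exp]
    omega
  have h1 : (Valued.v (algebraMap ℚ (p.adicCompletion ℚ) x) : ZM) = Valued.v y := by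
    have e1 : algebraMap ℚ (p.adicCompletion ℚ) x =
      y - (y - algebraMap ℚ (p.adicCompletion ℚ) x) := by ring
    rw [e1, Valuation.map_sub_eq_of_lt_left _ hx']
  have hx0 : algebraMap ℚ (p.adicCompletion ℚ) x ≠ 0 := by
    intro h0
    rw [h0, map_zero] at h1
    exact hyv h1.symm
  set ε : p.adicCompletion ℚ := (y - algebraMap ℚ (p.adicCompletion ℚ) x) /
    algebraMap ℚ (p.adicCompletion ℚ) x with hε
  have hε1 : (Valued.v ε : ZM) < 1 := by
    rw [hε, map_div₀, h1]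
    exact (div_lt_one₀ (zero_lt_iff.2 hyv)).2 hx'
  have hy2 : y = algebraMap ℚ (p.adicCompletion ℚ) x * (1 + ε) := by
    rw [hε]; field_simp; ring
  have h3 := hj3 ε hε1
  have h4 : (Valued.v (1 + j ε) : ZM) = 1 := by
    rw [Valuation.map_add_eq_of_lt_left _ (by rw [map_one]; exact h3), map_one]
  have h5 : (Valued.v (j y) : ZM) = v.valuation K (algebraMap ℚ K x) := by
    rw [hy2, map_mul, map_add, map_one, map_mul, h4, mul_one, hj1, vv]
  rw [h5, hval, ← vv, h1]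

/-- a map of the completion in an algebraically closed field with a valuation, integral -/
structure Bd {A : Type} [Field A] (v : HeightOneSpectrum (𝓞 K)) (w : Valuation A ℝ≥0)
    (κ : v.adicCompletion K →+* A) : Prop where
  le : ∀ y, (Valued.v y : ZM) ≤ 1 → w (κ y) ≤ 1
  lt : ∀ y, (Valued.v y : ZM) < 1 → w (κ y) < 1

namespace Bd

variable {A : Type} [Field A] {v : HeightOneSpectrum (𝓞 K)} {w : Valuation A ℝ≥0}
  {κ : v.adicCompletion K →+* A} (h : Bd v w κ)
include h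

theorem gt (y : v.adicCompletion K) (hy : 1 < (Valued.v y : ZM)) : 1 < w (κ y) := by
  have h0 : y ≠ 0 := by
    rintro rfl
    rw [map_zero] at hy
    exact absurd hy (not_lt.2 zero_le)
  have h1 : (Valued.v (y⁻¹) : ZM) < 1 := by
    rw [map_inv₀]
    exact inv_lt_one_of_one_lt₀ hy
  have h2 := h.lt _ h1
  rw [map_inv₀, map_inv₀] at h2
  have h3 : w (κ y) ≠ 0 := (Valuation.ne_zero_iff _).2 ((map_ne_zero κ).2 h0)
  rwa [inv_lt_one₀ (pos_iff_ne_zero.2 h3)] at h2

theorem le_iff (y : v.adicCompletion K) : w (κ y) ≤ 1 ↔ (Valued.v y : ZM) ≤ 1 :=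
  ⟨fun h1 => not_lt.1 fun h2 => absurd (h.gt y h2) (not_lt.2 h1), h.le y⟩

theorem gt_iff (y : v.adicCompletion K) : 1 < w (κ y) ↔ 1 < (Valued.v y : ZM) := by
  rw [← not_le, ← not_le, h.le_iff]

theorem eq_iff (y : v.adicCompletion K) : w (κ y) = 1 ↔ (Valued.v y : ZM) = 1 := by
  constructor
  · intro h1
    refine le_antisymm ((h.le_iff y).1 h1.le) (not_lt.1 fun h2 => ?_)
    have := h.lt y h2
    rw [h1] at this
    exact lt_irrefl _ this
  · intro h1
    refine le_antisymm ((h.le_iff y).2 h1.le) (not_lt.1 fun h2 => ?_)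
    have h0 : y ≠ 0 := by
      rintro rfl
      rw [map_zero] at h1
      exact zero_ne_one h1
    have h3 : w (κ y⁻¹) ≤ 1 := h.le _ (by rw [map_inv₀, h1, inv_one])
    rw [map_inv₀, map_inv₀] at h3
    have h4 : w (κ y) ≠ 0 := (Valuation.ne_zero_iff _).2 ((map_ne_zero κ).2 h0)
    have h5 : 1 < (w (κ y))⁻¹ := (one_lt_inv₀ (pos_iff_ne_zero.2 h4)).2 h2
    exact absurd h3 (not_le.2 h5)

theorem lt_iff (y : v.adicCompletion K) : w (κ y) < 1 ↔ (Valued.v y : ZM) < 1 := by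
  rw [lt_iff_le_and_ne, lt_iff_le_and_ne, h.le_iff, Ne, Ne, h.eq_iff]

/-- small elements have small images -/
theorem small {ϖ : K} (hϖ : v.valuation K ϖ = exp (-1 : ℤ)) (y : v.adicCompletion K) (n : ℕ)
    (hy : (Valued.v y : ZM) ≤ exp (-(n : ℤ))) :
    w (κ y) ≤ w (κ (algebraMap K _ ϖ)) ^ n := by
  have h0 : algebraMap K (v.adicCompletion K) ϖ ≠ 0 := by
    intro h1
    have h2 := vv v ϖ
    rw [h1, map_zero, hϖ] at h2
    exact exp_ne_zero h2.symm
  have hp : (Valued.v (algebraMap K (v.adicCompletion K) ϖ ^ n) : ZM) = exp (-(n : ℤ)) := by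
    rw [map_pow, vv, hϖ, ← exp_nsmul]
    congr 1
    simp
  have h1 : (Valued.v (y / algebraMap K (v.adicCompletion K) ϖ ^ n) : ZM) ≤ 1 := by
    rw [map_div₀, hp]
    exact (div_le_one₀ (zero_lt_iff.2 exp_ne_zero)).2 hy
  have h2 := h.le _ h1
  rw [map_div₀, map_div₀, map_pow, map_pow] at h2
  have h3 : w (κ (algebraMap K _ ϖ)) ^ n ≠ 0 :=
    pow_ne_zero n ((Valuation.ne_zero_iff _).2 ((map_ne_zero κ).2 h0))
  rwa [div_le_one₀ (pos_iff_ne_zero.2 h3)] at h2

end Bd

/-- the identity embedding is bounded -/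
theorem bd_alg (p : HeightOneSpectrum (𝓞 ℚ)) :
    Bd p (V p) (algebraMap (p.adicCompletion ℚ) (AlgebraicClosure (p.adicCompletion ℚ))) := by
  constructor
  · intro y hy
    have h1 : Pool.Agent.Y304.CT.N p (algebraMap (p.adicCompletion ℚ) _ y) = ‖y‖ :=
      spectralNorm_extends _
    rw [← NNReal.coe_le_coe]
    show Pool.Agent.Y304.CT.N p _ ≤ 1
    rw [h1]
    exact Valued.toNormedField.norm_le_one_iff.2 hy
  · intro y hy
    have h1 : Pool.Agent.Y304.CT.N p (algebraMap (p.adicCompletion ℚ) _ y) = ‖y‖ :=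
      spectralNorm_extends _
    rw [← NNReal.coe_lt_coe]
    show Pool.Agent.Y304.CT.N p _ < 1
    rw [h1]
    exact Valued.toNormedField.norm_lt_one_iff.2 hy

/-- two bounded maps which agree on the rational numbers are equal -/
theorem bd_uniq (p : HeightOneSpectrum (𝓞 ℚ)) {A : Type} [Field A] {w : Valuation A ℝ≥0}
    {κ κ' : p.adicCompletion ℚ →+* A} (h : Bd p w κ) (h' : Bd p w κ')
    (he : ∀ x : ℚ, κ (algebraMap ℚ _ x) = κ' (algebraMap ℚ _ x)) : κ = κ' := by
  obtain ⟨ϖ, hϖ⟩ := p.valuation_exists_uniformizer ℚ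
  ext y
  have h1 : w (κ (algebraMap ℚ _ ϖ)) < 1 := by
    apply h.lt
    rw [vv, hϖ, ← exp_zero, exp_lt_exp]
    norm_num
  have h2 : ∀ n : ℕ, w (κ y - κ' y) ≤ w (κ (algebraMap ℚ _ ϖ)) ^ n := by
    intro n
    obtain ⟨x, hx⟩ := near p y n
    have e : κ y - κ' y = κ (y - algebraMap ℚ _ x) - κ' (y - algebraMap ℚ _ x) := by
      rw [map_sub, map_sub, he]; ring
    rw [e]
    refine w_sub (h.small hϖ _ n hx) ?_
    rw [he]
    exact h'.small hϖ _ n hx
  by_contra hne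
  have hpos : 0 < w (κ y - κ' y) := by
    rw [Valuation.pos_iff]; exact sub_ne_zero.2 hne
  obtain ⟨n, hn⟩ := NNReal.exists_pow_lt_of_lt_one hpos h1
  exact absurd (h2 n) (not_le.2 hn)

/-- the embedding of the completion -/
theorem pack [IsGalois ℚ K] (v : HeightOneSpectrum (𝓞 K)) (p : HeightOneSpectrum (𝓞 ℚ))
    (hval : ∀ x : ℚ, v.valuation K (algebraMap ℚ K x) = p.valuation ℚ x) :
    ∃ (κ : v.adicCompletion K →+* AlgebraicClosure (p.adicCompletion ℚ))
      (j : p.adicCompletion ℚ →+* v.adicCompletion K), Bd v (V p) κ ∧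
      (∀ x, κ (j x) = algebraMap _ _ x) ∧
      (∀ x : ℚ, j (algebraMap ℚ _ x) = algebraMap K _ (algebraMap ℚ K x)) ∧
      (∀ y, (Valued.v (j y) : ZM) = Valued.v y) := by
  obtain ⟨j, hj1, hj2⟩ := exists_j v p hval
  let l0 : K →ₐ[ℚ] AlgebraicClosure (p.adicCompletion ℚ) := IsAlgClosed.lift
  obtain ⟨w0, κ0, hg, hκ0⟩ := Pool.Agent.Y304.CT.emb ℚ K p l0.toRingHom (fun x => by
    show l0 (algebraMap ℚ K x) = _
    rw [l0.commutes]
    rfl)
  obtain ⟨q, hq, hqp⟩ := exists_q p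
  have hB0 : ∀ y : w0.adicCompletion K, (Valued.v y : ZM) ≤ 1 → V p (κ0 y) ≤ 1 := by
    intro y hy
    have h1 := hg.2 y (Valued.toNormedField.norm_le_one_iff.2 hy)
    rw [← NNReal.coe_le_coe]
    exact h1
  -- `q` is small
  have hqV : V p ((q : ℕ) : AlgebraicClosure (p.adicCompletion ℚ)) < 1 := by
    have h1 := (bd_alg p).lt (algebraMap ℚ _ (q : ℚ)) (by
      rw [vv]
      exact (qlt p q).2 hqp)
    rwa [map_natCast, map_natCast] at h1
  have hqw : (q : 𝓞 K) ∈ w0.asIdeal := by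
    by_contra hcon
    have h1 : w0.valuation K (q : K) = 1 := by
      refine le_antisymm ?_ (not_lt.1 fun h => hcon ?_)
      · exact qle w0 q
      · exact (qlt w0 q).1 h
    have h2 : (Valued.v ((algebraMap K (w0.adicCompletion K) (q : K))⁻¹) : ZM) ≤ 1 := by
      rw [map_inv₀, vv, h1, inv_one]
    have h3 := hB0 _ h2
    rw [map_inv₀, map_natCast, map_natCast, map_inv₀] at h3
    have h4 : V p ((q : ℕ) : AlgebraicClosure (p.adicCompletion ℚ)) ≠ 0 := by
      rw [Valuation.ne_zero_iff, ← map_natCast (algebraMap (p.adicCompletion ℚ) _),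
        ← map_natCast (algebraMap ℚ (p.adicCompletion ℚ))]
      exact (map_ne_zero _).2 ((map_ne_zero _).2 (Nat.cast_ne_zero.2 hq.ne_zero))
    rw [inv_le_one₀ (pos_iff_ne_zero.2 h4)] at h3
    exact absurd h3 (not_le.2 hqV)
  have hqv := mem_of_val v p hval hqp
  have hB0' : ∀ y : w0.adicCompletion K, (Valued.v y : ZM) < 1 → V p (κ0 y) < 1 := by
    intro y hy
    by_cases hy0 : y = 0
    · rw [hy0, map_zero, map_zero]; exact zero_lt_one
    have hyv : (Valued.v y : ZM) ≠ 0 := (Valuation.ne_zero_iff _).2 hy0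
    have hqv0 : (Valued.v ((q : ℕ) : w0.adicCompletion K) : ZM) ≠ 0 := by
      rw [Valuation.ne_zero_iff, ← map_natCast (algebraMap K (w0.adicCompletion K))]
      exact (map_ne_zero _).2 (Nat.cast_ne_zero.2 hq.ne_zero)
    -- a power of `y` is divisible by `q`
    obtain ⟨m, hm0, hm⟩ : ∃ m : ℕ, m ≠ 0 ∧
        (Valued.v (y ^ m) : ZM) ≤ Valued.v ((q : ℕ) : w0.adicCompletion K) := by
      refine ⟨(-log (Valued.v ((q : ℕ) : w0.adicCompletion K) : ZM)).toNat + 1,
        Nat.succ_ne_zero _, ?_⟩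
      have h1 : (Valued.v y : ZM) ≤ exp (-1 : ℤ) := Pool.Agent.Y852.GS.lt_one_exp hy
      rw [map_pow]
      calc (Valued.v y : ZM) ^ _ ≤ exp (-1 : ℤ) ^ _ := pow_le_pow_left₀ zero_le h1 _
        _ ≤ _ := by
          rw [← exp_nsmul]
          conv_rhs => rw [← exp_log hqv0]
          rw [exp_le_exp]
          simp only [smul_neg, nsmul_eq_mul, mul_one]
          omega
    have h2 : (Valued.v (y ^ m / ((q : ℕ) : w0.adicCompletion K)) : ZM) ≤ 1 := by
      rw [map_div₀]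
      exact (div_le_one₀ (zero_lt_iff.2 hqv0)).2 hm
    have h3 := hB0 _ h2
    rw [map_div₀, map_natCast, map_div₀, map_pow, map_pow] at h3
    have h4 : V p ((q : ℕ) : AlgebraicClosure (p.adicCompletion ℚ)) ≠ 0 := by
      rw [Valuation.ne_zero_iff, ← map_natCast (algebraMap (p.adicCompletion ℚ) _),
        ← map_natCast (algebraMap ℚ (p.adicCompletion ℚ))]
      exact (map_ne_zero _).2 ((map_ne_zero _).2 (Nat.cast_ne_zero.2 hq.ne_zero))
    rw [div_le_one₀ (pos_iff_ne_zero.2 h4)] at h3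
    by_contra hcon
    rw [not_lt] at hcon
    exact absurd (h3.trans_lt hqV) (not_lt.2 (one_le_pow₀ hcon))
  obtain ⟨g, hg1, hg2⟩ := conj_val v w0 hq hqv hqw
  obtain ⟨jg, hjg1, hjg2, hjg3⟩ := exists_compl_map v w0 (g : K →+* K) hg1 hg2
  have hBd : Bd v (V p) (κ0.comp jg) :=
    ⟨fun y hy => hB0 _ (hjg2 y hy), fun y hy => hB0' _ (hjg3 y hy)⟩
  refine ⟨κ0.comp jg, j, hBd, ?_, hj1, hj2⟩
  have h1 : Bd p (V p) ((κ0.comp jg).comp j) :=
    ⟨fun y hy => hBd.le _ (by rw [hj2]; exact hy), fun y hy => hBd.lt _ (by rw [hj2]; exact hy)⟩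
  have h2 := bd_uniq p h1 (bd_alg p) (fun x => by
    show κ0 (jg (j _)) = _
    rw [hj1, hjg1]
    rw [eq_ratCast (algebraMap ℚ (p.adicCompletion ℚ)), eq_ratCast (algebraMap ℚ K), map_ratCast,
      map_ratCast, map_ratCast, map_ratCast])
  intro x
  exact congrArg (fun f : p.adicCompletion ℚ →+* AlgebraicClosure (p.adicCompletion ℚ) => f x) h2

end pack

end Pool.Agent.K4H53.BSD
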