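import Mathlib
import Pool.Agent.K4H53.BSD.Nrm
import Pool.Agent.K4H53.BSD.Halve

/-!
# The singular point over a finite field, and the number of points over quadratic extensions
-/

set_option autoImplicit false
set_option linter.all false

open WeierstrassCurve WeierstrassCurve.Affine Polynomial
open scoped NNReal Classical

namespace Pool.Agent.K4H53.BSD

attribute [-instance] Subtype.instDecidableEq

section sing

variable {F : Type} [Field F]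

/-- a singular point of the affine curve -/
structure Sg (W : WeierstrassCurve ℤ) (x y : F) : Prop where
  eq : y ^ 2 + W.a₁ * x * y + W.a₃ * y = x ^ 3 + W.a₂ * x ^ 2 + W.a₄ * x + W.a₆
  dx : (W.a₁ : F) * y - (3 * x ^ 2 + 2 * W.a₂ * x + W.a₄) = 0
  dy : 2 * y + W.a₁ * x + W.a₃ = 0

variable {W : WeierstrassCurve ℤ}

theorem Sg.uniq {x y x' y' : F} (h : Sg W x y) (h' : Sg W x' y') : x = x' ∧ y = y' :=
  sing_uniq h.eq h.dx h.dy h'.eq h'.dx h'.dy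

theorem Sg.map {F' : Type} [Field F'] (f : F →+* F') {x y : F} (h : Sg W x y) : Sg W (f x) (f y) := by
  obtain ⟨h1, h2, h3⟩ := h
  refine ⟨?_, ?_, ?_⟩
  · have := congrArg f h1
    simpa only [map_add, map_mul, map_pow, map_intCast] using this
  · have := congrArg f h2
    simpa only [map_add, map_sub, map_mul, map_pow, map_intCast, map_ofNat, map_zero] using this
  · have := congrArg f h3
    simpa only [map_add, map_sub, map_mul, map_pow, map_intCast, map_ofNat, map_zero] using this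

theorem disc_cast : (W.Δ : F) = -(W.b₂ : F) ^ 2 * W.b₈ - 8 * (W.b₄ : F) ^ 3 - 27 * (W.b₆ : F) ^ 2 +
    9 * W.b₂ * W.b₄ * W.b₆ := by
  rw [WeierstrassCurve.Δ]
  push_cast
  ring

theorem b2_cast : (W.b₂ : F) = W.a₁ ^ 2 + 4 * W.a₂ := by
  rw [WeierstrassCurve.b₂]; push_cast; ring
theorem b4_cast : (W.b₄ : F) = 2 * W.a₄ + W.a₁ * W.a₃ := by
  rw [WeierstrassCurve.b₄]; push_cast; ring
theorem b6_cast : (W.b₆ : F) = W.a₃ ^ 2 + 4 * W.a₆ := by
  rw [WeierstrassCurve.b₆]; push_cast; ring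
theorem b8_cast : (W.b₈ : F) = W.a₁ ^ 2 * W.a₆ + 4 * W.a₂ * W.a₆ - W.a₁ * W.a₃ * W.a₄ +
    W.a₂ * W.a₃ ^ 2 - W.a₄ ^ 2 := by
  rw [WeierstrassCurve.b₈]; push_cast; ring

theorem two_id {a1 a2 a3 a4 a6 : F} (h2 : (2 : F) = 0)
    (hΔ : -(a1 ^ 2 + 4 * a2) ^ 2 * (a1 ^ 2 * a6 + 4 * a2 * a6 - a1 * a3 * a4 + a2 * a3 ^ 2 -
      a4 ^ 2) - 8 * (2 * a4 + a1 * a3) ^ 3 - 27 * (a3 ^ 2 + 4 * a6) ^ 2 +
      9 * (a1 ^ 2 + 4 * a2) * (2 * a4 + a1 * a3) * (a3 ^ 2 + 4 * a6) = 0) :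
    (a3 ^ 2 + a4 * a1 ^ 2) ^ 2 + 2 * a3 * (a3 ^ 2 + a4 * a1 ^ 2) * a1 ^ 3 - a3 ^ 3 * a1 ^ 3 -
      a2 * a3 ^ 2 * a1 ^ 4 - a4 * a3 * a1 ^ 5 - a6 * a1 ^ 6 = 0 := by
  linear_combination hΔ - ((72) * a1 * a2 * a3 * a6 + (18) * a1 * a2 * a3 ^ 3 + (8) * a1 * a2 ^ 2 * a3 * a4 + (-48) * a1 * a3 * a4 ^ 2 + (4) * a1 ^ 2 * a2 * a4 ^ 2 + (-4) * a1 ^ 2 * a2 ^ 2 * a3 ^ 2 + (-24) * a1 ^ 2 * a2 ^ 2 * a6 + (-16) * a1 ^ 2 * a3 ^ 2 * a4 + (36) * a1 ^ 2 * a4 * a6 + (4) * a1 ^ 3 * a2 * a3 * a4 + (18) * a1 ^ 3 * a3 * a6 + (-6) * a1 ^ 4 * a2 * a6 + (36) * a2 * a3 ^ 2 * a4 + (144) * a2 * a4 * a6 + (8) * a2 ^ 2 * a4 ^ 2 + (-8) * a2 ^ 3 * a3 ^ 2 + (-32) * a2 ^ 3 * a6 + (-108) * a3 ^ 2 * a6 + (-14) * a3 ^ 4 + (-32) * a4 ^ 3 + (-216) * a6 ^ 2) * h2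

theorem two_id0 {a2 a3 a4 a6 : F} (h2 : (2 : F) = 0)
    (hΔ : -(0 ^ 2 + 4 * a2) ^ 2 * (0 ^ 2 * a6 + 4 * a2 * a6 - 0 * a3 * a4 + a2 * a3 ^ 2 -
      a4 ^ 2) - 8 * (2 * a4 + 0 * a3) ^ 3 - 27 * (a3 ^ 2 + 4 * a6) ^ 2 +
      9 * (0 ^ 2 + 4 * a2) * (2 * a4 + 0 * a3) * (a3 ^ 2 + 4 * a6) = 0) : a3 ^ 4 = 0 := by
  linear_combination hΔ - ((36) * a2 * a3 ^ 2 * a4 + (144) * a2 * a4 * a6 + (8) * a2 ^ 2 * a4 ^ 2 + (-8) * a2 ^ 3 * a3 ^ 2 + (-32) * a2 ^ 3 * a6 + (-108) * a3 ^ 2 * a6 + (-14) * a3 ^ 4 + (-32) * a4 ^ 3 + (-216) * a6 ^ 2) * h2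

theorem sing_ex_two [Finite F] (h2 : (2 : F) = 0) (hΔ : (W.Δ : F) = 0) : ∃ x y : F, Sg W x y := by
  have hsq : ∀ a : F, ∃ b : F, b ^ 2 = a := by
    have hinj : Function.Injective (fun c : F => c ^ 2) := by
      intro a b hab
      have h3 : a ^ 2 = b ^ 2 := hab
      have h4 : (a - b) ^ 2 = 0 := by linear_combination h3 - h2 * (a * b - b ^ 2)
      exact sub_eq_zero.1 (pow_eq_zero_iff two_ne_zero |>.1 h4)
    exact fun a => Finite.surjective_of_injective hinj a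
  rw [disc_cast, b2_cast, b4_cast, b6_cast, b8_cast] at hΔ
  by_cases h1 : (W.a₁ : F) = 0
  · rw [h1] at hΔ
    have h3 := pow_eq_zero_iff (by norm_num) |>.1 (two_id0 h2 hΔ)
    obtain ⟨x, hx⟩ := hsq W.a₄
    obtain ⟨y, hy⟩ := hsq (x ^ 3 + W.a₂ * x ^ 2 + W.a₄ * x + W.a₆)
    refine ⟨x, y, ?_, ?_, ?_⟩
    · rw [h1, h3, hy]; ring
    · rw [h1]
      linear_combination (-3 * hx) - (W.a₂ * x + 2 * W.a₄ : F) * h2
    · rw [h1, h3]
      linear_combination y * h2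
  · have hid := two_id h2 hΔ
    refine ⟨W.a₃ / W.a₁, (W.a₃ ^ 2 + W.a₄ * W.a₁ ^ 2) / W.a₁ ^ 3, ?_, ?_, ?_⟩
    · field_simp
      linear_combination hid
    · field_simp
      linear_combination (-(W.a₃ : F) ^ 2 - W.a₂ * W.a₃ * W.a₁) * h2
    · field_simp
      linear_combination ((W.a₃ : F) ^ 2 + W.a₄ * W.a₁ ^ 2 + W.a₃ * W.a₁ ^ 3) * h2

/-- a double root gives a singular point -/
theorem sing_of_dbl (h2 : (2 : F) ≠ 0) {e e' : F}
    (h : (W.a₁ : F) ^ 2 + 4 * W.a₂ = -4 * (e + e + e'))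
    (h' : 2 * (2 * (W.a₄ : F) + W.a₁ * W.a₃) = 4 * (e * e + e * e' + e * e'))
    (h'' : (W.a₃ : F) ^ 2 + 4 * W.a₆ = -4 * (e * e * e')) : ∃ x y : F, Sg W x y := by
  have h4 : (4 : F) ≠ 0 := by
    have : (4 : F) = 2 * 2 := by norm_num
    rw [this]; exact mul_ne_zero h2 h2
  have hy : 2 * (-(W.a₁ * e + W.a₃) / 2 : F) = -(W.a₁ * e + W.a₃) := by field_simp
  set y : F := -(W.a₁ * e + W.a₃) / 2 with hyd
  refine ⟨e, y, ?_, ?_, ?_⟩
  · apply mul_left_cancel₀ h4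
    linear_combination (2 * y + W.a₁ * e + W.a₃) * hy - e ^ 2 * h - e * h' - h''
  · apply (mul_eq_zero.1 (?_ : (4 : F) * _ = 0)).resolve_left h4
    linear_combination 2 * W.a₁ * hy - 2 * e * h - h'
  · linear_combination hy

theorem sing_ex_closed [IsAlgClosed F] (h2 : (2 : F) ≠ 0) (hΔ : (W.Δ : F) = 0) :
    ∃ x y : F, Sg W x y := by
  obtain ⟨e1, e2, e3, hb2, hb4, hb6⟩ := exists_roots (W := W) (Ω := F) h2
  have h4 : (4 : F) ≠ 0 := by
    have : (4 : F) = 2 * 2 := by norm_num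
    rw [this]; exact mul_ne_zero h2 h2
  have hb4' : 2 * (W.a₄ : F) + W.a₁ * W.a₃ = 2 * (e1 * e2 + e1 * e3 + e2 * e3) := by
    apply mul_left_cancel₀ h2
    linear_combination hb4
  have h64 : (64 : F) ≠ 0 := by
    have : (64 : F) = 4 * (4 * 4) := by norm_num
    rw [this]; exact mul_ne_zero h4 (mul_ne_zero h4 h4)
  have hd : ((e1 - e2) * (e1 - e3) * (e2 - e3)) ^ 2 = 0 := by
    have h8 : 4 * (W.b₈ : F) = W.b₂ * W.b₆ - W.b₄ ^ 2 := by
      have := W.b_relation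
      have h9 := congrArg (fun n : ℤ => (n : F)) this
      push_cast at h9
      exact h9
    have h5 : 4 * (W.Δ : F) = -(W.b₂ : F) ^ 2 * (W.b₂ * W.b₆ - W.b₄ ^ 2) - 32 * (W.b₄ : F) ^ 3 -
        108 * (W.b₆ : F) ^ 2 + 36 * W.b₂ * W.b₄ * W.b₆ := by
      rw [disc_cast, ← h8]; ring
    rw [hΔ, b2_cast, b4_cast, b6_cast, hb2, hb4', hb6] at h5
    apply (mul_eq_zero.1 (?_ : (64 : F) * _ = 0)).resolve_left h64
    linear_combination -h5
  have hd' := pow_eq_zero_iff two_ne_zero |>.1 hd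
  rcases mul_eq_zero.1 hd' with h | h
  · rcases mul_eq_zero.1 h with h | h
    · have e : e2 = e1 := (sub_eq_zero.1 h).symm
      subst e
      exact sing_of_dbl h2 (e := e2) (e' := e3) hb2 hb4 hb6
    · have e : e3 = e1 := (sub_eq_zero.1 h).symm
      subst e
      refine sing_of_dbl h2 (e := e3) (e' := e2) ?_ ?_ ?_
      · rw [hb2]; ring
      · rw [hb4]; ring
      · rw [hb6]; ring
  · have e : e3 = e2 := (sub_eq_zero.1 h).symm
    subst e
    refine sing_of_dbl h2 (e := e3) (e' := e1) ?_ ?_ ?_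
    · rw [hb2]; ring
    · rw [hb4]; ring
    · rw [hb6]; ring

/-- existence of the singular point over a finite field -/
theorem sing_ex [Finite F] (hΔ : (W.Δ : F) = 0) : ∃ x y : F, Sg W x y := by
  by_cases h2 : (2 : F) = 0
  · exact sing_ex_two h2 hΔ
  haveI := Fintype.ofFinite F
  let K := AlgebraicClosure F
  let ι : F →+* K := algebraMap F K
  have h2' : (2 : K) ≠ 0 := by
    have : (2 : K) = ι 2 := (map_ofNat ι 2).symm
    rw [this]
    exact (map_ne_zero ι).2 h2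
  have hΔ' : (W.Δ : K) = 0 := by
    rw [← map_intCast ι, hΔ, map_zero]
  obtain ⟨x, y, hs⟩ := sing_ex_closed (F := K) h2' hΔ'
  obtain ⟨p, hp⟩ := CharP.exists F
  haveI := hp
  obtain ⟨n, hpp, hn⟩ := FiniteField.card F p
  haveI : Fact p.Prime := ⟨hpp⟩
  haveI : CharP K p := charP_of_injective_algebraMap ι.injective p
  haveI : ExpChar K p := ExpChar.prime hpp
  have hs' := hs.map (iterateFrobenius K p n)
  obtain ⟨e1, e2⟩ := hs'.uniq hs
  rw [iterateFrobenius_def, ← hn] at e1 e2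
  have hin : ∀ z : K, z ^ Fintype.card F = z → ∃ a : F, ι a = z := by
    intro z hz
    have hm : (X ^ Fintype.card F - X : F[X]).Monic :=
      monic_X_pow_sub (by rw [degree_X]; exact_mod_cast Fintype.one_lt_card)
    have h10 := Polynomial.prod_multiset_X_sub_C_of_monic_of_roots_card_eq hm (by
      rw [FiniteField.roots_X_pow_card_sub_X,
        FiniteField.X_pow_card_sub_X_natDegree_eq _ Fintype.one_lt_card]
      rfl)
    rw [FiniteField.roots_X_pow_card_sub_X] at h10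
    have h8 : (X ^ Fintype.card F - X : F[X]) = ∏ a : F, (X - C a) := h10.symm
    have h9 := congrArg (fun f => Polynomial.eval₂ ι z f) h8
    simp only [eval₂_sub, eval₂_pow, eval₂_X, Polynomial.eval₂_finset_prod, eval₂_C] at h9
    rw [hz, sub_self] at h9
    obtain ⟨a, -, ha⟩ := Finset.prod_eq_zero_iff.1 h9.symm
    exact ⟨a, (sub_eq_zero.1 ha).symm⟩
  obtain ⟨a, ha⟩ := hin x e1
  obtain ⟨b, hb⟩ := hin y e2
  refine ⟨a, b, ?_, ?_, ?_⟩
  · apply ι.injective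
    simp only [map_add, map_mul, map_pow, map_intCast, ha, hb]
    exact hs.eq
  · apply ι.injective
    simp only [map_add, map_sub, map_mul, map_pow, map_intCast, map_ofNat, map_zero, ha, hb]
    exact hs.dx
  · apply ι.injective
    simp only [map_add, map_sub, map_mul, map_pow, map_intCast, map_ofNat, map_zero, ha, hb]
    exact hs.dy

theorem no_sing (hΔ : (W.Δ : F) ≠ 0) {x y : F} : ¬ Sg W x y := by
  intro h
  have hΔ' : (bs W F).Δ ≠ 0 := by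
    rw [WeierstrassCurve.map_Δ]
    simpa using hΔ
  have h1 : (bs W F).toAffine.Equation x y := by
    rw [Affine.equation_iff, a1, a2, a3, a4, a6]; exact h.eq
  have h2 := (WeierstrassCurve.Affine.equation_iff_nonsingular_of_Δ_ne_zero hΔ').1 h1
  rcases (nonsing_iff.1 h2).2 with h3 | h3
  · exact h3 (sub_eq_zero.1 h.dx)
  · exact h3 h.dy

theorem ns_iff {x y : F} : (bs W F).toAffine.Nonsingular x y ↔
    (bs W F).toAffine.Equation x y ∧ ¬ Sg W x y := by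
  rw [nonsing_iff]
  refine and_congr_right fun h => ?_
  constructor
  · rintro h1 ⟨h2, h3, h4⟩
    rcases h1 with h1 | h1
    · exact h1 (sub_eq_zero.1 h3)
    · exact h1 h4
  · intro h1
    by_contra hcon
    push Not at hcon
    exact h1 ⟨eqn h, sub_eq_zero.2 hcon.1, hcon.2⟩

end sing

end Pool.Agent.K4H53.BSD
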