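import Mathlib
import Pool.Agent.K4H53.BSD.Sing

/-!
# The number of points over quadratic extensions of finite fields
-/

set_option autoImplicit false
set_option linter.all false

open WeierstrassCurve WeierstrassCurve.Affine Polynomial
open scoped NNReal Classical

namespace Pool.Agent.K4H53.BSD

attribute [-instance] Subtype.instDecidableEq

/-- the number of the solutions -/
noncomputable def pt (W : WeierstrassCurve ℤ) (R : Type) [CommRing R] : ℕ :=
  Nat.card {P : R × R // (bs W R).toAffine.Equation P.1 P.2}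

section pts

variable {k' : Type} [Field k'] [Finite k'] {τ : k' →+* k'} {W : WeierstrassCurve ℤ}

/-- points and solutions -/
theorem card_pt [Fintype k'] (p : k' × k' → Prop) (hp : ∀ x y, Sg W x y → p (x, y)) :
    Nat.card {P : (bs W k').toAffine.Point // ∀ x y h, P = Point.some x y h → p (x, y)} +
      (if (W.Δ : k') = 0 then 1 else 0) =
    (Finset.univ.filter (fun z : k' × k' => (bs W k').toAffine.Equation z.1 z.2 ∧ p z)).card + 1 := by
  have e : {P : (bs W k').toAffine.Point // ∀ x y h, P = Point.some x y h → p (x, y)} ≃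
      Option {z : k' × k' // ((bs W k').toAffine.Equation z.1 z.2 ∧ p z) ∧ ¬ Sg W z.1 z.2} :=
    { toFun := fun P => match P with
        | ⟨.zero, _⟩ => none
        | ⟨.some x y h, h'⟩ => some ⟨(x, y), ⟨h.1, h' x y h rfl⟩, (ns_iff.1 h).2⟩
      invFun := fun z => match z with
        | none => ⟨.zero, fun x y h he => absurd he.symm (Point.some_ne_zero _)⟩
        | some ⟨(x, y), h1, h2⟩ => ⟨.some x y (ns_iff.2 ⟨h1.1, h2⟩), fun x' y' h' he => by
            obtain ⟨e1, e2⟩ := Point.some.inj he
            rw [← e1, ← e2]; exact h1.2⟩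
      left_inv := by
        rintro ⟨_ | ⟨x, y, h⟩, h'⟩
        · rfl
        · rfl
      right_inv := by
        rintro (_ | ⟨⟨x, y⟩, h1, h2⟩)
        · rfl
        · rfl }
  have h1 : Nat.card {P : (bs W k').toAffine.Point // ∀ x y h, P = Point.some x y h → p (x, y)} =
      ((Finset.univ.filter (fun z : k' × k' =>
        (bs W k').toAffine.Equation z.1 z.2 ∧ p z)).filter (fun z => ¬ Sg W z.1 z.2)).card + 1 := by
    rw [Nat.card_congr e, Nat.card_eq_fintype_card, Fintype.card_option, Fintype.card_subtype,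
      Finset.filter_filter]
  rw [h1]
  have h2 := Finset.card_filter_add_card_filter_not (s := (Finset.univ.filter (fun z : k' × k' =>
        (bs W k').toAffine.Equation z.1 z.2 ∧ p z))) (fun z => Sg W z.1 z.2)
  have h3 : ((Finset.univ.filter (fun z : k' × k' =>
        (bs W k').toAffine.Equation z.1 z.2 ∧ p z)).filter (fun z => Sg W z.1 z.2)).card =
      if (W.Δ : k') = 0 then 1 else 0 := by
    split_ifs with hΔ
    · obtain ⟨x, y, hs⟩ := sing_ex (F := k') hΔ
      rw [Finset.card_eq_one]
      refine ⟨(x, y), ?_⟩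
      ext ⟨x', y'⟩
      rw [Finset.mem_filter, Finset.mem_filter, Finset.mem_singleton, Prod.mk.injEq]
      constructor
      · rintro ⟨-, h⟩
        exact h.uniq hs
      · rintro ⟨rfl, rfl⟩
        refine ⟨⟨Finset.mem_univ _, ?_, hp _ _ hs⟩, hs⟩
        rw [Affine.equation_iff, a1, a2, a3, a4, a6]; exact hs.eq
    · rw [Finset.card_eq_zero, Finset.eq_empty_iff_forall_notMem]
      intro z hz
      exact no_sing hΔ (Finset.mem_filter.1 hz).2
  omega

/-- the two kinds of points over a rational coordinate -/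
theorem card_two [Fintype k'] (hτ : ∀ x, τ (τ x) = x) (hne : ∃ x, τ x ≠ x) :
    (Finset.univ.filter (fun z : k' × k' => (bs W k').toAffine.Equation z.1 z.2 ∧
      (τ z.1 = z.1 ∧ τ z.2 = z.2))).card +
    (Finset.univ.filter (fun z : k' × k' => (bs W k').toAffine.Equation z.1 z.2 ∧
      (τ z.1 = z.1 ∧ τ z.2 = -z.2 - W.a₁ * z.1 - W.a₃))).card = 2 * Nat.card (fixF τ) := by
  have hq : Nat.card (fixF τ) = (Finset.univ.filter (fun x : k' => τ x = x)).card := by
    rw [← Fintype.card_subtype, ← Nat.card_eq_fintype_card]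
    rfl
  rw [hq, Finset.card_filter, Finset.card_filter, Fintype.sum_prod_type, Fintype.sum_prod_type,
    Finset.card_filter, Finset.mul_sum, ← Finset.sum_add_distrib]
  refine Finset.sum_congr rfl fun x _ => ?_
  by_cases hx : τ x = x
  swap
  · rw [if_neg hx, mul_zero]
    have e1 : ∀ y : k', ¬ ((bs W k').toAffine.Equation (x, y).1 (x, y).2 ∧
      (τ (x, y).1 = (x, y).1 ∧ τ (x, y).2 = (x, y).2)) := fun y h => hx h.2.1
    have e2 : ∀ y : k', ¬ ((bs W k').toAffine.Equation (x, y).1 (x, y).2 ∧
      (τ (x, y).1 = (x, y).1 ∧ τ (x, y).2 = -(x, y).2 - W.a₁ * (x, y).1 - W.a₃)) :=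
      fun y h => hx h.2.1
    simp only [if_neg (e1 _), if_neg (e2 _), Finset.sum_const_zero, add_zero]
  rw [if_pos hx, mul_one]
  obtain ⟨y0, hy0⟩ := root_quad hτ hne (A := W.a₁ * x + W.a₃)
    (B := -(x ^ 3 + W.a₂ * x ^ 2 + W.a₄ * x + W.a₆))
    (by rw [map_add, map_mul, map_intCast, map_intCast, hx])
    (by simp only [map_neg, map_add, map_mul, map_pow, map_intCast, hx])
  have hroot : ∀ y : k', (bs W k').toAffine.Equation x y ↔ y = y0 ∨ y = -y0 - W.a₁ * x - W.a₃ := by
    intro y
    rw [Affine.equation_iff, a1, a2, a3, a4, a6]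
    constructor
    · intro h
      have h1 : (y - y0) * (y - (-y0 - W.a₁ * x - W.a₃)) = 0 := by
        linear_combination h - hy0
      rcases mul_eq_zero.1 h1 with h2 | h2
      · exact Or.inl (sub_eq_zero.1 h2)
      · exact Or.inr (sub_eq_zero.1 h2)
    · rintro (rfl | rfl)
      · linear_combination hy0
      · linear_combination hy0
  have hτroot : τ y0 = y0 ∨ τ y0 = -y0 - W.a₁ * x - W.a₃ := by
    rw [← hroot, Affine.equation_iff, a1, a2, a3, a4, a6]
    have := congrArg τ hy0
    simp only [map_neg, map_add, map_mul, map_pow, map_intCast, hx, map_zero] at this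
    linear_combination this
  rw [← Finset.card_filter, ← Finset.card_filter]
  set y1 : k' := -y0 - W.a₁ * x - W.a₃ with hy1
  have hy10 : -y1 - W.a₁ * x - W.a₃ = y0 := by rw [hy1]; ring
  have hτy1 : τ y1 = -τ y0 - W.a₁ * x - W.a₃ := by
    rw [hy1, map_sub, map_sub, map_neg, map_mul, map_intCast, map_intCast, hx]
  simp only [hroot, hx, true_and]
  by_cases h0 : τ y0 = y0
  · have hτ1 : τ y1 = y1 := by rw [hτy1, h0]
    have s1 : Finset.univ.filter (fun y : k' => (y = y0 ∨ y = y1) ∧ τ y = y) = {y0, y1} := by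
      ext y
      rw [Finset.mem_filter, Finset.mem_insert, Finset.mem_singleton]
      constructor
      · rintro ⟨-, h, -⟩; exact h
      · rintro (rfl | rfl)
        · exact ⟨Finset.mem_univ _, Or.inl rfl, h0⟩
        · exact ⟨Finset.mem_univ _, Or.inr rfl, hτ1⟩
    rw [s1]
    by_cases h01 : y0 = y1
    · have s2 : Finset.univ.filter (fun y : k' => (y = y0 ∨ y = y1) ∧
          τ y = -y - W.a₁ * x - W.a₃) = {y0} := by
        ext y
        rw [Finset.mem_filter, Finset.mem_singleton]
        constructor
        · rintro ⟨-, h | h, -⟩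
          · exact h
          · rw [h, ← h01]
        · rintro rfl
          refine ⟨Finset.mem_univ _, Or.inl rfl, ?_⟩
          rw [h0]; exact h01
      rw [s2, ← h01, Finset.pair_eq_singleton, Finset.card_singleton]
    · have s2 : Finset.univ.filter (fun y : k' => (y = y0 ∨ y = y1) ∧
          τ y = -y - W.a₁ * x - W.a₃) = ∅ := by
        rw [Finset.eq_empty_iff_forall_notMem]
        intro y hy
        obtain ⟨-, h | h, h'⟩ := Finset.mem_filter.1 hy
        · rw [h, h0] at h'
          exact h01 h'
        · rw [h, hτ1, hy10] at h'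
          exact h01 h'.symm
      rw [s2, Finset.card_pair h01, Finset.card_empty]
  · have h1 : τ y0 = y1 := hτroot.resolve_left h0
    have h01 : y0 ≠ y1 := fun h => h0 (h1.trans h.symm)
    have hτ1 : τ y1 = y0 := by rw [hτy1, h1, hy10]
    have s1 : Finset.univ.filter (fun y : k' => (y = y0 ∨ y = y1) ∧ τ y = y) = ∅ := by
      rw [Finset.eq_empty_iff_forall_notMem]
      intro y hy
      obtain ⟨-, h | h, h'⟩ := Finset.mem_filter.1 hy
      · rw [h] at h'; exact h0 h'
      · rw [h, hτ1] at h'; exact h01 h'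
    have s2 : Finset.univ.filter (fun y : k' => (y = y0 ∨ y = y1) ∧
          τ y = -y - W.a₁ * x - W.a₃) = {y0, y1} := by
      ext y
      rw [Finset.mem_filter, Finset.mem_insert, Finset.mem_singleton]
      constructor
      · rintro ⟨-, h, -⟩; exact h
      · rintro (rfl | rfl)
        · exact ⟨Finset.mem_univ _, Or.inl rfl, h1⟩
        · exact ⟨Finset.mem_univ _, Or.inr rfl, by rw [hτ1, hy10]⟩
    rw [s1, s2, Finset.card_pair h01, Finset.card_empty]

theorem pt_ring (W : WeierstrassCurve ℤ) (R : Type) [CommRing R] :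
    pt W R = Nat.card {x : R × R // x.2 ^ 2 + (W.a₁ : R) * x.1 * x.2 + (W.a₃ : R) * x.2 =
      x.1 ^ 3 + (W.a₂ : R) * x.1 ^ 2 + (W.a₄ : R) * x.1 + (W.a₆ : R)} := by
  unfold pt
  refine Nat.card_congr (Equiv.subtypeEquivRight fun x => ?_)
  rw [WeierstrassCurve.Affine.equation_iff]
  simp only [WeierstrassCurve.map, eq_intCast]

/-- The number of points over a quadratic extension. -/
theorem pts_quad (hτ : ∀ x, τ (τ x) = x) (hne : ∃ x, τ x ≠ x) (q ε : ℤ)
    (hq : q = Nat.card (fixF τ)) (hε : ε = if (W.Δ : k') = 0 then 0 else 1) :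
    (pt W k' : ℤ) + ε = (pt W (fixF τ) + ε) * (2 * q - pt W (fixF τ) + ε) := by
  haveI := Fintype.ofFinite k'
  -- the three counts
  have c1 := card_pt (W := W) (k' := k') (fun _ => True) (fun _ _ _ => trivial)
  have c2 := card_pt (W := W) (k' := k') (fun z => τ z.1 = z.1 ∧ τ z.2 = z.2) (fun x y hs => by
    exact (hs.map τ).uniq hs)
  have c3 := card_pt (W := W) (k' := k')
    (fun z => τ z.1 = z.1 ∧ τ z.2 = -z.2 - W.a₁ * z.1 - W.a₃) (fun x y hs => by
    obtain ⟨e1, e2⟩ := (hs.map τ).uniq hs
    refine ⟨e1, ?_⟩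
    show τ y = -y - W.a₁ * x - W.a₃
    rw [e2]
    linear_combination hs.dy)
  have c4 := card_two (W := W) hτ hne
  -- the norm
  haveI : Finite (bs W k').toAffine.Point := by
    have : Function.Injective (fun P : (bs W k').toAffine.Point =>
        (match P with
          | .zero => (none : Option (k' × k'))
          | .some x y _ => some (x, y))) := by
      intro P Q h
      rcases P with _ | ⟨x, y, h1⟩ <;> rcases Q with _ | ⟨x', y', h2⟩
      · rfl
      · simp at h
      · simp at h
      · simp only [Option.some.injEq, Prod.mk.injEq] at h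
        obtain ⟨rfl, rfl⟩ := h
        rfl
    exact Finite.of_injective _ this
  have hinv : ∀ P : (bs W k').toAffine.Point, am W τ (am W τ P) = P := by
    intro P
    rw [am_comp]
    have : τ.comp τ = RingHom.id k' := RingHom.ext hτ
    rw [this, am_id]
  let T := am W τ
  let N : (bs W k').toAffine.Point →+ (bs W k').toAffine.Point := AddMonoidHom.id _ + T
  have hN : ∀ P, N P = P + T P := fun P => rfl
  have h1 : ∀ R, R ∈ N.range ↔ T R = R := by
    intro R
    rw [AddMonoidHom.mem_range]
    constructor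
    · rintro ⟨P, rfl⟩
      rw [hN, map_add]
      show T P + am W τ (am W τ P) = _
      rw [hinv, add_comm]
    · intro h
      obtain ⟨P, hP⟩ := norm_surj hτ hne R h
      exact ⟨P, hP⟩
  have d1 : Nat.card (bs W k').toAffine.Point = Nat.card N.range * Nat.card N.ker := by
    rw [AddSubgroup.card_eq_card_quotient_mul_card_addSubgroup N.ker,
      Nat.card_congr (QuotientAddGroup.quotientKerEquivRange N).toEquiv]
  have d2 : Nat.card (bs W k').toAffine.Point =
      Nat.card {P : (bs W k').toAffine.Point // ∀ x y h, P = Point.some x y h → True} := by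
    refine Nat.card_congr (Equiv.subtypeUnivEquiv (fun P => ?_)).symm
    intro x y h _
    trivial
  have d3 : Nat.card N.range = Nat.card {P : (bs W k').toAffine.Point //
      ∀ x y h, P = Point.some x y h → (τ (x, y).1 = (x, y).1 ∧ τ (x, y).2 = (x, y).2)} := by
    refine Nat.card_congr (Equiv.subtypeEquivRight fun P => ?_)
    rw [h1]
    constructor
    · rintro hP x y h rfl
      have hP' : am W τ (Point.some x y h) = Point.some x y h := hP
      rw [am_some] at hP'
      exact Point.some.inj hP'
    · intro hP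
      rcases P with _ | ⟨x, y, h⟩
      · rfl
      · obtain ⟨e1, e2⟩ := hP x y h rfl
        show am W τ (Point.some x y h) = _
        rw [am_some]
        congr 1
  have d4 : Nat.card N.ker = Nat.card {P : (bs W k').toAffine.Point //
      ∀ x y h, P = Point.some x y h → (τ (x, y).1 = (x, y).1 ∧
        τ (x, y).2 = -(x, y).2 - W.a₁ * (x, y).1 - W.a₃)} := by
    refine Nat.card_congr (Equiv.subtypeEquivRight fun P => ?_)
    rw [AddMonoidHom.mem_ker, hN, add_comm, add_eq_zero_iff_eq_neg]
    constructor
    · rintro hP x y h rfl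
      have hP' : am W τ (Point.some x y h) = -Point.some x y h := hP
      rw [am_some, Point.neg_some] at hP'
      obtain ⟨e1, e2⟩ := Point.some.inj hP'
      rw [negY_eq] at e2
      exact ⟨e1, e2⟩
    · intro hP
      rcases P with _ | ⟨x, y, h⟩
      · rfl
      · obtain ⟨e1, e2⟩ := hP x y h rfl
        show am W τ (Point.some x y h) = _
        rw [am_some, Point.neg_some]
        have e3 : τ y = (bs W k').toAffine.negY x y := by rw [negY_eq]; exact e2
        congr 1
  -- solutions
  have p1 : pt W k' = (Finset.univ.filter (fun z : k' × k' =>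
      (bs W k').toAffine.Equation z.1 z.2 ∧ True)).card := by
    unfold pt
    rw [Nat.card_eq_fintype_card, Fintype.card_subtype]
    simp only [and_true]
  have p2 : pt W (fixF τ) = (Finset.univ.filter (fun z : k' × k' =>
      (bs W k').toAffine.Equation z.1 z.2 ∧ (τ z.1 = z.1 ∧ τ z.2 = z.2))).card := by
    rw [pt_ring, ← Fintype.card_subtype, ← Nat.card_eq_fintype_card]
    refine Nat.card_congr
      { toFun := fun z => ⟨(z.1.1, z.1.2), ?_, z.1.1.2, z.1.2.2⟩
        invFun := fun z => ⟨(⟨z.1.1, z.2.2.1⟩, ⟨z.1.2, z.2.2.2⟩), ?_⟩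
        left_inv := fun z => rfl
        right_inv := fun z => rfl }
    · have := congrArg Subtype.val z.2
      push_cast at this
      rw [Affine.equation_iff, a1, a2, a3, a4, a6]
      exact this
    · have := z.2.1
      rw [Affine.equation_iff, a1, a2, a3, a4, a6] at this
      apply Subtype.ext
      push_cast
      exact this
  replace c1 : Nat.card {P : (bs W k').toAffine.Point // ∀ x y h, P = Point.some x y h → True} +
      (if (W.Δ : k') = 0 then 1 else 0) = pt W k' + 1 := by
    rw [p1]; convert c1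
  replace c2 : Nat.card {P : (bs W k').toAffine.Point //
      ∀ x y h, P = Point.some x y h → (τ (x, y).1 = (x, y).1 ∧ τ (x, y).2 = (x, y).2)} +
      (if (W.Δ : k') = 0 then 1 else 0) = pt W (fixF τ) + 1 := by
    rw [p2]; convert c2
  rw [← p2] at c4
  rw [d2, d3, d4] at d1
  set X := Nat.card {P : (bs W k').toAffine.Point // ∀ x y h, P = Point.some x y h → True}
  set A := Nat.card {P : (bs W k').toAffine.Point //
      ∀ x y h, P = Point.some x y h → (τ (x, y).1 = (x, y).1 ∧ τ (x, y).2 = (x, y).2)}
  set B := Nat.card {P : (bs W k').toAffine.Point //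
      ∀ x y h, P = Point.some x y h → (τ (x, y).1 = (x, y).1 ∧
        τ (x, y).2 = -(x, y).2 - W.a₁ * (x, y).1 - W.a₃)}
  set M := (Finset.univ.filter (fun z : k' × k' => (bs W k').toAffine.Equation z.1 z.2 ∧
      (τ z.1 = z.1 ∧ τ z.2 = -z.2 - W.a₁ * z.1 - W.a₃))).card
  have f1 : (X : ℤ) = pt W k' + ε := by
    rw [hε]
    split_ifs at c1 ⊢ with hΔ
    · push_cast [← Nat.cast_inj (R := ℤ)] at c1; linarith
    · push_cast [← Nat.cast_inj (R := ℤ)] at c1; linarith
  have f2 : (A : ℤ) = pt W (fixF τ) + ε := by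
    rw [hε]
    split_ifs at c2 ⊢ with hΔ
    · push_cast [← Nat.cast_inj (R := ℤ)] at c2; linarith
    · push_cast [← Nat.cast_inj (R := ℤ)] at c2; linarith
  have f3 : (B : ℤ) = M + ε := by
    have c3' : B + (if (W.Δ : k') = 0 then 1 else 0) = M + 1 := by
      convert c3
    rw [hε]
    split_ifs at c3' ⊢ with hΔ
    · push_cast [← Nat.cast_inj (R := ℤ)] at c3'; linarith
    · push_cast [← Nat.cast_inj (R := ℤ)] at c3'; linarith
  have f4 : (pt W (fixF τ) : ℤ) + M = 2 * q := by
    rw [hq]; exact_mod_cast c4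
  have f5 : (X : ℤ) = A * B := by exact_mod_cast d1
  rw [← f1, f5, f2, f3]
  congr 1
  linarith

end pts

end Pool.Agent.K4H53.BSD
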