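import Pool.Agent.K4H53.BSD.Loc
import Pool.Agent.Y355.G.Desc
import Pool.Agent.Y852.GS.Spl

/-!
# Unramified places: the component groups and local triviality
-/

set_option autoImplicit false
set_option linter.all false

open NumberField IsDedekindDomain WithZero WeierstrassCurve WeierstrassCurve.Affine
open scoped NNReal Classical

namespace Pool.Agent.K4H53.BSD

open Pool.Agent.Y852.GS (vv near small_zero act_comp)
open Pool.Agent.Y304.CT (V)
open Pool.Agent.TH115.GD (Pt act rs ak IsCoc LocTriv)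
open Pool.Agent.Y702.G (sh base E0)

section comp

variable {K : Type} [Field K] [NumberField K] {p : HeightOneSpectrum (𝓞 ℚ)} {W : WeierstrassCurve ℤ}

/-- the two descriptions of the points with nonsingular reduction -/
theorem mem_E0_iff {u : HeightOneSpectrum (𝓞 K)} {κ : u.adicCompletion K →+* Om p}
    (hκ : Bd u (V p) κ) (P : (bs W (u.adicCompletion K)).toAffine.Point) :
    P ∈ E0 W (u.adicCompletion K) Valued.v ↔ In0 (V p) (am W κ P) := by
  have key : ∀ P : (bs W (u.adicCompletion K)).toAffine.Point,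
      (∀ x y h, P = Point.some x y h → 1 < (Valued.v x : ZM) ∨
        (Valued.v ((W.a₁ : u.adicCompletion K) * y - (3 * x ^ 2 + 2 * W.a₂ * x + W.a₄)) : ZM) = 1 ∨
        (Valued.v (2 * y + W.a₁ * x + W.a₃) : ZM) = 1) ↔ In0 (V p) (am W κ P) := by
    intro P
    rcases P with _ | ⟨x, y, h⟩
    · exact ⟨fun _ => In0.zero, fun _ x y h he => absurd he.symm (Point.some_ne_zero _)⟩
    have e1 : κ ((W.a₁ : u.adicCompletion K) * y - (3 * x ^ 2 + 2 * W.a₂ * x + W.a₄)) =
        (W.a₁ : Om p) * κ y - (3 * κ x ^ 2 + 2 * W.a₂ * κ x + W.a₄) := by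
      simp only [map_sub, map_add, map_mul, map_pow, map_intCast, map_ofNat]
    have e2 : κ (2 * y + W.a₁ * x + W.a₃) = 2 * κ y + W.a₁ * κ x + W.a₃ := by
      simp only [map_sub, map_add, map_mul, map_pow, map_intCast, map_ofNat]
    constructor
    · intro hP x' y' h' he
      rw [am_some] at he
      obtain ⟨f1, f2⟩ := Point.some.inj he
      subst f1
      subst f2
      rw [hκ.gt_iff, ← e1, ← e2, hκ.eq_iff, hκ.eq_iff]
      exact hP x y h rfl
    · intro hP x' y' h' he
      obtain ⟨f1, f2⟩ := Point.some.inj he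
      subst f1
      subst f2
      have := hP _ _ _ (am_some κ h)
      rwa [hκ.gt_iff, ← e1, ← e2, hκ.eq_iff, hκ.eq_iff] at this
  constructor
  · intro hP
    have hle : E0 W (u.adicCompletion K) Valued.v ≤ (G0 W (V p)).comap (am W κ) := by
      unfold E0
      rw [AddSubgroup.closure_le]
      intro Q hQ
      exact (key Q).1 hQ
    exact hle hP
  · intro hP
    exact AddSubgroup.subset_closure ((key P).2 hP)

theorem E0_eq {u : HeightOneSpectrum (𝓞 K)} {κ : u.adicCompletion K →+* Om p}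
    (hκ : Bd u (V p) κ) :
    E0 W (u.adicCompletion K) Valued.v = (G0 W (V p)).comap (am W κ) :=
  AddSubgroup.ext fun P => mem_E0_iff hκ P

theorem val_alg (hp : Bd p (V p) (algebraMap (p.adicCompletion ℚ) (Om p))) {ϖ : ℚ}
    (hϖ : p.valuation ℚ ϖ = exp (-1 : ℤ)) :
    V p (algebraMap _ (Om p) (algebraMap ℚ (p.adicCompletion ℚ) ϖ)) < 1 ∧
    V p (algebraMap _ (Om p) (algebraMap ℚ (p.adicCompletion ℚ) ϖ)) ≠ 0 := by
  constructor
  · apply hp.lt
    rw [vv, hϖ, ← exp_zero, exp_lt_exp]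
    norm_num
  · rw [Valuation.ne_zero_iff]
    refine (map_ne_zero _).2 ((map_ne_zero _).2 ?_)
    rintro rfl
    rw [map_zero] at hϖ
    exact exp_ne_zero hϖ.symm

theorem two_ne (p : HeightOneSpectrum (𝓞 ℚ)) : V p (2 : Om p) ≠ 0 := by
  rw [Valuation.ne_zero_iff]
  have : (2 : Om p) = algebraMap _ (Om p) (algebraMap ℚ (p.adicCompletion ℚ) 2) := by
    rw [map_ofNat, map_ofNat]
  rw [this]
  exact (map_ne_zero _).2 ((map_ne_zero _).2 two_ne_zero)

theorem int_ne {n : ℤ} (hn : n ≠ 0) : ((n : ℤ) : Om p) ≠ 0 := by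
  have : ((n : ℤ) : Om p) = algebraMap _ (Om p) (algebraMap ℚ (p.adicCompletion ℚ) n) := by
    rw [map_intCast, map_intCast]
  rw [this]
  exact (map_ne_zero _).2 ((map_ne_zero _).2 (Int.cast_ne_zero.2 hn))

/-- the component group has odd order -/
theorem odd_comp {H : Subgroup (Om p ≃ₐ[p.adicCompletion ℚ] Om p)}
    (hfin : Finite (EH W H ⧸ (G0 W (V p)).addSubgroupOf (EH W H))) (hN : NT2 (V p) W H) :
    Odd ((G0 W (V p)).addSubgroupOf (EH W H)).index := by
  by_contra hcon
  rw [Nat.not_odd_iff_even, even_iff_two_dvd] at hcon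
  have h2 : 2 ∣ Nat.card (EH W H ⧸ (G0 W (V p)).addSubgroupOf (EH W H)) := hcon
  haveI : Fact (Nat.Prime 2) := ⟨Nat.prime_two⟩
  obtain ⟨q, hq⟩ := exists_prime_addOrderOf_dvd_card' 2 h2
  obtain ⟨P, rfl⟩ := QuotientAddGroup.mk_surjective q
  have h3 : QuotientAddGroup.mk (P + P) = (0 : EH W H ⧸ (G0 W (V p)).addSubgroupOf (EH W H)) := by
    have := addOrderOf_nsmul_eq_zero (QuotientAddGroup.mk P : EH W H ⧸ (G0 W (V p)).addSubgroupOf (EH W H))
    rw [hq, two_nsmul] at this
    exact this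
  rw [QuotientAddGroup.eq_zero_iff, AddSubgroup.mem_addSubgroupOf] at h3
  have h4 : In0 (V p) (P : (bs W (Om p)).toAffine.Point) := hN _ P.2 h3
  have h5 : (QuotientAddGroup.mk P : EH W H ⧸ (G0 W (V p)).addSubgroupOf (EH W H)) = 0 := by
    rw [QuotientAddGroup.eq_zero_iff, AddSubgroup.mem_addSubgroupOf]
    exact h4
  rw [h5, addOrderOf_zero] at hq
  omega

/-- points which are fixed by the Galois group -/
theorem pfx_top {P : (bs W (Om p)).toAffine.Point}
    (hP : pfx (⊤ : Subgroup (Om p ≃ₐ[p.adicCompletion ℚ] Om p)) P) :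
    ∃ P0 : (bs W (p.adicCompletion ℚ)).toAffine.Point, am W (algebraMap _ (Om p)) P0 = P := by
  have hx : ∀ x : Om p, fx (⊤ : Subgroup (Om p ≃ₐ[p.adicCompletion ℚ] Om p)) x →
      ∃ c, algebraMap (p.adicCompletion ℚ) (Om p) c = x := by
    intro x hx
    have h1 := (InfiniteGalois.mem_bot_iff_fixed (k := p.adicCompletion ℚ) x).2
      (fun f => hx f trivial)
    exact IntermediateField.mem_bot.1 h1
  rcases P with _ | ⟨x, y, h⟩
  · exact ⟨0, rfl⟩
  · obtain ⟨h1, h2⟩ := pfx_some.1 hP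
    obtain ⟨c, rfl⟩ := hx x h1
    obtain ⟨d, rfl⟩ := hx y h2
    have hns : (bs W (p.adicCompletion ℚ)).toAffine.Nonsingular c d := by
      rw [nonsing_iff] at h ⊢
      obtain ⟨e1, e2⟩ := h
      refine ⟨?_, ?_⟩
      · rw [Affine.equation_iff, a1, a2, a3, a4, a6]
        apply (algebraMap (p.adicCompletion ℚ) (Om p)).injective
        simp only [map_add, map_mul, map_pow, map_intCast]
        exact eqn e1
      · refine e2.imp (fun h3 h4 => h3 ?_) (fun h3 h4 => h3 ?_)
        · have := congrArg (algebraMap (p.adicCompletion ℚ) (Om p)) h4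
          simpa only [map_add, map_mul, map_pow, map_intCast, map_ofNat] using this
        · have := congrArg (algebraMap (p.adicCompletion ℚ) (Om p)) h4
          simpa only [map_add, map_mul, map_pow, map_intCast, map_ofNat, map_zero] using this
    exact ⟨Point.some c d hns, rfl⟩

/-- parity over `ℚ_p` -/
theorem nt2_top (hodd : Odd (E0 W (p.adicCompletion ℚ) Valued.v).index) :
    NT2 (V p) W (⊤ : Subgroup (Om p ≃ₐ[p.adicCompletion ℚ] Om p)) := by
  intro P hP hPP
  obtain ⟨P0, rfl⟩ := pfx_top hP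
  rw [← map_add] at hPP
  have h1 := (mem_E0_iff (bd_alg p) (P0 + P0)).2 hPP
  rw [← mem_E0_iff (bd_alg p)]
  obtain ⟨m, hm⟩ := hodd
  have h2 : (2 * m + 1) • P0 ∈ E0 W (p.adicCompletion ℚ) Valued.v := by
    rw [← hm]
    exact AddSubgroup.nsmul_index_mem _ P0
  have h3 : P0 = (2 * m + 1) • P0 - m • (P0 + P0) := by
    rw [add_nsmul, mul_nsmul', two_nsmul, one_nsmul, nsmul_add]
    abel
  rw [h3]
  exact AddSubgroup.sub_mem _ h2 (AddSubgroup.nsmul_mem _ h1 _)

variable [IsGalois ℚ K] {v : HeightOneSpectrum (𝓞 K)}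

/-- the chain for a Galois extension of degree a power of two -/
theorem main_chain (hW : W.Δ ≠ 0) {n : ℕ} (hn : Module.finrank ℚ K = 2 ^ n)
    (hval : ∀ x : ℚ, v.valuation K (algebraMap ℚ K x) = p.valuation ℚ x)
    {κ : v.adicCompletion K →+* Om p} (hκ : Bd v (V p) κ)
    (hodd : Odd (E0 W (p.adicCompletion ℚ) Valued.v).index) :
    NT2 (V p) W (NK (κ.comp (algebraMap K _))) ∧
    Finite (EH W (NK (κ.comp (algebraMap K _))) ⧸
      (G0 W (V p)).addSubgroupOf (EH W (NK (κ.comp (algebraMap K _))))) ∧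
    ∀ f : (Om p ≃ₐ[p.adicCompletion ℚ] Om p) → (bs W (Om p)).toAffine.Point,
      (∀ σ τ, f (σ * τ) = f σ + am W (σ : Om p →+* Om p) (f τ)) →
      (∃ R, ∀ τ ∈ NK (κ.comp (algebraMap K _)), f τ = am W (τ : Om p →+* Om p) R - R) →
      ∃ R, ∀ τ, f τ = am W (τ : Om p →+* Om p) R - R := by
  obtain ⟨ϖ, hϖ⟩ := p.valuation_exists_uniformizer ℚ
  obtain ⟨h1, h0⟩ := val_alg (bd_alg p) hϖ
  obtain ⟨hnor, m, hm⟩ := NK_index (κ.comp (algebraMap K (v.adicCompletion K))) hn
  have hU := NK_UR hval hκ hϖ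
  obtain ⟨c1, c2⟩ := chain (W := W) (V_inv p) (int_ne hW) (two_ne p) h1 h0 m _ hnor hm hU
    (fun H' hH' σ hσ => NK_closed _ H' hH' σ hσ) (nt2_top hodd)
  exact ⟨c1, fin_comp (int_ne hW) (two_ne p) hU h1 h0, c2⟩

/-- the parity of the component groups -/
theorem comp_parity (hW : W.Δ ≠ 0) {n : ℕ} (hn : Module.finrank ℚ K = 2 ^ n)
    (hval : ∀ x : ℚ, v.valuation K (algebraMap ℚ K x) = p.valuation ℚ x) :
    Odd (E0 W (v.adicCompletion K) Valued.v).index ↔
      Odd (E0 W (p.adicCompletion ℚ) Valued.v).index := by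
  obtain ⟨κ, j, hκ, hκj, hj1, hj2⟩ := pack v p hval
  constructor
  · intro h
    refine h.of_dvd_nat ?_
    have h1 : E0 W (p.adicCompletion ℚ) Valued.v = (E0 W (v.adicCompletion K) Valued.v).comap
        (am W j) := by
      ext P
      rw [AddSubgroup.mem_comap, mem_E0_iff hκ, mem_E0_iff (bd_alg p), am_comp]
      have : κ.comp j = algebraMap (p.adicCompletion ℚ) (Om p) := RingHom.ext hκj
      rw [this]
    rw [h1, AddSubgroup.index_comap]
    exact AddSubgroup.relIndex_dvd_index_of_normal _ _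
  · intro h
    obtain ⟨c1, c2, -⟩ := main_chain hW hn hval hκ h
    have h2 := odd_comp c2 c1
    refine h2.of_dvd_nat ?_
    set N := NK (κ.comp (algebraMap K (v.adicCompletion K))) with hN
    let f : (bs W (v.adicCompletion K)).toAffine.Point →+ EH W N :=
      (am W κ).codRestrict (EH W N) (fun P τ hτ => by
        rw [am_comp]
        have e : (τ : Om p →+* Om p).comp κ = κ := RingHom.ext fun y => NK_fix hκ hτ y
        rw [e])
    have h3 : E0 W (v.adicCompletion K) Valued.v =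
        ((G0 W (V p)).addSubgroupOf (EH W N)).comap f := by
      ext P
      rw [AddSubgroup.mem_comap, AddSubgroup.mem_addSubgroupOf, mem_E0_iff hκ]
      rfl
    rw [h3, AddSubgroup.index_comap]
    exact AddSubgroup.relIndex_dvd_index_of_normal _ _

end comp

end Pool.Agent.K4H53.BSD
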